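import Pool.Agent.H97.XU.CHT
import Pool.Agent.H8.NoPt.Gelf

/-! # [H97 XU FCG] Factors with sizes (Gelfond)

`Pool.Agent.H8.NoPt.gelfond` (one variable): `F * R = G`: `|coeff F| |coeff R| ≤ 2^N (N+1) H`.
`fac_theta`: `p` = the primitive integer polynomial proportional to `minpoly ℚ θ` (clear denominators, `Polynomial.primPart`,
`IsPrimitive.Int.dvd_iff_map_cast_dvd_map_cast`): `p ∣ topz n m F` in `ℤ[Z]` as `minpoly ℚ θ ∣ topq n m F` (`topz_rat`, `topz_real`),
`topz = p * r`, some coefficient of `r` is a non-zero integer, `N = n`: `|coeff p| ≤ 2^n (n+1) B ≤ B^(2n+1)`.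
`fac2` (two variables): `C c * f = g0 * h0` in `ℤ[t][Z]`; `g` = primitive part of `g0` (`Polynomial.primPart`, needs `NormalizedGCDMonoid ℤ[X]`;
or `UniqueFactorizationMonoid`), so `g ∣ f` (Gauss: a primitive polynomial that divides `C c * f` divides `f`:
`IsPrimitive.dvd_..`, `isPrimitive.mul`, `Polynomial.IsPrimitive.dvd_primPart_iff_dvd`), `f = g * h`, the degrees in `Z` are those of `g0` and
`n - natDegree g0`. Sizes: Kronecker substitution `φ : ℤ[t][Z] → ℤ[X]`, `Z ↦ X`, `t ↦ X^(n+1)`: for degree `≤ n` in `Z` the coefficient of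
`X^(b + (n+1) j)` of `φ P` is that of `t^j Z^b`; `φ g * φ h = φ f`, degrees `≤ (n+1)(m+1)`; degrees in `t` of `g, h` are `≤ m`
(`Bivariate.swap` and `natDegree_mul`). `N0 = (n+1)(m+1)`: `2^N0 (N0+1) B ≤ B^(2 N0 + 1)`. -/

namespace Pool.Agent.H97.XU

open Finset Polynomial Pool.Agent.H37.TE Pool.Agent.H98.TE Pool.Agent.H4.TP

/-- Kronecker substitution -/
private noncomputable def kr (n : ℕ) : ℤ[X][X] →+* ℤ[X] :=
  eval₂RingHom (expand ℤ (n + 1)).toRingHom X

private theorem kr_coeff {n : ℕ} {P : ℤ[X][X]} (hP : P.natDegree ≤ n) {b : ℕ} (hb : b ≤ n) (j : ℕ) :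
    (kr n P).coeff (b + (n + 1) * j) = (P.coeff b).coeff j := by
  unfold kr
  rw [coe_eval₂RingHom, eval₂_eq_sum_range' _ (Nat.lt_succ_of_le hP), finsetSum_coeff,
    sum_eq_single b]
  · rw [coeff_mul_X_pow', if_pos (Nat.le_add_right _ _), Nat.add_sub_cancel_left]
    exact coeff_expand_mul' (Nat.succ_pos n) _ _
  · intro c hc hcb
    rw [mem_range] at hc
    rw [coeff_mul_X_pow']
    split_ifs with h
    · change (expand ℤ (n + 1) (P.coeff c)).coeff _ = 0
      rw [coeff_expand (Nat.succ_pos n), if_neg]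
      rintro ⟨k, hk⟩
      apply hcb
      have hk' : b + (n + 1) * j - c = (n + 1) * k := hk
      have h1 : b + (n + 1) * j = c + (n + 1) * k := by
        rw [← hk']
        omega
      have h2 : (b + (n + 1) * j) % (n + 1) = b := by
        rw [Nat.add_mul_mod_self_left, Nat.mod_eq_of_lt (by omega)]
      have h3 : (c + (n + 1) * k) % (n + 1) = c := by
        rw [Nat.add_mul_mod_self_left, Nat.mod_eq_of_lt (by omega)]
      rw [h1, h3] at h2
      exact h2
    · rfl
  · intro h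
    exact absurd (mem_range.2 (by omega)) h

private theorem kr_coeff' {n : ℕ} {P : ℤ[X][X]} (hP : P.natDegree ≤ n) (N : ℕ) :
    (kr n P).coeff N = (P.coeff (N % (n + 1))).coeff (N / (n + 1)) := by
  rw [← kr_coeff hP (Nat.lt_succ_iff.1 (Nat.mod_lt N (Nat.succ_pos n))), Nat.mod_add_div]

private theorem fcg_abs_le {a b c : ℤ} (h : |(a : ℝ)| * |(b : ℝ)| ≤ (c : ℝ)) (hb : b ≠ 0) :
    |a| ≤ c := by
  have h1 : (1 : ℝ) ≤ |(b : ℝ)| := by exact_mod_cast Int.one_le_abs hb
  have h2 : |(a : ℝ)| ≤ |(a : ℝ)| * |(b : ℝ)| := le_mul_of_one_le_right (abs_nonneg _) h1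
  exact_mod_cast h2.trans h

private theorem fcg_num {B N : ℕ} (hB : 2 ≤ B) :
    (2 : ℝ) ^ N * ((N : ℝ) + 1) * (B : ℝ) ≤ (((B : ℤ) ^ (2 * N + 1) : ℤ) : ℝ) := by
  have hB' : (2 : ℝ) ≤ B := by exact_mod_cast hB
  have h1 : (2 : ℝ) ^ N ≤ (B : ℝ) ^ N := pow_le_pow_left₀ (by norm_num) hB' N
  have h2 : (N : ℝ) + 1 ≤ (B : ℝ) ^ N := by
    have : N + 1 ≤ 2 ^ N := Nat.lt_two_pow_self
    have h3 : ((N + 1 : ℕ) : ℝ) ≤ ((2 ^ N : ℕ) : ℝ) := by exact_mod_cast this
    push_cast at h3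
    exact h3.trans h1
  push_cast
  calc (2 : ℝ) ^ N * ((N : ℝ) + 1) * (B : ℝ) ≤ (B : ℝ) ^ N * (B : ℝ) ^ N * (B : ℝ) := by
        gcongr
    _ = (B : ℝ) ^ (2 * N + 1) := by ring

private theorem topz_cf {n m : ℕ} {F : ℤ[X][X][X]} (b : ℕ) :
    (topz n m F).coeff b = if b ≤ n then cf3 F m (n - b) b else 0 := by
  unfold topz
  rw [finsetSum_coeff]
  simp only [coeff_C_mul, coeff_X_pow, mul_ite, mul_one, mul_zero]
  rw [Finset.sum_ite_eq]
  simp only [mem_range]
  split_ifs <;> first | rfl | omega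

theorem fac_theta {n m B : ℕ} {F : ℤ[X][X][X]} (hB : 2 ≤ B) (h : HypG n m F) (hF : CB B F)
    {θ : ℝ} (hθ : (topm n m F).eval θ = 0) : ∃ g : ℤ[X], 1 ≤ g.natDegree ∧ g.natDegree ≤ n ∧
      g.natDegree = (minpoly ℚ θ).natDegree ∧ aeval θ g = 0 ∧
      ∀ i, |g.coeff i| ≤ (B : ℤ) ^ (2 * n + 1) := by
  have hz0 : topz n m F ≠ 0 := by
    intro h0
    have h1 := topz_rat (n := n) (m := m) (F := F)
    rw [h0, Polynomial.map_zero] at h1
    exact h.sq.ne_zero h1.symm
  have hzθ : aeval θ (topz n m F) = 0 := by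
    rw [← topz_real, eval_map] at hθ
    exact hθ
  obtain ⟨g, hg, hgd, hgθ⟩ : ∃ g : ℤ[X], Irreducible g ∧ g ∣ topz n m F ∧ aeval θ g = 0 := by
    have hP : ∀ p : ℤ[X], p ≠ 0 → aeval θ p = 0 →
        ∃ g : ℤ[X], Irreducible g ∧ g ∣ p ∧ aeval θ g = 0 := by
      intro p
      refine WfDvdMonoid.induction_on_irreducible p ?_ ?_ ?_
      · intro h1
        exact absurd rfl h1
      · intro u hu _ hu0
        exfalso
        obtain ⟨v, hv⟩ := hu.exists_right_inv
        have h2 := congrArg (aeval θ) hv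
        rw [map_mul, hu0, zero_mul, map_one] at h2
        exact zero_ne_one h2
      · intro a i ha hi IH hai h2
        rw [map_mul, mul_eq_zero] at h2
        rcases h2 with h2 | h2
        · exact ⟨i, hi, dvd_mul_right _ _, h2⟩
        · obtain ⟨g, h3, h4, h5⟩ := IH ha h2
          exact ⟨g, h3, h4.mul_left _, h5⟩
    exact hP _ hz0 hzθ
  have hg1 : 1 ≤ g.natDegree := by
    by_contra h1
    have h2 : g.natDegree = 0 := by omega
    obtain ⟨c, hc⟩ : ∃ c, g = C c := ⟨_, eq_C_of_natDegree_eq_zero h2⟩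
    rw [hc, aeval_C] at hgθ
    have h3 : c = 0 := by
      have h4 : ((c : ℤ) : ℝ) = 0 := hgθ
      exact_mod_cast h4
    rw [h3, C_0] at hc
    exact hg.ne_zero hc
  have hprim : g.IsPrimitive := hg.isPrimitive (by omega)
  have hgQ : Irreducible (g.map (Int.castRingHom ℚ)) :=
    (IsPrimitive.Int.irreducible_iff_irreducible_map_cast hprim).1 hg
  have hgQθ : aeval θ (g.map (Int.castRingHom ℚ)) = 0 := by
    have h1 : aeval θ (g.map (algebraMap ℤ ℚ)) = aeval θ g := aeval_map_algebraMap ℚ θ g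
    rw [hgθ] at h1
    exact h1
  have hmin := minpoly.eq_of_irreducible hgQ hgQθ
  have hdeg : g.natDegree = (minpoly ℚ θ).natDegree := by
    rw [← hmin, natDegree_mul_C (inv_ne_zero (leadingCoeff_ne_zero.2 hgQ.ne_zero)),
      natDegree_map_eq_of_injective (Int.cast_injective)]
  have hzn : (topz n m F).natDegree ≤ n := by
    rw [natDegree_le_iff_coeff_eq_zero]
    intro b hb
    rw [topz_cf, if_neg (by omega)]
  refine ⟨g, hg1, (natDegree_le_of_dvd hgd hz0).trans hzn, hdeg, hgθ, fun i => ?_⟩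
  obtain ⟨r, hr⟩ := hgd
  have hr0 : r ≠ 0 := by
    rintro rfl
    rw [mul_zero] at hr
    exact hz0 hr
  obtain ⟨j, hj⟩ : ∃ j, r.coeff j ≠ 0 := by
    by_contra h1
    push Not at h1
    exact hr0 (Polynomial.ext fun j => by rw [h1 j, coeff_zero])
  refine fcg_abs_le (b := r.coeff j) ((H8.NoPt.gelfond n g r (by rw [← hr]; exact hz0)
    (by rw [← hr]; exact hzn) B ?_ i j).trans (fcg_num hB)) hj
  intro k
  rw [← hr, topz_cf]
  split_ifs with hk
  · have := hF m (n - k) k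
    exact_mod_cast this
  · simp

/-- `P ∈ ℤ[t][Z]`, degree at most `n` in `Z`, at most `m` in `t`, coefficients at most `B` -/
def B2 (n m B : ℕ) (P : ℤ[X][X]) : Prop :=
  P.natDegree ≤ n ∧ (∀ i, (P.coeff i).natDegree ≤ m) ∧ ∀ i j, |(P.coeff i).coeff j| ≤ (B : ℤ)

/-- a divisor of a polynomial in two variables -/
theorem gelf2 {n m B : ℕ} (hB : 2 ≤ B) {f g h : ℤ[X][X]} (hf : B2 n m B f) (h0 : f ≠ 0)
    (hgh : f = g * h) : B2 n m (B ^ (2 * ((n + 1) * (m + 1)) + 1)) g := by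
  obtain ⟨hf1, hf2, hf3⟩ := hf
  have hg0 : g ≠ 0 := by
    rintro rfl
    rw [zero_mul] at hgh
    exact h0 hgh
  have hh0 : h ≠ 0 := by
    rintro rfl
    rw [mul_zero] at hgh
    exact h0 hgh
  have hdeg : g.natDegree + h.natDegree ≤ n := by
    rw [← natDegree_mul hg0 hh0, ← hgh]
    exact hf1
  have hgt : ∀ i, (g.coeff i).natDegree ≤ m := by
    intro i
    have h1 : (Bivariate.swap f).natDegree ≤ m := by
      rw [natDegree_le_iff_coeff_eq_zero]
      intro k hk
      ext j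
      rw [swap_coeff, coeff_zero]
      exact coeff_eq_zero_of_natDegree_lt (lt_of_le_of_lt (hf2 j) hk)
    have hs0 : ∀ q : ℤ[X][X], q ≠ 0 → (Bivariate.swap q : ℤ[X][X]) ≠ 0 := by
      intro q hq h2
      apply hq
      have h3 := congrArg (Bivariate.swap (R := ℤ)) h2
      rw [Bivariate.swap_swap_apply, map_zero] at h3
      exact h3
    have h2 : (Bivariate.swap g).natDegree ≤ m := by
      have h3 : (Bivariate.swap f : ℤ[X][X]) = Bivariate.swap g * Bivariate.swap h := by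
        rw [hgh, map_mul]
      rw [h3, natDegree_mul (hs0 _ hg0) (hs0 _ hh0)] at h1
      omega
    rw [natDegree_le_iff_coeff_eq_zero]
    intro k hk
    have h4 := coeff_eq_zero_of_natDegree_lt (lt_of_le_of_lt h2 hk)
    have h5 := swap_coeff g k i
    rw [h4, coeff_zero] at h5
    exact h5.symm
  refine ⟨by omega, hgt, fun i j => ?_⟩
  by_cases hi : i ≤ n
  swap
  · rw [coeff_eq_zero_of_natDegree_lt (by omega : g.natDegree < i), coeff_zero, abs_zero]
    positivity
  obtain ⟨i', hi'⟩ : ∃ i', h.coeff i' ≠ 0 := by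
    by_contra h1
    push Not at h1
    exact hh0 (Polynomial.ext fun j => by rw [h1 j, coeff_zero])
  obtain ⟨j', hj'⟩ : ∃ j', (h.coeff i').coeff j' ≠ 0 := by
    by_contra h1
    push Not at h1
    exact hi' (Polynomial.ext fun j => by rw [h1 j, coeff_zero])
  have hi'n : i' ≤ n := by
    by_contra h1
    exact hi' (coeff_eq_zero_of_natDegree_lt (by omega))
  have hkm : kr n f = kr n g * kr n h := by rw [hgh, map_mul]
  have hkf0 : kr n f ≠ 0 := by
    intro h1
    apply h0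
    ext i j
    rw [coeff_zero, coeff_zero]
    by_cases hi1 : i ≤ n
    · rw [← kr_coeff hf1 hi1, h1, coeff_zero]
    · rw [coeff_eq_zero_of_natDegree_lt (by omega : f.natDegree < i), coeff_zero]
  have hkfd : (kr n f).natDegree ≤ (n + 1) * (m + 1) := by
    rw [natDegree_le_iff_coeff_eq_zero]
    intro N hN
    rw [kr_coeff' hf1]
    apply coeff_eq_zero_of_natDegree_lt
    refine lt_of_le_of_lt (hf2 _) ?_
    have h1 : m + 1 ≤ N / (n + 1) := by
      rw [Nat.le_div_iff_mul_le (Nat.succ_pos n), mul_comm]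
      exact hN.le
    omega
  have key := H8.NoPt.gelfond ((n + 1) * (m + 1)) (kr n g) (kr n h) (by rw [← hkm]; exact hkf0)
    (by rw [← hkm]; exact hkfd) B (fun k => by
      rw [← hkm, kr_coeff' hf1]
      exact_mod_cast hf3 _ _) (i + (n + 1) * j) (i' + (n + 1) * j')
  rw [kr_coeff (by omega) hi, kr_coeff (by omega) hi'n] at key
  have h6 := fcg_abs_le (key.trans (fcg_num hB)) hj'
  push_cast
  exact h6

theorem fac2 {n m B : ℕ} (hB : 2 ≤ B) {f : ℤ[X][X]} (hf : B2 n m B f) (h0 : f ≠ 0)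
    (hβ : Beta f) : ∃ g h : ℤ[X][X], f = g * h ∧ 1 ≤ g.natDegree ∧ 1 ≤ h.natDegree ∧
      B2 n m (B ^ (2 * ((n + 1) * (m + 1)) + 1)) g ∧ B2 n m (B ^ (2 * ((n + 1) * (m + 1)) + 1)) h := by
  obtain ⟨c, g0, h1, hc, hg0, hh0, hcf⟩ := hβ
  obtain ⟨inst⟩ : Nonempty (NormalizedGCDMonoid ℤ[X]) := inferInstance
  have hg00 : g0 ≠ 0 := by
    rintro rfl
    rw [natDegree_zero] at hg0
    omega
  have hh00 : h1 ≠ 0 := by
    rintro rfl
    rw [natDegree_zero] at hh0
    omega
  have hdvd : g0.primPart ∣ f := by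
    refine (isPrimitive_primPart g0).dvd_of_fraction_map_dvd_fraction_map
      (K := FractionRing ℤ[X]) ?_
    have h2 : (g0.primPart).map (algebraMap ℤ[X] (FractionRing ℤ[X])) ∣
        (C c * f).map (algebraMap ℤ[X] (FractionRing ℤ[X])) := by
      rw [hcf]
      refine Polynomial.map_dvd _ ?_
      exact (primPart_dvd g0).mul_right _
    rw [Polynomial.map_mul, map_C] at h2
    refine (IsUnit.dvd_mul_left ?_).1 h2
    rw [isUnit_C, isUnit_iff_ne_zero]
    intro h3
    exact hc ((IsFractionRing.injective ℤ[X] (FractionRing ℤ[X])) (by rw [h3, map_zero]))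
  obtain ⟨h, hh⟩ := hdvd
  have hp0 : g0.primPart ≠ 0 := by
    intro h2
    rw [h2, zero_mul] at hh
    exact h0 hh
  have hh' : h ≠ 0 := by
    rintro rfl
    rw [mul_zero] at hh
    exact h0 hh
  have hdg : g0.primPart.natDegree = g0.natDegree := natDegree_primPart g0
  have hdf : f.natDegree = g0.natDegree + h1.natDegree := by
    rw [← natDegree_mul hg00 hh00, ← hcf, natDegree_C_mul hc]
  have hdf' : f.natDegree = g0.natDegree + h.natDegree := by
    rw [hh, natDegree_mul hp0 hh', hdg]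
  have hh2 : f = h * g0.primPart := by rw [mul_comm]; exact hh
  exact ⟨g0.primPart, h, hh, by omega, by omega, gelf2 hB hf h0 hh, gelf2 hB hf h0 hh2⟩

/-- the top form -/
theorem b2_top {n m B : ℕ} {F : ℤ[X][X][X]} (H : DegF n m F) (hF : CB B F) :
    B2 n m B (topf n F) := by
  refine ⟨?_, fun i => ?_, fun i j => ?_⟩
  · rw [natDegree_le_iff_coeff_eq_zero]
    intro b hb
    rw [tpf_coeff, if_neg (by omega)]
  · rw [tpf_coeff]
    split_ifs
    · exact H.deg _ _
    · rw [natDegree_zero]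
      exact Nat.zero_le _
  · rw [tpf_coeff]
    split_ifs
    · exact hF j _ _
    · rw [coeff_zero, abs_zero]
      positivity

end Pool.Agent.H97.XU
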