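import Pool.Agent.H97.XU.SZB

/-! # [H97 XU NRA] A real root near a point with small parameters

`A ≥ B ≥ 2`, `|Y|, |t| ≤ A`, `|u|, |w| ≤ ρ`, `ρ A^κ ≤ 1`, `κ = 30 (k + kb + 1)`, `q z = ev z t 0 0 (q0 P)`, `D z = ev z t 0 0 (dq P)`.
(1) `|q(Y)| ≤ A^(2k) ρ`: `q(Y) = - ev Y t u w (P - q0 P)` (`ev_q0'`), `ord_sub_q0`, `sz_sub_q0`, `ev_ord`.
(2) `1 ≤ |U q + V D|` at `z = Y`, `|U|, |V| ≤ A^(2 kb)`: `|U q| ≤ 1/2`, so `|D(Y)| ≥ 1/(2 A^(2kb)) ≥ A^(-2kb-1)`.
(3) `|D'| ≤ (A+1)^(8k) ≤ A^(16k)` on `|z| ≤ A + 1` (`ev_deriv`, `sz_pderiv`, `A + 1 ≤ A²`, `ev_bd` with `A²`... ), so for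
`|z - Y| ≤ r0 = A^(-(16k+2kb+3))`: `|D(z) - D(Y)| ≤ A^(-2kb-3) ≤ |D(Y)|/4`, `|D(z)| ≥ A^(-2kb-2)`, `D(z)` has the sign of `D(Y)`.
(4) intermediate value theorem (`q(Y ± r)` has the sign of `± D(Y)` for `r = |q(Y)| A^(2kb+2) ≤ A^(2k+2kb+2) ρ ≤ r0`; if `q(Y) = 0` take `θ = Y`):
a root `θ` with `|θ - Y| ≤ r ≤ A^κ ρ`, and `|D(θ)| ≥ A^(-2kb-2)`. (Mean value theorem: `image_le_of_deriv..`,
`exists_deriv_eq_slope`, `Convex.norm_image_sub_le_of_norm_hasDerivWithin_le`; `monotoneOn_of_deriv_nonneg`.) -/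

namespace Pool.Agent.H97.XU

open Finset

/-- a root of an increasing function -/
private theorem root_inc {f D : ℝ → ℝ} (hf : ∀ z, HasDerivAt f (D z) z) {Y c r : ℝ} (hc : 0 < c)
    (hr : 0 ≤ r) (hD : ∀ z, |z - Y| ≤ r → c ≤ D z) (h0 : |f Y| ≤ c * r) :
    ∃ θ, |θ - Y| ≤ r ∧ f θ = 0 := by
  have hcont : Continuous f := continuous_iff_continuousAt.mpr fun z => (hf z).continuousAt
  rcases hr.eq_or_lt with h | h
  · refine ⟨Y, by simp [← h], ?_⟩
    rw [← h, mul_zero] at h0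
    exact abs_eq_zero.mp (le_antisymm h0 (abs_nonneg _))
  · have h1 : 0 ≤ f (Y + r) := by
      obtain ⟨x, hx, hs⟩ := exists_hasDerivAt_eq_slope f D (show Y < Y + r by linarith)
        hcont.continuousOn (fun z _ => hf z)
      have h2 := hD x (by
        rw [abs_le]
        constructor <;> linarith [hx.1, hx.2])
      rw [hs, le_div_iff₀ (by linarith)] at h2
      have h3 := (abs_le.mp h0).1
      have h4 : c * (Y + r - Y) = c * r := by ring
      linarith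
    have h2 : f (Y - r) ≤ 0 := by
      obtain ⟨x, hx, hs⟩ := exists_hasDerivAt_eq_slope f D (show Y - r < Y by linarith)
        hcont.continuousOn (fun z _ => hf z)
      have h2 := hD x (by
        rw [abs_le]
        constructor <;> linarith [hx.1, hx.2])
      rw [hs, le_div_iff₀ (by linarith)] at h2
      have h3 := (abs_le.mp h0).2
      have h4 : c * (Y - (Y - r)) = c * r := by ring
      linarith
    have h3 := intermediate_value_Icc (show Y - r ≤ Y + r by linarith)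
      (hcont.continuousOn (s := Set.Icc (Y - r) (Y + r)))
    obtain ⟨θ, hθ, hθ0⟩ := h3 ⟨h2, h1⟩
    refine ⟨θ, ?_, hθ0⟩
    rw [abs_le]
    constructor <;> linarith [hθ.1, hθ.2]

private theorem root_gen {f D : ℝ → ℝ} (hf : ∀ z, HasDerivAt f (D z) z) {Y c r : ℝ} (hc : 0 < c)
    (hr : 0 ≤ r) (hD : (∀ z, |z - Y| ≤ r → c ≤ D z) ∨ (∀ z, |z - Y| ≤ r → D z ≤ -c))
    (h0 : |f Y| ≤ c * r) : ∃ θ, |θ - Y| ≤ r ∧ f θ = 0 := by
  rcases hD with h | h
  · exact root_inc hf hc hr h h0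
  · obtain ⟨θ, h1, h2⟩ := root_inc (f := fun z => - f z) (D := fun z => - D z)
      (fun z => (hf z).neg) hc hr (fun z hz => by linarith [h z hz]) (by rwa [abs_neg])
    exact ⟨θ, h1, neg_eq_zero.mp h2⟩

theorem root_near {B k kb : ℕ} (hB : 2 ≤ B) {P U V : U4} (hP : Sz B k P) (hU : Sz B kb U)
    (hV : Sz B kb V) {A t : ℝ} (hA : (B : ℝ) ≤ A) (ht : |t| ≤ A)
    (hΔ : ∀ z : ℝ, 1 ≤ |ev z t 0 0 (U * q0 P + V * dq P)|) {Y u w ρ : ℝ} (hY : |Y| ≤ A)
    (hu : |u| ≤ ρ) (hw : |w| ≤ ρ) (hρ : ρ * A ^ (30 * (k + kb + 1)) ≤ 1)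
    (h0 : ev Y t u w P = 0) :
    ∃ θ : ℝ, ev θ t 0 0 (q0 P) = 0 ∧ |Y - θ| ≤ A ^ (30 * (k + kb + 1)) * ρ ∧
      1 ≤ A ^ (30 * (k + kb + 1)) * |ev θ t 0 0 (dq P)| := by
  have hB' : (2 : ℝ) ≤ B := by exact_mod_cast hB
  have hA2 : 2 ≤ A := hB'.trans hA
  have hA1 : 1 ≤ A := by linarith
  have hA0 : 0 < A := by linarith
  have hρ0 : 0 ≤ ρ := (abs_nonneg _).trans hu
  have hpw : ∀ n : ℕ, n ≤ 30 * (k + kb + 1) → ρ * A ^ n ≤ 1 := fun n hn =>
    (mul_le_mul_of_nonneg_left (pow_le_pow_right₀ hA1 hn) hρ0).trans hρ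
  have hρ1 : ρ ≤ 1 := by simpa using hpw 0 (Nat.zero_le _)
  set κ := 30 * (k + kb + 1) with hκ
  -- (1)
  have hqY : |ev Y t 0 0 (q0 P)| ≤ A ^ (2 * k) * ρ := by
    have h1 := ev_ord (r := 1) hA1 hA (sz_sub_q0 hP) hY ht hρ1 hu hw (ord_sub_q0 P)
    rw [map_sub, h0, zero_sub, abs_neg, ev_q0', pow_one] at h1
    exact h1
  -- (2)
  have hUY : |ev Y t 0 0 U| ≤ A ^ (2 * kb) :=
    ev_bd hA1 hA hU hY ht (by simpa using hA0.le) (by simpa using hA0.le)
  have hVY : |ev Y t 0 0 V| ≤ A ^ (2 * kb) :=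
    ev_bd hA1 hA hV hY ht (by simpa using hA0.le) (by simpa using hA0.le)
  have hDY : 1 ≤ A ^ (2 * kb + 1) * |ev Y t 0 0 (dq P)| := by
    have h1 := hΔ Y
    rw [map_add, map_mul, map_mul] at h1
    have h2 : |ev Y t 0 0 U * ev Y t 0 0 (q0 P)| ≤ 1 / 2 := by
      rw [abs_mul]
      have h3 : |ev Y t 0 0 U| * |ev Y t 0 0 (q0 P)| ≤ A ^ (2 * kb) * (A ^ (2 * k) * ρ) :=
        mul_le_mul hUY hqY (abs_nonneg _) (by positivity)
      have h4 := hpw (2 * kb + 2 * k + 1) (by omega)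
      have h5 : ρ * A ^ (2 * kb + 2 * k + 1) = (A ^ (2 * kb) * (A ^ (2 * k) * ρ)) * A := by
        rw [pow_succ, pow_add]
        ring
      rw [h5] at h4
      have h6 : 0 ≤ A ^ (2 * kb) * (A ^ (2 * k) * ρ) := by positivity
      nlinarith
    have h3 : 1 / 2 ≤ |ev Y t 0 0 V * ev Y t 0 0 (dq P)| := by
      have := abs_add_le (ev Y t 0 0 U * ev Y t 0 0 (q0 P)) (ev Y t 0 0 V * ev Y t 0 0 (dq P))
      linarith
    rw [abs_mul] at h3
    have h4 : |ev Y t 0 0 V| * |ev Y t 0 0 (dq P)| ≤ A ^ (2 * kb) * |ev Y t 0 0 (dq P)| :=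
      mul_le_mul_of_nonneg_right hVY (abs_nonneg _)
    rw [pow_succ]
    have h5 : 0 ≤ A ^ (2 * kb) * |ev Y t 0 0 (dq P)| := by positivity
    nlinarith
  -- (3)
  have hD2 : ∀ z, |z| ≤ A + 1 → |ev z t 0 0 (MvPolynomial.pderiv 0 (dq P))| ≤ A ^ (16 * k) := by
    intro z hz
    have h1 := ev_bd (A := A + 1) (z := z) (t := t) (by linarith) (by linarith)
      (sz_pderiv hB (sz_dq hB hP) 0) hz (by linarith)
      (u := 0) (w := 0) (by simpa using (by linarith)) (by simpa using (by linarith))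
    refine h1.trans ?_
    have h2 : A + 1 ≤ A ^ 2 := by nlinarith
    calc (A + 1) ^ (2 * (2 * (2 * k))) ≤ (A ^ 2) ^ (2 * (2 * (2 * k))) :=
          pow_le_pow_left₀ (by linarith) h2 _
      _ = A ^ (16 * k) := by
          rw [← pow_mul]
          congr 1
          ring
  have hDd : ∀ z, |z - Y| ≤ 1 →
      |ev z t 0 0 (dq P) - ev Y t 0 0 (dq P)| ≤ A ^ (16 * k) * |z - Y| := by
    intro z hz
    have h1 := Convex.norm_image_sub_le_of_norm_hasDerivWithin_le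
      (f := fun z => ev z t 0 0 (dq P)) (f' := fun z => ev z t 0 0 (MvPolynomial.pderiv 0 (dq P)))
      (C := A ^ (16 * k)) (s := Set.Icc (Y - 1) (Y + 1)) (x := Y) (y := z)
      (fun x _ => (ev_deriv x t 0 0 (dq P)).hasDerivWithinAt)
      (fun x hx => by
        rw [Real.norm_eq_abs]
        apply hD2
        rw [abs_le] at hY ⊢
        constructor <;> linarith [hx.1, hx.2])
      (convex_Icc _ _) ⟨by linarith, by linarith⟩
      (by
        rw [abs_le] at hz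
        constructor <;> linarith)
    simpa only [Real.norm_eq_abs] using h1
  set c : ℝ := (A ^ (2 * kb + 2))⁻¹ with hc
  have hc0 : 0 < c := by positivity
  have hcA : A ^ (2 * kb + 2) * c = 1 := mul_inv_cancel₀ (by positivity)
  have h2c : 2 * c ≤ |ev Y t 0 0 (dq P)| := by
    have h1 : A ^ (2 * kb + 2) = A ^ (2 * kb + 1) * A := pow_succ _ _
    have h2 : A ^ (2 * kb + 1) * (A * c) = 1 := by rw [← mul_assoc, ← h1, hcA]
    have h3 : A * c ≤ |ev Y t 0 0 (dq P)| := by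
      have h4 : 0 < A ^ (2 * kb + 1) := by positivity
      by_contra hcon
      push Not at hcon
      have := mul_lt_mul_of_pos_left hcon h4
      linarith
    nlinarith
  set r : ℝ := A ^ (2 * kb + 2) * |ev Y t 0 0 (q0 P)| with hr
  have hr0 : 0 ≤ r := by positivity
  have hrρ : r ≤ A ^ (2 * kb + 2 + 2 * k) * ρ := by
    rw [hr, pow_add A (2 * kb + 2) (2 * k), mul_assoc]
    exact mul_le_mul_of_nonneg_left hqY (by positivity)
  have hr1 : A ^ (16 * k) * r ≤ c := by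
    have h1 : A ^ (16 * k) * r ≤ A ^ (16 * k) * (A ^ (2 * kb + 2 + 2 * k) * ρ) :=
      mul_le_mul_of_nonneg_left hrρ (by positivity)
    have h2 := hpw (16 * k + (2 * kb + 2 + 2 * k) + (2 * kb + 2)) (by omega)
    have h3 : ρ * A ^ (16 * k + (2 * kb + 2 + 2 * k) + (2 * kb + 2))
        = A ^ (16 * k) * (A ^ (2 * kb + 2 + 2 * k) * ρ) * A ^ (2 * kb + 2) := by
      rw [pow_add, pow_add]
      ring
    rw [h3] at h2
    have h4 : A ^ (16 * k) * (A ^ (2 * kb + 2 + 2 * k) * ρ) ≤ c := by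
      rw [hc, ← one_div, le_div_iff₀ (by positivity)]
      exact h2
    exact h1.trans h4
  have hrle1 : r ≤ 1 := by
    have h2 := hpw (2 * kb + 2 + 2 * k) (by omega)
    rw [mul_comm] at h2
    exact hrρ.trans h2
  have hD : (∀ z, |z - Y| ≤ r → c ≤ ev z t 0 0 (dq P)) ∨
      (∀ z, |z - Y| ≤ r → ev z t 0 0 (dq P) ≤ -c) := by
    have h1 : ∀ z, |z - Y| ≤ r → |ev z t 0 0 (dq P) - ev Y t 0 0 (dq P)| ≤ c := by
      intro z hz
      refine (hDd z (hz.trans hrle1)).trans ?_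
      exact (mul_le_mul_of_nonneg_left hz (by positivity)).trans hr1
    rcases le_or_gt 0 (ev Y t 0 0 (dq P)) with h | h
    · left
      intro z hz
      rw [abs_of_nonneg h] at h2c
      have := (abs_le.mp (h1 z hz)).1
      linarith
    · right
      intro z hz
      rw [abs_of_neg h] at h2c
      have := (abs_le.mp (h1 z hz)).2
      linarith
  obtain ⟨θ, hθ, hθ0⟩ := root_gen (f := fun z => ev z t 0 0 (q0 P))
    (D := fun z => ev z t 0 0 (dq P)) (fun z => ev_deriv z t 0 0 (q0 P)) hc0 hr0 hD (by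
      have : c * r = |ev Y t 0 0 (q0 P)| := by
        rw [hr, ← mul_assoc, mul_comm c, hcA, one_mul]
      rw [this])
  refine ⟨θ, hθ0, ?_, ?_⟩
  · rw [abs_sub_comm]
    refine hθ.trans (hrρ.trans ?_)
    exact mul_le_mul_of_nonneg_right (pow_le_pow_right₀ hA1 (by omega)) hρ0
  · have h1 : c ≤ |ev θ t 0 0 (dq P)| := by
      rcases hD with h | h
      · exact (h θ hθ).trans (le_abs_self _)
      · have := h θ hθ
        rw [le_abs]
        right
        linarith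
    rw [← hcA]
    exact mul_le_mul (pow_le_pow_right₀ hA1 (by omega)) h1 hc0.le (by positivity)

end Pool.Agent.H97.XU
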