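import Pool.Agent.H97.XU.CHT
import Pool.Agent.H4.TP.MID

/-! # [H97 XU YBD] `y` is bounded by `x`; values of polynomials in `t`

`nz_val`: a polynomial `p ≠ 0` in `ℤ[t]` of degree `≤ d` with coefficients `≤ B^k` does not vanish at `|a| ≥ B^(k + d + 1)`: if `e` is its degree,
`|p(a)| ≥ |a|^e - d B^k |a|^(e-1) > 0` (`d < 2^d ≤ B^d`).
`ybdU`: as `ybd` (`Pool/Agent/H4/TP/BND.lean`) with explicit constants: `p = (F.coeff n).coeff 0`, its coefficient of `t^m` is `cf3 F m 0 n ≠ 0` (`topq` has degree `n`),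
`p(a) ≠ 0`; all `|((F.coeff b).coeff i)(a)| ≤ (m+1) B a^m`; `|y| ≤ n (n+1) (m+1) B a^m max(1,|x|) ≤ a^(m+1) max(1,|x|)` as `n (n+1) (m+1) ≤ 2^(2n+m)`. -/

namespace Pool.Agent.H97.XU

open Finset Polynomial Pool.Agent.H37.TE Pool.Agent.H98.TE Pool.Agent.H4.TP

theorem nz_val {B k d : ℕ} (hB : 2 ≤ B) {p : ℤ[X]} (hp : p ≠ 0) (hd : p.natDegree ≤ d)
    (hk : ∀ i, |p.coeff i| ≤ (B : ℤ) ^ k) {a : ℤ} (ha : (B : ℤ) ^ (k + d + 1) ≤ |a|) :
    p.eval a ≠ 0 := by
  obtain ⟨e, he⟩ : ∃ e, e = p.natDegree := ⟨_, rfl⟩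
  intro h0
  have hB1 : (2 : ℤ) ≤ B := by exact_mod_cast hB
  have hBk : (1 : ℤ) ≤ (B : ℤ) ^ k := one_le_pow₀ (by linarith)
  have ha1 : (1 : ℤ) ≤ |a| := le_trans (one_le_pow₀ (by linarith)) ha
  rw [eval_eq_sum_range, ← he, sum_range_succ] at h0
  have hce : 1 ≤ |p.coeff e| := by
    apply Int.one_le_abs
    rw [he]
    exact leadingCoeff_ne_zero.mpr hp
  have h1 : p.coeff e * a ^ e = -∑ i ∈ range e, p.coeff i * a ^ i := by linarith
  have h2 : |a| ^ e ≤ |p.coeff e * a ^ e| := by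
    rw [abs_mul, abs_pow]
    nlinarith [pow_pos (by linarith : (0:ℤ) < |a|) e]
  rw [h1, abs_neg] at h2
  have h3 : |∑ i ∈ range e, p.coeff i * a ^ i| ≤ ∑ i ∈ range e, (B : ℤ) ^ k * |a| ^ (e - 1) := by
    refine (abs_sum_le_sum_abs _ _).trans (sum_le_sum fun i hi => ?_)
    rw [abs_mul, abs_pow]
    rw [mem_range] at hi
    exact mul_le_mul (hk i) (pow_le_pow_right₀ ha1 (by omega)) (by positivity) (by positivity)
  rw [sum_const, card_range, nsmul_eq_mul] at h3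
  have h4 := h2.trans h3
  rcases Nat.eq_zero_or_pos e with h5 | h5
  · rw [h5] at h4
    simp at h4
  · have h6 : |a| ^ e = |a| * |a| ^ (e - 1) := by
      conv_lhs => rw [← Nat.succ_pred_eq_of_pos h5, pow_succ]
      rw [Nat.pred_eq_sub_one]; ring
    rw [h6] at h4
    have h7 : |a| ≤ (e : ℤ) * (B : ℤ) ^ k := by
      have hpos : 0 < |a| ^ (e - 1) := pow_pos (by linarith) _
      have : |a| * |a| ^ (e - 1) ≤ ((e : ℤ) * (B : ℤ) ^ k) * |a| ^ (e - 1) := by linarith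
      exact le_of_mul_le_mul_right this hpos
    have h8 : (e : ℤ) < (B : ℤ) ^ d := by
      have h9 : e < 2 ^ d := lt_of_le_of_lt (he ▸ hd) Nat.lt_two_pow_self
      have h10 : 2 ^ d ≤ B ^ d := Nat.pow_le_pow_left hB d
      exact_mod_cast lt_of_lt_of_le h9 h10
    have h9 : (e : ℤ) * (B : ℤ) ^ k < (B : ℤ) ^ (k + d + 1) := by
      have h10 : (B : ℤ) ^ (k + d + 1) = (B : ℤ) ^ d * (B : ℤ) ^ k * B := by ring
      have h11 : (e : ℤ) * (B : ℤ) ^ k < (B : ℤ) ^ d * (B : ℤ) ^ k :=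
        mul_lt_mul_of_pos_right h8 (by linarith)
      have h12 : 0 ≤ (B : ℤ) ^ d * (B : ℤ) ^ k := by positivity
      rw [h10]
      nlinarith
    linarith

theorem val_le {B k d : ℕ} (hB : 2 ≤ B) {p : ℤ[X]} (hd : p.natDegree ≤ d)
    (hk : ∀ i, |p.coeff i| ≤ (B : ℤ) ^ k) {a : ℤ} (ha : 1 ≤ |a|) :
    |p.eval a| ≤ (d + 1) * (B : ℤ) ^ k * |a| ^ d := by
  have hB1 : (2 : ℤ) ≤ B := by exact_mod_cast hB
  rw [eval_eq_sum_range' (Nat.lt_succ_of_le hd)]
  refine (abs_sum_le_sum_abs _ _).trans ?_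
  have h1 : ∀ i ∈ range (d + 1), |p.coeff i * a ^ i| ≤ (B : ℤ) ^ k * |a| ^ d := by
    intro i hi
    rw [abs_mul, abs_pow]
    rw [mem_range] at hi
    exact mul_le_mul (hk i) (pow_le_pow_right₀ ha (by omega)) (by positivity) (by positivity)
  refine (sum_le_sum h1).trans (le_of_eq ?_)
  rw [sum_const, card_range, nsmul_eq_mul]
  push_cast
  ring

private theorem ybd_term' {n b i : ℕ} {x y : ℤ} (hb : b < n) (hi : i + b ≤ n)
    (hy : 1 ≤ |y|) (hxy : |x| ≤ |y|) : |x| ^ i * |y| ^ b ≤ max 1 |x| * |y| ^ (n - 1) := by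
  have hx0 : 0 ≤ |x| := abs_nonneg x
  rcases Nat.eq_zero_or_pos i with h | h
  · subst h
    rw [pow_zero]
    exact mul_le_mul (le_max_left _ _) (pow_le_pow_right₀ hy (by omega)) (by positivity)
      (by positivity)
  · obtain ⟨j, rfl⟩ : ∃ j, i = j + 1 := ⟨i - 1, by omega⟩
    have h1 : |x| ^ j * |y| ^ b ≤ |y| ^ (n - 1) := by
      calc |x| ^ j * |y| ^ b ≤ |y| ^ j * |y| ^ b :=
            mul_le_mul_of_nonneg_right (pow_le_pow_left₀ hx0 hxy j) (by positivity)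
        _ = |y| ^ (j + b) := by rw [pow_add]
        _ ≤ |y| ^ (n - 1) := pow_le_pow_right₀ hy (by omega)
    calc |x| ^ (j + 1) * |y| ^ b = |x| * (|x| ^ j * |y| ^ b) := by ring
      _ ≤ max 1 |x| * |y| ^ (n - 1) :=
        mul_le_mul (le_max_right _ _) h1 (by positivity) (by positivity)

theorem ybdU {n m B : ℕ} {F : ℤ[X][X][X]} (hn : 1 ≤ n) (hB : 2 ≤ B) (h : HypG n m F)
    (hF : CB B F) {a : ℕ} (ha : B ^ (2 * n + m + 2) ≤ a) {x y : ℤ}
    (hxy : ev3 (a : ℤ) x y F = 0) : |y| ≤ (a : ℤ) ^ (m + 1) * max 1 |x| := by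
  have H := h.H
  have hB1 : (2 : ℤ) ≤ B := by exact_mod_cast hB
  have haB : (B : ℤ) ^ (2 * n + m + 2) ≤ (a : ℤ) := by exact_mod_cast ha
  have ha1 : (1 : ℤ) ≤ (a : ℤ) := le_trans (one_le_pow₀ (by linarith)) haB
  have haabs : |(a : ℤ)| = (a : ℤ) := abs_of_nonneg (by linarith)
  have hcoef : ∀ b i j, |((F.coeff b).coeff i).coeff j| ≤ (B : ℤ) ^ 1 := by
    intro b i j
    rw [pow_one]
    exact hF j i b
  have hcn : cf3 F m 0 n ≠ 0 := by
    have h1 : (topq n m F).coeff n ≠ 0 := by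
      have h2 : topq n m F ≠ 0 := by
        intro h0
        have := h.tq
        rw [h0, natDegree_zero] at this
        omega
      have h3 := leadingCoeff_ne_zero.mpr h2
      rw [leadingCoeff, h.tq] at h3
      exact h3
    rw [topq_coeff, if_pos le_rfl, Nat.sub_self] at h1
    intro h0
    rw [h0] at h1
    simp at h1
  have hl : (F.coeff n).coeff 0 ≠ 0 := by
    intro h0
    apply hcn
    unfold cf3
    rw [h0, coeff_zero]
  have hp1 : 1 ≤ |((F.coeff n).coeff 0).eval (a : ℤ)| := by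
    apply Int.one_le_abs
    refine nz_val (B := B) (k := 1) (d := m) hB hl (H.deg 0 n) (hcoef n 0) ?_
    rw [haabs]
    refine le_trans (pow_le_pow_right₀ (by linarith) ?_) haB
    omega
  have hval : ∀ b i, |((F.coeff b).coeff i).eval (a : ℤ)| ≤ (m + 1) * (B : ℤ) * (a : ℤ) ^ m := by
    intro b i
    have h1 := val_le (B := B) (k := 1) (d := m) hB (H.deg i b) (hcoef b i) (a := (a : ℤ))
      (by rw [haabs]; exact ha1)
    rw [haabs, pow_one] at h1
    exact h1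
  have hmx : (1 : ℤ) ≤ max 1 |x| := le_max_left _ _
  by_cases hyx : |y| ≤ max 1 |x|
  · have h1 : (1 : ℤ) ≤ (a : ℤ) ^ (m + 1) := one_le_pow₀ ha1
    nlinarith
  · push Not at hyx
    have hy1 : 1 ≤ |y| := hmx.trans hyx.le
    have hxy' : |x| ≤ |y| := (le_max_right _ _).trans hyx.le
    have hev : ∀ p : ℤ[X], eval₂ (Int.castRingHom ℤ) (a : ℤ) p = p.eval (a : ℤ) := by
      intro p
      have h3 := eval₂_at_apply (p := p) (Int.castRingHom ℤ) (a : ℤ)
      rw [eq_intCast, eq_intCast, Int.cast_id, Int.cast_id] at h3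
      exact h3
    have hs := Pool.Agent.H37.TE.ev3_sum (a : ℤ) x y F n (fun i b h => H.tot i b h)
    rw [hxy, sum_range_succ] at hs
    have hlast : ∑ i ∈ range (n + 1), eval₂ (Int.castRingHom ℤ) (a : ℤ) ((F.coeff n).coeff i) *
        x ^ i * y ^ n = ((F.coeff n).coeff 0).eval (a : ℤ) * y ^ n := by
      rw [Finset.sum_eq_single 0]
      · rw [hev, pow_zero, mul_one]
      · intro i _ hi
        rw [H.tot i n (by omega), hev, eval_zero, zero_mul, zero_mul]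
      · intro h
        exact absurd (mem_range.2 (Nat.succ_pos n)) h
    rw [hlast] at hs
    have hq : |((F.coeff n).coeff 0).eval (a : ℤ) * y ^ n| ≤
        ∑ b ∈ range n, ∑ i ∈ range (n + 1), ((m + 1) * (B : ℤ) * (a : ℤ) ^ m) *
          (max 1 |x| * |y| ^ (n - 1)) := by
      have h1 : ((F.coeff n).coeff 0).eval (a : ℤ) * y ^ n = -∑ b ∈ range n,
          ∑ i ∈ range (n + 1), eval₂ (Int.castRingHom ℤ) (a : ℤ) ((F.coeff b).coeff i) *
            x ^ i * y ^ b := by linarith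
      rw [h1, abs_neg]
      refine (abs_sum_le_sum_abs _ _).trans (sum_le_sum fun b hb => ?_)
      refine (abs_sum_le_sum_abs _ _).trans (sum_le_sum fun i hi => ?_)
      rw [mem_range] at hb hi
      by_cases hib : n < i + b
      · rw [H.tot i b hib, hev, eval_zero, zero_mul, zero_mul, abs_zero]
        positivity
      · rw [hev, mul_assoc, abs_mul, abs_mul, abs_pow, abs_pow]
        exact mul_le_mul (hval b i) (ybd_term' hb (by omega) hy1 hxy') (by positivity) (by positivity)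
    rw [sum_const, sum_const, card_range, card_range, nsmul_eq_mul, nsmul_eq_mul, abs_mul,
      abs_pow] at hq
    have hyn : |y| ^ n = |y| * |y| ^ (n - 1) := by
      conv_lhs => rw [← Nat.sub_add_cancel hn, pow_succ]
      ring
    have hY : 0 < |y| ^ (n - 1) := pow_pos (by linarith) _
    have hna : (n : ℤ) * ((n + 1 : ℕ) : ℤ) * (m + 1) * B ≤ (a : ℤ) := by
      have e1 : n ≤ 2 ^ n := Nat.lt_two_pow_self.le
      have e2 : n + 1 ≤ 2 ^ n := Nat.lt_two_pow_self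
      have e3 : m + 1 ≤ 2 ^ m := Nat.lt_two_pow_self
      have e4 : n * (n + 1) * (m + 1) ≤ 2 ^ n * 2 ^ n * 2 ^ m :=
        Nat.mul_le_mul (Nat.mul_le_mul e1 e2) e3
      have e5 : 2 ^ n * 2 ^ n * 2 ^ m ≤ B ^ (2 * n + m) := by
        rw [← pow_add, ← pow_add]
        have : n + n + m = 2 * n + m := by ring
        rw [this]
        exact Nat.pow_le_pow_left hB _
      have e6 : n * (n + 1) * (m + 1) * B ≤ B ^ (2 * n + m + 2) := by
        calc n * (n + 1) * (m + 1) * B ≤ B ^ (2 * n + m) * B :=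
              Nat.mul_le_mul_right B (e4.trans e5)
          _ = B ^ (2 * n + m + 1) := by rw [pow_succ]
          _ ≤ B ^ (2 * n + m + 2) := Nat.pow_le_pow_right (by omega) (by omega)
      exact_mod_cast e6.trans ha
    have h5 : |y| * |y| ^ (n - 1) ≤ ((a : ℤ) ^ (m + 1) * max 1 |x|) * |y| ^ (n - 1) := by
      have ham : 0 ≤ (a : ℤ) ^ m * (max 1 |x| * |y| ^ (n - 1)) := by positivity
      calc |y| * |y| ^ (n - 1) = 1 * |y| ^ n := by rw [hyn, one_mul]
        _ ≤ |((F.coeff n).coeff 0).eval (a : ℤ)| * |y| ^ n :=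
          mul_le_mul_of_nonneg_right hp1 (by positivity)
        _ ≤ (n : ℤ) * (((n + 1 : ℕ) : ℤ) * (((m + 1) * (B : ℤ) * (a : ℤ) ^ m) *
            (max 1 |x| * |y| ^ (n - 1)))) := hq
        _ = ((n : ℤ) * ((n + 1 : ℕ) : ℤ) * (m + 1) * B) *
            ((a : ℤ) ^ m * (max 1 |x| * |y| ^ (n - 1))) := by ring
        _ ≤ (a : ℤ) * ((a : ℤ) ^ m * (max 1 |x| * |y| ^ (n - 1))) :=
          mul_le_mul_of_nonneg_right hna ham
        _ = ((a : ℤ) ^ (m + 1) * max 1 |x|) * |y| ^ (n - 1) := by ring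
    exact le_of_mul_le_mul_right h5 hY

end Pool.Agent.H97.XU
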