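import Pool.Agent.H97.XU.BEZ
import Pool.Agent.H97.XU.NRA
import Pool.Agent.H97.XU.YBD
import Pool.Agent.H97.XU.FCG

/-! # [H97 XU FAR] Far points are near the real roots of the top form; irreducible constant top form

`near_inf`: `P = PR n m F`, `T ≥ n + m + 3`, `A = a^(m+1) ≥ a ≥ B`, `|Y| ≤ A` (`ybdU`; `|x| ≥ 1`), `u = 0`, `w = 1/x`, `ρ = 1/|x|`, `t = a`. `bez` for `q = topf n F` (`top_sqf`,
`top_natDegree`): `U, V, Δ`, sizes `(n+m+2)^4 ≤ T^4`; `Δ(a) ≠ 0` (`nz_val`), so `|ev z a 0 0 (emb U * q0 P + emb V * dq P)| = |Δ(a)| ≥ 1` (`q0_PR`, `emb_pderiv`, `ev_emb`).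
`root_near`: `30 (2n+m+1 + T^4 + 1) ≤ T^6`, `ρ A^(T^6) ≤ 1` as `|x| ≥ a^(T^8)`.
`far_gamma`: `topf n F = C c * q.map C`, `q` irreducible over `ℚ` of degree `n`. If `|x| ≥ a^(T^8)`, `near_inf` gives a real root `θ` of `c(a) q`, `c(a) ≠ 0`
(`c(a) q_n = ((F.coeff n).coeff 0)(a) ≠ 0`), so `q(θ) = 0`; `topz n m F = C c_m * q` (`c_m` the coefficient of `t^m` of `c`), so `θ` is a root of `topm`, and
`HR` gives `2 deg (minpoly θ) < n`; but `minpoly ℚ θ` is `q` up to a constant (`minpoly.eq_of_irreducible`), of degree `n`. So `|x| ≤ a^(T^8)`. -/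

namespace Pool.Agent.H97.XU

open Finset Polynomial Pool.Agent.H37.TE Pool.Agent.H98.TE Pool.Agent.H4.TP Pool.Agent.H4.SX

/-- all integer points of the members `a ≥ B^C` are at most `a^C` -/
def Far (B C : ℕ) (F : ℤ[X][X][X]) : Prop := ∀ a : ℕ, B ^ C ≤ a → ∀ x y : ℤ,
  ev3 (a : ℤ) x y F = 0 → |x| ≤ (a : ℤ) ^ C ∧ |y| ≤ (a : ℤ) ^ C

theorem Far.mono {B C C' : ℕ} {F : ℤ[X][X][X]} (hB : 1 ≤ B) (h : Far B C F) (hC : C ≤ C') :
    Far B C' F := by
  intro a ha x y hxy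
  have hBC : B ^ C ≤ B ^ C' := Nat.pow_le_pow_right hB hC
  obtain ⟨h1, h2⟩ := h a (hBC.trans ha) x y hxy
  have ha1 : (1 : ℤ) ≤ a := by
    have : 1 ≤ a := (Nat.one_le_pow _ _ hB).trans ha
    exact_mod_cast this
  exact ⟨h1.trans (pow_le_pow_right₀ ha1 hC), h2.trans (pow_le_pow_right₀ ha1 hC)⟩

private theorem num1 {n m T : ℕ} (hn : 3 ≤ n) (hT : n + m + 3 ≤ T) :
    30 * (2 * n + m + 1 + (n + m + 2) ^ 4 + 1) ≤ T ^ 6 := by
  obtain ⟨S, hS⟩ : ∃ S, S = n + m + 2 := ⟨_, rfl⟩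
  have hS5 : 5 ≤ S := by omega
  have hTS : S + 1 ≤ T := by omega
  have h1 : 2 * n + m + 1 + 1 ≤ 2 * S := by omega
  rw [← hS]
  have h2 : (S + 1) ^ 6 ≤ T ^ 6 := Nat.pow_le_pow_left hTS 6
  have h3 : 36 * S ^ 4 ≤ (S + 1) ^ 6 := by
    have e1 : (S + 1) ^ 6 = (S + 1) ^ 2 * (S + 1) ^ 4 := by ring
    rw [e1]
    exact Nat.mul_le_mul (by nlinarith) (Nat.pow_le_pow_left (by omega) 4)
  have h4 : 10 * S ≤ S ^ 4 := by
    have e1 : S ^ 4 = S ^ 3 * S := by ring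
    rw [e1]
    refine Nat.mul_le_mul_right S ?_
    have : 5 ^ 3 ≤ S ^ 3 := Nat.pow_le_pow_left hS5 3
    omega
  omega

private theorem num2 {n m T : ℕ} (hT : n + m + 3 ≤ T) :
    (n + m + 2) ^ 4 + (n + m + 2) ^ 4 + 1 ≤ T ^ 8 := by
  have h1 : (n + m + 2) ^ 4 ≤ T ^ 4 := Nat.pow_le_pow_left (by omega) 4
  have h2 : 81 ≤ T ^ 4 := by
    have : 3 ^ 4 ≤ T ^ 4 := Nat.pow_le_pow_left (by omega) 4
    omega
  have h3 : T ^ 8 = T ^ 4 * T ^ 4 := by ring
  have h4 : 81 * T ^ 4 ≤ T ^ 4 * T ^ 4 := Nat.mul_le_mul_right _ h2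
  rw [h3]
  omega

theorem near_inf {n m B T : ℕ} (hn : 3 ≤ n) (hB : 2 ≤ B) (hT : n + m + 3 ≤ T)
    {F : ℤ[X][X][X]} (h : HypG n m F) (hF : CB B F) {a : ℕ} (ha : B ^ (T ^ 8) ≤ a) {x y : ℤ}
    (hxy : ev3 (a : ℤ) x y F = 0) (hx : (a : ℤ) ^ (T ^ 8) ≤ |x|) :
    ∃ θ : ℝ, ev θ a 0 0 (q0 (PR n m F)) = 0 ∧
      |(y : ℝ) / x - θ| ≤ ((a : ℝ) ^ (m + 1)) ^ (T ^ 6) * (1 / |(x : ℝ)|) ∧
      1 ≤ ((a : ℝ) ^ (m + 1)) ^ (T ^ 6) * |ev θ a 0 0 (dq (PR n m F))| := by
  have H := h.H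
  have hT3 : 3 ≤ T := by omega
  have hB1 : 1 ≤ B := by omega
  have hT8 : 1 ≤ T ^ 8 := Nat.one_le_pow _ _ (by omega)
  have haB : B ≤ a := by
    calc B = B ^ 1 := (pow_one _).symm
      _ ≤ B ^ (T ^ 8) := Nat.pow_le_pow_right hB1 hT8
      _ ≤ a := ha
  have ha1 : 1 ≤ a := by omega
  have ha1r : (1 : ℝ) ≤ a := by exact_mod_cast ha1
  have ha1z : (1 : ℤ) ≤ a := by exact_mod_cast ha1
  have hx1 : (1 : ℤ) ≤ |x| := (one_le_pow₀ ha1z).trans hx
  have hxr1 : (1 : ℝ) ≤ |(x : ℝ)| := by exact_mod_cast hx1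
  have hx0 : (x : ℝ) ≠ 0 := by
    intro h0
    rw [h0, abs_zero] at hxr1
    linarith
  have hxr : (a : ℝ) ^ (T ^ 8) ≤ |(x : ℝ)| := by exact_mod_cast hx
  obtain ⟨A, hA⟩ : ∃ A : ℝ, A = (a : ℝ) ^ (m + 1) := ⟨_, rfl⟩
  have haA : (a : ℝ) ≤ A := by
    rw [hA]
    exact le_self_pow₀ ha1r (by omega)
  have hA1 : 1 ≤ A := ha1r.trans haA
  have hBA : (B : ℝ) ≤ A := by
    have : (B : ℝ) ≤ a := by exact_mod_cast haB
    exact this.trans haA
  -- the Bezout identity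
  have hb2 : ∀ i, ((topf n F).coeff i).natDegree ≤ m ∧
      ∀ j, |((topf n F).coeff i).coeff j| ≤ (B : ℤ) := by
    intro i
    rw [tpf_coeff]
    split_ifs with hi
    · exact ⟨H.deg _ _, fun j => hF j _ _⟩
    · refine ⟨by rw [natDegree_zero]; omega, fun j => ?_⟩
      rw [coeff_zero, abs_zero]
      positivity
  obtain ⟨U, V, Δ, hΔ0, hUV, hU, hV, hΔd, hΔc⟩ := bez (by omega) hB (top_natDegree h)
    (fun i => (hb2 i).1) (fun i j => (hb2 i).2 j) (top_sqf (by omega) h)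
  have hΔa : Δ.eval (a : ℤ) ≠ 0 := by
    refine nz_val hB hΔ0 hΔd hΔc ?_
    rw [abs_of_nonneg (by linarith)]
    have h1 : B ^ ((n + m + 2) ^ 4 + (n + m + 2) ^ 4 + 1) ≤ a :=
      (Nat.pow_le_pow_right hB1 (num2 hT)).trans ha
    exact_mod_cast h1
  have hq : q0 (PR n m F) = emb (topf n F) := q0_PR H
  have hdq : dq (PR n m F) = emb (derivative (topf n F)) := by
    unfold dq
    rw [hq, emb_pderiv]
  have hΔr : ∀ z : ℝ, 1 ≤ |ev z (a : ℝ) 0 0 (emb U * q0 (PR n m F) + emb V * dq (PR n m F))| := by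
    intro z
    rw [hq, hdq, ← map_mul, ← map_mul, ← map_add, hUV, ev_emb, eval₂_C, coe_eval₂RingHom]
    have h1 : eval₂ (Int.castRingHom ℝ) (a : ℝ) Δ = ((Δ.eval (a : ℤ) : ℤ) : ℝ) := by
      have h3 := eval₂_at_apply (p := Δ) (Int.castRingHom ℝ) (a : ℤ)
      rw [eq_intCast, eq_intCast, Int.cast_natCast] at h3
      exact h3
    rw [h1]
    exact_mod_cast Int.one_le_abs hΔa
  have hYb : |(y : ℝ) / x| ≤ A := by
    have h1 := ybdU (a := a) (by omega) hB h hF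
      ((Nat.pow_le_pow_right hB1 (by
        have : 2 * n + m + 2 ≤ T ^ 8 := by
          have e1 : 2 * T ≤ T ^ 8 := by
            have e2 : T ^ 8 = T ^ 7 * T := by ring
            rw [e2]
            refine Nat.mul_le_mul_right T ?_
            have : 3 ^ 7 ≤ T ^ 7 := Nat.pow_le_pow_left hT3 7
            omega
          omega
        exact this)).trans ha) hxy
    rw [max_eq_right hx1] at h1
    have h2 : |(y : ℝ)| ≤ (a : ℝ) ^ (m + 1) * |(x : ℝ)| := by exact_mod_cast h1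
    rw [abs_div, div_le_iff₀ (by linarith), hA]
    exact h2
  have hw : |1 / (x : ℝ)| ≤ 1 / |(x : ℝ)| := by rw [abs_div, abs_one]
  have hρ0 : 0 < 1 / |(x : ℝ)| := by positivity
  have hAT : A ^ (T ^ 6) ≤ |(x : ℝ)| := by
    refine le_trans ?_ hxr
    rw [hA, ← pow_mul]
    refine pow_le_pow_right₀ ha1r ?_
    have e1 : T ^ 8 = T ^ 2 * T ^ 6 := by ring
    rw [e1]
    refine Nat.mul_le_mul_right _ ?_
    nlinarith
  obtain ⟨k, hk⟩ : ∃ k, k = 30 * (2 * n + m + 1 + (n + m + 2) ^ 4 + 1) := ⟨_, rfl⟩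
  have hkT : k ≤ T ^ 6 := by rw [hk]; exact num1 hn hT
  have hAk : A ^ k ≤ A ^ (T ^ 6) := pow_le_pow_right₀ hA1 hkT
  have hρA : 1 / |(x : ℝ)| * A ^ (30 * (2 * n + m + 1 + (n + m + 2) ^ 4 + 1)) ≤ 1 := by
    rw [← hk, one_div, inv_mul_le_iff₀ (by linarith), mul_one]
    exact hAk.trans hAT
  have hev : ev ((y : ℝ) / x) (a : ℝ) 0 (1 / x) (PR n m F) = 0 := by
    rw [ev_PR H hx0]
    have h1 := ev3_cast H (a : ℤ) x y
    rw [hxy, Int.cast_zero, Int.cast_natCast] at h1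
    rw [h1, mul_zero]
  obtain ⟨θ, h1, h2, h3⟩ := root_near hB (sz_PR hB hF) hU hV hBA
    (by rw [abs_of_nonneg (by linarith)]; exact haA) hΔr hYb (by rw [abs_zero]; exact hρ0.le) hw
    hρA hev
  rw [← hk] at h2 h3
  rw [← hA]
  exact ⟨θ, h1, h2.trans (mul_le_mul_of_nonneg_right hAk hρ0.le),
    h3.trans (mul_le_mul_of_nonneg_right hAk (abs_nonneg _))⟩

theorem far_gamma {n m B : ℕ} (hn : 3 ≤ n) (hB : 2 ≤ B) {F : ℤ[X][X][X]} (h : HypG n m F)
    (hF : CB B F) (hR : HR n m F) (hγ : Gamma (topf n F)) : Far B ((n + m + 3) ^ 490) F := by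
  have H := h.H
  obtain ⟨T, hT⟩ : ∃ T, T = n + m + 3 := ⟨_, rfl⟩
  rw [← hT]
  have hT6 : 6 ≤ T := by omega
  have hB1 : 1 ≤ B := by omega
  intro a ha x y hxy
  have haT8 : B ^ (T ^ 8) ≤ a := by
    refine (Nat.pow_le_pow_right hB1 ?_).trans ha
    exact Nat.pow_le_pow_right (by omega) (by norm_num)
  have ha1 : 1 ≤ a := (Nat.one_le_pow _ _ hB1).trans ha
  have ha1z : (1 : ℤ) ≤ a := by exact_mod_cast ha1
  have key : |x| ≤ (a : ℤ) ^ (T ^ 8) := by
    by_contra hcon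
    rw [not_le] at hcon
    obtain ⟨θ, h1, -, -⟩ := near_inf hn hB (by omega : n + m + 3 ≤ T) h hF haT8 hxy hcon.le
    rw [ev_q0_PR H] at h1
    obtain ⟨c, q, hcq, hirr⟩ := hγ
    have hc0 : c ≠ 0 := by
      intro h0
      rw [h0, C_0, zero_mul] at hcq
      have := top_natDegree h
      rw [hcq, natDegree_zero] at this
      omega
    have hqn : q.natDegree = n := by
      have h2 := top_natDegree h
      rw [hcq, natDegree_C_mul hc0, natDegree_map_eq_of_injective C_injective] at h2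
      exact h2
    have hcoef : ∀ b, b ≤ n → (F.coeff b).coeff (n - b) = c * C (q.coeff b) := by
      intro b hb
      have h2 : (topf n F).coeff b = (F.coeff b).coeff (n - b) := by rw [tpf_coeff, if_pos hb]
      rw [← h2, hcq, coeff_C_mul, coeff_map]
    -- the value of `c` is not zero
    have hca : c.eval (a : ℤ) ≠ 0 := by
      intro h0
      have h2 : ((F.coeff n).coeff 0).eval (a : ℤ) ≠ 0 := by
        refine nz_val (B := B) (k := 1) (d := m) hB h.lead (H.deg 0 n)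
          (fun j => by rw [pow_one]; exact hF j 0 n) ?_
        rw [abs_of_nonneg (by linarith)]
        have h3 : B ^ (1 + m + 1) ≤ a := by
          refine (Nat.pow_le_pow_right hB1 ?_).trans haT8
          have : T ≤ T ^ 8 := Nat.le_self_pow (by norm_num) T
          omega
        exact_mod_cast h3
      apply h2
      have h3 := hcoef n le_rfl
      rw [Nat.sub_self] at h3
      rw [h3, eval_mul, h0, zero_mul]
    have hqθ : aeval θ q = 0 := by
      rw [hcq, eval₂_mul, eval₂_C, coe_eval₂RingHom, eval₂_map] at h1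
      have h2 : eval₂ (Int.castRingHom ℝ) (a : ℝ) c = ((c.eval (a : ℤ) : ℤ) : ℝ) := by
        have h3 := eval₂_at_apply (p := c) (Int.castRingHom ℝ) (a : ℤ)
        rw [eq_intCast, eq_intCast, Int.cast_natCast] at h3
        exact h3
      rw [h2] at h1
      rcases mul_eq_zero.1 h1 with h4 | h4
      · exact absurd (by exact_mod_cast h4) hca
      · rw [aeval_def]
        have h5 : (eval₂RingHom (Int.castRingHom ℝ) (a : ℝ)).comp C = algebraMap ℤ ℝ := by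
          ext z
          simp
        rw [h5] at h4
        exact h4
    have htop : (topm n m F).eval θ = 0 := by
      have h2 : (topm n m F).eval θ = (c.coeff m : ℝ) * aeval θ q := by
        unfold topm
        rw [eval_finsetSum, aeval_eq_sum_range' (Nat.lt_succ_of_le hqn.le), mul_sum]
        refine sum_congr rfl fun b hb => ?_
        rw [mem_range] at hb
        rw [eval_mul, eval_C, eval_pow, eval_X, cf3, hcoef b (by omega), coeff_mul_C]
        push_cast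
        rw [zsmul_eq_mul]
        ring
      rw [h2, hqθ, mul_zero]
    have h6 := hR θ htop
    have h7 : (minpoly ℚ θ).natDegree = n := by
      have h8 : aeval θ (q.map (Int.castRingHom ℚ)) = 0 := by
        have h9 : (Int.castRingHom ℚ) = algebraMap ℤ ℚ := rfl
        rw [h9, aeval_map_algebraMap]
        exact hqθ
      have h9 := minpoly.eq_of_irreducible hirr h8
      rw [← h9, natDegree_mul_C (inv_ne_zero (leadingCoeff_ne_zero.2 hirr.ne_zero)),
        natDegree_map_eq_of_injective (RingHom.injective_int _), hqn]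
    omega
  have hy := ybdU (a := a) (by omega) hB h hF
    ((Nat.pow_le_pow_right hB1 (by
      have : T ≤ T ^ 8 := Nat.le_self_pow (by norm_num) T
      have e1 : 2 * T ≤ T ^ 8 := by
        have e2 : T ^ 8 = T ^ 7 * T := by ring
        rw [e2]
        refine Nat.mul_le_mul_right T ?_
        have : 6 ^ 7 ≤ T ^ 7 := Nat.pow_le_pow_left hT6 7
        omega
      omega)).trans haT8) hxy
  have hTT : T + T ^ 8 ≤ T ^ 490 := by
    have e1 : T ≤ T ^ 8 := Nat.le_self_pow (by norm_num) T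
    calc T + T ^ 8 ≤ T ^ 8 * T := by nlinarith
      _ = T ^ 9 := by ring
      _ ≤ T ^ 490 := Nat.pow_le_pow_right (by omega) (by norm_num)
  constructor
  · exact key.trans (pow_le_pow_right₀ ha1z (by omega))
  · have h2 : max 1 |x| ≤ (a : ℤ) ^ (T ^ 8) := max_le (one_le_pow₀ ha1z) key
    calc |y| ≤ (a : ℤ) ^ (m + 1) * (a : ℤ) ^ (T ^ 8) :=
          hy.trans (mul_le_mul_of_nonneg_left h2 (by positivity))
      _ = (a : ℤ) ^ (m + 1 + T ^ 8) := by rw [← pow_add]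
      _ ≤ (a : ℤ) ^ (T ^ 490) := pow_le_pow_right₀ ha1z (by omega)

end Pool.Agent.H97.XU
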