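import Pool.Agent.H97.TU.CEN
import Pool.Agent.H97.TU.FI1
import Pool.Agent.H37.TU.SRD
import Pool.Agent.H8.TM.LOC

/-! # [H97 XU LOC] The local factors of a family with a squarefree top coefficient

`g = ldU m f` (the coefficient of `t^m`) squarefree of degree `n`, all real roots of `g` have degree `< n/2` over `ℚ`. Then
the monic irreducible factors `P` over `ℚ⟦u⟧` of the reversed monic model `rv n m (mo n f)` with a real root have degree
`< n/2`. The reduction of the model at `u = 0` is `cenU n g` (`fi1_rv` in `Pool/Agent/H97/TU/FI1.lean`), separable; the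
constant term `r` of the real root of `P` is a root of `cenU n g`, `deg P ≤ deg (minpoly ℚ r)` (`srd`,
`Pool/Agent/H37/TU/SRD.lean`, Hensel), and `r / g_n` is a root of `g` of the same degree. -/

namespace Pool.Agent.H97.XU

open Finset Polynomial Pool.Agent.H72.ES Pool.Agent.H87.SA Pool.Agent.H87.SA2 Pool.Agent.H87.AX
  Pool.Agent.H8.AW Pool.Agent.H52.AC Pool.Agent.H97.NW Pool.Agent.H34.AC Pool.Agent.H97.FB
  Pool.Agent.H97.FC Pool.Agent.H97.TU

private theorem loc_mo (n : ℕ) (F : ℤ[X][X]) {i : ℕ} (hi : i < n) :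
    (mo n F).coeff i = F.coeff i * F.coeff n ^ (n - 1 - i) := by
  unfold mo
  rw [coeff_add, coeff_X_pow, if_neg (by omega), zero_add, finsetSum_coeff]
  simp only [coeff_C_mul, coeff_X_pow, mul_ite, mul_one, mul_zero]
  rw [Finset.sum_ite_eq, if_pos (mem_range.2 hi)]

private theorem loc_mo_n (n : ℕ) (F : ℤ[X][X]) : (mo n F).coeff n = 1 := by
  unfold mo
  rw [coeff_add, coeff_X_pow, if_pos rfl, finsetSum_coeff]
  simp only [coeff_C_mul, coeff_X_pow, mul_ite, mul_one, mul_zero]
  rw [Finset.sum_ite_eq, if_neg (by simp), add_zero]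

private theorem loc_ld {n m : ℕ} {f : ℤ[X][X]} (hd : f.natDegree = n) {i : ℕ} (hi : i ≤ n) :
    (ldU m f).coeff i = (f.coeff i).coeff m := by
  unfold ldU
  rw [finsetSum_coeff, hd]
  simp only [coeff_C_mul, coeff_X_pow, mul_ite, mul_one, mul_zero]
  rw [Finset.sum_ite_eq, if_pos (mem_range.2 (by omega))]

private theorem loc_rv {n m : ℕ} {f : ℤ[X][X]} (hd : f.natDegree = n)
    (hm : ∀ i, (f.coeff i).natDegree ≤ m) :
    (rv n m (mo n f)).map (Polynomial.constantCoeff (R := ℤ)) = cenU n (ldU m f) := by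
  have hcoef : ∀ i, i < n → ((mo n f).coeff i).coeff (m * (n - i)) =
      (ldU m f).coeff i * (ldU m f).coeff n ^ (n - 1 - i) := by
    intro i hi
    rw [loc_mo n _ hi, loc_ld hd hi.le, loc_ld hd le_rfl]
    have h0 : n - i = 1 + (n - 1 - i) := by omega
    have h1 : m * (n - i) = m + (n - 1 - i) * m := by
      rw [h0]
      ring
    rw [h1, coeff_mul_add_eq_of_natDegree_le (hm i) (natDegree_pow_le_of_le _ (hm n)),
      coeff_pow_of_natDegree_le (hm n)]
  unfold rv cenU
  rw [Polynomial.map_sum, Finset.sum_range_succ, add_comm]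
  congr 1
  · rw [Polynomial.map_mul, Polynomial.map_pow, map_X, map_C, Nat.sub_self, mul_zero,
      loc_mo_n]
    have : (Polynomial.constantCoeff (R := ℤ)) (reflect 0 1) = 1 := by
      rw [Polynomial.constantCoeff_apply, coeff_reflect]
      simp
    rw [this, C_1, one_mul]
  · refine Finset.sum_congr rfl fun i hi => ?_
    have hi' := mem_range.1 hi
    rw [Polynomial.map_mul, Polynomial.map_pow, map_X, map_C, ← hcoef i hi',
      Polynomial.constantCoeff_apply, coeff_reflect, revAt_zero]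

private theorem loc_fQ (g : ℤ[X][X]) : (fQ g).map (PowerSeries.constantCoeff (R := ℚ)) =
    (g.map (Polynomial.constantCoeff (R := ℤ))).map (Int.castRingHom ℚ) := by
  unfold fQ
  rw [Polynomial.map_map, Polynomial.map_map]
  congr 1
  refine Polynomial.ringHom_ext' (RingHom.ext_int _ _) ?_
  simp only [RingHom.comp_apply, coe_eval₂RingHom, eval₂_X, PowerSeries.constantCoeff_X,
    Polynomial.constantCoeff_apply, coeff_X_zero, map_zero]

theorem loc_x {n m : ℕ} (hn : 1 ≤ n) {f : ℤ[X][X]} (hd : f.natDegree = n)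
    (hm : ∀ i, (f.coeff i).natDegree ≤ m) (hl : (ldU m f).natDegree = n)
    (hsq : Squarefree ((ldU m f).map (Int.castRingHom ℚ)))
    (hR : ∀ θ : ℝ, aeval θ (ldU m f) = 0 → 2 * (minpoly ℚ θ).natDegree < n)
    {P : (PowerSeries ℚ)[X]} (hPm : P.Monic) (hPi : Irreducible P)
    (hPd : P ∣ fQ (rv n m (mo n f))) (hPr : RealRoot P) : 2 * P.natDegree < n := by
  obtain ⟨g, hg⟩ : ∃ g, g = ldU m f := ⟨_, rfl⟩
  have hred : (fQ (rv n m (mo n f))).map (PowerSeries.constantCoeff (R := ℚ)) =
      (cenU n g).map (Int.castRingHom ℚ) := by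
    rw [loc_fQ, loc_rv hd hm, hg]
  rw [← hg] at hl hsq hR
  have hgn : g.coeff n ≠ 0 := by
    rw [← hl, coeff_natDegree, Ne, leadingCoeff_eq_zero]
    rintro rfl
    simp at hl
    omega
  have hgnR : ((g.coeff n : ℤ) : ℝ) ≠ 0 := by exact_mod_cast hgn
  have hgnQ : ((g.coeff n : ℤ) : ℚ) ≠ 0 := by exact_mod_cast hgn
  -- the reduction is separable
  obtain ⟨γ, hγ⟩ := cenU_rts hn hl hsq
  have hsepQ : ((cenU n g).map (Int.castRingHom ℚ)).Separable := by
    rw [← Polynomial.separable_map (algebraMap ℚ ℂ), Polynomial.map_map]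
    have h1 : (algebraMap ℚ ℂ).comp (Int.castRingHom ℚ) = Int.castRingHom ℂ := RingHom.ext_int _ _
    rw [h1, hγ.1]
    exact separable_prod_X_sub_C_iff.2 hγ.2
  have hPc : P.map (PowerSeries.constantCoeff (R := ℚ)) ∣ (cenU n g).map (Int.castRingHom ℚ) := by
    rw [← hred]
    exact Polynomial.map_dvd (PowerSeries.constantCoeff (R := ℚ)) hPd
  have hPsep := hsepQ.of_dvd hPc
  -- the real root
  obtain ⟨e, he, ξ, hξ⟩ := hPr
  obtain ⟨r, hr⟩ : ∃ r : ℝ, r = PowerSeries.constantCoeff (R := ℝ) ξ := ⟨_, rfl⟩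
  have hcc : (PowerSeries.constantCoeff (R := ℝ)).comp
      ((exr ℝ e he).comp (PowerSeries.map (algebraMap ℚ ℝ))) =
      (algebraMap ℚ ℝ).comp (PowerSeries.constantCoeff (R := ℚ)) := by
    refine RingHom.ext fun a => ?_
    rw [RingHom.comp_apply, RingHom.comp_apply, RingHom.comp_apply,
      ← PowerSeries.coeff_zero_eq_constantCoeff_apply, ← PowerSeries.coeff_zero_eq_constantCoeff_apply,
      coeff_exr, if_pos (dvd_zero e), Nat.zero_div, PowerSeries.coeff_map]
  have hroot : aeval r (P.map (PowerSeries.constantCoeff (R := ℚ))) = 0 := by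
    have h1 := congrArg (PowerSeries.constantCoeff (R := ℝ)) hξ
    rw [eval_map, hom_eval₂, hcc, map_zero, ← hr] at h1
    rw [aeval_def, eval₂_map]
    exact h1
  have hdeg := Pool.Agent.H37.TU.srd hPm hPi hPsep hroot
  -- the root of `g`
  have hrc : aeval r ((cenU n g).map (Int.castRingHom ℚ)) = 0 := by
    obtain ⟨Q, hQ⟩ := hPc
    rw [hQ, map_mul, hroot, zero_mul]
  have hrc' : aeval r (cenU n g) = 0 := by
    rw [aeval_def, eval₂_map] at hrc
    have h1 : (algebraMap ℚ ℝ).comp (Int.castRingHom ℚ) = algebraMap ℤ ℝ := RingHom.ext_int _ _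
    rw [h1] at hrc
    rw [aeval_def]
    exact hrc
  obtain ⟨θ, hθ⟩ : ∃ θ : ℝ, θ = r / ((g.coeff n : ℤ) : ℝ) := ⟨_, rfl⟩
  have hθg : aeval θ g = 0 := by
    have h1 := congrArg (aeval θ) (cenU_rel hn hl)
    rw [aeval_comp, map_mul, map_mul, aeval_X, aeval_C, aeval_C] at h1
    have h2 : (algebraMap ℤ ℝ) (g.coeff n) * θ = r := by
      rw [algebraMap_int_eq, eq_intCast, hθ]
      field_simp
    rw [h2, hrc'] at h1
    have h3 : (algebraMap ℤ ℝ) (g.coeff n ^ (n - 1)) ≠ 0 := by
      rw [algebraMap_int_eq, eq_intCast]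
      push_cast
      exact pow_ne_zero _ hgnR
    exact (mul_eq_zero.1 h1.symm).resolve_left h3
  have hlt := hR θ hθg
  have hint : IsIntegral ℚ θ := by
    rw [← isAlgebraic_iff_isIntegral]
    refine ⟨g.map (Int.castRingHom ℚ), ?_, ?_⟩
    · intro h0
      rw [Polynomial.map_eq_zero_iff (RingHom.injective_int _)] at h0
      rw [h0] at hl
      simp at hl
      omega
    · rw [aeval_def, eval₂_map]
      rw [aeval_def] at hθg
      have h9 : (algebraMap ℚ ℝ).comp (Int.castRingHom ℚ) = algebraMap ℤ ℝ := RingHom.ext_int _ _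
      rw [h9]
      exact hθg
  have hle : (minpoly ℚ r).natDegree ≤ (minpoly ℚ θ).natDegree := by
    obtain ⟨p, hp⟩ : ∃ p : ℚ[X], p = (minpoly ℚ θ).comp (C (((g.coeff n : ℤ) : ℚ)⁻¹) * X) :=
      ⟨_, rfl⟩
    have hpd : p.natDegree = (minpoly ℚ θ).natDegree := by
      rw [hp, natDegree_comp, natDegree_C_mul_X _ (inv_ne_zero hgnQ), mul_one]
    have hpos := minpoly.natDegree_pos hint
    have hp0 : p ≠ 0 := by
      rintro rfl
      rw [natDegree_zero] at hpd
      omega
    have hpr : aeval r p = 0 := by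
      rw [hp, aeval_comp, map_mul, aeval_X, aeval_C]
      have h1 : (algebraMap ℚ ℝ) (((g.coeff n : ℤ) : ℚ)⁻¹) * r = θ := by
        rw [hθ, map_inv₀, map_intCast]
        field_simp
      rw [h1, minpoly.aeval]
    rw [← hpd]
    exact natDegree_le_of_dvd (minpoly.dvd ℚ r hpr) hp0
  omega

end Pool.Agent.H97.XU
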