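import Pool.Agent.H97.XU.FCE
import Pool.Agent.H97.XU.LOC
import Pool.Agent.H97.XU.FAR
import Pool.Agent.H97.XU.YBD
import Pool.Agent.H4.SX.RDX
import Pool.Agent.H4.TE.ING
import Pool.Agent.H4.TP.MID
import Pool.Agent.H8.TM.MXX

/-! # [H97 XU LAL] Case ALPHA: all members with a large parameter, explicit

As `large_alphaX` (`Pool/Agent/H4/SX/LRX.lean`), with `noPtX` (`Pool/Agent/H26/TR/NPX.lean`) for `f1, m1 = m - deg c`, `w = 1`,
`ρ = 1`, and `loc_x` for the local condition. `T = TN n m 1`, `T1 = TN n m1 1 ≤ T`. Coefficients of `f1` at most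
`B^(2 (n+1)(m+1) + 1)` (`gelf2`), of `mo n f1` at most `B'`, `B'^CN ≤ B^(T^209)`; of the factor `F'` of the member at most
`a^((m+1)(2(n+1)^2+1))`. All exponents are at most `T^212`. -/

namespace Pool.Agent.H97.XU

open Finset Polynomial Pool.Agent.H37.TE Pool.Agent.H98.TE Pool.Agent.H4.TE Pool.Agent.H4.TP

section num

open Pool.Agent.H72.ES Pool.Agent.H87.SA Pool.Agent.H87.SA2 Pool.Agent.H87.AX
  Pool.Agent.H8.AW Pool.Agent.H52.AC Pool.Agent.H97.NW Pool.Agent.H34.AC Pool.Agent.H97.FB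
  Pool.Agent.H97.FC Pool.Agent.H97.TU Pool.Agent.H97.TR Pool.Agent.H37.XP Pool.Agent.H8.TM

private theorem TN_mono {n m m1 : ℕ} (h : m1 ≤ m) : TN n m1 1 ≤ TN n m 1 := by
  unfold TN EN
  refine Nat.pow_le_pow_right (by norm_num) (Nat.factorial_le ?_)
  refine Nat.mul_le_mul_left 2 (Nat.mul_le_mul_right _ ?_)
  exact Nat.mul_le_mul_right _ h

private theorem num_al {n m : ℕ} (hn : 3 ≤ n) (hm : 1 ≤ m) :
    2 * ((n + 1) * (m + 1)) + 1 ≤ TN n m 1 ∧
    (m + 1) * (2 * ((n + 1) * (n + 1)) + 1) ≤ TN n m 1 ∧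
    (n + 1) * (n + 1) * (m + 1) ≤ TN n m 1 := by
  have h6 : 2 ^ (m + 2 * n + 2) ≤ TN n m 1 := by
    refine TN_ge hn hm le_rfl ?_
    obtain ⟨h1, h2, -, h4⟩ := y_ge hn hm
    obtain ⟨y, hy⟩ : ∃ y, y = m * n.factorial := ⟨_, rfl⟩
    rw [← hy] at h1 h2 h4 ⊢
    nlinarith
  have h1 : n + 1 ≤ 2 ^ n := Nat.lt_two_pow_self
  have h2 : m + 1 ≤ 2 ^ m := Nat.lt_two_pow_self
  have h3 : (n + 1) * (n + 1) ≤ 2 ^ (2 * n) := by
    rw [two_mul, pow_add]
    exact Nat.mul_le_mul h1 h1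
  have h5 : 2 * ((n + 1) * (n + 1)) + 1 ≤ 2 ^ (2 * n + 2) := by
    have h7 : 2 ^ (2 * n + 2) = 4 * 2 ^ (2 * n) := by ring
    have h8 : 1 ≤ 2 ^ (2 * n) := Nat.one_le_two_pow
    omega
  have h9 : (m + 1) * (2 * ((n + 1) * (n + 1)) + 1) ≤ TN n m 1 := by
    refine (Nat.mul_le_mul h2 h5).trans ?_
    rw [← pow_add]
    refine le_trans (le_of_eq ?_) h6
    ring
  refine ⟨le_trans ?_ h9, h9, le_trans ?_ h9⟩
  · have : 2 * ((n + 1) * (m + 1)) + 1 ≤ (m + 1) * (2 * (n + 1) + 1) := by nlinarith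
    refine this.trans (Nat.mul_le_mul_left _ ?_)
    nlinarith
  · rw [mul_comm ((n + 1) * (n + 1))]
    exact Nat.mul_le_mul_left _ (by omega)

private theorem num_cR {n m : ℕ} (hn : 3 ≤ n) (hm : 1 ≤ m) :
    cR n * (2 * n + 3) ≤ TN n m 1 ∧ 2 * n + 3 ≤ TN n m 1 ∧ 1 ≤ cR n := by
  have hcF : cR n * cA (n * (n + 1)) * (2 * n + 3) ≤ TN n m 1 := by
    refine (Pool.Agent.H8.AF.cF_le hn).trans ?_
    unfold TN EN
    refine Nat.pow_le_pow_right (by norm_num) (Nat.factorial_le ?_)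
    refine Nat.mul_le_mul_left 2 ?_
    exact Nat.le_mul_of_pos_left _ (Nat.mul_pos hm one_pos)
  have hcA1 : 1 ≤ cA (n * (n + 1)) := by
    unfold cA
    have : 0 < n * (n + 1) := by positivity
    have := Nat.factorial_pos (n * (n + 1))
    exact Nat.one_le_iff_ne_zero.2 (by positivity)
  have hcR1 : 1 ≤ cR n := by
    unfold cR
    exact Nat.one_le_iff_ne_zero.2 (by positivity)
  have h2 : cR n * (2 * n + 3) ≤ TN n m 1 := by
    refine le_trans ?_ hcF
    calc cR n * (2 * n + 3) = cR n * (2 * n + 3) * 1 := (mul_one _).symm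
      _ ≤ cR n * (2 * n + 3) * cA (n * (n + 1)) := Nat.mul_le_mul_left _ hcA1
      _ = _ := by ring
  exact ⟨h2, (Nat.le_mul_of_pos_left _ hcR1).trans h2, hcR1⟩

end num

open Pool.Agent.H72.ES Pool.Agent.H87.SA Pool.Agent.H87.SA2 Pool.Agent.H87.AX
  Pool.Agent.H8.AW Pool.Agent.H52.AC Pool.Agent.H97.NW Pool.Agent.H34.AC Pool.Agent.H97.FB
  Pool.Agent.H97.FC Pool.Agent.H97.TU Pool.Agent.H97.TR Pool.Agent.H37.TU Pool.Agent.H37.XP
  Pool.Agent.H8.TM in
/-- no point of large size over a fibre of a family with a squarefree centre, explicit -/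
theorem no_ptE {n m : ℕ} (hn : 3 ≤ n) (hm : 1 ≤ m) {f : ℤ[X][X]}
    (hd : f.natDegree = n) (hmd : ∀ i, (f.coeff i).natDegree ≤ m) (hl : (ldU m f).natDegree = n)
    (hsq : Squarefree ((ldU m f).map (Int.castRingHom ℚ)))
    (hirr : Irreducible (f.map (mapRingHom (Int.castRingHom ℂ))))
    (hR : ∀ θ : ℝ, aeval θ (ldU m f) = 0 → 2 * (minpoly ℚ θ).natDegree < n)
    {B : ℕ} (hB : 2 ≤ B) (hfB : ∀ i j, |(f.coeff i).coeff j| ≤ (B : ℤ)) {a : ℕ}
    (ha : B ^ (TN n m 1 ^ 208) ≤ a) (P : Ptd (n * (n + 1))) (hP : P.Thr (TN n m 1 ^ 208))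
    (hbig : ((TN n m 1 ^ 200 * m : ℕ) : ℝ) * Real.log a ≤ P.ell)
    (hlab : ∀ (k : ℕ) (θ : Fin k → ℂ), Rts (fa (mo n f) a) θ → ∃ l, Nonempty (LbG P (v1 θ) l)) :
    False := by
  have hν : 4 ≤ n * (n + 1) := by nlinarith
  have hT := num_T (d := n) (m := m) (v := 1) hn hm le_rfl
  have hgap := num_gap (d := n) (m := m) (v := 1) (n := n) hm le_rfl
  have hN1 := num_nu (d := n) (m := m) (n := n) (v := 1) hn hm le_rfl le_rfl
  have hN2 := num_KAP (d := n) (m := m) (n := n) (v := 1) hn hm le_rfl le_rfl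
  have hC := cp_ge (d := n) (m := m) (v := 1) hn hm le_rfl (by omega : 2 ≤ n) le_rfl
  have hCp : Cp n m 1 = TN n m 1 ^ 208 := by
    unfold Cp kE
    norm_num
  rw [hCp] at hC
  obtain ⟨T, hTd⟩ : ∃ T, T = TN n m 1 := ⟨_, rfl⟩
  rw [← hTd] at hT hgap hN1 hN2 hC hbig ha hP
  obtain ⟨E, hE⟩ : ∃ E, E = H26.TR.CN n m (n * (n + 1)) T := ⟨_, rfl⟩
  rw [← hE] at hC
  have hk : 1 ≤ (m + 1) * n := Nat.mul_pos (by omega) (by omega)
  have hEE : E ≤ (m + 1) * n * E := Nat.le_mul_of_pos_left _ hk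
  obtain ⟨hmm, hmd'⟩ := mo_monic (n := n) (by omega) f
  have h1 : (m + 1) * B ≤ B ^ (m + 1) := by
    rw [pow_succ]
    refine Nat.mul_le_mul_right _ ?_
    exact (Nat.succ_le_of_lt (Nat.lt_two_pow_self)).trans (Nat.pow_le_pow_left hB m)
  have h2 : ((m + 1) * B) ^ n ≤ B ^ ((m + 1) * n) := by
    rw [pow_mul]
    exact Nat.pow_le_pow_left h1 n
  have h3 : 2 ≤ ((m + 1) * B) ^ n := by
    refine (Nat.le_self_pow (by omega) 2).trans (Nat.pow_le_pow_left ?_ n)
    exact hB.trans (Nat.le_mul_of_pos_left _ (by omega))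
  have hB1 : 0 < B := by omega
  have hT1 : (1 : ℝ) ≤ T := by exact_mod_cast (by omega : 1 ≤ T)
  have hdg := mo_deg (by omega : 1 ≤ n) hmd
  refine H26.TR.noPtX n m (n * (n + 1)) T 1 le_rfl (by rw [one_mul]; exact hT1) hn hm hν hN1 hN2
    (mo n f) (((m + 1) * B) ^ n) a 1 (fa (mo n f) a) hmm hmd' hdg (mo_irr (by omega) hd hirr) ?_
    (mo_le (by omega) (by omega) hmd hfB) h3 le_rfl ?_ ?_ ?_ ?_ P ?_ ?_ hlab
  · intro Q hQm hQi hQd hQr
    have h4 := loc_x (by omega) hd hmd hl hsq hR hQm hQi hQd hQr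
    have h5 : (2 * Q.natDegree : ℝ) + 1 ≤ n := by exact_mod_cast h4
    have h7 : (n : ℝ) ≤ T := by
      rw [mul_one] at hgap
      exact_mod_cast hgap
    calc (n : ℝ) ≤ T * 1 := by rw [mul_one]; exact h7
      _ ≤ T * (1 * n - 2 * Q.natDegree) := mul_le_mul_of_nonneg_left (by linarith) (by linarith)
  · rw [← hE, mul_one]
    refine le_trans ?_ ha
    refine (Nat.pow_le_pow_left h2 E).trans ?_
    rw [← pow_mul]
    exact Nat.pow_le_pow_right hB1 hC
  · rw [one_mul, Nat.cast_one, div_one]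
  · exact hmm.map _
  · rw [fr_one hmd' hdg]
  · rw [← hE]
    exact P.thr_mono (hEE.trans hC) hP
  · exact hbig

open Pool.Agent.H34.AC Pool.Agent.H97.FB Pool.Agent.H97.TU Pool.Agent.H97.NW Pool.Agent.H8.AW
  Pool.Agent.H8.TM in
private theorem lal_coeff {n m : ℕ} {F : ℤ[X][X][X]} (H : DegF n m F) (a : ℕ) :
    (Fm F a).coeff (Finsupp.single 1 n) = ((F.coeff n).coeff 0).eval (a : ℤ) := by
  classical
  have hs : Fm F a = ∑ b ∈ range (n + 1), ∑ i ∈ range (n + 1 - b), ∑ j ∈ range (m + 1),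
      MvPolynomial.monomial (Finsupp.single 0 i + Finsupp.single 1 b)
        (cf3 F j i b * (a : ℤ) ^ j) := by
    unfold Fm
    rw [Pool.Agent.H98.TE.ev3_sum H]
    refine sum_congr rfl fun b _ => sum_congr rfl fun i _ => sum_congr rfl fun j _ => ?_
    have h1 : ((cf3 F j i b : ℤ) : MvPolynomial (Fin 2) ℤ) = MvPolynomial.C (cf3 F j i b) := rfl
    rw [MvPolynomial.X_pow_eq_monomial, MvPolynomial.X_pow_eq_monomial, ← map_pow, mul_assoc,
      MvPolynomial.monomial_mul, MvPolynomial.C_mul_monomial, h1, MvPolynomial.C_mul_monomial,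
      mul_one, mul_one]
  have hne : ∀ i b : ℕ, (Finsupp.single 0 i + Finsupp.single 1 b : Fin 2 →₀ ℕ) = Finsupp.single 1 n ↔
      i = 0 ∧ b = n := by
    intro i b
    constructor
    · intro h
      have h0 := DFunLike.congr_fun h 0
      have h1 := DFunLike.congr_fun h 1
      simp at h0 h1
      exact ⟨h0, h1⟩
    · rintro ⟨rfl, rfl⟩
      simp
  rw [hs, MvPolynomial.coeff_sum]
  rw [sum_eq_single n]
  · rw [MvPolynomial.coeff_sum, sum_eq_single 0]
    · rw [MvPolynomial.coeff_sum]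
      rw [eval_eq_sum_range' (Nat.lt_succ_of_le (H.deg 0 n))]
      refine sum_congr rfl fun j _ => ?_
      rw [MvPolynomial.coeff_monomial, if_pos ((hne 0 n).2 ⟨rfl, rfl⟩)]
      rfl
    · intro i _ hi
      rw [MvPolynomial.coeff_sum]
      refine sum_eq_zero fun j _ => ?_
      rw [MvPolynomial.coeff_monomial, if_neg fun h => hi ((hne i n).1 h).1]
    · intro h
      exact absurd (mem_range.2 (by omega)) h
  · intro b _ hb
    rw [MvPolynomial.coeff_sum]
    refine sum_eq_zero fun i _ => ?_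
    rw [MvPolynomial.coeff_sum]
    refine sum_eq_zero fun j _ => ?_
    rw [MvPolynomial.coeff_monomial, if_neg fun h => hb ((hne i b).1 h).2]
  · intro h
    exact absurd (mem_range.2 (by omega)) h

open Pool.Agent.H97.TU in
private theorem lal_ld {m : ℕ} {f : ℤ[X][X]} (b : ℕ) :
    (ldU m f).coeff b = (f.coeff b).coeff m := by
  unfold ldU
  rw [finsetSum_coeff]
  simp only [coeff_C_mul, coeff_X_pow, mul_ite, mul_one, mul_zero]
  rw [Finset.sum_ite_eq]
  split_ifs with h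
  · rfl
  · rw [mem_range, not_lt] at h
    rw [coeff_eq_zero_of_natDegree_lt (p := f) (by omega)]
    simp

/-- an irreducible polynomial over `ℂ(t)` of degree at least two is not constant in `t` -/
private theorem lal_const {f1 : ℤ[X][X]} (hn : 2 ≤ f1.natDegree)
    (hirr : Irreducible (f1.map (mapRingHom (Int.castRingHom ℂ))))
    (h0 : ∀ i, (f1.coeff i).natDegree ≤ 0) : False := by
  obtain ⟨q, hq⟩ : ∃ q : ℂ[X], f1.map (mapRingHom (Int.castRingHom ℂ)) = q.map C := by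
    refine ⟨(f1.map (evalRingHom (0 : ℤ))).map (Int.castRingHom ℂ), ?_⟩
    ext1 i
    rw [coeff_map, coeff_map, coeff_map, coeff_map]
    have h1 := eq_C_of_natDegree_le_zero (h0 i)
    rw [h1]
    simp
  have hinj : Function.Injective (mapRingHom (Int.castRingHom ℂ)) :=
    map_injective _ (RingHom.injective_int _)
  have hdq : q.natDegree = f1.natDegree := by
    rw [← natDegree_map_eq_of_injective hinj f1, hq, natDegree_map_eq_of_injective C_injective]
  have hq0 : q.degree ≠ 0 := by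
    intro h
    have h9 : q.natDegree = 0 := natDegree_eq_of_degree_eq_some (by rw [h]; rfl)
    omega
  obtain ⟨z, hz⟩ := IsAlgClosed.exists_root q hq0
  obtain ⟨q', hq'⟩ := dvd_iff_isRoot.2 hz
  rw [hq, hq', Polynomial.map_mul] at hirr
  have hq'0 : q' ≠ 0 := by
    rintro rfl
    rw [mul_zero] at hq'
    rw [hq', natDegree_zero] at hdq
    omega
  have hd' : q'.natDegree + 1 = q.natDegree := by
    rw [hq', natDegree_mul (X_sub_C_ne_zero z) hq'0, natDegree_X_sub_C]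
    omega
  rcases hirr.isUnit_or_isUnit rfl with h | h
  · have h1 := natDegree_eq_zero_of_isUnit h
    rw [natDegree_map_eq_of_injective C_injective, natDegree_X_sub_C] at h1
    omega
  · have h1 := natDegree_eq_zero_of_isUnit h
    rw [natDegree_map_eq_of_injective C_injective] at h1
    omega

open Pool.Agent.H34.AC Pool.Agent.H97.FB Pool.Agent.H97.TU Pool.Agent.H97.NW Pool.Agent.H8.AW
  Pool.Agent.H8.TM Pool.Agent.H97.FC Pool.Agent.H52.AC Pool.Agent.H72.ES Pool.Agent.H87.SA2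
  Pool.Agent.H37.XP in
theorem far_alpha {n m B : ℕ} (hn : 3 ≤ n) (hm : 1 ≤ m) (hB : 2 ≤ B) {F : ℤ[X][X][X]}
    (h : HypG n m F) (hF : CB B F) (hR : Pool.Agent.H4.SX.HR n m F) (hα : Alpha (topf n F)) :
    Far B (TN n m 1 ^ 230) F := by
  classical
  obtain ⟨c, f1, hc, hf1, hirr⟩ := hα
  obtain ⟨f, hf⟩ : ∃ f, f = topf n F := ⟨_, rfl⟩
  have H := h.H
  have hlead0 := h.lead
  have hnat : f.natDegree = n := by
    refine natDegree_eq_of_le_of_coeff_ne_zero ?_ ?_
    · rw [natDegree_le_iff_coeff_eq_zero]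
      intro b hb
      rw [hf, tpf_coeff, if_neg (by omega)]
    · rw [hf, tpf_coeff, if_pos le_rfl, Nat.sub_self]
      exact hlead0
  have hfm : ∀ i, (f.coeff i).natDegree ≤ m := by
    intro i
    rw [hf, tpf_coeff]
    split_ifs
    · exact H.deg _ _
    · simp
  have hb2 := b2_top H hF
  rw [← hf] at hf1 hb2
  have hf0 : f ≠ 0 := by
    rintro rfl
    simp at hnat
    omega
  have hb21 : B2 n m (B ^ (2 * ((n + 1) * (m + 1)) + 1)) f1 :=
    gelf2 (h := C c) hB hb2 hf0 (by rw [hf1, mul_comm])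
  have hnat1 : f1.natDegree = n := by
    rw [← hnat, hf1, natDegree_C_mul hc]
  have hcm : c.natDegree ≤ m := by
    have h1 := hfm n
    rw [hf1, coeff_C_mul] at h1
    have h2 : f1.coeff n ≠ 0 := by
      rw [← hnat1, coeff_natDegree, Ne, leadingCoeff_eq_zero]
      rintro rfl
      simp at hnat1
      omega
    rw [natDegree_mul hc h2] at h1
    omega
  obtain ⟨m1, hm1⟩ : ∃ m1, m1 = m - c.natDegree := ⟨_, rfl⟩
  have hmm : c.natDegree + m1 = m := by omega
  have hfm1 : ∀ i, (f1.coeff i).natDegree ≤ m1 := by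
    intro i
    have h1 := hfm i
    rw [hf1, coeff_C_mul] at h1
    rcases eq_or_ne (f1.coeff i) 0 with h0 | h0
    · rw [h0]
      simp
    · rw [natDegree_mul hc h0] at h1
      omega
  have hlead : ∀ b, c.leadingCoeff * (ldU m1 f1).coeff b = (f.coeff b).coeff m := by
    intro b
    rw [lal_ld, hf1, coeff_C_mul, ← hmm, coeff_mul_add_eq_of_natDegree_le le_rfl (hfm1 b)]
    rfl
  have hlcQ : ((c.leadingCoeff : ℤ) : ℚ) ≠ 0 := by
    exact_mod_cast leadingCoeff_ne_zero.2 hc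
  have htq : topq n m F = C ((c.leadingCoeff : ℤ) : ℚ) * (ldU m1 f1).map (Int.castRingHom ℚ) := by
    ext b
    rw [topq_coeff, coeff_C_mul, coeff_map, eq_intCast, ← Int.cast_mul, hlead b, hf, tpf_coeff]
    unfold cf3
    split_ifs
    · rfl
    · simp
  have hl1 : (ldU m1 f1).natDegree = n := by
    have h1 := h.tq
    rw [htq, natDegree_C_mul hlcQ, natDegree_map_eq_of_injective (RingHom.injective_int _)] at h1
    exact h1
  have hsq1 : Squarefree ((ldU m1 f1).map (Int.castRingHom ℚ)) :=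
    h.sq.squarefree_of_dvd ⟨C ((c.leadingCoeff : ℤ) : ℚ), by rw [htq, mul_comm]⟩
  have hR1 : ∀ θ : ℝ, aeval θ (ldU m1 f1) = 0 → 2 * (minpoly ℚ θ).natDegree < n := by
    intro θ hθ
    apply hR θ
    rw [topm_eq, htq, Polynomial.map_mul, eval_mul, Polynomial.map_map]
    have h1 : (algebraMap ℚ ℝ).comp (Int.castRingHom ℚ) = algebraMap ℤ ℝ := RingHom.ext_int _ _
    rw [h1, eval_map (p := ldU m1 f1), ← aeval_def, hθ, mul_zero]
  have hm1' : 1 ≤ m1 := by
    by_contra h0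
    have h1 : m1 = 0 := by omega
    rw [h1] at hfm1
    exact lal_const (by omega) hirr hfm1
  -- constants
  obtain ⟨hT1, hT2, hT3⟩ := num_al hn hm
  obtain ⟨hT4, hT5, hcR1⟩ := num_cR hn hm
  have hT100 := num_T (d := n) (m := m) (v := 1) hn hm le_rfl
  have hcA1 : cA (n * (n + 1)) ≤ TN n m 1 := num_cA hn hm le_rfl ((y_ge hn hm).2.2.1)
  have hmT : m ≤ TN n m 1 := by
    have h1 := num_fac (d := n) (m := m) (n := 3) (v := 1) hn hm le_rfl hn
    omega
  have hTT := TN_mono (n := n) (show m1 ≤ m by omega)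
  have hT0' := num_T (d := n) (m := m1) (v := 1) hn hm1' le_rfl
  have hno := fun a ha P hP hbig hlab => no_ptE (a := a) hn hm1' hnat1 hfm1 hl1 hsq1 hirr hR1
    (hB.trans (Nat.le_self_pow (by omega) B)) hb21.2.2 ha P hP hbig hlab
  obtain ⟨T, hTd⟩ : ∃ T, T = TN n m 1 := ⟨_, rfl⟩
  obtain ⟨T', hTd'⟩ : ∃ T', T' = TN n m1 1 := ⟨_, rfl⟩
  rw [← hTd] at hT1 hT2 hT3 hT4 hT5 hT100 hcA1 hmT hTT
  rw [← hTd'] at hTT hno hT0'
  have hT0 : 0 < T := by omega
  obtain ⟨W, hW⟩ : ∃ W, W = T ^ 208 := ⟨_, rfl⟩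
  have hWT : T' ^ 208 ≤ W := by
    rw [hW]
    exact Nat.pow_le_pow_left hTT 208
  have hW1 : 1 ≤ W := by
    rw [hW]
    exact Nat.one_le_pow _ _ hT0
  obtain ⟨C0, hC0⟩ : ∃ C0, C0 = T ^ 230 := ⟨_, rfl⟩
  rw [← hTd, ← hC0]
  intro a ha x y hxy
  have hB0 : 0 < B := by omega
  have hpowT : ∀ k l, k ≤ T ^ l → l ≤ 230 → B ^ k ≤ a := by
    intro k l hk hl
    refine (Nat.pow_le_pow_right hB0 ?_).trans ha
    rw [hC0]
    exact hk.trans (Nat.pow_le_pow_right hT0 hl)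
  have ha1 : 1 ≤ a := (Nat.one_le_pow _ _ hB0).trans ha
  -- the leading coefficient
  have hp : ((F.coeff n).coeff 0).eval (a : ℤ) ≠ 0 := by
    refine nz_val (k := 1) (d := m) hB hlead0 (H.deg _ _) (fun i => ?_) ?_
    · rw [pow_one]
      exact hF i 0 n
    · rw [abs_of_nonneg (Int.natCast_nonneg a)]
      have h1 : B ^ (1 + m + 1) ≤ a := by
        refine hpowT _ 2 ?_ (by norm_num)
        have h2 : T * 2 ≤ T ^ 2 := by
          rw [sq]
          exact Nat.mul_le_mul_left _ (by omega)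
        omega
      exact_mod_cast h1
  have hlc : (F.coeff n).coeff 0 = c * f1.coeff n := by
    have h1 : f.coeff n = (F.coeff n).coeff 0 := by
      rw [hf, tpf_coeff, if_pos le_rfl, Nat.sub_self]
    rw [← h1, hf1, coeff_C_mul]
  have hca : c.eval (a : ℤ) ≠ 0 := by
    intro h0
    apply hp
    rw [hlc, eval_mul, h0, zero_mul]
  have hca1 : (f1.coeff n).eval (a : ℤ) ≠ 0 := by
    intro h0
    apply hp
    rw [hlc, eval_mul, h0, mul_zero]
  have hfa : fa (topf n F) a = Polynomial.C (c.eval (a : ℤ)) * fa f1 a := by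
    rw [← hf, hf1, fa, fa, Polynomial.map_mul, map_C]
    rfl
  have hdf1 : (fa f1 a).natDegree = n := by
    refine natDegree_eq_of_le_of_coeff_ne_zero ?_ ?_
    · rw [fa]
      refine natDegree_map_le.trans ?_
      rw [hnat1]
    · rw [fa, coeff_map]
      exact hca1
  -- the factor of the member
  obtain ⟨Hh, hHh⟩ : ∃ Hh, Hh = (n + 1) * (n + 1) * (m + 1) * B * a ^ m + 2 := ⟨_, rfl⟩
  have hHa : Hh ≤ a ^ (m + 1) := by
    have h3 : 1 ≤ a ^ m := Nat.one_le_pow _ _ ha1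
    have h4 : (n + 1) * (n + 1) * (m + 1) * B + 2 ≤ a := by
      refine le_trans ?_ (hpowT (T + 3) 2 ?_ (by norm_num))
      · have h5 : (n + 1) * (n + 1) * (m + 1) ≤ B ^ T :=
          hT3.trans ((Nat.lt_two_pow_self).le.trans (Nat.pow_le_pow_left hB T))
        have h6 : 1 ≤ B ^ T := Nat.one_le_pow _ _ hB0
        calc (n + 1) * (n + 1) * (m + 1) * B + 2 ≤ B ^ T * B + 2 * B ^ T := by
              have := Nat.mul_le_mul_right B h5
              omega
          _ = B ^ T * (B + 2) := by ring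
          _ ≤ B ^ T * B ^ 3 := by
              refine Nat.mul_le_mul_left _ ?_
              have h7 : 2 * 2 ≤ B * B := Nat.mul_le_mul hB hB
              have h8 : B * (B * B) = B ^ 3 := by ring
              nlinarith
          _ = B ^ (T + 3) := by rw [pow_add]
      · nlinarith
    calc Hh = (n + 1) * (n + 1) * (m + 1) * B * a ^ m + 2 := hHh
      _ ≤ (n + 1) * (n + 1) * (m + 1) * B * a ^ m + 2 * a ^ m := by omega
      _ = ((n + 1) * (n + 1) * (m + 1) * B + 2) * a ^ m := by ring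
      _ ≤ a * a ^ m := Nat.mul_le_mul_right _ h4
      _ = a ^ (m + 1) := by ring
  obtain ⟨F', hF'd, hF'i, hF't, hF'y, hF'v, hF'c⟩ := fac_pointE (n := n) (G := Fm F a) (H := Hh)
    (x := x) (y := y) (by omega) (by omega) (fm_deg H a) (by rw [lal_coeff H a]; exact hp)
    (fun e => (fm_coeffE H hF ha1 e).trans (by rw [hHh]; push_cast; linarith)) (by
      rw [vl_fm]
      exact hxy)
  have hing : INg (fa (mo n f1) a) F' := by
    intro K' _ _ hK' X Y hXY
    have hXY2 : vl (Fm F a) X Y = 0 := by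
      obtain ⟨Q, hQ⟩ := hF'd
      have h1 : vl (Fm F a) X Y = vl F' X Y * vl Q X Y := by
        rw [hQ]
        unfold vl
        exact MvPolynomial.eval₂_mul _ _
      rw [h1, hXY, zero_mul]
    rcases ing H (by omega) hp K' hK' X Y hXY2 with h1 | ⟨θ, hθ⟩
    · exact Or.inl h1
    · refine Or.inr ?_
      rw [hfa, map_mul, aeval_C] at hθ
      rcases mul_eq_zero.1 hθ with h2 | h2
      · exfalso
        apply hca
        have h3 : ((c.eval (a : ℤ) : ℤ) : K') = 0 := by simpa using h2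
        exact_mod_cast h3
      · rw [fa_mo]
        exact rt_cen (by omega) hdf1 h2
  obtain ⟨c1, hc1⟩ : ∃ c1, c1 = 2 * ((n + 1) * (n + 1)) + 1 := ⟨_, rfl⟩
  rw [← hc1] at hT2 hF'c
  have hHk2 : 2 ≤ Hh ^ c1 := (by omega : 2 ≤ Hh).trans (Nat.le_self_pow (by omega) Hh)
  have hHk3 : Hh ^ c1 ≤ a ^ ((m + 1) * c1) := by
    rw [pow_mul]
    exact Nat.pow_le_pow_left hHa _
  obtain ⟨cc, hcc⟩ : ∃ cc, cc = W + cA (n * (n + 1)) := ⟨_, rfl⟩
  have hccT : cc ≤ T ^ 209 := by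
    have h1 : T ^ 209 = T ^ 208 * T := by rw [pow_succ]
    rw [h1, ← hW, hcc]
    have h2 : W * 2 ≤ W * T := Nat.mul_le_mul_left _ (by omega)
    have h3 : T ≤ W := by
      rw [hW]
      exact Nat.le_self_pow (by norm_num) T
    omega
  by_contra hcon
  have hmax : a ^ C0 < max x.natAbs y.natAbs := by
    by_contra hc0
    rw [not_lt] at hc0
    apply hcon
    rw [Int.abs_eq_natAbs, Int.abs_eq_natAbs]
    constructor
    · exact_mod_cast (le_max_left _ _).trans hc0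
    · exact_mod_cast (le_max_right _ _).trans hc0
  have hE1 : (m + 1) * c1 * (cR n * cc * (2 * n + 3)) ≤ C0 := by
    calc (m + 1) * c1 * (cR n * cc * (2 * n + 3)) = ((m + 1) * c1) * ((cR n * (2 * n + 3)) * cc) := by
          ring
      _ ≤ T * (T * T ^ 209) := Nat.mul_le_mul hT2 (Nat.mul_le_mul hT4 hccT)
      _ = T ^ 211 := by ring
      _ ≤ C0 := by
          rw [hC0]
          exact Nat.pow_le_pow_right hT0 (by norm_num)
  have hb1 : (Hh ^ c1) ^ (cR n * cc * (2 * n + 3)) < max x.natAbs y.natAbs := by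
    refine lt_of_le_of_lt ?_ hmax
    calc (Hh ^ c1) ^ (cR n * cc * (2 * n + 3)) ≤ (a ^ ((m + 1) * c1)) ^ (cR n * cc * (2 * n + 3)) :=
          Nat.pow_le_pow_left hHk3 _
      _ = a ^ ((m + 1) * c1 * (cR n * cc * (2 * n + 3))) := by rw [← pow_mul]
      _ ≤ a ^ C0 := Nat.pow_le_pow_right ha1 hE1
  obtain ⟨P, hP1, hP2, hP3⟩ := Pool.Agent.H4.SX.redX n hn cc (by omega) (fa (mo n f1) a) F' hF'i hF't hF'y hing
    (Hh ^ c1) hHk2 hF'c x y hF'v hb1
  have hell : ((T' ^ 200 * m1 : ℕ) : ℝ) * Real.log a ≤ P.ell := by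
    have hla : 0 ≤ Real.log a := Real.log_nonneg (by exact_mod_cast ha1)
    have h1 : (C0 : ℝ) * Real.log a ≤ Real.log ((max x.natAbs y.natAbs : ℕ) : ℝ) := by
      rw [← Real.log_pow]
      apply Real.log_le_log
      · have : (0 : ℝ) < a := by exact_mod_cast ha1
        positivity
      · exact_mod_cast hmax.le
    have h2 : Real.log ((max x.natAbs y.natAbs : ℕ) : ℝ) ≤ ((2 * n + 3 : ℕ) : ℝ) * P.ell := by
      unfold Ptd.ell
      rw [← Real.log_pow]
      apply Real.log_le_log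
      · have h3 : 0 < max x.natAbs y.natAbs := by omega
        exact_mod_cast h3
      · exact hP2
    have h3 : (2 * n + 3) * (T' ^ 200 * m1) ≤ C0 := by
      calc (2 * n + 3) * (T' ^ 200 * m1) ≤ T * (T ^ 200 * T) :=
            Nat.mul_le_mul hT5 (Nat.mul_le_mul (Nat.pow_le_pow_left hTT 200) (by omega))
        _ = T ^ 202 := by ring
        _ ≤ C0 := by
            rw [hC0]
            exact Nat.pow_le_pow_right hT0 (by norm_num)
    have h3r : ((2 * n + 3 : ℕ) : ℝ) * ((T' ^ 200 * m1 : ℕ) : ℝ) ≤ (C0 : ℝ) := by exact_mod_cast h3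
    have h4 : (0 : ℝ) < ((2 * n + 3 : ℕ) : ℝ) := by positivity
    refine le_of_mul_le_mul_left ?_ h4
    calc ((2 * n + 3 : ℕ) : ℝ) * (((T' ^ 200 * m1 : ℕ) : ℝ) * Real.log a) =
          ((2 * n + 3 : ℕ) : ℝ) * ((T' ^ 200 * m1 : ℕ) : ℝ) * Real.log a := by ring
      _ ≤ (C0 : ℝ) * Real.log a := mul_le_mul_of_nonneg_right h3r hla
      _ ≤ _ := h1.trans h2
  refine hno a ?_ P (P.thr_mono (by omega) hP1) hell hP3
  rw [← pow_mul]
  refine hpowT _ 209 ?_ (by norm_num)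
  calc (2 * ((n + 1) * (m + 1)) + 1) * T' ^ 208 ≤ T * T ^ 208 :=
        Nat.mul_le_mul hT1 (Nat.pow_le_pow_left hTT 208)
    _ = T ^ 209 := by ring

end Pool.Agent.H97.XU
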