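import Pool.Agent.H97.XU.YBD
import Pool.Agent.H37.TE.Elm
import Pool.Agent.H4.TP.RES

/-! # [H97 XU ELU] Elimination with sizes, and the roots

`elimU`: `R = resultant F G`, `R' = resultant (swap F) (swap G)` as in `elim3` (`Pool/Agent/H37/TE/Elm.lean`; `R ≠ 0`, degrees and vanishing from there, see how
`win_root` in `Pool/Agent/H4/SX/WDH.lean` uses it; the statement of `elim3` does not say that `R` is the resultant, so repeat its proof or prove `R ≠ 0` etc. again).
Sizes: entries of the Sylvester matrix have at most `(D+1)^2` coefficients, at most `B^k` each; a product of at most `2D` entries has sum of absolute values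
`≤ ((D+1)^2 B^k)^(2D)`, at most `(2D)!` products: `≤ B^(2k D + 4 D² + 4 D²) ≤ B^((D+k+2)^4)`. (Sum of the absolute values of the coefficients of a polynomial
in `ℤ[t][x]`: submultiplicative; e.g. `L1 (emb R)`.)
`roots_cnt`: `R ≠ 0`: some `(R.coeff i) ≠ 0`, `nz_val`: `R_a = R.map (evalRingHom a) ≠ 0`, degree `≤ d`, `card_roots`.
`roots_bd`: with `i = R.natDegree`: the leading coefficient of `R_a` is an integer `≠ 0`, so a root `x` satisfies `|x| ≤ 1 + ∑_(i < deg) |R_i(a)|`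
(`res_root` in `Pool/Agent/H4/TP/RES.lean`, private) `≤ 1 + d (d+1) B^k |a|^d ≤ |a|^(d+2)` (`d (d+1) ≤ 2^(2d)`..: `|a| ≥ B^(k + 2d + 2)`). -/

namespace Pool.Agent.H97.XU

open Finset Polynomial Pool.Agent.H37.TE Pool.Agent.H98.TE Pool.Agent.H4.TP

private theorem td_swap {D : ℕ} {F : ℤ[X][X][X]} (hF : TD D D D F) :
    TD D D D (Bivariate.swap F) := by
  refine ⟨?_, fun k => ⟨?_, fun j => ?_⟩⟩
  · rw [natDegree_le_iff_coeff_eq_zero]
    intro k hk
    ext1 j
    rw [swap_coeff, coeff_zero]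
    exact coeff_eq_zero_of_natDegree_lt (((hF.2 j).1).trans_lt hk)
  · rw [natDegree_le_iff_coeff_eq_zero]
    intro j hj
    rw [swap_coeff, coeff_eq_zero_of_natDegree_lt (hF.1.trans_lt hj), coeff_zero]
  · rw [swap_coeff]
    exact (hF.2 j).2 k

private theorem swap_map {A B : Type} [CommRing A] [CommRing B] (f : A →+* B) (P : A[X][X]) :
    Bivariate.swap (P.map (mapRingHom f)) = (Bivariate.swap P).map (mapRingHom f) := by
  ext i j
  rw [swap_coeff, coeff_map, coe_mapRingHom, coeff_map, coeff_map, coe_mapRingHom, coeff_map, swap_coeff]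

private theorem ev3_swap (u x y : ℤ) (F : ℤ[X][X][X]) : ev3 u x y (Bivariate.swap F) = ev3 u y x F := by
  unfold ev3
  generalize eval₂RingHom (Int.castRingHom ℤ) u = ψ
  have h : (eval₂RingHom (eval₂RingHom ψ x) y).comp (Bivariate.swap (R := ℤ[X])).toRingEquiv.toRingHom =
      eval₂RingHom (eval₂RingHom ψ y) x := by
    refine Polynomial.ringHom_ext' (Polynomial.ringHom_ext' ?_ ?_) ?_
    · ext a
      · simp
      · simp [Bivariate.swap_C_C]
    · simp
      rw [Bivariate.swap_X, eval₂_X]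
    · simp
      rw [Bivariate.swap_Y, eval₂_C, coe_eval₂RingHom, eval₂_X]
  exact congrFun (congrArg DFunLike.coe h) F

private theorem ev3_C (u x y : ℤ) (R : ℤ[X][X]) : ev3 u x y (C R) = evalEval u x R := by
  unfold ev3
  rw [eval₂_C, coe_eval₂RingHom, ← eval₂_evalRingHom]
  congr 1

private theorem ev3_mul_add {u x y : ℤ} {F G p q : ℤ[X][X][X]} {R : ℤ[X][X]} (h : F * p + G * q = C R)
    (hF : ev3 u x y F = 0) (hG : ev3 u x y G = 0) : evalEval u x R = 0 := by
  rw [← ev3_C u x y, ← h]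
  unfold ev3 at hF hG ⊢
  rw [eval₂_add, eval₂_mul, eval₂_mul, hF, hG, zero_mul, zero_mul, add_zero]

/-- the size of the image of a monomial -/
private theorem l1_mon (c : ℤ) (i j : ℕ) :
    L1 (emb (C (C c) * (C X) ^ j * X ^ i)) ≤ c.natAbs := by
  have e1 : emb (C (C c) * (C X) ^ j * X ^ i) =
      MvPolynomial.C c * MvPolynomial.X 1 ^ j * MvPolynomial.X 0 ^ i := by
    rw [map_mul, map_mul, map_pow, map_pow]
    unfold emb
    simp
  rw [e1]
  refine (L1_mul _ _).trans ?_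
  have h1 : L1 (MvPolynomial.X 0 ^ i : U4) ≤ 1 := by
    refine (L1_pow _ _).trans ?_
    rw [L1_X, one_pow]
  have h2 : L1 (MvPolynomial.X 1 ^ j : U4) ≤ 1 := by
    refine (L1_pow _ _).trans ?_
    rw [L1_X, one_pow]
  have h3 : L1 (MvPolynomial.C c * MvPolynomial.X 1 ^ j : U4) ≤ c.natAbs := by
    refine (L1_mul _ _).trans ?_
    rw [L1_C]
    calc c.natAbs * L1 (MvPolynomial.X 1 ^ j : U4) ≤ c.natAbs * 1 := Nat.mul_le_mul_left _ h2
      _ = c.natAbs := mul_one _
  calc _ ≤ c.natAbs * 1 := Nat.mul_le_mul h3 h1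
    _ = c.natAbs := mul_one _

private theorem two_sum (D e : ℕ) (P : ℤ[X][X]) (h : BD D e P) :
    P = ∑ i ∈ range (e + 1), ∑ j ∈ range (D + 1),
      C (C ((P.coeff i).coeff j)) * (C X) ^ j * X ^ i := by
  conv_lhs => rw [P.as_sum_range' (e + 1) (Nat.lt_succ_of_le h.1)]
  refine sum_congr rfl fun i _ => ?_
  rw [← C_mul_X_pow_eq_monomial, ← sum_mul]
  congr 1
  conv_lhs => rw [(P.coeff i).as_sum_range' (D + 1) (Nat.lt_succ_of_le (h.2 i))]
  rw [map_sum]
  refine sum_congr rfl fun j _ => ?_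
  rw [← C_mul_X_pow_eq_monomial, C_mul, C_pow]

private theorem l1_bd {D k B : ℕ} {P : ℤ[X][X]} (h : BD D D P)
    (hk : ∀ i j, |(P.coeff i).coeff j| ≤ (B : ℤ) ^ k) : L1 (emb P) ≤ (D + 1) ^ 2 * B ^ k := by
  rw [two_sum D D P h, map_sum]
  refine (L1_sum _ _).trans ?_
  have h1 : ∀ i ∈ range (D + 1), L1 (emb (∑ j ∈ range (D + 1),
      C (C ((P.coeff i).coeff j)) * (C X) ^ j * X ^ i)) ≤ (D + 1) * B ^ k := by
    intro i _
    rw [map_sum]
    refine (L1_sum _ _).trans ?_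
    have h2 : ∀ j ∈ range (D + 1), L1 (emb (C (C ((P.coeff i).coeff j)) * (C X) ^ j * X ^ i)) ≤
        B ^ k := by
      intro j _
      refine (l1_mon _ _ _).trans ?_
      have h3 := hk i j
      rw [Int.abs_eq_natAbs] at h3
      exact_mod_cast h3
    refine (sum_le_sum h2).trans ?_
    rw [sum_const, card_range, smul_eq_mul]
  refine (sum_le_sum h1).trans ?_
  rw [sum_const, card_range, smul_eq_mul]
  exact le_of_eq (by ring)

private theorem emb_coeff (R : ℤ[X][X]) (i j : ℕ) :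
    (emb R).coeff (Finsupp.single 0 i + Finsupp.single 1 j) = (R.coeff i).coeff j := by
  classical
  obtain ⟨N, hN⟩ : ∃ N, BD N N R := by
    refine ⟨R.natDegree + ∑ j ∈ range (R.natDegree + 1), (R.coeff j).natDegree, by omega, fun k => ?_⟩
    by_cases hk : k < R.natDegree + 1
    · have := single_le_sum (f := fun j => (R.coeff j).natDegree) (fun _ _ => Nat.zero_le _)
        (mem_range.2 hk)
      omega
    · rw [coeff_eq_zero_of_natDegree_lt (n := k) (by omega), natDegree_zero]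
      exact Nat.zero_le _
  have e0 := two_sum N N R hN
  have e1 : ∀ (c : ℤ) (i' j' : ℕ), emb (C (C c) * (C X) ^ j' * X ^ i') =
      MvPolynomial.monomial (Finsupp.single 0 i' + Finsupp.single 1 j') c := by
    intro c i' j'
    rw [map_mul, map_mul, map_pow, map_pow]
    unfold emb
    simp only [coe_eval₂RingHom, eval₂_C, eval₂_X]
    rw [MvPolynomial.X_pow_eq_monomial, MvPolynomial.X_pow_eq_monomial]
    have e2 : (Int.castRingHom U4) c = MvPolynomial.C c := by simp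
    rw [e2, MvPolynomial.C_mul_monomial, MvPolynomial.monomial_mul, mul_one, mul_one,
      add_comm (Finsupp.single 1 j')]
  have hinj : ∀ i' j' : ℕ, (Finsupp.single 0 i' + Finsupp.single 1 j' : Fin 4 →₀ ℕ) =
      Finsupp.single 0 i + Finsupp.single 1 j → i' = i ∧ j' = j := by
    intro i' j' h
    have h0 := DFunLike.congr_fun h 0
    have h1 := DFunLike.congr_fun h 1
    simp at h0 h1
    exact ⟨h0, h1⟩
  conv_lhs => rw [e0]
  rw [map_sum, MvPolynomial.coeff_sum]
  have e3 : ∀ i' ∈ range (N + 1), MvPolynomial.coeff (Finsupp.single 0 i + Finsupp.single 1 j)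
      (emb (∑ j' ∈ range (N + 1), C (C ((R.coeff i').coeff j')) * (C X) ^ j' * X ^ i')) =
      if i' = i then (R.coeff i).coeff j else 0 := by
    intro i' _
    rw [map_sum, MvPolynomial.coeff_sum]
    by_cases hi : i' = i
    · subst hi
      rw [if_pos rfl]
      rw [Finset.sum_eq_single j]
      · rw [e1, MvPolynomial.coeff_monomial, if_pos rfl]
      · intro j' _ hj
        rw [e1, MvPolynomial.coeff_monomial, if_neg fun h => hj (hinj _ _ h).2]
      · intro hj
        rw [mem_range, not_lt] at hj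
        have : (R.coeff i').coeff j = 0 :=
          coeff_eq_zero_of_natDegree_lt (lt_of_le_of_lt (hN.2 i') (by omega))
        rw [this]
        simp
    · rw [if_neg hi]
      refine sum_eq_zero fun j' _ => ?_
      rw [e1, MvPolynomial.coeff_monomial, if_neg fun h => hi (hinj _ _ h).1]
  rw [sum_congr rfl e3, Finset.sum_ite_eq']
  by_cases hi : i ∈ range (N + 1)
  · rw [if_pos hi]
  · rw [if_neg hi]
    rw [mem_range, not_lt] at hi
    rw [coeff_eq_zero_of_natDegree_lt (n := i) (lt_of_le_of_lt hN.1 (by omega)), coeff_zero]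

private theorem l1_prod {ι : Type} (s : Finset ι) (f : ι → U4) (E : ℕ) (h : ∀ i ∈ s, L1 (f i) ≤ E) :
    L1 (∏ i ∈ s, f i) ≤ E ^ s.card := by
  classical
  induction s using Finset.induction_on with
  | empty =>
    rw [prod_empty, card_empty, pow_zero]
    have : (1 : U4) = MvPolynomial.C 1 := by simp
    rw [this, L1_C]
    simp
  | insert a s ha ih =>
    rw [prod_insert ha, card_insert_of_notMem ha, pow_succ]
    refine (L1_mul _ _).trans ?_
    rw [mul_comm]
    exact Nat.mul_le_mul (ih fun i hi => h i (mem_insert_of_mem hi)) (h a (mem_insert_self a s))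

private theorem numb {D k B : ℕ} (hB : 2 ≤ B) :
    (2 * D).factorial * ((D + 1) ^ 2 * B ^ k) ^ (2 * D) ≤ B ^ ((D + k + 2) ^ 4) := by
  have h1 : (2 * D).factorial ≤ B ^ (4 * D ^ 2) := by
    calc (2 * D).factorial ≤ (2 * D) ^ (2 * D) := Nat.factorial_le_pow _
      _ ≤ (2 ^ (2 * D)) ^ (2 * D) := Nat.pow_le_pow_left (Nat.lt_two_pow_self).le _
      _ ≤ (B ^ (2 * D)) ^ (2 * D) := Nat.pow_le_pow_left (Nat.pow_le_pow_left hB _) _
      _ = B ^ (4 * D ^ 2) := by rw [← pow_mul]; congr 1; ring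
  have h2 : ((D + 1) ^ 2 * B ^ k) ^ (2 * D) ≤ B ^ (4 * D ^ 2 + 2 * k * D) := by
    have h3 : (D + 1) ^ 2 ≤ B ^ (2 * D) := by
      calc (D + 1) ^ 2 ≤ (2 ^ D) ^ 2 := Nat.pow_le_pow_left (Nat.lt_two_pow_self) _
        _ ≤ (B ^ D) ^ 2 := Nat.pow_le_pow_left (Nat.pow_le_pow_left hB _) _
        _ = B ^ (2 * D) := by rw [← pow_mul]; congr 1; ring
    calc ((D + 1) ^ 2 * B ^ k) ^ (2 * D) ≤ (B ^ (2 * D) * B ^ k) ^ (2 * D) :=
          Nat.pow_le_pow_left (Nat.mul_le_mul_right _ h3) _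
      _ = B ^ (4 * D ^ 2 + 2 * k * D) := by rw [← pow_add, ← pow_mul]; congr 1; ring
  calc _ ≤ B ^ (4 * D ^ 2) * B ^ (4 * D ^ 2 + 2 * k * D) := Nat.mul_le_mul h1 h2
    _ = B ^ (4 * D ^ 2 + (4 * D ^ 2 + 2 * k * D)) := by rw [← pow_add]
    _ ≤ B ^ ((D + k + 2) ^ 4) := by
      refine Nat.pow_le_pow_right (by omega) ?_
      have e1 : (D + k + 2) ^ 4 = (D + k + 2) ^ 2 * (D + k + 2) ^ 2 := by ring
      have e2 : (D + 2) ^ 2 ≤ (D + k + 2) ^ 2 := Nat.pow_le_pow_left (by omega) _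
      rcases Nat.eq_zero_or_pos D with h | h
      · subst h; simp
      · have e3 : 9 ≤ (D + k + 2) ^ 2 := by nlinarith
        rw [e1]
        calc 4 * D ^ 2 + (4 * D ^ 2 + 2 * k * D) ≤ 9 * (D + k + 2) ^ 2 := by nlinarith
          _ ≤ (D + k + 2) ^ 2 * (D + k + 2) ^ 2 := Nat.mul_le_mul_right _ e3

private theorem res_size {B k D : ℕ} (hB : 2 ≤ B) (f g : ℤ[X][X][X]) (hf : TD D D D f)
    (hg : TD D D D g) (hfB : ∀ l i j, |((f.coeff l).coeff i).coeff j| ≤ (B : ℤ) ^ k)
    (hgB : ∀ l i j, |((g.coeff l).coeff i).coeff j| ≤ (B : ℤ) ^ k) (i j : ℕ) :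
    |((resultant f g).coeff i).coeff j| ≤ (B : ℤ) ^ ((D + k + 2) ^ 4) := by
  have hE1 : 1 ≤ (D + 1) ^ 2 * B ^ k := Nat.mul_pos (by positivity) (pow_pos (by omega) _)
  have hent : ∀ i j, L1 (emb (sylvester f g f.natDegree g.natDegree i j)) ≤
      (D + 1) ^ 2 * B ^ k := by
    intro i j
    unfold sylvester
    rw [Matrix.of_apply]
    induction j using Fin.addCases with
    | left j =>
      rw [Fin.addCases_left]
      split_ifs
      · exact l1_bd (hg.2 _) (hgB _)
      · rw [map_zero, L1_zero]; exact Nat.zero_le _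
    | right j =>
      rw [Fin.addCases_right]
      split_ifs
      · exact l1_bd (hf.2 _) (hfB _)
      · rw [map_zero, L1_zero]; exact Nat.zero_le _
  have hdet : L1 (emb (resultant f g)) ≤ B ^ ((D + k + 2) ^ 4) := by
    unfold resultant
    rw [Matrix.det_apply, map_sum]
    refine (L1_sum _ _).trans ?_
    have hN : f.natDegree + g.natDegree ≤ 2 * D := by
      have := hf.1
      have := hg.1
      omega
    have h1 : ∀ σ ∈ (univ : Finset (Equiv.Perm (Fin (f.natDegree + g.natDegree)))),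
        L1 (emb (Equiv.Perm.sign σ • ∏ i, sylvester f g f.natDegree g.natDegree (σ i) i)) ≤
          ((D + 1) ^ 2 * B ^ k) ^ (2 * D) := by
      intro σ _
      have h2 : L1 (emb (∏ i, sylvester f g f.natDegree g.natDegree (σ i) i)) ≤
          ((D + 1) ^ 2 * B ^ k) ^ (2 * D) := by
        rw [map_prod]
        refine (l1_prod _ _ _ fun i _ => hent _ _).trans ?_
        rw [card_univ, Fintype.card_fin]
        exact Nat.pow_le_pow_right hE1 hN
      rcases Int.units_eq_one_or (Equiv.Perm.sign σ) with h | h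
      · rw [h, one_smul]
        exact h2
      · rw [h, Units.neg_smul, one_smul, map_neg, L1_neg]
        exact h2
    refine (sum_le_sum h1).trans ?_
    rw [sum_const, card_univ, Fintype.card_perm, Fintype.card_fin, smul_eq_mul]
    exact (Nat.mul_le_mul_right _ (Nat.factorial_le hN)).trans (numb hB)
  have h3 := (coeff_le_L1 (emb (resultant f g)) (Finsupp.single 0 i + Finsupp.single 1 j)).trans hdet
  rw [emb_coeff] at h3
  rw [Int.abs_eq_natAbs]
  exact_mod_cast h3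

private theorem res_root' (p : ℤ[X]) {x : ℤ} (hx : p.eval x = 0) (k : ℕ) (hk : p.natDegree ≤ k)
    (hlead : p.coeff k ≠ 0) : |x| ≤ 1 + ∑ i ∈ range k, |p.coeff i| := by
  by_contra hcon
  rw [not_le] at hcon
  have hS : 0 ≤ ∑ i ∈ range k, |p.coeff i| := sum_nonneg fun i _ => abs_nonneg _
  rw [eval_eq_sum_range' (lt_of_le_of_lt hk (Nat.lt_succ_self k)), sum_range_succ] at hx
  have h1 : |p.coeff k * x ^ k| = |∑ i ∈ range k, p.coeff i * x ^ i| := by
    have h2 : p.coeff k * x ^ k = -(∑ i ∈ range k, p.coeff i * x ^ i) := by linarith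
    rw [h2, abs_neg]
  have h2 : |∑ i ∈ range k, p.coeff i * x ^ i| ≤ ∑ i ∈ range k, |p.coeff i| * |x| ^ i := by
    refine (abs_sum_le_sum_abs _ _).trans (le_of_eq (sum_congr rfl fun i _ => ?_))
    rw [abs_mul, abs_pow]
  rcases Nat.eq_zero_or_pos k with hk0 | hk0
  · subst hk0
    rw [range_zero, sum_empty, abs_zero, pow_zero, mul_one, abs_eq_zero] at h1
    exact hlead h1
  · obtain ⟨l, rfl⟩ : ∃ l, k = l + 1 := ⟨k - 1, by omega⟩
    have h3 : ∑ i ∈ range (l + 1), |p.coeff i| * |x| ^ i ≤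
        (∑ i ∈ range (l + 1), |p.coeff i|) * |x| ^ l := by
      rw [sum_mul]
      refine sum_le_sum fun i hi => mul_le_mul_of_nonneg_left
        (pow_le_pow_right₀ (by linarith) ?_) (abs_nonneg _)
      have := mem_range.1 hi
      omega
    have hxp : 0 ≤ |x| ^ (l + 1) := pow_nonneg (abs_nonneg x) _
    have h4 : |x| ^ (l + 1) ≤ |p.coeff (l + 1) * x ^ (l + 1)| := by
      rw [abs_mul, abs_pow]
      exact le_mul_of_one_le_left hxp (Int.one_le_abs hlead)
    have h5 : (∑ i ∈ range (l + 1), |p.coeff i|) * |x| ^ l < |x| * |x| ^ l :=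
      mul_lt_mul_of_pos_right (by linarith) (pow_pos (by linarith) l)
    rw [pow_succ'] at h4
    linarith

theorem elimU {n m B k D : ℕ} {F G : ℤ[X][X][X]} (hn : 1 ≤ n) (hB : 2 ≤ B) (h : HypG n m F)
    (hF : CB B F) (hk : 1 ≤ k) (hD : n + m ≤ D) (hG0 : G ≠ 0) (hGT : TD D D D G)
    (hGn : G.natDegree < n) (hGB : CB (B ^ k) G) :
    ∃ R R' : ℤ[X][X], R ≠ 0 ∧ R' ≠ 0 ∧ BD (2 * D * D) (2 * D * D) R ∧
      BD (2 * D * D) (2 * D * D) R' ∧
      (∀ i j, |(R.coeff i).coeff j| ≤ (B : ℤ) ^ ((D + k + 2) ^ 4)) ∧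
      (∀ i j, |(R'.coeff i).coeff j| ≤ (B : ℤ) ^ ((D + k + 2) ^ 4)) ∧
      ∀ u x y : ℤ, ev3 u x y F = 0 → ev3 u x y G = 0 →
        evalEval u x R = 0 ∧ evalEval u y R' = 0 := by
  have HF := h.H
  have hcn : F.coeff n ≠ 0 := by
    intro h0
    have hl := h.lead
    rw [h0, coeff_zero] at hl
    exact hl rfl
  have hnat : F.natDegree = n := natDegree_eq_of_le_of_coeff_ne_zero HF.nat hcn
  have hirr := irr_frac h.irr (by omega)
  have h2 : 1 ≤ (Bivariate.swap F).natDegree := by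
    refine hn.trans (le_natDegree_of_ne_zero ?_)
    intro h0
    apply h.lead'
    have h1 := swap_coeff F n 0
    rw [h0, coeff_zero] at h1
    exact h1.symm
  have hFT : TD D D D F := by
    refine ⟨by omega, fun l => ⟨?_, fun i => (HF.deg i l).trans (by omega)⟩⟩
    rw [natDegree_le_iff_coeff_eq_zero]
    intro i hi
    exact HF.tot i l (by omega)
  have hinj : Function.Injective (mapRingHom (algebraMap ℤ[X] (FractionRing ℤ[X]))) :=
    map_injective _ (IsFractionRing.injective ℤ[X] (FractionRing ℤ[X]))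
  have hnd : ¬ F.map (mapRingHom (algebraMap ℤ[X] (FractionRing ℤ[X]))) ∣
      G.map (mapRingHom (algebraMap ℤ[X] (FractionRing ℤ[X]))) := by
    intro hdvd
    have h3 : G.map (mapRingHom (algebraMap ℤ[X] (FractionRing ℤ[X]))) ≠ 0 := by
      rw [Ne, Polynomial.map_eq_zero_iff hinj]
      exact hG0
    have h4 := natDegree_le_of_dvd hdvd h3
    rw [natDegree_map_eq_of_injective hinj, natDegree_map_eq_of_injective hinj] at h4
    omega
  have key : ∀ P Q : ℤ[X][X][X], Irreducible (P.map (mapRingHom (algebraMap ℤ[X] (FractionRing ℤ[X])))) → 1 ≤ P.natDegree →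
      ¬ P.map (mapRingHom (algebraMap ℤ[X] (FractionRing ℤ[X]))) ∣ Q.map (mapRingHom (algebraMap ℤ[X] (FractionRing ℤ[X]))) →
        resultant P Q ≠ 0 := by
    intro P Q k1 k2 k3 k4
    have h5 := res_ne _ _ k1 (by rw [natDegree_map_eq_of_injective hinj]; exact k2) k3
    apply h5
    rw [natDegree_map_eq_of_injective hinj, natDegree_map_eq_of_injective hinj, resultant_map_map, k4, map_zero]
  have hB1 : (1 : ℤ) ≤ B := by exact_mod_cast (by omega : 1 ≤ B)
  have hFB : ∀ l i j, |((F.coeff l).coeff i).coeff j| ≤ (B : ℤ) ^ k := by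
    intro l i j
    refine (hF j i l).trans ?_
    calc (B : ℤ) = (B : ℤ) ^ 1 := (pow_one _).symm
      _ ≤ (B : ℤ) ^ k := pow_le_pow_right₀ hB1 hk
  have hGB' : ∀ l i j, |((G.coeff l).coeff i).coeff j| ≤ (B : ℤ) ^ k := by
    intro l i j
    have h1 := hGB j i l
    push_cast at h1
    exact h1
  refine ⟨resultant F G, resultant (Bivariate.swap F) (Bivariate.swap G),
    key F G hirr (by omega) hnd, key _ _ ?_ h2 ?_, bd_res F G hFT hGT,
    bd_res _ _ (td_swap hFT) (td_swap hGT), fun i j => res_size hB F G hFT hGT hFB hGB' i j,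
    fun i j => res_size hB _ _ (td_swap hFT) (td_swap hGT) ?_ ?_ i j, fun u x y hu hv => ⟨?_, ?_⟩⟩
  · rw [← swap_map]
    exact (MulEquiv.irreducible_iff (Bivariate.swap (R := FractionRing ℤ[X]))).2 hirr
  · rw [← swap_map, ← swap_map]
    intro hdvd
    exact hnd ((map_dvd_iff (Bivariate.swap (R := FractionRing ℤ[X]))).1 hdvd)
  · intro l i j
    rw [swap_coeff]
    exact hFB _ _ _
  · intro l i j
    rw [swap_coeff]
    exact hGB' _ _ _
  · obtain ⟨p, q, -, -, hpq⟩ := exists_mul_add_mul_eq_C_resultant F G le_rfl le_rfl (Or.inl (by omega))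
    exact ev3_mul_add hpq hu hv
  · obtain ⟨p, q, -, -, hpq⟩ := exists_mul_add_mul_eq_C_resultant (Bivariate.swap F) (Bivariate.swap G) le_rfl le_rfl
      (Or.inl (by omega))
    refine ev3_mul_add (x := y) (y := x) hpq ?_ ?_
    · rw [ev3_swap]
      exact hu
    · rw [ev3_swap]
      exact hv

theorem roots_cnt {B k d : ℕ} (hB : 2 ≤ B) {R : ℤ[X][X]} (hR : R ≠ 0) (hd : BD d d R)
    (hk : ∀ i j, |(R.coeff i).coeff j| ≤ (B : ℤ) ^ k) {a : ℤ}
    (ha : (B : ℤ) ^ (k + d + 1) ≤ |a|) :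
    ∃ S : Finset ℤ, S.card ≤ d ∧ ∀ x : ℤ, evalEval a x R = 0 → x ∈ S := by
  classical
  have hlead : R.coeff R.natDegree ≠ 0 := leadingCoeff_ne_zero.2 hR
  have hnz := nz_val hB hlead (hd.2 _) (hk R.natDegree) ha
  have hR0 : R.map (evalRingHom a) ≠ 0 := by
    intro h0
    apply hnz
    have h1 : (R.map (evalRingHom a)).coeff R.natDegree = (R.coeff R.natDegree).eval a := by
      rw [coeff_map]; rfl
    rw [← h1, h0, coeff_zero]
  refine ⟨(R.map (evalRingHom a)).roots.toFinset, ?_, fun x hx => ?_⟩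
  · exact (Multiset.toFinset_card_le _).trans ((card_roots' _).trans
      (natDegree_map_le.trans hd.1))
  · rw [Multiset.mem_toFinset, mem_roots hR0, IsRoot.def]
    rw [← map_evalRingHom_eval] at hx
    exact hx

theorem roots_bd {B k d : ℕ} (hB : 2 ≤ B) {R : ℤ[X][X]} (hR : R ≠ 0) (hd : BD d d R)
    (hk : ∀ i j, |(R.coeff i).coeff j| ≤ (B : ℤ) ^ k) {a : ℤ}
    (ha : (B : ℤ) ^ (k + 2 * d + 2) ≤ |a|) {x : ℤ} (hx : evalEval a x R = 0) :
    |x| ≤ |a| ^ (d + 2) := by
  obtain ⟨l, hl⟩ : ∃ l, l = R.natDegree := ⟨_, rfl⟩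
  have hB1 : (1 : ℤ) ≤ B := by exact_mod_cast (by omega : 1 ≤ B)
  have hB2 : (2 : ℤ) ≤ B := by exact_mod_cast hB
  have hlead : R.coeff l ≠ 0 := by
    rw [hl]
    exact leadingCoeff_ne_zero.2 hR
  have ha' : (B : ℤ) ^ (k + d + 1) ≤ |a| := (pow_le_pow_right₀ hB1 (by omega)).trans ha
  have ha1 : 1 ≤ |a| := (one_le_pow₀ hB1).trans ha
  have hnz := nz_val hB hlead (hd.2 _) (hk l) ha'
  rw [← map_evalRingHom_eval] at hx
  have hc : ∀ i, (R.map (evalRingHom a)).coeff i = (R.coeff i).eval a := by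
    intro i
    rw [coeff_map]
    rfl
  have h4 := res_root' (R.map (evalRingHom a)) hx l (natDegree_map_le.trans hl.ge)
    (by rw [hc]; exact hnz)
  have h5 : ∑ i ∈ range l, |(R.map (evalRingHom a)).coeff i| ≤
      (l : ℤ) * ((d + 1) * (B : ℤ) ^ k * |a| ^ d) := by
    have h6 : ∑ i ∈ range l, |(R.map (evalRingHom a)).coeff i| ≤
        ∑ _i ∈ range l, ((d + 1) * (B : ℤ) ^ k * |a| ^ d) := by
      refine sum_le_sum fun i _ => ?_
      rw [hc]
      exact val_le hB (hd.2 i) (hk i) ha1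
    rw [sum_const, card_range, nsmul_eq_mul] at h6
    exact h6
  have hld : (l : ℤ) ≤ d := by rw [hl]; exact_mod_cast hd.1
  have hBk : (1 : ℤ) ≤ (B : ℤ) ^ k := one_le_pow₀ hB1
  have had : 1 ≤ |a| ^ d := one_le_pow₀ ha1
  have h7 : (1 : ℤ) + d * (d + 1) * (B : ℤ) ^ k ≤ |a| := by
    have e1 : (d : ℤ) ≤ 2 ^ d := by exact_mod_cast (Nat.lt_two_pow_self (n := d)).le
    have e2 : (d : ℤ) + 1 ≤ 2 ^ d := by exact_mod_cast (Nat.lt_two_pow_self (n := d))
    have e3 : (2 : ℤ) ^ d ≤ (B : ℤ) ^ d := pow_le_pow_left₀ (by norm_num) hB2 d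
    have e4 : (d : ℤ) * (d + 1) ≤ (B : ℤ) ^ d * (B : ℤ) ^ d :=
      mul_le_mul (e1.trans e3) (e2.trans e3) (by positivity) (by positivity)
    have e5 : (d : ℤ) * (d + 1) * (B : ℤ) ^ k ≤ (B : ℤ) ^ (k + 2 * d) := by
      calc (d : ℤ) * (d + 1) * (B : ℤ) ^ k ≤ (B : ℤ) ^ d * (B : ℤ) ^ d * (B : ℤ) ^ k :=
            mul_le_mul_of_nonneg_right e4 (by positivity)
        _ = (B : ℤ) ^ (k + 2 * d) := by rw [← pow_add, ← pow_add]; congr 1; ring
    have e6 : (1 : ℤ) ≤ (B : ℤ) ^ (k + 2 * d) := one_le_pow₀ hB1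
    have e7 : (B : ℤ) ^ (k + 2 * d) * 4 ≤ (B : ℤ) ^ (k + 2 * d + 2) := by
      rw [pow_add _ (k + 2 * d) 2]
      apply mul_le_mul_of_nonneg_left _ (by positivity)
      nlinarith
    linarith
  have h8 : (l : ℤ) * ((d + 1) * (B : ℤ) ^ k * |a| ^ d) ≤
      (d * (d + 1) * (B : ℤ) ^ k) * |a| ^ d := by
    have e1 : 0 ≤ ((d : ℤ) + 1) * (B : ℤ) ^ k * |a| ^ d := by positivity
    calc (l : ℤ) * ((d + 1) * (B : ℤ) ^ k * |a| ^ d) ≤
          (d : ℤ) * ((d + 1) * (B : ℤ) ^ k * |a| ^ d) := mul_le_mul_of_nonneg_right hld e1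
      _ = (d * (d + 1) * (B : ℤ) ^ k) * |a| ^ d := by ring
  calc |x| ≤ 1 + (d * (d + 1) * (B : ℤ) ^ k) * |a| ^ d := by linarith
    _ ≤ (1 + d * (d + 1) * (B : ℤ) ^ k) * |a| ^ d := by nlinarith
    _ ≤ |a| * |a| ^ d := mul_le_mul_of_nonneg_right h7 (by linarith)
    _ = |a| ^ (d + 1) := by ring
    _ ≤ |a| ^ (d + 2) := pow_le_pow_right₀ ha1 (by omega)

end Pool.Agent.H97.XU
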