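import Pool.Agent.H97.XU.SZB

/-! # [H97 XU NRB] The point is close to the Newton approximation

`A ≥ B ≥ 2`; `θ` a root of `q0 P(·, t)`, `D0 = dq P(θ, t)`, `|D0| ≥ A^(-κ0)`, `|Y - θ| ≤ A^κ0 ρ`, `|θ| ≤ |Y| + 1 ≤ A + 1 ≤ A²`;
`Φ = θ + D0 η(θ, t, u/D0², w/D0²)`. `κ = 30 (k + kη + κ0 + 1)`.
(1) `u' = u/D0²`, `w' = w/D0²`: `|u'|, |w'| ≤ A^(2κ0) ρ =: ρ' ≤ 1`. `ev_ord` with `A²`: `|η(θ, t, u', w')| ≤ A^(4 kη) ρ'`,
`|D0| ≤ A^(8k)`: `|Φ - θ| ≤ A^(8k + 4kη + 2κ0) ρ ≤ 1`.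
(2) `ev_sbs`: `ev Φ t u w P = ev θ t u' w' (sbs (dq P) η P) = q0 P(θ) + D0² E(θ, t, u', w') = D0² E(..)`, `|..| ≤ A^(16 k + 4 kη) ρ'^(N+1)`.
(3) mean value theorem for `z ↦ ev z t u w P` between `Y` and `Φ` (`ev_deriv`): `P(Y) - P(Φ) = P_Z(ζ) (Y - Φ)`, `|ζ - θ| ≤ max(|Y-θ|, |Φ-θ|)`;
`|P_Z(ζ, t, u, w) - dq P(θ, t)| ≤ |P_Z(ζ,t,u,w) - P_Z(ζ,t,0,0)| + |dq P(ζ) - dq P(θ)|`, the first is at most `A^(8k) ρ` (`pderiv 0` of
`P - q0 P` has order `≥ 1`: `dq P = pderiv 0 (q0 P)`), the second at most `A^(16k) |ζ - θ|` (mean value theorem again). Together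
`≤ A^(-κ0)/2`, so `|P_Z(ζ)| ≥ A^(-κ0-1)` and `|Y - Φ| ≤ A^(κ0+1) A^(16k+4kη) (A^(2κ0) ρ)^(N+1) ≤ A^κ (A^κ ρ)^(N+1)`. -/

namespace Pool.Agent.H97.XU

open Finset

/-- the Newton approximation -/
noncomputable def Phi (P η : U4) (θ t u w : ℝ) : ℝ :=
  θ + ev θ t 0 0 (dq P) * ev θ t (u / (ev θ t 0 0 (dq P)) ^ 2) (w / (ev θ t 0 0 (dq P)) ^ 2) η

private theorem mvt {f f' : ℝ → ℝ} (hf : ∀ z, HasDerivAt f (f' z) z) {x y θ R : ℝ}
    (hx : |x - θ| ≤ R) (hy : |y - θ| ≤ R) :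
    ∃ ζ, |ζ - θ| ≤ R ∧ f y - f x = f' ζ * (y - x) := by
  have hcont : Continuous f := continuous_iff_continuousAt.mpr fun z => (hf z).continuousAt
  rw [abs_le] at hx hy
  rcases lt_trichotomy x y with h | h | h
  · obtain ⟨c, hc, hs⟩ := exists_hasDerivAt_eq_slope f f' h hcont.continuousOn (fun z _ => hf z)
    refine ⟨c, ?_, ?_⟩
    · rw [abs_le]
      constructor <;> linarith [hc.1, hc.2]
    · rw [hs, div_mul_cancel₀ _ (by linarith)]
  · refine ⟨x, ?_, ?_⟩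
    · rw [abs_le]
      exact hx
    · rw [h]
      ring
  · obtain ⟨c, hc, hs⟩ := exists_hasDerivAt_eq_slope f f' h hcont.continuousOn (fun z _ => hf z)
    refine ⟨c, ?_, ?_⟩
    · rw [abs_le]
      constructor <;> linarith [hc.1, hc.2]
    · have h1 : f' c * (x - y) = f x - f y := by rw [hs, div_mul_cancel₀ _ (by linarith)]
      linarith

private theorem ord_pderiv {r : ℕ} {Q : U4} (h : Ord r Q) : Ord r (MvPolynomial.pderiv 0 Q) := by
  intro e he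
  rw [MvPolynomial.mem_support_iff] at he
  have h1 : MvPolynomial.coeff (e + Finsupp.single 0 1) Q ≠ 0 := by
    intro h0
    apply he
    rw [MvPolynomial.coeff_pderiv, h0, zero_mul]
  have h2 := h _ (MvPolynomial.mem_support_iff.mpr h1)
  simpa using h2

theorem newton_near {B k kη κ0 N : ℕ} (hB : 2 ≤ B) {P η E : U4} (hP : Sz B k P) (hη : Sz B kη η)
    (hE : Sz B kη E) (o1 : Ord 1 η) (o2 : Ord (N + 1) E)
    (hid : sbs (dq P) η P = q0 P + dq P ^ 2 * E) {A t : ℝ} (hA : (B : ℝ) ≤ A) (ht : |t| ≤ A)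
    {Y θ u w ρ : ℝ} (hY : |Y| ≤ A) (hu : |u| ≤ ρ) (hw : |w| ≤ ρ)
    (hρ : ρ * A ^ (30 * (k + kη + κ0 + 1)) ≤ 1) (h0 : ev Y t u w P = 0)
    (hθ : ev θ t 0 0 (q0 P) = 0) (hYθ : |Y - θ| ≤ A ^ κ0 * ρ)
    (hD : 1 ≤ A ^ κ0 * |ev θ t 0 0 (dq P)|) :
    |Phi P η θ t u w - θ| ≤ 1 ∧
      |Y - Phi P η θ t u w| ≤ A ^ (30 * (k + kη + κ0 + 1)) *
        (A ^ (30 * (k + kη + κ0 + 1)) * ρ) ^ (N + 1) := by
  have hB' : (2 : ℝ) ≤ B := by exact_mod_cast hB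
  have hA2 : 2 ≤ A := hB'.trans hA
  have hA1 : 1 ≤ A := by linarith
  have hA0 : 0 < A := by linarith
  have hρ0 : 0 ≤ ρ := (abs_nonneg _).trans hu
  have hpw : ∀ n : ℕ, n ≤ 30 * (k + kη + κ0 + 1) → ρ * A ^ n ≤ 1 := fun n hn =>
    (mul_le_mul_of_nonneg_left (pow_le_pow_right₀ hA1 hn) hρ0).trans hρ
  have hρ1 : ρ ≤ 1 := by simpa using hpw 0 (Nat.zero_le _)
  set κ := 30 * (k + kη + κ0 + 1) with hκ
  have hAA : A + 2 ≤ A ^ 2 := by nlinarith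
  have hAA1 : 1 ≤ A ^ 2 := by nlinarith
  have hAAB : (B : ℝ) ≤ A ^ 2 := by nlinarith
  have hAAt : |t| ≤ A ^ 2 := by nlinarith
  have hAA0 : |(0 : ℝ)| ≤ A ^ 2 := by
    rw [abs_zero]
    positivity
  have hθA : |θ| ≤ A + 1 := by
    have h1 : A ^ κ0 * ρ ≤ 1 := by
      have := hpw κ0 (by omega)
      rwa [mul_comm] at this
    have h2 : |θ| ≤ |Y| + |Y - θ| := by
      have := abs_sub_abs_le_abs_sub θ Y
      rw [abs_sub_comm] at this
      linarith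
    linarith
  have hθAA : |θ| ≤ A ^ 2 := by linarith
  set D0 := ev θ t 0 0 (dq P) with hD0
  have hAκ : 0 < A ^ κ0 := by positivity
  have hD0pos : 0 < |D0| := by
    by_contra hcon
    have h1 : |D0| = 0 := le_antisymm (not_lt.mp hcon) (abs_nonneg _)
    rw [h1, mul_zero] at hD
    linarith
  have hD0ne : D0 ≠ 0 := abs_pos.mp hD0pos
  -- (1)
  set ρ' := A ^ (2 * κ0) * ρ with hρ'
  have hρ'0 : 0 ≤ ρ' := by positivity
  have hρ'1 : ρ' ≤ 1 := by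
    have := hpw (2 * κ0) (by omega)
    rwa [mul_comm] at this
  have hsmall : ∀ x : ℝ, |x| ≤ ρ → |x / D0 ^ 2| ≤ ρ' := by
    intro x hx
    rw [abs_div, abs_pow, div_le_iff₀ (by positivity), hρ']
    have h1 : 1 ≤ A ^ (2 * κ0) * |D0| ^ 2 := by
      have h2 : A ^ (2 * κ0) * |D0| ^ 2 = (A ^ κ0 * |D0|) ^ 2 := by
        rw [mul_pow, ← pow_mul, mul_comm κ0 2]
      rw [h2]
      exact one_le_pow₀ hD
    calc |x| ≤ ρ * 1 := by rw [mul_one]; exact hx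
      _ ≤ ρ * (A ^ (2 * κ0) * |D0| ^ 2) := mul_le_mul_of_nonneg_left h1 hρ0
      _ = A ^ (2 * κ0) * ρ * |D0| ^ 2 := by ring
  set u' := u / D0 ^ 2 with hu'
  set w' := w / D0 ^ 2 with hw'
  have hu'ρ : |u'| ≤ ρ' := hsmall u hu
  have hw'ρ : |w'| ≤ ρ' := hsmall w hw
  have hηb : |ev θ t u' w' η| ≤ A ^ (4 * kη) * ρ' := by
    have h1 := ev_ord (A := A ^ 2) hAA1 hAAB hη hθAA hAAt hρ'1 hu'ρ hw'ρ o1
    rw [pow_one, ← pow_mul] at h1
    refine h1.trans (le_of_eq ?_)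
    congr 2
    ring
  have hEb : |ev θ t u' w' E| ≤ A ^ (4 * kη) * ρ' ^ (N + 1) := by
    have h1 := ev_ord (A := A ^ 2) hAA1 hAAB hE hθAA hAAt hρ'1 hu'ρ hw'ρ o2
    rw [← pow_mul] at h1
    refine h1.trans (le_of_eq ?_)
    congr 2
    ring
  have hD0b : |D0| ≤ A ^ (8 * k) := by
    have h1 := ev_bd (A := A ^ 2) (u := 0) (w := 0) hAA1 hAAB (sz_dq hB hP) hθAA hAAt hAA0 hAA0
    rw [← pow_mul] at h1
    refine h1.trans (le_of_eq ?_)
    congr 1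
    ring
  have hΦθ : Phi P η θ t u w - θ = D0 * ev θ t u' w' η := by
    unfold Phi
    ring
  set R := A ^ (8 * k + 4 * kη + 2 * κ0) * ρ with hR
  have hΦR : |Phi P η θ t u w - θ| ≤ R := by
    rw [hΦθ, abs_mul]
    calc |D0| * |ev θ t u' w' η| ≤ A ^ (8 * k) * (A ^ (4 * kη) * ρ') :=
          mul_le_mul hD0b hηb (abs_nonneg _) (by positivity)
      _ = R := by
          rw [hR, hρ', pow_add, pow_add]
          ring
  have hR1 : R ≤ 1 := by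
    have := hpw (8 * k + 4 * kη + 2 * κ0) (by omega)
    rwa [mul_comm] at this
  have hYR : |Y - θ| ≤ R :=
    hYθ.trans (mul_le_mul_of_nonneg_right (pow_le_pow_right₀ hA1 (by omega)) hρ0)
  refine ⟨hΦR.trans hR1, ?_⟩
  -- (2)
  have hΦval : ev (Phi P η θ t u w) t u w P = D0 ^ 2 * ev θ t u' w' E := by
    have h1 := ev_sbs (z := θ) (t := t) (u := u') (w := w') (P := P) (dq P) η
    have h2 : ev θ t u' w' (dq P) = D0 := ev_dq'
    have h3 : D0 ^ 2 * u' = u := by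
      rw [hu']
      field_simp
    have h4 : D0 ^ 2 * w' = w := by
      rw [hw']
      field_simp
    rw [h2, h3, h4] at h1
    have h5 : θ + D0 * ev θ t u' w' η = Phi P η θ t u w := by
      linarith
    rw [h5] at h1
    rw [← h1, hid, map_add, map_mul, map_pow, h2, ev_q0', hθ, zero_add]
  have hΦb : |ev (Phi P η θ t u w) t u w P| ≤ A ^ (16 * k + 4 * kη) * ρ' ^ (N + 1) := by
    rw [hΦval, abs_mul, abs_pow]
    calc |D0| ^ 2 * |ev θ t u' w' E| ≤ (A ^ (8 * k)) ^ 2 * (A ^ (4 * kη) * ρ' ^ (N + 1)) :=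
          mul_le_mul (pow_le_pow_left₀ (abs_nonneg _) hD0b _) hEb (abs_nonneg _) (by positivity)
      _ = A ^ (16 * k + 4 * kη) * ρ' ^ (N + 1) := by
          rw [← pow_mul, pow_add, show 8 * k * 2 = 16 * k by ring]
          ring
  -- (3)
  obtain ⟨ζ, hζ, hmv⟩ := mvt (f := fun z => ev z t u w P)
    (f' := fun z => ev z t u w (MvPolynomial.pderiv 0 P)) (fun z => ev_deriv z t u w P) hYR hΦR
  simp only [h0, sub_zero] at hmv
  have hζA : |ζ| ≤ A ^ 2 := by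
    have h1 : |ζ| ≤ |θ| + |ζ - θ| := by
      have := abs_sub_abs_le_abs_sub ζ θ
      linarith
    linarith
  have hfirst : |ev ζ t u w (MvPolynomial.pderiv 0 P) - ev ζ t 0 0 (dq P)| ≤ A ^ (8 * k) * ρ := by
    have h1 := ev_ord (A := A ^ 2) (r := 1) hAA1 hAAB
      (sz_pderiv hB (sz_sub_q0 hP) 0) hζA hAAt hρ1 hu hw (ord_pderiv (ord_sub_q0 P))
    rw [map_sub, map_sub, pow_one, ← pow_mul] at h1
    have h2 : ev ζ t u w (MvPolynomial.pderiv 0 (q0 P)) = ev ζ t 0 0 (dq P) := ev_dq'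
    rw [h2] at h1
    refine h1.trans (le_of_eq ?_)
    congr 2
    ring
  have hsecond : |ev ζ t 0 0 (dq P) - D0| ≤ A ^ (16 * k) * R := by
    obtain ⟨ξ, hξ, hmv2⟩ := mvt (f := fun z => ev z t 0 0 (dq P))
      (f' := fun z => ev z t 0 0 (MvPolynomial.pderiv 0 (dq P)))
      (fun z => ev_deriv z t 0 0 (dq P)) (x := θ) (y := ζ) (θ := θ) (R := R)
      (by rw [sub_self, abs_zero]; positivity) hζ
    have hξA : |ξ| ≤ A ^ 2 := by
      have h1 : |ξ| ≤ |θ| + |ξ - θ| := by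
        have := abs_sub_abs_le_abs_sub ξ θ
        linarith
      linarith
    have h1 := ev_bd (A := A ^ 2) (u := 0) (w := 0) hAA1 hAAB
      (sz_pderiv hB (sz_dq hB hP) 0) hξA hAAt hAA0 hAA0
    rw [← pow_mul] at h1
    have h2 : 2 * (2 * (2 * (2 * k))) = 16 * k := by ring
    rw [h2] at h1
    rw [hD0, hmv2, abs_mul]
    exact mul_le_mul h1 hζ (abs_nonneg _) (by positivity)
  have hgood : |D0| ≤ 2 * |ev ζ t u w (MvPolynomial.pderiv 0 P)| := by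
    have h1 : |ev ζ t u w (MvPolynomial.pderiv 0 P) - D0| ≤ A ^ (8 * k) * ρ + A ^ (16 * k) * R := by
      have := abs_sub_le (ev ζ t u w (MvPolynomial.pderiv 0 P)) (ev ζ t 0 0 (dq P)) D0
      linarith
    set M := A ^ (24 * k + 4 * kη + 2 * κ0) * ρ with hM
    have hM0 : 0 ≤ M := by positivity
    have h2 : A ^ (8 * k) * ρ ≤ M :=
      mul_le_mul_of_nonneg_right (pow_le_pow_right₀ hA1 (by omega)) hρ0
    have h3 : A ^ (16 * k) * R = M := by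
      rw [hR, hM, ← mul_assoc, ← pow_add]
      congr 2
      ring
    have h4 : A ^ κ0 * (4 * M) ≤ 1 := by
      have h5 := hpw (κ0 + 2 + (24 * k + 4 * kη + 2 * κ0)) (by omega)
      have h6 : A ^ κ0 * (4 * M) ≤ A ^ κ0 * (A ^ 2 * M) := by
        apply mul_le_mul_of_nonneg_left _ hAκ.le
        apply mul_le_mul_of_nonneg_right _ hM0
        nlinarith
      refine h6.trans (le_trans (le_of_eq ?_) h5)
      rw [hM, pow_add, pow_add]
      ring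
    have h5 : 4 * M ≤ |D0| := by
      by_contra hcon
      push Not at hcon
      have := mul_lt_mul_of_pos_left hcon hAκ
      linarith
    have h6 := abs_sub_abs_le_abs_sub D0 (ev ζ t u w (MvPolynomial.pderiv 0 P))
    rw [abs_sub_comm] at h6
    linarith
  have hlow : 1 ≤ A ^ (κ0 + 1) * |ev ζ t u w (MvPolynomial.pderiv 0 P)| := by
    rw [pow_succ]
    have h1 : 1 ≤ A ^ κ0 * (2 * |ev ζ t u w (MvPolynomial.pderiv 0 P)|) :=
      hD.trans (mul_le_mul_of_nonneg_left hgood hAκ.le)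
    have h2 : 0 ≤ A ^ κ0 * |ev ζ t u w (MvPolynomial.pderiv 0 P)| := by positivity
    nlinarith
  have hfin : |Y - Phi P η θ t u w| ≤ A ^ (κ0 + 1) * |ev (Phi P η θ t u w) t u w P| := by
    rw [hmv, abs_mul, abs_sub_comm Y, ← mul_assoc]
    exact le_mul_of_one_le_left (abs_nonneg _) hlow
  refine hfin.trans ((mul_le_mul_of_nonneg_left hΦb (by positivity)).trans ?_)
  rw [← mul_assoc, ← pow_add]
  have h1 : ρ' ≤ A ^ κ * ρ :=
    mul_le_mul_of_nonneg_right (pow_le_pow_right₀ hA1 (by omega)) hρ0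
  exact mul_le_mul (pow_le_pow_right₀ hA1 (by omega)) (pow_le_pow_left₀ hρ'0 h1 _)
    (by positivity) (by positivity)

end Pool.Agent.H97.XU
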