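import Pool.Agent.H97.XU.NWA

/-! # [H97 XU NWT] Newton's method with sizes

Iteration `η_0 = 0`, `η_(r+1) = - TN η_r`, `TN η = η² q2(Z, t, D η) + u · sbs D η P1 + w · sbs D η P2` (`newton_eq`), `D = dq P`, and then
truncation. Three invariants of `η = η_r`:
(1) `Ord 1 η_r`, `Ord (r+1) (η_(r+1) - η_r)`: `TN x - TN y = (x - y) * (element of order ≥ 1)` if `Ord 1 x, Ord 1 y` (difference quotients; or:
the ideal `J = span {X 2, X 3}`, `x - y ∈ J^r → TN x - TN y ∈ J^(r+1)`, and `P ∈ J^r → Ord r P`).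
(2) degrees: `e 0 + e 1 + 2 k ≤ 3 k (e 2 + e 3)` for all `e ∈ η.support`.
(3) weighted norm `W P = ∑_e |c_e| β^(-(e 2 + e 3))`, `β = B^(4 k + 4)` (submultiplicative): `W η ≤ B^(-(2 k + 2))`.
RESULT: `η` = the sum of the monomials of `η_(N+1)` with `e 2 + e 3 ≤ N`. -/

namespace Pool.Agent.H97.XU

open Finset

namespace NWT

/-- the ideal of the elements of order at least `r` -/
noncomputable def oI (r : ℕ) : Ideal U4 where
  carrier := {P | Ord r P}
  zero_mem' := by intro e he; simp at he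
  add_mem' := fun h h' => ord_add h h'
  smul_mem' := by
    intro c x hx
    have h0 : Ord 0 c := fun e _ => Nat.zero_le _
    have := ord_mul h0 hx
    simpa using this

theorem mem_oI {r : ℕ} {P : U4} : P ∈ oI r ↔ Ord r P := Iff.rfl

theorem ord_zero_any (P : U4) : Ord 0 P := fun _ _ => Nat.zero_le _

theorem ord_of_zero (r : ℕ) : Ord r (0 : U4) := by intro e he; simp at he

theorem ord_sub {r : ℕ} {P Q : U4} (h : Ord r P) (h' : Ord r Q) : Ord r (P - Q) := by
  rw [sub_eq_add_neg]; exact ord_add h (ord_neg h')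

theorem ord_X2 : Ord 1 (MvPolynomial.X 2 : U4) := by
  intro e he
  rw [MvPolynomial.support_X, Finset.mem_singleton] at he
  subst he
  simp

theorem ord_X3 : Ord 1 (MvPolynomial.X 3 : U4) := by
  intro e he
  rw [MvPolynomial.support_X, Finset.mem_singleton] at he
  subst he
  simp

theorem ord_aeval_sub {r : ℕ} (f g : Fin 4 → U4) (h : ∀ i, Ord r (f i - g i)) (q : U4) :
    Ord r (MvPolynomial.aeval f q - MvPolynomial.aeval g q) := by
  rw [← mem_oI, ← Ideal.Quotient.mk_eq_mk_iff_sub_mem]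
  have h1 : ∀ F : Fin 4 → U4, Ideal.Quotient.mk (oI r) (MvPolynomial.aeval F q) =
      MvPolynomial.aeval (fun i => Ideal.Quotient.mk (oI r) (F i)) q := by
    intro F
    have := MvPolynomial.map_aeval F (Ideal.Quotient.mk (oI r)) q
    rw [this, MvPolynomial.aeval_def]
    rw [MvPolynomial.coe_eval₂Hom]
    congr 1
  rw [h1, h1]
  congr 2
  funext i
  rw [Ideal.Quotient.mk_eq_mk_iff_sub_mem]
  exact h i

/-- the Newton map -/
noncomputable def TN (D P1 P2 q2 η : U4) : U4 :=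
  η ^ 2 * hsub (D * η) q2 + MvPolynomial.X 2 * sbs D η P1 + MvPolynomial.X 3 * sbs D η P2

variable {D P1 P2 q2 : U4}

theorem ord_TN {x : U4} (hx : Ord 1 x) : Ord 1 (TN D P1 P2 q2 x) := by
  unfold TN
  refine ord_add (ord_add ?_ ?_) ?_
  · have : Ord (1 + 1 + 0) (x * x * hsub (D * x) q2) :=
      ord_mul (ord_mul hx hx) (ord_zero_any _)
    rw [pow_two]
    exact ord_mono this (by norm_num)
  · exact ord_mono (ord_mul ord_X2 (ord_zero_any _)) (by norm_num)
  · exact ord_mono (ord_mul ord_X3 (ord_zero_any _)) (by norm_num)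

theorem ord_hsub_sub {r : ℕ} {x y : U4} (h : Ord r (x - y)) :
    Ord r (hsub (D * x) q2 - hsub (D * y) q2) := by
  unfold hsub
  apply ord_aeval_sub
  intro i
  fin_cases i
  · simpa using ord_of_zero r
  · simpa using ord_of_zero r
  · have : Ord (0 + r) (D * (x - y)) := ord_mul (ord_zero_any _) h
    have h2 : D * x - D * y = D * (x - y) := by ring
    simpa [h2] using this
  · simpa using ord_of_zero r

theorem ord_sbs_sub {r : ℕ} {x y : U4} (P : U4) (h : Ord r (x - y)) :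
    Ord r (sbs D x P - sbs D y P) := by
  unfold sbs
  apply ord_aeval_sub
  intro i
  fin_cases i
  · have : Ord (0 + r) (D * (x - y)) := ord_mul (ord_zero_any _) h
    have h2 : (MvPolynomial.X 0 : U4) + D * x - (MvPolynomial.X 0 + D * y) = D * (x - y) := by ring
    have h3 : Ord r ((MvPolynomial.X 0 : U4) + D * x - (MvPolynomial.X 0 + D * y)) := by
      rw [h2]; simpa using this
    simpa using h3
  · simpa using ord_of_zero r
  · simpa using ord_of_zero r
  · simpa using ord_of_zero r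

theorem ord_TN_sub {r : ℕ} {x y : U4} (hx : Ord 1 x) (hy : Ord 1 y) (h : Ord r (x - y)) :
    Ord (r + 1) (TN D P1 P2 q2 x - TN D P1 P2 q2 y) := by
  have e : TN D P1 P2 q2 x - TN D P1 P2 q2 y =
      ((x - y) * (x + y)) * hsub (D * x) q2 +
      y * y * (hsub (D * x) q2 - hsub (D * y) q2) +
      MvPolynomial.X 2 * (sbs D x P1 - sbs D y P1) +
      MvPolynomial.X 3 * (sbs D x P2 - sbs D y P2) := by
    unfold TN; ring
  rw [e]
  refine ord_add (ord_add (ord_add ?_ ?_) ?_) ?_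
  · exact ord_mono (ord_mul (ord_mul h (ord_add hx hy)) (ord_zero_any _)) (by omega)
  · exact ord_mono (ord_mul (ord_mul hy hy) (ord_hsub_sub h)) (by omega)
  · exact ord_mono (ord_mul ord_X2 (ord_sbs_sub P1 h)) (by omega)
  · exact ord_mono (ord_mul ord_X3 (ord_sbs_sub P2 h)) (by omega)

/-! ### degrees -/

/-- `e 0 + e 1 + a ≤ c (e 2 + e 3) + b` -/
def Dg (c a b : ℕ) (P : U4) : Prop := ∀ e ∈ P.support, e 0 + e 1 + a ≤ c * (e 2 + e 3) + b

theorem dg_zero (c a b : ℕ) : Dg c a b (0 : U4) := by intro e he; simp at he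

theorem dg_weak {c a b a' b' : ℕ} {P : U4} (h : Dg c a b P) (h' : a' + b ≤ a + b') :
    Dg c a' b' P := by
  intro e he
  have := h e he
  omega

theorem dg_add {c a b : ℕ} {P Q : U4} (h : Dg c a b P) (h' : Dg c a b Q) : Dg c a b (P + Q) := by
  intro e he
  rcases Finset.mem_union.1 (MvPolynomial.support_add he) with h1 | h1
  · exact h e h1
  · exact h' e h1

theorem dg_neg {c a b : ℕ} {P : U4} (h : Dg c a b P) : Dg c a b (-P) := by
  intro e he
  rw [MvPolynomial.support_neg] at he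
  exact h e he

theorem dg_mul {c a b a' b' : ℕ} {P Q : U4} (h : Dg c a b P) (h' : Dg c a' b' Q) :
    Dg c (a + a') (b + b') (P * Q) := by
  intro e he
  have h1 := MvPolynomial.support_mul P Q he
  rw [Finset.mem_add] at h1
  obtain ⟨x, hx, y, hy, rfl⟩ := h1
  have h2 := h x hx
  have h3 := h' y hy
  simp only [Finsupp.add_apply]
  have e1 : c * (x 2 + y 2 + (x 3 + y 3)) = c * (x 2 + x 3) + c * (y 2 + y 3) := by ring
  rw [e1]
  omega

theorem dg_C (c : ℕ) (z : ℤ) : Dg c 0 0 (MvPolynomial.C z : U4) := by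
  intro e he
  have h1 : e = 0 := by
    by_contra hne
    rw [MvPolynomial.mem_support_iff, MvPolynomial.coeff_C, if_neg (fun h => hne h.symm)] at he
    exact he rfl
  subst h1
  simp

theorem dg_pow {c b : ℕ} {P : U4} (h : Dg c 0 b P) (j : ℕ) : Dg c 0 (j * b) (P ^ j) := by
  induction j with
  | zero => simpa using dg_C c 1
  | succ j ih =>
    rw [pow_succ]
    have := dg_mul ih h
    exact dg_weak this (by ring_nf; omega)

theorem dg_prod {ι : Type*} {c : ℕ} (s : Finset ι) (f : ι → U4) (b : ι → ℕ)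
    (h : ∀ i ∈ s, Dg c 0 (b i) (f i)) : Dg c 0 (∑ i ∈ s, b i) (∏ i ∈ s, f i) := by
  classical
  induction s using Finset.induction_on with
  | empty => simpa using dg_C c 1
  | insert i s hi ih =>
    rw [Finset.prod_insert hi, Finset.sum_insert hi]
    exact dg_mul (h i (Finset.mem_insert_self _ _))
      (ih fun j hj => h j (Finset.mem_insert_of_mem hj))

theorem dg_sum {ι : Type*} {c a b : ℕ} (s : Finset ι) (f : ι → U4)
    (h : ∀ i ∈ s, Dg c a b (f i)) : Dg c a b (∑ i ∈ s, f i) := by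
  classical
  induction s using Finset.induction_on with
  | empty => simpa using dg_zero c a b
  | insert i s hi ih =>
    rw [Finset.sum_insert hi]
    exact dg_add (h i (Finset.mem_insert_self _ _))
      (ih fun j hj => h j (Finset.mem_insert_of_mem hj))

theorem dg_aeval {c : ℕ} (f : Fin 4 → U4) (h : ∀ i, Dg c 0 1 (f i)) (P : U4) :
    Dg c 0 P.totalDegree (MvPolynomial.aeval f P) := by
  rw [MvPolynomial.aeval_def, MvPolynomial.eval₂_eq']
  apply dg_sum
  intro e he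
  have h1 : Dg c 0 (∑ i : Fin 4, e i * 1) (∏ i : Fin 4, f i ^ e i) :=
    dg_prod _ _ _ (fun i _ => dg_pow (h i) (e i))
  have h2 : Dg c 0 0 ((algebraMap ℤ U4) (MvPolynomial.coeff e P)) := dg_C c _
  have h3 : ∑ i : Fin 4, e i * 1 ≤ P.totalDegree := by
    have := MvPolynomial.le_totalDegree he
    rw [Finsupp.sum_fintype _ _ (fun _ => rfl)] at this
    simpa using this
  exact dg_weak (dg_mul h2 h1) (by omega)

theorem dg_deg {c d : ℕ} {P : U4} (h : P.totalDegree ≤ d) : Dg c 0 d P := by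
  intro e he
  have := MvPolynomial.le_totalDegree he
  rw [Finsupp.sum_fintype _ _ (fun _ => rfl), Fin.sum_univ_four] at this
  omega

theorem dg_X0 (c : ℕ) : Dg c 0 1 (MvPolynomial.X 0 : U4) := by
  intro e he
  rw [MvPolynomial.support_X, Finset.mem_singleton] at he
  subst he
  simp

theorem dg_X1 (c : ℕ) : Dg c 0 1 (MvPolynomial.X 1 : U4) := by
  intro e he
  rw [MvPolynomial.support_X, Finset.mem_singleton] at he
  subst he
  simp

theorem dg_X2 (c : ℕ) : Dg c c 0 (MvPolynomial.X 2 : U4) := by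
  intro e he
  rw [MvPolynomial.support_X, Finset.mem_singleton] at he
  subst he
  simp

theorem dg_X3 (c : ℕ) : Dg c c 0 (MvPolynomial.X 3 : U4) := by
  intro e he
  rw [MvPolynomial.support_X, Finset.mem_singleton] at he
  subst he
  simp

theorem dg_TN {k : ℕ} (hD : D.totalDegree ≤ k) (hq : q2.totalDegree ≤ 2 * k)
    (h1 : P1.totalDegree ≤ k) (h2 : P2.totalDegree ≤ k) {η : U4} (h : Dg (3 * k) (2 * k) 0 η) :
    Dg (3 * k) (2 * k) 0 (TN D P1 P2 q2 η) := by
  have hDη : Dg (3 * k) 0 0 (D * η) := dg_weak (dg_mul (dg_deg (c := 3 * k) hD) h) (by omega)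
  have hh : Dg (3 * k) 0 (2 * k) (hsub (D * η) q2) := by
    unfold hsub
    refine dg_weak (dg_aeval _ ?_ q2) (by omega)
    intro i
    fin_cases i
    · exact dg_X0 _
    · exact dg_X1 _
    · exact dg_weak hDη (by omega)
    · exact dg_zero _ _ _
  have hs : ∀ P : U4, P.totalDegree ≤ k → Dg (3 * k) 0 k (sbs D η P) := by
    intro P hP
    unfold sbs
    refine dg_weak (dg_aeval _ ?_ P) (by omega)
    have hD2 : Dg (3 * k) 0 (2 * k) (D ^ 2) := dg_pow (dg_deg hD) 2
    intro i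
    fin_cases i
    · exact dg_add (dg_X0 _) (dg_weak hDη (by omega))
    · exact dg_X1 _
    · exact dg_weak (dg_mul hD2 (dg_X2 _)) (by omega)
    · exact dg_weak (dg_mul hD2 (dg_X3 _)) (by omega)
  unfold TN
  refine dg_add (dg_add ?_ ?_) ?_
  · rw [pow_two]
    exact dg_weak (dg_mul (dg_mul h h) hh) (by omega)
  · exact dg_weak (dg_mul (dg_X2 _) (hs P1 h1)) (by omega)
  · exact dg_weak (dg_mul (dg_X3 _) (hs P2 h2)) (by omega)

/-! ### the weighted norm -/

/-- `∑ |c_e| g^(e 2 + e 3)` -/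
noncomputable def W (g : ℝ) (P : U4) : ℝ :=
  ∑ e ∈ P.support, |((P.coeff e : ℤ) : ℝ)| * g ^ (e 2 + e 3)

variable {g : ℝ}

theorem W_eq (P : U4) {t : Finset (Fin 4 →₀ ℕ)} (h : P.support ⊆ t) :
    W g P = ∑ e ∈ t, |((P.coeff e : ℤ) : ℝ)| * g ^ (e 2 + e 3) := by
  unfold W
  apply Finset.sum_subset h
  intro e _ he
  rw [MvPolynomial.notMem_support_iff] at he
  simp [he]

theorem W_nonneg (hg : 0 ≤ g) (P : U4) : 0 ≤ W g P := by
  unfold W
  exact Finset.sum_nonneg fun e _ => by positivity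

theorem W_zero : W g (0 : U4) = 0 := by simp [W]

theorem W_add (hg : 0 ≤ g) (P Q : U4) : W g (P + Q) ≤ W g P + W g Q := by
  classical
  rw [W_eq (P + Q) (MvPolynomial.support_add), W_eq P (Finset.subset_union_left (s₂ := Q.support)),
    W_eq Q (Finset.subset_union_right (s₁ := P.support)), ← Finset.sum_add_distrib]
  apply Finset.sum_le_sum
  intro e _
  rw [← add_mul]
  apply mul_le_mul_of_nonneg_right _ (by positivity)
  rw [MvPolynomial.coeff_add]
  push_cast
  exact abs_add_le _ _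

theorem W_neg (P : U4) : W g (-P) = W g P := by
  unfold W
  rw [MvPolynomial.support_neg]
  apply Finset.sum_congr rfl
  intro e _
  rw [MvPolynomial.coeff_neg]
  push_cast
  rw [abs_neg]

theorem W_monomial (e : Fin 4 →₀ ℕ) (c : ℤ) :
    W g (MvPolynomial.monomial e c) = |(c : ℝ)| * g ^ (e 2 + e 3) := by
  classical
  have h : (MvPolynomial.monomial e c : U4).support ⊆ {e} := MvPolynomial.support_monomial_subset
  rw [W_eq _ h]
  simp

theorem W_sum (hg : 0 ≤ g) {ι : Type*} (t : Finset ι) (f : ι → U4) :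
    W g (∑ i ∈ t, f i) ≤ ∑ i ∈ t, W g (f i) := by
  classical
  induction t using Finset.induction_on with
  | empty => simp [W_zero]
  | insert i s hi ih =>
    rw [Finset.sum_insert hi, Finset.sum_insert hi]
    exact (W_add hg _ _).trans (by linarith)

theorem W_mul (hg : 0 ≤ g) (P Q : U4) : W g (P * Q) ≤ W g P * W g Q := by
  have e : P * Q = ∑ x ∈ P.support, ∑ y ∈ Q.support,
      MvPolynomial.monomial (x + y) (P.coeff x * Q.coeff y) := by
    conv_lhs => rw [P.as_sum, Q.as_sum]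
    rw [Finset.sum_mul_sum]
    apply Finset.sum_congr rfl
    intro x _
    apply Finset.sum_congr rfl
    intro y _
    rw [MvPolynomial.monomial_mul]
  rw [e]
  refine (W_sum hg _ _).trans ?_
  unfold W
  rw [Finset.sum_mul_sum]
  apply Finset.sum_le_sum
  intro x _
  refine (W_sum hg _ _).trans ?_
  apply Finset.sum_le_sum
  intro y _
  rw [W_monomial]
  apply le_of_eq
  simp only [Finsupp.add_apply]
  push_cast
  rw [abs_mul]
  ring

theorem W_one : W g (1 : U4) = 1 := by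
  have : (1 : U4) = MvPolynomial.monomial 0 1 := rfl
  rw [this, W_monomial]
  simp

theorem W_pow (hg : 0 ≤ g) (P : U4) (j : ℕ) : W g (P ^ j) ≤ W g P ^ j := by
  induction j with
  | zero => simp [W_one]
  | succ j ih =>
    rw [pow_succ, pow_succ]
    exact (W_mul hg _ _).trans (mul_le_mul_of_nonneg_right ih (W_nonneg hg _))

theorem W_prod (hg : 0 ≤ g) {ι : Type*} (t : Finset ι) (f : ι → U4) :
    W g (∏ i ∈ t, f i) ≤ ∏ i ∈ t, W g (f i) := by
  classical
  induction t using Finset.induction_on with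
  | empty => simp [W_one]
  | insert i s hi ih =>
    rw [Finset.prod_insert hi, Finset.prod_insert hi]
    exact (W_mul hg _ _).trans (mul_le_mul_of_nonneg_left ih (W_nonneg hg _))

theorem W_C (c : ℤ) : W g (MvPolynomial.C c : U4) = |(c : ℝ)| := by
  have : (MvPolynomial.C c : U4) = MvPolynomial.monomial 0 c := rfl
  rw [this, W_monomial]
  simp

theorem W_X0 : W g (MvPolynomial.X 0 : U4) = 1 := by
  have : (MvPolynomial.X 0 : U4) = MvPolynomial.monomial (Finsupp.single 0 1) 1 := rfl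
  rw [this, W_monomial]
  simp

theorem W_X1 : W g (MvPolynomial.X 1 : U4) = 1 := by
  have : (MvPolynomial.X 1 : U4) = MvPolynomial.monomial (Finsupp.single 1 1) 1 := rfl
  rw [this, W_monomial]
  simp

theorem W_X2 : W g (MvPolynomial.X 2 : U4) = g := by
  have : (MvPolynomial.X 2 : U4) = MvPolynomial.monomial (Finsupp.single 2 1) 1 := rfl
  rw [this, W_monomial]
  simp

theorem W_X3 : W g (MvPolynomial.X 3 : U4) = g := by
  have : (MvPolynomial.X 3 : U4) = MvPolynomial.monomial (Finsupp.single 3 1) 1 := rfl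
  rw [this, W_monomial]
  simp

theorem L1_cast (P : U4) : ((L1 P : ℕ) : ℝ) = ∑ e ∈ P.support, |((P.coeff e : ℤ) : ℝ)| := by
  unfold L1
  push_cast
  apply Finset.sum_congr rfl
  intro e _
  rw [Nat.cast_natAbs]
  push_cast
  rfl

theorem W_aeval (hg : 0 ≤ g) {A : ℝ} (hA : 1 ≤ A) (f : Fin 4 → U4) (hf : ∀ i, W g (f i) ≤ A)
    (P : U4) : W g (MvPolynomial.aeval f P) ≤ (L1 P : ℝ) * A ^ P.totalDegree := by
  rw [MvPolynomial.aeval_def, MvPolynomial.eval₂_eq']
  refine (W_sum hg _ _).trans ?_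
  rw [L1_cast, Finset.sum_mul]
  apply Finset.sum_le_sum
  intro e he
  refine (W_mul hg _ _).trans ?_
  have h2 : W g ((algebraMap ℤ U4) (MvPolynomial.coeff e P)) = |((P.coeff e : ℤ) : ℝ)| := W_C _
  rw [h2]
  apply mul_le_mul_of_nonneg_left _ (abs_nonneg _)
  refine (W_prod hg _ _).trans ?_
  have h3 : ∑ i : Fin 4, e i ≤ P.totalDegree := by
    have := MvPolynomial.le_totalDegree he
    rw [Finsupp.sum_fintype _ _ (fun _ => rfl)] at this
    simpa using this
  calc ∏ i : Fin 4, W g (f i ^ e i) ≤ ∏ i : Fin 4, A ^ e i := by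
        apply Finset.prod_le_prod
        · intro i _; exact W_nonneg hg _
        · intro i _
          exact (W_pow hg _ _).trans (pow_le_pow_left₀ (W_nonneg hg _) (hf i) _)
    _ = A ^ (∑ i : Fin 4, e i) := by rw [Finset.prod_pow_eq_pow_sum]
    _ ≤ A ^ P.totalDegree := pow_le_pow_right₀ hA h3

theorem W_le_L1 (hg : 0 ≤ g) (hg1 : g ≤ 1) (P : U4) : W g P ≤ (L1 P : ℝ) := by
  rw [L1_cast]
  unfold W
  apply Finset.sum_le_sum
  intro e _
  have : g ^ (e 2 + e 3) ≤ 1 := pow_le_one₀ hg hg1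
  have := abs_nonneg ((P.coeff e : ℤ) : ℝ)
  nlinarith

theorem W_TN {B k : ℕ} (hB : 2 ≤ B) (hD : (L1 D : ℝ) ≤ (B : ℝ) ^ (2 * k))
    (hq : Sz B (2 * k) q2) (h1 : Sz B k P1) (h2 : Sz B k P2)
    (hg : g = ((B : ℝ) ^ (4 * k + 4))⁻¹) {η : U4} (h : W g η ≤ ((B : ℝ) ^ (2 * k + 2))⁻¹) :
    W g (TN D P1 P2 q2 η) ≤ ((B : ℝ) ^ (2 * k + 2))⁻¹ := by
  have hB' : (2 : ℝ) ≤ B := by exact_mod_cast hB
  have hB1 : (1 : ℝ) ≤ B := by linarith
  have hB0 : (0 : ℝ) < B := by linarith
  have hg0 : 0 < g := by rw [hg]; positivity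
  have hg1 : g ≤ 1 := by
    rw [hg]
    exact inv_le_one_of_one_le₀ (one_le_pow₀ hB1)
  have hb2k : (1 : ℝ) ≤ (B : ℝ) ^ (2 * k) := one_le_pow₀ hB1
  have hWD : W g D ≤ (B : ℝ) ^ (2 * k) := (W_le_L1 hg0.le hg1 D).trans hD
  set s : ℝ := ((B : ℝ) ^ (2 * k + 2))⁻¹ with hs
  have hs0 : 0 < s := by positivity
  have hsB : (B : ℝ) ^ (2 * k) * s ≤ 1 / 4 := by
    rw [hs, pow_add]
    rw [mul_inv, ← mul_assoc, mul_inv_cancel₀ (by positivity), one_mul]
    rw [inv_eq_one_div]
    apply one_div_le_one_div_of_le (by norm_num)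
    nlinarith
  have hWDη : W g (D * η) ≤ 1 := by
    refine (W_mul hg0.le _ _).trans ?_
    have := mul_le_mul hWD h (W_nonneg hg0.le _) (by positivity)
    linarith
  have hhs : W g (hsub (D * η) q2) ≤ (B : ℝ) ^ (2 * k) := by
    unfold hsub
    have h3 : W g (MvPolynomial.aeval ![(MvPolynomial.X 0 : U4), MvPolynomial.X 1, D * η, 0] q2) ≤
        (L1 q2 : ℝ) * 1 ^ q2.totalDegree := by
      apply W_aeval hg0.le le_rfl
      intro i
      fin_cases i
      · exact W_X0.le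
      · exact W_X1.le
      · exact hWDη
      · show W g 0 ≤ 1
        rw [W_zero]; norm_num
    refine h3.trans ?_
    rw [one_pow, mul_one]
    exact_mod_cast hq.2
  have hgB : (B : ℝ) ^ (4 * k) * g ≤ 1 := by
    rw [hg, pow_add, mul_inv, ← mul_assoc, mul_inv_cancel₀ (by positivity), one_mul]
    exact inv_le_one_of_one_le₀ (one_le_pow₀ hB1)
  have hD2 : W g (D ^ 2) * g ≤ 1 := by
    have : W g (D ^ 2) ≤ (B : ℝ) ^ (4 * k) := by
      refine (W_pow hg0.le _ _).trans ?_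
      calc W g D ^ 2 ≤ ((B : ℝ) ^ (2 * k)) ^ 2 := pow_le_pow_left₀ (W_nonneg hg0.le _) hWD 2
        _ = (B : ℝ) ^ (4 * k) := by rw [← pow_mul]; ring_nf
    calc W g (D ^ 2) * g ≤ (B : ℝ) ^ (4 * k) * g := mul_le_mul_of_nonneg_right this hg0.le
      _ ≤ 1 := hgB
  have hsb : ∀ P : U4, Sz B k P → W g (sbs D η P) ≤ (B : ℝ) ^ (2 * k) := by
    intro P hP
    unfold sbs
    have h3 : W g (MvPolynomial.aeval ![(MvPolynomial.X 0 : U4) + D * η, MvPolynomial.X 1,
        D ^ 2 * MvPolynomial.X 2, D ^ 2 * MvPolynomial.X 3] P) ≤ (L1 P : ℝ) * 2 ^ P.totalDegree := by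
      apply W_aeval hg0.le (by norm_num)
      intro i
      fin_cases i
      · show W g ((MvPolynomial.X 0 : U4) + D * η) ≤ 2
        refine (W_add hg0.le _ _).trans ?_
        rw [W_X0]; linarith
      · show W g (MvPolynomial.X 1 : U4) ≤ 2
        rw [W_X1]; norm_num
      · show W g (D ^ 2 * MvPolynomial.X 2) ≤ 2
        refine (W_mul hg0.le _ _).trans ?_
        rw [W_X2]; linarith
      · show W g (D ^ 2 * MvPolynomial.X 3) ≤ 2
        refine (W_mul hg0.le _ _).trans ?_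
        rw [W_X3]; linarith
    refine h3.trans ?_
    have h4 : (L1 P : ℝ) ≤ (B : ℝ) ^ k := by exact_mod_cast hP.2
    have h5 : (2 : ℝ) ^ P.totalDegree ≤ (B : ℝ) ^ k :=
      (pow_le_pow_right₀ (by norm_num) hP.1).trans (pow_le_pow_left₀ (by norm_num) hB' k)
    calc (L1 P : ℝ) * 2 ^ P.totalDegree ≤ (B : ℝ) ^ k * (B : ℝ) ^ k :=
          mul_le_mul h4 h5 (by positivity) (by positivity)
      _ = (B : ℝ) ^ (2 * k) := by rw [← pow_add]; ring_nf
  have hgs : g * (B : ℝ) ^ (2 * k) ≤ s / 4 := by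
    have e1 : (B : ℝ) ^ (4 * k + 4) = (B : ℝ) ^ (2 * k) * (B : ℝ) ^ (2 * k + 2) * (B : ℝ) ^ 2 := by
      rw [← pow_add, ← pow_add]; ring_nf
    have e2 : g * (B : ℝ) ^ (2 * k) = s * ((B : ℝ) ^ 2)⁻¹ := by
      rw [hg, hs, e1, mul_inv, mul_inv]
      field_simp
    rw [e2]
    have : ((B : ℝ) ^ 2)⁻¹ ≤ 1 / 4 := by
      rw [inv_eq_one_div]
      apply one_div_le_one_div_of_le (by norm_num)
      nlinarith
    nlinarith
  unfold TN
  have t1 : W g (η ^ 2 * hsub (D * η) q2) ≤ s / 4 := by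
    refine (W_mul hg0.le _ _).trans ?_
    have : W g (η ^ 2) ≤ s ^ 2 :=
      (W_pow hg0.le _ _).trans (pow_le_pow_left₀ (W_nonneg hg0.le _) h 2)
    calc W g (η ^ 2) * W g (hsub (D * η) q2) ≤ s ^ 2 * (B : ℝ) ^ (2 * k) :=
          mul_le_mul this hhs (W_nonneg hg0.le _) (by positivity)
      _ = s * ((B : ℝ) ^ (2 * k) * s) := by ring
      _ ≤ s * (1 / 4) := mul_le_mul_of_nonneg_left hsB hs0.le
      _ = s / 4 := by ring
  have t2 : W g (MvPolynomial.X 2 * sbs D η P1) ≤ s / 4 := by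
    refine (W_mul hg0.le _ _).trans ?_
    rw [W_X2]
    exact (mul_le_mul_of_nonneg_left (hsb P1 h1) hg0.le).trans hgs
  have t3 : W g (MvPolynomial.X 3 * sbs D η P2) ≤ s / 4 := by
    refine (W_mul hg0.le _ _).trans ?_
    rw [W_X3]
    exact (mul_le_mul_of_nonneg_left (hsb P2 h2) hg0.le).trans hgs
  have := W_add hg0.le (η ^ 2 * hsub (D * η) q2 + MvPolynomial.X 2 * sbs D η P1)
    (MvPolynomial.X 3 * sbs D η P2)
  have := W_add hg0.le (η ^ 2 * hsub (D * η) q2) (MvPolynomial.X 2 * sbs D η P1)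
  linarith

/-! ### truncation -/

/-- the monomials of order at most `N` -/
noncomputable def tr (N : ℕ) (P : U4) : U4 :=
  ∑ e ∈ P.support.filter (fun e => e 2 + e 3 ≤ N), MvPolynomial.monomial e (P.coeff e)

theorem coeff_tr (N : ℕ) (P : U4) (e : Fin 4 →₀ ℕ) :
    (tr N P).coeff e = if e 2 + e 3 ≤ N then P.coeff e else 0 := by
  classical
  unfold tr
  rw [MvPolynomial.coeff_sum]
  simp only [MvPolynomial.coeff_monomial]
  rw [Finset.sum_ite_eq']
  by_cases h : e 2 + e 3 ≤ N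
  · by_cases h' : e ∈ P.support
    · simp [h, h']
    · simp only [Finset.mem_filter, h', false_and, if_false, h, if_true]
      rw [MvPolynomial.notMem_support_iff] at h'
      exact h'.symm
  · simp [h]

theorem mem_tr {N : ℕ} {P : U4} {e : Fin 4 →₀ ℕ} (h : e ∈ (tr N P).support) :
    e ∈ P.support ∧ e 2 + e 3 ≤ N := by
  rw [MvPolynomial.mem_support_iff, coeff_tr] at h
  by_cases h' : e 2 + e 3 ≤ N
  · rw [if_pos h'] at h
    exact ⟨MvPolynomial.mem_support_iff.2 h, h'⟩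
  · rw [if_neg h'] at h
    exact absurd rfl h

theorem ord_sub_tr (N : ℕ) (P : U4) : Ord (N + 1) (P - tr N P) := by
  intro e he
  rw [MvPolynomial.mem_support_iff, MvPolynomial.coeff_sub, coeff_tr] at he
  by_contra hlt
  have : e 2 + e 3 ≤ N := by omega
  rw [if_pos this, sub_self] at he
  exact he rfl

theorem ord_tr {r : ℕ} (N : ℕ) {P : U4} (h : Ord r P) : Ord r (tr N P) :=
  fun e he => h e (mem_tr he).1

theorem dg_tr {c a b : ℕ} (N : ℕ) {P : U4} (h : Dg c a b P) : Dg c a b (tr N P) :=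
  fun e he => h e (mem_tr he).1

theorem W_tr (hg : 0 ≤ g) (N : ℕ) (P : U4) : W g (tr N P) ≤ W g P := by
  have hsub : (tr N P).support ⊆ P.support := fun e he => (mem_tr he).1
  rw [W_eq _ hsub]
  unfold W
  apply Finset.sum_le_sum
  intro e _
  rw [coeff_tr]
  split_ifs
  · exact le_rfl
  · simp only [Int.cast_zero, abs_zero, zero_mul]
    positivity

theorem L1_tr (hg : 0 < g) (hg1 : g ≤ 1) (N : ℕ) (P : U4) :
    (L1 (tr N P) : ℝ) * g ^ N ≤ W g (tr N P) := by
  rw [L1_cast, Finset.sum_mul]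
  unfold W
  apply Finset.sum_le_sum
  intro e he
  apply mul_le_mul_of_nonneg_left _ (abs_nonneg _)
  exact pow_le_pow_of_le_one hg.le hg1 (mem_tr he).2

end NWT

open NWT in
theorem newton {B k : ℕ} (hB : 2 ≤ B) {P : U4} (hP : Sz B k P) (N : ℕ) : ∃ η E : U4,
    Sz B ((k + 2) ^ 8 * (N + 2)) η ∧ Sz B ((k + 2) ^ 8 * (N + 2)) E ∧ Ord 1 η ∧ Ord (N + 1) E ∧
    sbs (dq P) η P = q0 P + dq P ^ 2 * E := by
  obtain ⟨P1, P2, q2, hP1, hP2, hq2, hN⟩ := newton_eq hB hP
  have hB1 : 1 ≤ B := by omega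
  set D : U4 := dq P with hDdef
  have hDs : Sz B (2 * k) D := sz_dq hB hP
  have hDd : D.totalDegree ≤ k := by
    rw [hDdef]
    exact (deg_pderiv 0 (q0 P)).trans (sz_q0 hB1 hP).1
  have hDL : (L1 D : ℝ) ≤ (B : ℝ) ^ (2 * k) := by exact_mod_cast hDs.2
  have hB' : (2 : ℝ) ≤ B := by exact_mod_cast hB
  have hBr1 : (1 : ℝ) ≤ B := by linarith
  have hBr0 : (0 : ℝ) < B := by linarith
  set g : ℝ := ((B : ℝ) ^ (4 * k + 4))⁻¹ with hg
  have hg0 : 0 < g := by positivity
  have hg1 : g ≤ 1 := inv_le_one_of_one_le₀ (one_le_pow₀ hBr1)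
  let T : U4 → U4 := fun η => - TN D P1 P2 q2 η
  have inv : ∀ r : ℕ, Ord 1 (T^[r] 0) ∧ Dg (3 * k) (2 * k) 0 (T^[r] 0) ∧
      W g (T^[r] 0) ≤ ((B : ℝ) ^ (2 * k + 2))⁻¹ := by
    intro r
    induction r with
    | zero =>
      refine ⟨ord_of_zero 1, dg_zero _ _ _, ?_⟩
      show W g 0 ≤ _
      rw [W_zero]; positivity
    | succ r ih =>
      rw [Function.iterate_succ_apply']
      refine ⟨ord_neg (ord_TN ih.1), dg_neg (dg_TN hDd hq2.1 hP1.1 hP2.1 ih.2.1), ?_⟩
      show W g (- TN D P1 P2 q2 (T^[r] 0)) ≤ _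
      rw [W_neg]
      exact W_TN hB hDL hq2 hP1 hP2 hg ih.2.2
  have step : ∀ r : ℕ, Ord (r + 1) (T^[r + 1] 0 - T^[r] 0) := by
    intro r
    induction r with
    | zero =>
      have := (inv 1).1
      simpa using this
    | succ r ih =>
      have e : T^[r + 1 + 1] 0 - T^[r + 1] 0 =
          -(TN D P1 P2 q2 (T^[r + 1] 0) - TN D P1 P2 q2 (T^[r] 0)) := by
        have a1 : T^[r + 1 + 1] 0 = - TN D P1 P2 q2 (T^[r + 1] 0) :=
          Function.iterate_succ_apply' T (r + 1) 0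
        have a2 : T^[r + 1] 0 = - TN D P1 P2 q2 (T^[r] 0) :=
          Function.iterate_succ_apply' T r 0
        generalize T^[r + 1] 0 = y at a1 a2 ⊢
        generalize T^[r] 0 = z at a2 ⊢
        generalize T^[r + 1 + 1] 0 = w at a1 ⊢
        rw [a1]
        nth_rewrite 2 [a2]
        ring
      rw [e]
      exact ord_neg (ord_TN_sub (inv (r + 1)).1 (inv r).1 ih)
  set x : U4 := T^[N + 1] 0 with hx
  set η : U4 := tr N x with hη
  have hxi := inv (N + 1)
  have hη1 : Ord 1 η := ord_tr N hxi.1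
  have hηd : Dg (3 * k) (2 * k) 0 η := dg_tr N hxi.2.1
  have hηW : W g η ≤ ((B : ℝ) ^ (2 * k + 2))⁻¹ := (W_tr hg0.le N x).trans hxi.2.2
  have hηdeg : η.totalDegree ≤ (4 * k + 4) * (N + 1) := by
    unfold MvPolynomial.totalDegree
    apply Finset.sup_le
    intro e he
    have h1 := hηd e he
    have h2 := (mem_tr he).2
    rw [Finsupp.sum_fintype _ _ (fun _ => rfl), Fin.sum_univ_four]
    have h3 : 3 * k * (e 2 + e 3) ≤ 3 * k * N := Nat.mul_le_mul_left _ h2
    nlinarith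
  have hηL : L1 η ≤ B ^ ((4 * k + 4) * (N + 1)) := by
    have h1 := L1_tr hg0 hg1 N x
    have h2 : (L1 η : ℝ) * g ^ N ≤ 1 := by
      refine h1.trans (hηW.trans ?_)
      exact inv_le_one_of_one_le₀ (one_le_pow₀ hBr1)
    have h3 : (L1 η : ℝ) ≤ (B : ℝ) ^ ((4 * k + 4) * N) := by
      have e1 : g ^ N = ((B : ℝ) ^ ((4 * k + 4) * N))⁻¹ := by
        rw [hg, inv_pow, ← pow_mul]
      rw [e1] at h2
      have h4 : (0 : ℝ) < (B : ℝ) ^ ((4 * k + 4) * N) := by positivity
      rw [← div_eq_mul_inv, div_le_one h4] at h2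
      exact h2
    have h5 : (L1 η : ℝ) ≤ (B : ℝ) ^ ((4 * k + 4) * (N + 1)) :=
      h3.trans (pow_le_pow_right₀ hBr1 (Nat.mul_le_mul_left _ (by omega)))
    exact_mod_cast h5
  have hηs : Sz B ((4 * k + 4) * (N + 1)) η := ⟨hηdeg, hηL⟩
  have hl0' : 1 ≤ (4 * k + 4) * (N + 1) := Nat.mul_pos (by omega) (by omega)
  generalize hl0 : (4 * k + 4) * (N + 1) = l0 at hηdeg hηL hηs hl0'
  refine ⟨η, η + TN D P1 P2 q2 η, ?_, ?_, hη1, ?_, ?_⟩
  · refine sz_mono hB1 hηs ?_
    have h8 : (k + 2) ^ 8 = (k + 2) ^ 6 * (k + 2) * (k + 2) := by ring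
    have h6 : 2 ^ 6 ≤ (k + 2) ^ 6 := Nat.pow_le_pow_left (by omega) 6
    have h9 : 4 * (k + 2) ≤ (k + 2) ^ 8 := by
      rw [h8]
      generalize (k + 2) ^ 6 = z at h6 ⊢
      have h10 : 64 * ((k + 2) * (k + 2)) ≤ z * ((k + 2) * (k + 2)) :=
        Nat.mul_le_mul_right _ (by omega)
      have h11 : z * (k + 2) * (k + 2) = z * ((k + 2) * (k + 2)) := by ring
      rw [h11]
      nlinarith
    rw [← hl0]
    generalize (k + 2) ^ 8 = z at h9 ⊢
    exact (Nat.mul_le_mul (by omega : 4 * k + 4 ≤ 4 * (k + 2)) (by omega : N + 1 ≤ N + 2)).trans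
      (Nat.mul_le_mul_right _ h9)
  · have hDη : Sz B (2 * k + l0) (D * η) := sz_mul hDs hηs
    have hX : ∀ i : Fin 4, Sz B 1 (MvPolynomial.X i : U4) := fun i => sz_X hB1 i
    have hh : Sz B (2 * k * (2 * k + l0) + 2 * k) (hsub (D * η) q2) := by
      unfold hsub
      apply sz_aeval hB1 hq2
      intro i
      fin_cases i
      · exact sz_mono hB1 (hX 0) (by omega)
      · exact sz_mono hB1 (hX 1) (by omega)
      · exact hDη
      · exact sz_zero
    have hs : ∀ R : U4, Sz B k R → Sz B (k * (6 * k + l0 + 2) + k) (sbs D η R) := by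
      intro R hR
      unfold sbs
      apply sz_aeval hB1 hR
      intro i
      fin_cases i
      · refine sz_mono hB1 (sz_add hB (hX 0) hDη) ?_
        have : max 1 (2 * k + l0) = 2 * k + l0 := max_eq_right (by omega)
        rw [this]; omega
      · exact sz_mono hB1 (hX 1) (by omega)
      · exact sz_mono hB1 (sz_mul (sz_pow hDs 2) (hX 2)) (by omega)
      · exact sz_mono hB1 (sz_mul (sz_pow hDs 2) (hX 3)) (by omega)
    have t1 := sz_mul (sz_pow hηs 2) hh
    have t2 := sz_mul (hX 2) (hs P1 hP1)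
    have t3 := sz_mul (hX 3) (hs P2 hP2)
    have t4 := sz_add hB (sz_add hB t1 t2) t3
    have t5 := sz_add hB hηs t4
    refine sz_mono hB1 t5 ?_
    obtain ⟨n, hn⟩ : ∃ n, n = N + 2 := ⟨_, rfl⟩
    rw [← hn]
    have hn1 : N + 1 ≤ n := by omega
    have hn2 : 2 ≤ n := by omega
    have b0 : l0 ≤ 4 * (k + 1) * n := by
      rw [← hl0]
      calc (4 * k + 4) * (N + 1) = 4 * (k + 1) * (N + 1) := by ring
        _ ≤ 4 * (k + 1) * n := Nat.mul_le_mul_left _ hn1
    have b1 : 2 * k + l0 ≤ 6 * (k + 1) * n := by nlinarith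
    have b2 : 6 * k + l0 + 2 ≤ 10 * (k + 1) * n := by nlinarith
    have c1 : 2 * l0 + (2 * k * (2 * k + l0) + 2 * k) ≤ 20 * (k + 1) * (k + 1) * n := by
      have := Nat.mul_le_mul_left (2 * k) b1
      nlinarith
    have c2 : 1 + (k * (6 * k + l0 + 2) + k) ≤ 12 * (k + 1) * (k + 1) * n := by
      have := Nat.mul_le_mul_left k b2
      nlinarith
    have c0 : l0 ≤ 20 * (k + 1) * (k + 1) * n := by nlinarith
    have c3 : 1 + (k * (6 * k + l0 + 2) + k) ≤ 20 * (k + 1) * (k + 1) * n := by nlinarith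
    have c4 : max l0 (max (max (2 * l0 + (2 * k * (2 * k + l0) + 2 * k))
        (1 + (k * (6 * k + l0 + 2) + k)) + 1) (1 + (k * (6 * k + l0 + 2) + k)) + 1) + 1 ≤
        20 * (k + 1) * (k + 1) * n + 3 := by
      rcases max_cases l0 (max (max (2 * l0 + (2 * k * (2 * k + l0) + 2 * k))
        (1 + (k * (6 * k + l0 + 2) + k)) + 1) (1 + (k * (6 * k + l0 + 2) + k)) + 1) with h | h <;>
      rcases max_cases (max (2 * l0 + (2 * k * (2 * k + l0) + 2 * k))
        (1 + (k * (6 * k + l0 + 2) + k)) + 1) (1 + (k * (6 * k + l0 + 2) + k)) with h' | h' <;>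
      rcases max_cases (2 * l0 + (2 * k * (2 * k + l0) + 2 * k))
        (1 + (k * (6 * k + l0 + 2) + k)) with h'' | h'' <;> omega
    refine c4.trans ?_
    have h8 : (k + 2) ^ 8 = (k + 2) ^ 6 * ((k + 2) * (k + 2)) := by ring
    have h6 : 2 ^ 6 ≤ (k + 2) ^ 6 := Nat.pow_le_pow_left (by omega) 6
    have h9 : 64 * ((k + 2) * (k + 2)) * n ≤ (k + 2) ^ 8 * n := by
      rw [h8]
      generalize (k + 2) ^ 6 = z at h6 ⊢
      have h66 : 64 ≤ z := by omega
      exact Nat.mul_le_mul_right _ (Nat.mul_le_mul_right _ h66)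
    refine le_trans ?_ h9
    nlinarith [Nat.zero_le (k * k * n), Nat.zero_le (k * n)]
  · have e : η + TN D P1 P2 q2 η = (x - T^[N + 1 + 1] 0) - (x - tr N x) +
        (TN D P1 P2 q2 η - TN D P1 P2 q2 x) := by
      rw [Function.iterate_succ_apply' T (N + 1) 0]
      show η + TN D P1 P2 q2 η = (x - (- TN D P1 P2 q2 x)) - (x - tr N x) + _
      rw [← hη]
      ring
    rw [e]
    refine ord_add (ord_sub ?_ (ord_sub_tr N x)) ?_
    · have := step (N + 1)
      have h2 : x - T^[N + 1 + 1] 0 = -(T^[N + 1 + 1] 0 - T^[N + 1] 0) := by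
        rw [hx]; ring
      rw [h2]
      exact ord_mono (ord_neg this) (by omega)
    · have h3 : Ord (N + 1) (η - x) := by
        have := ord_neg (ord_sub_tr N x)
        have h4 : η - x = -(x - tr N x) := by rw [hη]; ring
        rw [h4]; exact this
      exact ord_mono (ord_TN_sub hη1 hxi.1 h3) (by omega)
  · exact hN η

end Pool.Agent.H97.XU
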