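import Pool.Agent.H97.XU.RUA
import Pool.Agent.H97.XU.NWT
import Pool.Agent.H97.XU.NRB

/-! # [H97 XU RUE] Runge's method: the auxiliary polynomial vanishes at the far points near the roots of `g`

`P = PR n m F` (`Sz B (2n+m+1)`), `newton` with `N = n^2`: sizes `(2n+m+3)^8 (n²+2) ≤ T^19`. `runge_alg`: `I, c, R`. `G = relG c` (`relG_ne`,
`relG_TD` with `I + n² + n ≤ T^26`, `relG_deg`, `relG_coeff`).
Point `(a, x, y)`, `A = a^(m+1) ≥ a ≥ B`, `Y = y/x`, `|Y| ≤ A`, `t = a`, `w = 1/x`, `u = 0`, `ρ = 1/|x|`, `ρ ≤ A^(-T^161)` (as `a^(T^162) ≥ A^(T^161)`).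
`newton_near` (`κ0 = T^6`, `kη = T^19`, `30 (k + kη + κ0 + 1) ≤ T^21`): `|Φ - θ| ≤ 1`, `|Y - Φ| ≤ A^(T^21) (A^(T^21) ρ)^(n²+1) ≤ A^(T^24) ρ^(n²+1)`.
`ev3 a x y G = x^(n²) ∑ c_l a^i w^(n²-k-b) Y^b`. With `Φ` for `Y` the sum is `∑ c_l ev θ a 0 w' (WR D η l)`, `w' = w/D0²`, `= ev θ a 0 w' R / λ(a)^(T^22)`,
`|λ(a)| ≥ 1` (an integer `≠ 0`). A monomial of `R` with `e 2 ≠ 0` vanishes at `u = 0`, the others are at most
`|coeff| |θ|^(e 0) a^(e 1) |w|^(e 3) |D0|^(-2 e 3) ≤ |coeff| A^(2 T^150) A^(2 T^6 T^150) ρ^(n²+1)` (`|θ| ≤ A + 1 ≤ A²`). So the main part is at most `A^(T^158) ρ`, the error at most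
`|x|^(n²) T^29 B^(T^120) a^(T^25) n (A+3)^n A^(T^24) ρ^(n²+1) ≤ A^(T^122) ρ`. Together `< 1`. -/

namespace Pool.Agent.H97.XU

open Finset Polynomial Pool.Agent.H37.TE Pool.Agent.H98.TE Pool.Agent.H4.TP

private theorem rue_R {B K M : ℕ} {R : U4} (hR : Sz B K R)
    (hRs : ∀ e ∈ R.support, e 2 = 0 → M ≤ e 3) {A θ a w ρ : ℝ} (hA : 1 ≤ A) (hB : (B : ℝ) ≤ A)
    (hθ : |θ| ≤ A) (ha : |a| ≤ A) (hw : |w| ≤ ρ) (hρ : ρ ≤ 1) :
    |ev θ a 0 w R| ≤ A ^ (2 * K) * ρ ^ M := by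
  have hρ0 : 0 ≤ ρ := (abs_nonneg _).trans hw
  have h1 : ev θ a 0 w R = ∑ e ∈ R.support, ((R.coeff e : ℤ) : ℝ) *
      (θ ^ (e 0) * a ^ (e 1) * 0 ^ (e 2) * w ^ (e 3)) := by
    unfold ev
    rw [MvPolynomial.coe_eval₂Hom, MvPolynomial.eval₂_eq']
    refine sum_congr rfl fun e _ => ?_
    rw [Fin.prod_univ_four]
    simp only [Matrix.cons_val_zero, Matrix.cons_val_one, Matrix.cons_val, eq_intCast]
  rw [h1]
  refine (abs_sum_le_sum_abs _ _).trans ?_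
  have h2 : ∀ e ∈ R.support, |((R.coeff e : ℤ) : ℝ) *
      (θ ^ (e 0) * a ^ (e 1) * 0 ^ (e 2) * w ^ (e 3))| ≤
      (((R.coeff e).natAbs : ℕ) : ℝ) * (A ^ K * ρ ^ M) := by
    intro e he
    rw [abs_mul]
    have h3 : |((R.coeff e : ℤ) : ℝ)| = (((R.coeff e).natAbs : ℕ) : ℝ) := by
      rw [Nat.cast_natAbs, Int.cast_abs]
    rw [h3]
    refine mul_le_mul_of_nonneg_left ?_ (Nat.cast_nonneg _)
    by_cases h4 : e 2 = 0
    · have h5 := hRs e he h4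
      have h6 : e 0 + e 1 ≤ K := by
        have h7 := MvPolynomial.le_totalDegree he
        rw [Finsupp.sum_fintype _ _ (fun _ => rfl), Fin.sum_univ_four] at h7
        have h8 := hR.1
        omega
      rw [h4, pow_zero, mul_one, abs_mul, abs_mul, abs_pow, abs_pow, abs_pow]
      have h7 : |θ| ^ (e 0) * |a| ^ (e 1) ≤ A ^ K := by
        calc |θ| ^ (e 0) * |a| ^ (e 1) ≤ A ^ (e 0) * A ^ (e 1) := by gcongr
          _ = A ^ (e 0 + e 1) := (pow_add _ _ _).symm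
          _ ≤ A ^ K := pow_le_pow_right₀ hA h6
      have h8 : |w| ^ (e 3) ≤ ρ ^ M := by
        calc |w| ^ (e 3) ≤ ρ ^ (e 3) := by gcongr
          _ ≤ ρ ^ M := pow_le_pow_of_le_one hρ0 hρ h5
      exact mul_le_mul h7 h8 (by positivity) (by positivity)
    · rw [zero_pow h4, mul_zero, zero_mul, abs_zero]
      positivity
  refine (sum_le_sum h2).trans ?_
  rw [← sum_mul, ← Nat.cast_sum]
  have h3 : ((∑ e ∈ R.support, (R.coeff e).natAbs : ℕ) : ℝ) ≤ A ^ K := by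
    have h4 : (L1 R : ℕ) ≤ B ^ K := hR.2
    unfold L1 at h4
    have h5 : ((∑ e ∈ R.support, (R.coeff e).natAbs : ℕ) : ℝ) ≤ ((B ^ K : ℕ) : ℝ) := by
      exact_mod_cast h4
    refine h5.trans ?_
    push_cast
    gcongr
  calc ((∑ e ∈ R.support, (R.coeff e).natAbs : ℕ) : ℝ) * (A ^ K * ρ ^ M) ≤
        A ^ K * (A ^ K * ρ ^ M) := by gcongr
    _ = A ^ (2 * K) * ρ ^ M := by ring

private theorem rue_cb {I n M : ℕ} {Q : ℕ} (c : Lam I n M → ℤ) (hc : ∀ l, |c l| ≤ (Q : ℤ)) :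
    CB Q (relG c) := by
  classical
  intro j a b
  unfold cf3
  rw [relG_coeff]
  by_cases h : ∃ l : Lam I n M, b = (l.2.1 : ℕ) ∧ a = (l.2.2 : ℕ) ∧ j = (l.1 : ℕ)
  · obtain ⟨l0, h1, h2, h3⟩ := h
    rw [sum_eq_single l0]
    · rw [if_pos ⟨h1, h2, h3⟩]
      exact hc l0
    · intro l _ hl
      refine if_neg fun h' => hl ?_
      obtain ⟨e1, e2, e3⟩ := h'
      obtain ⟨i, ⟨k, j⟩⟩ := l
      obtain ⟨i0, ⟨k0, j0⟩⟩ := l0
      simp only at e1 e2 e3 h1 h2 h3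
      have e4 : i = i0 := Fin.ext (e3.symm.trans h3)
      have e5 : k = k0 := Fin.ext (e1.symm.trans h1)
      subst e4 e5
      have e6 : j = j0 := Fin.ext (e2.symm.trans h2)
      rw [e6]
    · intro h4
      exact absurd (mem_univ _) h4
  · push Not at h
    rw [sum_eq_zero fun l _ => if_neg fun h' => h l h'.1 h'.2.1 h'.2.2, abs_zero]
    positivity

private theorem rue_card (I n M : ℕ) : (univ : Finset (Lam I n M)).card ≤ I * (n * (M + 1)) := by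
  rw [card_univ, lam_card]
  refine Nat.mul_le_mul_left _ ?_
  unfold QQ
  refine (sum_le_card_nsmul _ _ (M + 1) fun k _ => Nat.sub_le _ _).trans ?_
  rw [card_univ, Fintype.card_fin, smul_eq_mul]

private theorem rue_main {I n M : ℕ} (c : Lam I n M → ℤ) {a x : ℝ} (hx0 : x ≠ 0) (W : ℝ) :
    ∑ l : Lam I n M, (c l : ℝ) * (a ^ (l.1 : ℕ) * x ^ (l.2.2 : ℕ) * (W * x) ^ (l.2.1 : ℕ)) =
      x ^ M * ∑ l : Lam I n M, (c l : ℝ) *
        (a ^ (l.1 : ℕ) * (1 / x) ^ (M - (l.2.2 : ℕ) - (l.2.1 : ℕ)) * W ^ (l.2.1 : ℕ)) := by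
  rw [mul_sum]
  refine sum_congr rfl fun l _ => ?_
  have h4 : (l.2.2 : ℕ) + (l.2.1 : ℕ) ≤ M := by
    have := l.2.2.isLt
    omega
  obtain ⟨t, ht⟩ : ∃ t, M = (l.2.2 : ℕ) + (l.2.1 : ℕ) + t := ⟨M - l.2.2 - l.2.1, by omega⟩
  have e2 : M - (l.2.2 : ℕ) - (l.2.1 : ℕ) = t := by omega
  rw [e2]
  have e4 : x ^ M = x ^ (l.2.2 : ℕ) * x ^ (l.2.1 : ℕ) * x ^ t := by
    rw [← pow_add, ← pow_add, ← ht]
  rw [e4, mul_pow, one_div, inv_pow]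
  have e6 : x ^ t ≠ 0 := pow_ne_zero _ hx0
  field_simp

/-- the value on the Newton approximation -/
private theorem rue_phi {I n M : ℕ} (c : Lam I n M → ℤ) (P η : U4) {θ a w : ℝ}
    (hD : ev θ a 0 0 (dq P) ≠ 0) :
    ∑ l : Lam I n M, (c l : ℝ) *
      (a ^ (l.1 : ℕ) * w ^ (M - (l.2.2 : ℕ) - (l.2.1 : ℕ)) * (Phi P η θ a 0 w) ^ (l.2.1 : ℕ)) =
    ∑ l, (c l : ℝ) * ev θ a 0 (w / (ev θ a 0 0 (dq P)) ^ 2) (WR (dq P) η l) := by
  refine sum_congr rfl fun l _ => ?_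
  congr 1
  unfold WR Phi
  rw [map_mul, map_mul, map_pow, map_pow, map_pow, map_mul, map_pow, map_add, map_mul]
  have h1 : ∀ z t u w : ℝ, ev z t u w (MvPolynomial.X 1) = t := by
    intro z t u w
    unfold ev
    rw [MvPolynomial.coe_eval₂Hom, MvPolynomial.eval₂_X]
    rfl
  have h2 : ∀ z t u w : ℝ, ev z t u w (MvPolynomial.X 0) = z := by
    intro z t u w
    unfold ev
    rw [MvPolynomial.coe_eval₂Hom, MvPolynomial.eval₂_X]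
    rfl
  have h3 : ∀ z t u w : ℝ, ev z t u w (MvPolynomial.X 3) = w := by
    intro z t u w
    unfold ev
    rw [MvPolynomial.coe_eval₂Hom, MvPolynomial.eval₂_X]
    rfl
  rw [h1, h2, h3, zero_div, ev_dq' (w := w / (ev θ a 0 0 (dq P)) ^ 2)]
  have h4 : (ev θ a 0 0 (dq P)) ^ 2 * (w / (ev θ a 0 0 (dq P)) ^ 2) = w :=
    mul_div_cancel₀ _ (pow_ne_zero 2 hD)
  rw [h4]

private theorem rue_nat {n m T : ℕ} (hn : 3 ≤ n) (hT : n + m + 3 ≤ T) :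
    (2 * n + m + 1 + 2) ^ 8 * (n ^ 2 + 2) ≤ T ^ 19 ∧
    30 * (2 * n + m + 1 + T ^ 19 + T ^ 6 + 1) ≤ T ^ 21 ∧
    T ^ 25 + n ^ 2 + n ≤ T ^ 26 ∧ T ^ 25 * (n * (n ^ 2 + 1)) * n ≤ T ^ 29 ∧ n ^ 2 + 2 ≤ T ^ 2 := by
  have hT6 : 6 ≤ T := by omega
  have hn2 : n ^ 2 + 2 ≤ T ^ 2 := by
    have h1 : (n + 1) ^ 2 ≤ T ^ 2 := Nat.pow_le_pow_left (by omega) 2
    have h2 : n ^ 2 + 2 ≤ (n + 1) ^ 2 := by nlinarith
    exact h2.trans h1
  have p2 : 36 ≤ T ^ 2 := by nlinarith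
  have p4 : 256 ≤ T ^ 4 := by
    have : T ^ 4 = T ^ 2 * T ^ 2 := by ring
    rw [this]
    nlinarith
  refine ⟨?_, ?_, ?_, ?_, hn2⟩
  · have h1 : (2 * n + m + 1 + 2) ^ 8 ≤ (2 * T) ^ 8 := Nat.pow_le_pow_left (by omega) 8
    calc (2 * n + m + 1 + 2) ^ 8 * (n ^ 2 + 2) ≤ (2 * T) ^ 8 * T ^ 2 := Nat.mul_le_mul h1 hn2
      _ = 256 * T ^ 10 := by ring
      _ ≤ T ^ 4 * T ^ 10 := Nat.mul_le_mul_right _ p4
      _ = T ^ 14 := by ring
      _ ≤ T ^ 19 := Nat.pow_le_pow_right (by omega) (by norm_num)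
  · have h1 : 2 * n + m + 2 ≤ T ^ 6 := by
      have h2 : 2 * n + m + 2 ≤ 2 * T := by omega
      have h3 : 2 * T ≤ T ^ 2 := by nlinarith
      have h4 : T ^ 2 ≤ T ^ 6 := Nat.pow_le_pow_right (by omega) (by norm_num)
      omega
    have h5 : 2 * n + m + 1 + T ^ 19 + T ^ 6 + 1 ≤ T ^ 19 + 2 * T ^ 6 := by omega
    have h6 : 2 * T ^ 6 * 6 ≤ T ^ 19 := by
      have h7 : 12 ≤ T ^ 2 := by omega
      calc 2 * T ^ 6 * 6 = 12 * T ^ 6 := by ring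
        _ ≤ T ^ 2 * T ^ 6 := Nat.mul_le_mul_right _ h7
        _ = T ^ 8 := by ring
        _ ≤ T ^ 19 := Nat.pow_le_pow_right (by omega) (by norm_num)
    have h8 : T ^ 21 = T ^ 2 * T ^ 19 := by ring
    have h9 : 36 * T ^ 19 ≤ T ^ 21 := by
      rw [h8]
      exact Nat.mul_le_mul_right _ p2
    omega
  · have h1 : T ^ 26 = T * T ^ 25 := by ring
    have h2 : 6 * T ^ 25 ≤ T ^ 26 := by
      rw [h1]
      exact Nat.mul_le_mul_right _ hT6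
    have h3 : T ^ 2 ≤ T ^ 25 := Nat.pow_le_pow_right (by omega) (by norm_num)
    have h4 : n ≤ T ^ 2 := by nlinarith
    omega
  · have h1 : n * (n ^ 2 + 1) * n ≤ T * T ^ 2 * T :=
      Nat.mul_le_mul (Nat.mul_le_mul (by omega) (by omega)) (by omega)
    calc T ^ 25 * (n * (n ^ 2 + 1)) * n = T ^ 25 * (n * (n ^ 2 + 1) * n) := by ring
      _ ≤ T ^ 25 * (T * T ^ 2 * T) := Nat.mul_le_mul_left _ h1
      _ = T ^ 29 := by ring

theorem runge_aux {n m B T : ℕ} (hn : 3 ≤ n) (hB : 2 ≤ B) (hT : n + m + 3 ≤ T)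
    {F : ℤ[X][X][X]} (h : HypG n m F) (hF : CB B F)
    {g : ℤ[X][X]} (hg : B2 n m (B ^ (T ^ 3)) g) (hg1 : 1 ≤ g.natDegree)
    (hg2 : g.natDegree < n) :
    ∃ G : ℤ[X][X][X], G ≠ 0 ∧ TD (T ^ 26) (T ^ 26) (T ^ 26) G ∧ G.natDegree < n ∧
      CB (B ^ (T ^ 120)) G ∧
      ∀ (a : ℕ) (x y : ℤ) (θ : ℝ), B ≤ a → ev3 (a : ℤ) x y F = 0 →
        |y| ≤ (a : ℤ) ^ (m + 1) * |x| → (a : ℤ) ^ (T ^ 162) ≤ |x| →
        g.leadingCoeff.eval (a : ℤ) ≠ 0 →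
        eval₂ (eval₂RingHom (Int.castRingHom ℝ) (a : ℝ)) θ g = 0 →
        ev θ a 0 0 (q0 (PR n m F)) = 0 →
        |(y : ℝ) / x - θ| ≤ ((a : ℝ) ^ (m + 1)) ^ (T ^ 6) * (1 / |(x : ℝ)|) →
        1 ≤ ((a : ℝ) ^ (m + 1)) ^ (T ^ 6) * |ev θ a 0 0 (dq (PR n m F))| →
        ev3 (a : ℤ) x y G = 0 := by
  obtain ⟨N1, N2, N3, N4, N5⟩ := rue_nat hn hT
  have hP : Sz B (2 * n + m + 1) (PR n m F) := sz_PR hB hF
  obtain ⟨η, E, hη, hE, o1, o2, hid⟩ := newton hB hP (n ^ 2)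
  replace hη := sz_mono (by omega : 1 ≤ B) hη N1
  replace hE := sz_mono (by omega : 1 ≤ B) hE N1
  obtain ⟨I, c, R, hI, hc, hcB, hR, hRs, hid2⟩ := runge_alg hn hB hT h hF hη hg hg1 hg2
  refine ⟨relG c, relG_ne c hc, relG_TD c (by omega), relG_deg c (by omega),
    rue_cb c (fun l => by push_cast; exact hcB l), ?_⟩
  intro a x y θ ha hev hy hax hlam hgθ hqθ hYθ hDθ
  have ha2 : 2 ≤ a := by omega
  have haR : (2 : ℝ) ≤ a := by exact_mod_cast ha2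
  have haB : (B : ℝ) ≤ a := by exact_mod_cast ha
  obtain ⟨A, hAd⟩ : ∃ A : ℝ, A = (a : ℝ) ^ (m + 1) := ⟨_, rfl⟩
  rw [← hAd] at hYθ hDθ
  have haA : (a : ℝ) ≤ A := by
    rw [hAd, pow_succ]
    exact le_mul_of_one_le_left (by linarith) (one_le_pow₀ (by linarith))
  have hA2 : 2 ≤ A := haR.trans haA
  have hA1 : 1 ≤ A := by linarith
  have hA0 : 0 < A := by linarith
  have hxI : (1 : ℤ) ≤ |x| := by
    refine le_trans ?_ hax
    exact_mod_cast Nat.one_le_pow _ _ (by omega)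
  have hxR : (1 : ℝ) ≤ |(x : ℝ)| := by exact_mod_cast hxI
  have hxpos : 0 < |(x : ℝ)| := by linarith
  have hx0 : (x : ℝ) ≠ 0 := by
    intro h0
    rw [h0, abs_zero] at hxpos
    exact lt_irrefl _ hxpos
  have hax' : (a : ℝ) ^ (T ^ 162) ≤ |(x : ℝ)| := by exact_mod_cast hax
  obtain ⟨ρ, hρd⟩ : ∃ ρ : ℝ, ρ = 1 / |(x : ℝ)| := ⟨_, rfl⟩
  rw [← hρd] at hYθ
  have hρ0 : 0 < ρ := by rw [hρd]; positivity
  have hρx : ρ * |(x : ℝ)| = 1 := by rw [hρd]; field_simp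
  -- small powers of A times rho
  have hAx : ∀ e : ℕ, e ≤ T ^ 161 → A ^ e ≤ |(x : ℝ)| := by
    intro e he
    refine le_trans ?_ hax'
    rw [hAd, ← pow_mul]
    refine pow_le_pow_right₀ (by linarith) ?_
    calc (m + 1) * e ≤ T * T ^ 161 := Nat.mul_le_mul (by omega) he
      _ = T ^ 162 := by ring
  have hρA : ∀ e : ℕ, e ≤ T ^ 161 → ρ * A ^ e ≤ 1 := by
    intro e he
    rw [← hρx]
    exact mul_le_mul_of_nonneg_left (hAx e he) hρ0.le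
  have hTp : ∀ i j : ℕ, i ≤ j → T ^ i ≤ T ^ j := fun i j hij =>
    Nat.pow_le_pow_right (by omega) hij
  have hY : |(y : ℝ) / x| ≤ A := by
    rw [abs_div, div_le_iff₀ hxpos, hAd]
    exact_mod_cast hy
  have hD0 : ev θ a 0 0 (dq (PR n m F)) ≠ 0 := by
    intro h0
    rw [h0, abs_zero, mul_zero] at hDθ
    linarith
  have hκ : 30 * (2 * n + m + 1 + T ^ 19 + T ^ 6 + 1) ≤ T ^ 161 := N2.trans (hTp 21 161 (by norm_num))
  obtain ⟨κ, hκd⟩ : ∃ κ, κ = 30 * (2 * n + m + 1 + T ^ 19 + T ^ 6 + 1) := ⟨_, rfl⟩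
  have h0 : ev ((y : ℝ) / x) a 0 (1 / (x : ℝ)) (PR n m F) = 0 := by
    rw [ev_PR h.H hx0]
    have h1 : ev3 (a : ℝ) (x : ℝ) (y : ℝ) F = 0 := by
      have h2 := ev3_cast h.H (a : ℤ) x y
      rw [hev, Int.cast_zero] at h2
      exact_mod_cast h2
    rw [h1, mul_zero]
  have hw : |1 / (x : ℝ)| ≤ ρ := by
    rw [abs_div, abs_one, hρd]
  obtain ⟨hN1, hN2⟩ := newton_near hB hP hη hE o1 o2 hid (A := A) (t := (a : ℝ)) (κ0 := T ^ 6)
    (haB.trans haA) (by rw [abs_of_nonneg (by linarith)]; exact haA) hY (u := 0) (w := 1 / (x : ℝ))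
    (ρ := ρ) (by rw [abs_zero]; exact hρ0.le) hw (by rw [← hκd]; exact hρA κ (by omega)) h0 hqθ
    hYθ hDθ
  rw [← hκd] at hN2
  obtain ⟨Φ, hΦ⟩ : ∃ Φ, Φ = Phi (PR n m F) η θ a 0 (1 / (x : ℝ)) := ⟨_, rfl⟩
  have hphi := rue_phi c (PR n m F) η (θ := θ) (a := (a : ℝ)) (w := 1 / (x : ℝ)) hD0
  rw [← hΦ] at hN1 hN2 hphi
  have h2A : A + 2 ≤ A ^ 2 := by nlinarith
  have hθA : |θ| ≤ A + 1 := by
    have h1 : |(y : ℝ) / x - θ| ≤ 1 := by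
      refine hYθ.trans ?_
      rw [mul_comm]
      exact hρA _ (hTp 6 161 (by norm_num))
    have h3 := abs_sub_abs_le_abs_sub θ ((y : ℝ) / x)
    rw [abs_sub_comm θ] at h3
    linarith
  have hΦA : |Φ| ≤ A + 2 := by
    have h3 := abs_sub_abs_le_abs_sub Φ θ
    linarith
  -- the main term
  have hS1 : |∑ l : Lam I n (n ^ 2), (c l : ℝ) * ((a : ℝ) ^ (l.1 : ℕ) *
      (1 / (x : ℝ)) ^ (n ^ 2 - (l.2.2 : ℕ) - (l.2.1 : ℕ)) * Φ ^ (l.2.1 : ℕ))| ≤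
      A ^ (T ^ 152) * ρ ^ (n ^ 2 + 1) := by
    rw [hphi]
    obtain ⟨D0, hD0d⟩ : ∃ D0, D0 = ev θ a 0 0 (dq (PR n m F)) := ⟨_, rfl⟩
    rw [← hD0d] at hD0 hDθ ⊢
    have h1 := hid2 a θ (1 / (x : ℝ) / D0 ^ 2) hgθ
    have h2 : (1 : ℝ) ≤ |eval₂ (Int.castRingHom ℝ) (a : ℝ) g.leadingCoeff| := by
      have h3 : eval₂ (Int.castRingHom ℝ) (a : ℝ) g.leadingCoeff =
          ((g.leadingCoeff.eval (a : ℤ) : ℤ) : ℝ) := by
        have h4 := eval₂_at_intCast (p := g.leadingCoeff) (Int.castRingHom ℝ) (a : ℤ)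
        rw [Int.cast_natCast] at h4
        rw [h4]
        simp
      rw [h3]
      exact_mod_cast Int.one_le_abs hlam
    have hw' : |1 / (x : ℝ) / D0 ^ 2| ≤ A ^ (2 * T ^ 6) * ρ := by
      rw [abs_div, abs_pow, div_le_iff₀ (by positivity)]
      have h3 : (1 : ℝ) ≤ (A ^ (T ^ 6) * |D0|) ^ 2 := one_le_pow₀ hDθ
      calc |1 / (x : ℝ)| ≤ ρ * 1 := by rw [mul_one]; exact hw
        _ ≤ ρ * (A ^ (T ^ 6) * |D0|) ^ 2 := mul_le_mul_of_nonneg_left h3 hρ0.le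
        _ = A ^ (2 * T ^ 6) * ρ * |D0| ^ 2 := by ring
    have hρ' : A ^ (2 * T ^ 6) * ρ ≤ 1 := by
      rw [mul_comm]
      refine hρA _ ?_
      calc 2 * T ^ 6 ≤ T * T ^ 6 := Nat.mul_le_mul_right _ (by omega)
        _ = T ^ 7 := by ring
        _ ≤ _ := hTp 7 161 (by norm_num)
    have h3 := rue_R hR hRs (A := A ^ 2) (θ := θ) (a := (a : ℝ)) (by nlinarith)
      (by linarith) (by linarith) (by rw [abs_of_nonneg (by linarith)]; linarith) hw' hρ'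
    rw [← h1, abs_mul, abs_pow] at h3
    have h4 : |∑ l, (c l : ℝ) * ev θ a 0 (1 / (x : ℝ) / D0 ^ 2) (WR (dq (PR n m F)) η l)| ≤
        (A ^ 2) ^ (2 * T ^ 150) * (A ^ (2 * T ^ 6) * ρ) ^ (n ^ 2 + 1) := by
      refine le_trans ?_ h3
      exact le_mul_of_one_le_left (abs_nonneg _) (one_le_pow₀ h2)
    refine h4.trans ?_
    rw [mul_pow, ← mul_assoc]
    refine mul_le_mul_of_nonneg_right ?_ (by positivity)
    rw [← pow_mul, ← pow_mul, ← pow_add]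
    refine pow_le_pow_right₀ hA1 ?_
    have e1 : 2 * T ^ 6 * (n ^ 2 + 1) ≤ T ^ 151 := by
      calc 2 * T ^ 6 * (n ^ 2 + 1) ≤ T * T ^ 6 * T ^ 2 :=
            Nat.mul_le_mul (Nat.mul_le_mul_right _ (by omega)) (by omega)
        _ = T ^ 9 := by ring
        _ ≤ _ := hTp 9 151 (by norm_num)
    have e2 : 2 * (2 * T ^ 150) ≤ T ^ 151 := by
      calc 2 * (2 * T ^ 150) = 4 * T ^ 150 := by ring
        _ ≤ T * T ^ 150 := Nat.mul_le_mul_right _ (by omega)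
        _ = T ^ 151 := by ring
    calc 2 * (2 * T ^ 150) + 2 * T ^ 6 * (n ^ 2 + 1) ≤ 2 * T ^ 151 := by omega
      _ ≤ T * T ^ 151 := Nat.mul_le_mul_right _ (by omega)
      _ = T ^ 152 := by ring
  -- the error
  have hS2 : |∑ l : Lam I n (n ^ 2), (c l : ℝ) * ((a : ℝ) ^ (l.1 : ℕ) *
      (1 / (x : ℝ)) ^ (n ^ 2 - (l.2.2 : ℕ) - (l.2.1 : ℕ)) *
      (((y : ℝ) / x) ^ (l.2.1 : ℕ) - Φ ^ (l.2.1 : ℕ)))| ≤ A ^ (T ^ 122) * ρ ^ (n ^ 2 + 1) := by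
    refine (abs_sum_le_sum_abs _ _).trans ?_
    obtain ⟨D, hDd⟩ : ∃ D : ℝ, D = A ^ κ * (A ^ κ * ρ) ^ (n ^ 2 + 1) := ⟨_, rfl⟩
    rw [← hDd] at hN2
    have hD0' : 0 ≤ D := by rw [hDd]; positivity
    have h1 : ∀ l ∈ (univ : Finset (Lam I n (n ^ 2))), |(c l : ℝ) * ((a : ℝ) ^ (l.1 : ℕ) *
        (1 / (x : ℝ)) ^ (n ^ 2 - (l.2.2 : ℕ) - (l.2.1 : ℕ)) *
        (((y : ℝ) / x) ^ (l.2.1 : ℕ) - Φ ^ (l.2.1 : ℕ)))| ≤
        A ^ (T ^ 120) * (A ^ (T ^ 25) * 1 * ((n : ℝ) * A ^ (2 * n) * D)) := by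
      intro l _
      rw [abs_mul, abs_mul, abs_mul, abs_pow, abs_pow, abs_of_nonneg (by linarith : (0 : ℝ) ≤ a)]
      have e1 : |(c l : ℝ)| ≤ A ^ (T ^ 120) := by
        have e2 : |(c l : ℝ)| ≤ (B : ℝ) ^ (T ^ 120) := by exact_mod_cast hcB l
        refine e2.trans (pow_le_pow_left₀ (Nat.cast_nonneg _) (haB.trans haA) _)
      have e3 : (a : ℝ) ^ (l.1 : ℕ) ≤ A ^ (T ^ 25) := by
        refine (pow_le_pow_left₀ (Nat.cast_nonneg _) haA _).trans (pow_le_pow_right₀ hA1 ?_)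
        have := l.1.isLt
        omega
      have e4 : |1 / (x : ℝ)| ^ (n ^ 2 - (l.2.2 : ℕ) - (l.2.1 : ℕ)) ≤ 1 := by
        refine pow_le_one₀ (abs_nonneg _) ?_
        rw [abs_div, abs_one, div_le_one hxpos]
        exact hxR
      have e5 : |((y : ℝ) / x) ^ (l.2.1 : ℕ) - Φ ^ (l.2.1 : ℕ)| ≤ (n : ℝ) * A ^ (2 * n) * D := by
        refine (pow_diff (B := A ^ 2) (by nlinarith) (by linarith) (by linarith) hN2 _).trans ?_
        have e6 : (l.2.1 : ℕ) < n := l.2.1.isLt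
        have e7 : (((l.2.1 : ℕ)) : ℝ) ≤ n := by exact_mod_cast e6.le
        have e8 : (A ^ 2) ^ (l.2.1 : ℕ) ≤ A ^ (2 * n) := by
          rw [← pow_mul]
          exact pow_le_pow_right₀ hA1 (by omega)
        gcongr
      gcongr
    refine (sum_le_card_nsmul _ _ _ h1).trans ?_
    rw [nsmul_eq_mul]
    have h2 : (((univ : Finset (Lam I n (n ^ 2))).card : ℕ) : ℝ) * n ≤ A ^ (T ^ 3) := by
      have h3 : (univ : Finset (Lam I n (n ^ 2))).card * n ≤ T ^ 29 := by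
        refine le_trans (Nat.mul_le_mul_right _ ((rue_card I n (n ^ 2)).trans
          (Nat.mul_le_mul_right _ hI))) N4
      have h4 : T ^ 29 ≤ 2 ^ (T ^ 3) := by
        have h5 : T ≤ 2 ^ T := Nat.lt_two_pow_self.le
        calc T ^ 29 ≤ (2 ^ T) ^ 29 := Nat.pow_le_pow_left h5 _
          _ = 2 ^ (T * 29) := (pow_mul _ _ _).symm
          _ ≤ 2 ^ (T ^ 3) := by
            refine Nat.pow_le_pow_right (by norm_num) ?_
            have h6 : 29 ≤ T ^ 2 := by nlinarith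
            calc T * 29 ≤ T * T ^ 2 := Nat.mul_le_mul_left _ h6
              _ = T ^ 3 := by ring
      have h5 : ((((univ : Finset (Lam I n (n ^ 2))).card * n : ℕ)) : ℝ) ≤ ((2 ^ (T ^ 3) : ℕ) : ℝ) := by
        exact_mod_cast h3.trans h4
      push_cast at h5
      exact h5.trans (pow_le_pow_left₀ (by norm_num) hA2 _)
    have h3 : D ≤ A ^ (T ^ 24) * ρ ^ (n ^ 2 + 1) := by
      rw [hDd, mul_pow, ← mul_assoc, ← pow_mul, ← pow_add]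
      refine mul_le_mul_of_nonneg_right (pow_le_pow_right₀ hA1 ?_) (by positivity)
      calc κ + κ * (n ^ 2 + 1) = κ * (n ^ 2 + 2) := by ring
        _ ≤ T ^ 21 * T ^ 2 := Nat.mul_le_mul (by omega) N5
        _ = T ^ 23 := by ring
        _ ≤ _ := hTp 23 24 (by norm_num)
    calc (((univ : Finset (Lam I n (n ^ 2))).card : ℕ) : ℝ) *
          (A ^ (T ^ 120) * (A ^ (T ^ 25) * 1 * ((n : ℝ) * A ^ (2 * n) * D))) =
          ((((univ : Finset (Lam I n (n ^ 2))).card : ℕ) : ℝ) * n) *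
            (A ^ (T ^ 120) * A ^ (T ^ 25) * A ^ (2 * n)) * D := by ring
      _ ≤ A ^ (T ^ 3) * (A ^ (T ^ 120) * A ^ (T ^ 25) * A ^ (2 * n)) *
            (A ^ (T ^ 24) * ρ ^ (n ^ 2 + 1)) := by gcongr
      _ = A ^ (T ^ 3 + (T ^ 120 + T ^ 25 + 2 * n) + T ^ 24) * ρ ^ (n ^ 2 + 1) := by
          rw [pow_add A (T ^ 3 + (T ^ 120 + T ^ 25 + 2 * n)), pow_add A (T ^ 3),
            pow_add A (T ^ 120 + T ^ 25), pow_add A (T ^ 120)]
          ring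
      _ ≤ A ^ (T ^ 122) * ρ ^ (n ^ 2 + 1) := by
          refine mul_le_mul_of_nonneg_right (pow_le_pow_right₀ hA1 ?_) (by positivity)
          have q1 := hTp 3 120 (by norm_num)
          have q2 := hTp 25 120 (by norm_num)
          have q3 := hTp 24 120 (by norm_num)
          have q4 : 2 * n ≤ T ^ 120 := by
            have q5 : 2 * n ≤ T ^ 2 := by
              have : 2 * T ≤ T ^ 2 := by nlinarith
              omega
            exact q5.trans (hTp 2 120 (by norm_num))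
          have q6 : 5 * T ^ 120 ≤ T ^ 121 := by
            calc 5 * T ^ 120 ≤ T * T ^ 120 := Nat.mul_le_mul_right _ (by omega)
              _ = T ^ 121 := by ring
          have q7 := hTp 121 122 (by norm_num)
          omega
  -- conclusion
  have hreal : |((ev3 (a : ℤ) x y (relG c) : ℤ) : ℝ)| < 1 := by
    rw [relG_ev]
    push_cast
    have e1 : ∀ l : Lam I n (n ^ 2), (c l : ℝ) * ((a : ℝ) ^ (l.1 : ℕ) * (x : ℝ) ^ (l.2.2 : ℕ) *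
        (y : ℝ) ^ (l.2.1 : ℕ)) = (c l : ℝ) * ((a : ℝ) ^ (l.1 : ℕ) * (x : ℝ) ^ (l.2.2 : ℕ) *
        ((y : ℝ) / x * x) ^ (l.2.1 : ℕ)) := by
      intro l
      rw [div_mul_cancel₀ _ hx0]
    rw [sum_congr rfl fun l _ => e1 l, rue_main c hx0]
    have e2 : ∑ l : Lam I n (n ^ 2), (c l : ℝ) * ((a : ℝ) ^ (l.1 : ℕ) *
        (1 / (x : ℝ)) ^ (n ^ 2 - (l.2.2 : ℕ) - (l.2.1 : ℕ)) * ((y : ℝ) / x) ^ (l.2.1 : ℕ)) =
        ∑ l : Lam I n (n ^ 2), (c l : ℝ) * ((a : ℝ) ^ (l.1 : ℕ) *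
          (1 / (x : ℝ)) ^ (n ^ 2 - (l.2.2 : ℕ) - (l.2.1 : ℕ)) * Φ ^ (l.2.1 : ℕ)) +
        ∑ l : Lam I n (n ^ 2), (c l : ℝ) * ((a : ℝ) ^ (l.1 : ℕ) *
          (1 / (x : ℝ)) ^ (n ^ 2 - (l.2.2 : ℕ) - (l.2.1 : ℕ)) *
          (((y : ℝ) / x) ^ (l.2.1 : ℕ) - Φ ^ (l.2.1 : ℕ))) := by
      rw [← sum_add_distrib]
      refine sum_congr rfl fun l _ => ?_
      ring
    rw [e2, abs_mul, abs_pow]
    have e3 := (abs_add_le _ _).trans (add_le_add hS1 hS2)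
    have e4 : A ^ (T ^ 122) ≤ A ^ (T ^ 152) := pow_le_pow_right₀ hA1 (hTp _ _ (by norm_num))
    have e5 : |(x : ℝ)| ^ (n ^ 2) * ρ ^ (n ^ 2 + 1) = ρ := by
      rw [pow_succ ρ (n ^ 2), ← mul_assoc, ← mul_pow, mul_comm |(x : ℝ)|, hρx, one_pow, one_mul]
    have e6 : A ^ (T ^ 152) * 4 ≤ A ^ (T ^ 161) := by
      have e7 : (4 : ℝ) ≤ A ^ 2 := by nlinarith
      calc A ^ (T ^ 152) * 4 ≤ A ^ (T ^ 152) * A ^ 2 := by gcongr
        _ = A ^ (T ^ 152 + 2) := (pow_add _ _ _).symm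
        _ ≤ A ^ (T ^ 161) := by
          refine pow_le_pow_right₀ hA1 ?_
          have e8 : 1 ≤ T ^ 152 := Nat.one_le_pow _ _ (by omega)
          calc T ^ 152 + 2 ≤ 6 * T ^ 152 := by omega
            _ ≤ T * T ^ 152 := Nat.mul_le_mul_right _ (by omega)
            _ = T ^ 153 := by ring
            _ ≤ _ := hTp _ _ (by norm_num)
    have e7 := hρA (T ^ 161) le_rfl
    calc |(x : ℝ)| ^ (n ^ 2) * |_| ≤ |(x : ℝ)| ^ (n ^ 2) *
          (A ^ (T ^ 152) * ρ ^ (n ^ 2 + 1) + A ^ (T ^ 122) * ρ ^ (n ^ 2 + 1)) := by gcongr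
      _ = (A ^ (T ^ 152) + A ^ (T ^ 122)) * (|(x : ℝ)| ^ (n ^ 2) * ρ ^ (n ^ 2 + 1)) := by ring
      _ = (A ^ (T ^ 152) + A ^ (T ^ 122)) * ρ := by rw [e5]
      _ ≤ (A ^ (T ^ 152) * 2) * ρ := by
          refine mul_le_mul_of_nonneg_right ?_ hρ0.le
          linarith
      _ < 1 := by
          have e8 : A ^ (T ^ 152) * 4 * ρ ≤ 1 := by
            refine (mul_le_mul_of_nonneg_right e6 hρ0.le).trans ?_
            rw [mul_comm]
            exact e7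
          linarith
  have hfin : |ev3 (a : ℤ) x y (relG c)| < 1 := by exact_mod_cast hreal
  exact Int.abs_lt_one_iff.1 hfin

end Pool.Agent.H97.XU
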