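import Pool.Agent.H97.XU.FAR
import Pool.Agent.H97.XU.RUE
import Pool.Agent.H97.XU.ELU

/-! # [H97 XU LBT] Reducible top form: Runge's theorem uniform in the family

`T = n + m + 3`. `fac2` (`b2_top`): `topf n F = g * h`, both of positive degree, so of degree `< n` (`top_natDegree`), `2 (n+1)(m+1) + 1 ≤ T^3`. `runge_aux` for `g` and for
`h`: `G1, G2`. `elimU` (`D = T^26`, `k = T^120`): `R1, R2`, sizes `(D+k+2)^4 ≤ T^484`, degrees `2 D² ≤ T^53`.
Let `a ≥ B^(T^490)` and `(a, x, y)` a point. If `|x| ≥ a^(T^162)`, `near_inf` gives `θ` with `topf(a, θ) = 0` (`q0_PR`, `ev_q0_PR`), so `g(a, θ) = 0` or `h(a, θ) = 0`; the leading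
coefficients do not vanish at `a` (their product is that of `topf n F`, `nz_val`). So `G1` or `G2` vanishes (`|y| ≤ a^(m+1) |x|`: `ybdU`), `R1(a, x) = 0` or
`R2(a, x) = 0`, and `roots_bd` gives `|x| ≤ a^(T^53 + 2)`. So always `|x| ≤ a^(T^162)`, `|y| ≤ a^(m+1+T^162)`. -/

namespace Pool.Agent.H97.XU

open Finset Polynomial Pool.Agent.H37.TE Pool.Agent.H98.TE Pool.Agent.H4.TP Pool.Agent.H4.SX

private theorem lbt_pw {T : ℕ} (hT : 6 ≤ T) {i j : ℕ} (h : i < j) : 3 * T ^ i ≤ T ^ j := by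
  have h1 : T ^ (i + 1) ≤ T ^ j := Nat.pow_le_pow_right (by omega) h
  have h2 : 6 * T ^ i ≤ T * T ^ i := Nat.mul_le_mul_right _ hT
  rw [pow_succ'] at h1
  have h3 : 3 * T ^ i ≤ 6 * T ^ i := Nat.mul_le_mul_right _ (by norm_num)
  exact h3.trans (h2.trans h1)

private theorem lbt_b2 {n m B B' : ℕ} {g : ℤ[X][X]} (h : B2 n m B g) (hBB : B ≤ B') :
    B2 n m B' g := by
  refine ⟨h.1, h.2.1, fun i j => (h.2.2 i j).trans ?_⟩
  exact_mod_cast hBB

private theorem lbt_bd {d d' : ℕ} {R : ℤ[X][X]} (h : BD d d R) (hd : d ≤ d') : BD d' d' R :=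
  ⟨h.1.trans hd, fun j => (h.2 j).trans hd⟩

/-- one factor of the top form -/
private theorem lbt_one {n m B T : ℕ} (hn : 3 ≤ n) (hB : 2 ≤ B) (hT : n + m + 3 ≤ T)
    {F : ℤ[X][X][X]} (h : HypG n m F) (hF : CB B F)
    {g : ℤ[X][X]} (hg : B2 n m (B ^ (T ^ 3)) g) (hg1 : 1 ≤ g.natDegree)
    (hg2 : g.natDegree < n) (a : ℕ) (ha : B ^ (T ^ 490) ≤ a) (x y : ℤ) (θ : ℝ)
    (hxy : ev3 (a : ℤ) x y F = 0) (hy : |y| ≤ (a : ℤ) ^ (m + 1) * |x|)
    (hx : (a : ℤ) ^ (T ^ 162) ≤ |x|)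
    (hθ : eval₂ (eval₂RingHom (Int.castRingHom ℝ) (a : ℝ)) θ g = 0)
    (h1 : ev θ a 0 0 (q0 (PR n m F)) = 0)
    (h2 : |(y : ℝ) / x - θ| ≤ ((a : ℝ) ^ (m + 1)) ^ (T ^ 6) * (1 / |(x : ℝ)|))
    (h3 : 1 ≤ ((a : ℝ) ^ (m + 1)) ^ (T ^ 6) * |ev θ a 0 0 (dq (PR n m F))|) :
    |x| ≤ (a : ℤ) ^ (T ^ 53 + 2) := by
  have hT6 : 6 ≤ T := by omega
  have hT0 : 1 ≤ T := by omega
  have hTT : T ≤ T ^ 490 := Nat.le_self_pow (by norm_num) T
  have hBp : ∀ e : ℕ, e ≤ T ^ 490 → B ^ e ≤ a := fun e he =>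
    (Nat.pow_le_pow_right (by omega) he).trans ha
  have habs : |(a : ℤ)| = a := abs_of_nonneg (Int.natCast_nonneg a)
  obtain ⟨G, hG0, hGT, hGn, hGB, hG⟩ := runge_aux hn hB hT h hF hg hg1 hg2
  have hD : n + m ≤ T ^ 26 := by
    have := Nat.le_self_pow (show 26 ≠ 0 by norm_num) T
    omega
  obtain ⟨R, R', hR, -, hRd, -, hRc, -, hz⟩ := elimU (k := T ^ 120) (D := T ^ 26) (by omega) hB h hF
    (Nat.one_le_pow _ _ (by omega)) hD hG0 hGT hGn hGB
  have e1 : T ^ 26 + T ^ 120 + 2 ≤ T ^ 121 := by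
    have g1 := lbt_pw hT6 (show 26 < 120 by norm_num)
    have g2 := lbt_pw hT6 (show 120 < 121 by norm_num)
    have g3 : 1 ≤ T ^ 26 := Nat.one_le_pow _ _ (by omega)
    omega
  have e2 : (T ^ 26 + T ^ 120 + 2) ^ 4 ≤ T ^ 484 := by
    refine (Nat.pow_le_pow_left e1 4).trans (le_of_eq ?_)
    rw [← pow_mul]
  have e3 : 2 * T ^ 26 * T ^ 26 ≤ T ^ 53 := by
    have g1 := lbt_pw hT6 (show 52 < 53 by norm_num)
    have g2 : 2 * T ^ 26 * T ^ 26 = 2 * T ^ 52 := by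
      rw [mul_assoc, ← pow_add]
    rw [g2]
    omega
  have e4 : T ^ 484 + 2 * T ^ 53 + 2 ≤ T ^ 490 := by
    have g1 := lbt_pw hT6 (show 53 < 484 by norm_num)
    have g2 := lbt_pw hT6 (show 484 < 490 by norm_num)
    have g3 : 1 ≤ T ^ 53 := Nat.one_le_pow _ _ (by omega)
    omega
  have hlc : g.leadingCoeff.eval (a : ℤ) ≠ 0 := by
    have hg0 : g ≠ 0 := by
      rintro rfl
      rw [natDegree_zero] at hg1
      omega
    refine nz_val (k := T ^ 3) (d := m) hB (leadingCoeff_ne_zero.2 hg0) (hg.2.1 _) (fun i => ?_) ?_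
    · have := hg.2.2 g.natDegree i
      push_cast at this
      exact this
    · rw [habs]
      have g1 := lbt_pw hT6 (show 3 < 490 by norm_num)
      have g2 := Nat.le_self_pow (show 3 ≠ 0 by norm_num) T
      exact_mod_cast hBp (T ^ 3 + m + 1) (by omega)
  have hv := hG a x y θ (by
      have := hBp 1 (Nat.one_le_pow _ _ (by omega))
      rwa [pow_one] at this) hxy hy hx hlc hθ h1 h2 h3
  have hb := roots_bd (k := T ^ 484) (d := T ^ 53) hB hR (lbt_bd hRd e3) (fun i j => by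
    refine (hRc i j).trans ?_
    exact pow_le_pow_right₀ (by exact_mod_cast (by omega : 1 ≤ B)) e2) (a := (a : ℤ)) (by
      rw [habs]
      exact_mod_cast hBp _ e4) (hz _ _ _ hxy hv).1
  rwa [habs] at hb

theorem far_beta {n m B : ℕ} (hn : 3 ≤ n) (hB : 2 ≤ B) {F : ℤ[X][X][X]} (h : HypG n m F)
    (hF : CB B F) (hβ : Beta (topf n F)) : Far B ((n + m + 3) ^ 490) F := by
  obtain ⟨T, hT⟩ : ∃ T, T = n + m + 3 := ⟨_, rfl⟩
  rw [← hT]
  have hT6 : 6 ≤ T := by omega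
  have hdeg : (topf n F).natDegree = n := top_natDegree h
  have hf0 : topf n F ≠ 0 := by
    intro h0
    rw [h0, natDegree_zero] at hdeg
    omega
  obtain ⟨g, k, hgk, hg1, hk1, hgB, hkB⟩ := fac2 hB (b2_top h.H hF) hf0 hβ
  have hsum : g.natDegree + k.natDegree = n := by
    have hg0 : g ≠ 0 := by
      rintro rfl
      rw [natDegree_zero] at hg1
      omega
    have hk0 : k ≠ 0 := by
      rintro rfl
      rw [natDegree_zero] at hk1
      omega
    rw [← natDegree_mul hg0 hk0, ← hgk, hdeg]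
  have hsz : B ^ (2 * ((n + 1) * (m + 1)) + 1) ≤ B ^ (T ^ 3) := by
    refine Nat.pow_le_pow_right (by omega) ?_
    have g1 : (n + 1) * (m + 1) ≤ T * T := Nat.mul_le_mul (by omega) (by omega)
    have g2 := lbt_pw hT6 (show 2 < 3 by norm_num)
    have g3 : T ^ 2 = T * T := sq T
    have g4 : 1 ≤ T * T := Nat.mul_pos (by omega) (by omega)
    rw [g3] at g2
    omega
  have hgB' := lbt_b2 hgB hsz
  have hkB' := lbt_b2 hkB hsz
  intro a ha x y hxy
  have hBp : ∀ e : ℕ, e ≤ T ^ 490 → B ^ e ≤ a := fun e he =>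
    (Nat.pow_le_pow_right (by omega) he).trans ha
  have hT8 : 3 * T ^ 8 ≤ T ^ 490 := lbt_pw hT6 (by norm_num)
  have hTself : T ≤ T ^ 8 := Nat.le_self_pow (by norm_num) T
  have hyb := ybdU (by omega) hB h hF (hBp (2 * n + m + 2) (by omega)) hxy
  have ha1 : (1 : ℤ) ≤ a := by
    have g1 := hBp 0 (Nat.zero_le _)
    rw [pow_zero] at g1
    exact_mod_cast g1
  have hx : |x| ≤ (a : ℤ) ^ (T ^ 162) := by
    by_contra hcon
    rw [not_le] at hcon
    have hx1 : 1 ≤ |x| := le_trans (one_le_pow₀ ha1) hcon.le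
    rw [max_eq_right hx1] at hyb
    obtain ⟨θ, t1, t2, t3⟩ := near_inf hn hB (le_of_eq hT.symm) h hF (hBp _ (by omega)) hxy
      (le_trans (pow_le_pow_right₀ ha1 (Nat.pow_le_pow_right (by omega) (by norm_num))) hcon.le)
    have hprod : eval₂ (eval₂RingHom (Int.castRingHom ℝ) (a : ℝ)) θ g *
        eval₂ (eval₂RingHom (Int.castRingHom ℝ) (a : ℝ)) θ k = 0 := by
      rw [← eval₂_mul, ← hgk, ← ev_q0_PR h.H]
      exact t1
    have hle : |x| ≤ (a : ℤ) ^ (T ^ 53 + 2) := by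
      rcases mul_eq_zero.1 hprod with h0 | h0
      · exact lbt_one hn hB (le_of_eq hT.symm) h hF hgB' hg1 (by omega) a ha x y θ hxy hyb hcon.le
          h0 t1 t2 t3
      · exact lbt_one hn hB (le_of_eq hT.symm) h hF hkB' hk1 (by omega) a ha x y θ hxy hyb hcon.le
          h0 t1 t2 t3
    have hle2 : (a : ℤ) ^ (T ^ 53 + 2) ≤ (a : ℤ) ^ (T ^ 162) := by
      refine pow_le_pow_right₀ ha1 ?_
      have g1 := lbt_pw hT6 (show 53 < 162 by norm_num)
      have g2 : 1 ≤ T ^ 53 := Nat.one_le_pow _ _ (by omega)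
      omega
    exact absurd (hle.trans hle2) (not_le.2 hcon)
  constructor
  · exact hx.trans (pow_le_pow_right₀ ha1 (Nat.pow_le_pow_right (by omega) (by norm_num)))
  · refine hyb.trans ?_
    have hmax : max 1 |x| ≤ (a : ℤ) ^ (T ^ 162) := max_le (one_le_pow₀ ha1) hx
    calc (a : ℤ) ^ (m + 1) * max 1 |x| ≤ (a : ℤ) ^ (m + 1) * (a : ℤ) ^ (T ^ 162) :=
          mul_le_mul_of_nonneg_left hmax (by positivity)
      _ = (a : ℤ) ^ (m + 1 + T ^ 162) := by rw [← pow_add]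
      _ ≤ (a : ℤ) ^ (T ^ 490) := by
          refine pow_le_pow_right₀ ha1 ?_
          have g1 := lbt_pw hT6 (show 162 < 490 by norm_num)
          have g2 := Nat.le_self_pow (show 162 ≠ 0 by norm_num) T
          omega

end Pool.Agent.H97.XU
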