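import Pool.Agent.H97.XU.SMU
import Pool.Agent.H97.XU.FAR
import Pool.Agent.H4.SX.SYM

/-! # [H97 XU SYU] The exchange of `x` and `y`, and `t ↦ -t`, for the quantities of XU

`swF_coeff`: `cf3 (swF F) j a b = cf3 F j b a`. `cf3_ng`: `cf3 (ngF F) j a b = (-1)^j cf3 F j a b`. `swF_ev3`. -/

namespace Pool.Agent.H97.XU

open Finset Polynomial Pool.Agent.H37.TE Pool.Agent.H98.TE Pool.Agent.H4.TE Pool.Agent.H4.TP
  Pool.Agent.H4.SX

variable {n m B C : ℕ} {F : ℤ[X][X][X]}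

private theorem cf3_sw (F : ℤ[X][X][X]) (j a b : ℕ) :
    cf3 (Pool.Agent.H98.TE.swF F) j a b = cf3 F j b a := by
  unfold cf3
  rw [Pool.Agent.H98.TE.swF_coeff]

theorem cb_sw (hF : CB B F) : CB B (Pool.Agent.H98.TE.swF F) := by
  intro j a b
  rw [cf3_sw]
  exact hF j b a

theorem cb_ng (hF : CB B F) : CB B (ngF F) := by
  intro j a b
  rw [cf3_ng, abs_mul, abs_pow, abs_neg, abs_one, one_pow, one_mul]
  exact hF j a b

theorem prp_sw (h : Prp m (Pool.Agent.H98.TE.swF F)) : Prp m F := by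
  intro j a b a' b'
  have h1 := h j b a b' a'
  rw [cf3_sw, cf3_sw, cf3_sw, cf3_sw] at h1
  exact h1

theorem prp_ng (h : Prp m (ngF F)) : Prp m F := by
  intro j a b a' b'
  have h1 := h j a b a' b'
  rw [cf3_ng, cf3_ng, cf3_ng, cf3_ng] at h1
  have h2 : ((-1 : ℤ)) ^ j * (-1) ^ m ≠ 0 :=
    mul_ne_zero (pow_ne_zero _ (by norm_num)) (pow_ne_zero _ (by norm_num))
  apply mul_left_cancel₀ h2
  linear_combination h1

theorem far_sw (H : DegF n m F) (h : Far B C F) : Far B C (Pool.Agent.H98.TE.swF F) := by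
  intro a ha x y hxy
  rw [Pool.Agent.H98.TE.swF_ev3 H] at hxy
  exact (h a ha y x hxy).symm

end Pool.Agent.H97.XU
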