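import Pool.Agent.H97.XU.HFU
import Pool.Agent.H97.XU.SYU
import Pool.Agent.H97.XU.LBT
import Pool.Agent.H97.XU.LAL

/-! # [H97 XU AUZ] All members with a large parameter, explicit

`TN n m 1 = 2^((2 (m n²))!)`. `tn_big`: `(n+m+3)^490 ≤ TN n m 1` (`n + m + 3 ≤ 2^(n+m)`, `490 (n + m) ≤ (2 m n²)!`, as `(2mn²)! ≥ 18!` etc.), also
`2 n² (C0+2) + n + m + 4 ≤ TN^232` for `C0 = TN^230`.
`far_all`: `far_alpha`, `far_beta`, `far_gamma`, `Far.mono` (`C0 = TN^230`).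
`pos_u`: `T = TN^232`; `half_u` for `F` and for `swF F` (`HypG.swap`, `hr_sw`, `cb_sw`, `prp_sw`, `far_sw`; `swF_ev3 h.H`), `S = S_1 ∪ swap(S_2)`, at most
`2 T^32 ≤ TN^kU` elements; `T^366 = TN^84912 ≤ TN^kU`.
`all_z`: `a ≥ 0`: `a = a.natAbs`; `a < 0`: `ngF F`, `hypG_ng`, `cases_ng`, `hr_ng`, `cb_ng`, `prp_ng`, `ev3_ng` (as `surf` in `Pool/Agent/H4/SX/ALL.lean`). -/

namespace Pool.Agent.H97.XU

open Finset Polynomial Pool.Agent.H37.TE Pool.Agent.H98.TE Pool.Agent.H4.TE Pool.Agent.H4.TP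
  Pool.Agent.H4.SX Pool.Agent.H37.XP

/-- the exponent of `TN` -/
def kU : ℕ := 100000

theorem tn_big {n m : ℕ} (hn : 3 ≤ n) (hm : 1 ≤ m) : (n + m + 3) ^ 490 ≤ TN n m 1 ∧
    (TN n m 1 ^ 230 + 2) * (2 * n ^ 2) + n + m + 4 ≤ TN n m 1 ^ 232 ∧ 2 ≤ TN n m 1 := by
  obtain ⟨w, hw⟩ : ∃ w, w = 2 * (m * 1 * n ^ 2) := ⟨_, rfl⟩
  have hTN : TN n m 1 = 2 ^ w.factorial := by
    rw [hw]
    rfl
  have h2 : 2 * n ^ 2 ≤ w := by
    rw [hw, mul_one]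
    exact Nat.mul_le_mul_left _ (Nat.le_mul_of_pos_left _ hm)
  have h1 : n + m + 4 ≤ w := by
    obtain ⟨i, rfl⟩ : ∃ i, n = 3 + i := ⟨n - 3, by omega⟩
    obtain ⟨j, rfl⟩ : ∃ j, m = 1 + j := ⟨m - 1, by omega⟩
    rw [hw]
    nlinarith [Nat.zero_le (i * j), Nat.zero_le (i ^ 2), Nat.zero_le (i ^ 2 * j)]
  have h18 : 18 ≤ w := by
    have : 3 ^ 2 ≤ n ^ 2 := Nat.pow_le_pow_left hn 2
    omega
  have hfac : 490 * w ≤ w.factorial := by
    obtain ⟨k, rfl⟩ : ∃ k, w = k + 1 := ⟨w - 1, by omega⟩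
    rw [Nat.factorial_succ, mul_comm]
    refine Nat.mul_le_mul_left _ ?_
    have h3 : (6 : ℕ).factorial ≤ k.factorial := Nat.factorial_le (by omega)
    have h4 : (6 : ℕ).factorial = 720 := rfl
    omega
  have hww : w ≤ 2 ^ w := Nat.lt_two_pow_self.le
  have hT490 : 2 ^ (490 * w) ≤ TN n m 1 := by
    rw [hTN]
    exact Nat.pow_le_pow_right (by norm_num) hfac
  obtain ⟨T, hT⟩ : ∃ T, T = TN n m 1 := ⟨_, rfl⟩
  rw [← hT] at hT490 ⊢
  have hwT : w ≤ T := by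
    refine hww.trans (le_trans ?_ hT490)
    exact Nat.pow_le_pow_right (by norm_num) (by omega)
  refine ⟨?_, ?_, by omega⟩
  · calc (n + m + 3) ^ 490 ≤ (2 ^ w) ^ 490 := Nat.pow_le_pow_left (by omega) _
      _ = 2 ^ (490 * w) := by rw [← pow_mul, mul_comm]
      _ ≤ T := hT490
  · obtain ⟨P, hP⟩ : ∃ P, P = T ^ 230 := ⟨_, rfl⟩
    have hP1 : T ^ 232 = P * (T * T) := by
      rw [hP, ← sq, ← pow_add]
    have hP0 : 1 ≤ P := by
      rw [hP]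
      exact Nat.one_le_pow _ _ (by omega)
    rw [← hP, hP1]
    have h5 : (P + 2) * (2 * n ^ 2) ≤ (P + 2) * T := Nat.mul_le_mul_left _ (by omega)
    have h6 : 4 * T ≤ T * T := Nat.mul_le_mul_right _ (by omega)
    have h7 : T * T ≤ P * (T * T) := Nat.le_mul_of_pos_left _ hP0
    have h8 : P * (4 * T) ≤ P * (T * T) := Nat.mul_le_mul_left _ h6
    have h9 : T ≤ P * T := Nat.le_mul_of_pos_left _ hP0
    have h10 : (P + 2) * T = P * T + 2 * T := by ring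
    have h11 : P * (4 * T) = 4 * (P * T) := by ring
    omega

theorem far_all {n m B : ℕ} (hn : 3 ≤ n) (hm : 1 ≤ m) (hB : 2 ≤ B) {F : ℤ[X][X][X]}
    (h : HypG n m F) (hF : CB B F) (hR : HR n m F)
    (hc : Alpha (topf n F) ∨ Beta (topf n F) ∨ Gamma (topf n F)) :
    Far B (TN n m 1 ^ 230) F := by
  obtain ⟨h1, -, h3⟩ := tn_big hn hm
  have h4 : (n + m + 3) ^ 490 ≤ TN n m 1 ^ 230 :=
    h1.trans (Nat.le_self_pow (by norm_num) _)
  rcases hc with hc | hc | hc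
  · exact far_alpha hn hm hB h hF hR hc
  · exact (far_beta hn hB h hF hc).mono (by omega) h4
  · exact (far_gamma hn hB h hF hR hc).mono (by omega) h4

theorem pos_u {n m B : ℕ} (hn : 3 ≤ n) (hm : 1 ≤ m) (hB : 2 ≤ B) {F : ℤ[X][X][X]}
    (h : HypG n m F) (hF : CB B F) (hR : HR n m F)
    (hc : Alpha (topf n F) ∨ Beta (topf n F) ∨ Gamma (topf n F)) (a : ℕ)
    (ha : B ^ (TN n m 1 ^ kU) ≤ a) :
    (∀ x y : ℤ, ev3 (a : ℤ) x y F = 0 →
      |x| ≤ (a : ℤ) ^ (TN n m 1 ^ kU) ∧ |y| ≤ (a : ℤ) ^ (TN n m 1 ^ kU)) ∧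
    (¬ Prp m F → ∃ S : Finset (ℤ × ℤ), S.card ≤ TN n m 1 ^ kU ∧
      ∀ x y : ℤ, ev3 (a : ℤ) x y F = 0 → (x, y) ∈ S) := by
  classical
  have hfar := far_all hn hm hB h hF hR hc
  obtain ⟨-, h2, h3⟩ := tn_big hn hm
  obtain ⟨T, hT⟩ : ∃ T, T = TN n m 1 := ⟨_, rfl⟩
  rw [← hT] at hfar h2 h3 ha ⊢
  have hBp : ∀ e : ℕ, e ≤ kU → B ^ (T ^ e) ≤ a := fun e he =>
    (Nat.pow_le_pow_right (by omega) (Nat.pow_le_pow_right (by omega) he)).trans ha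
  have ha1 : 1 ≤ a := by
    refine le_trans ?_ ha
    exact Nat.one_le_pow _ _ (by omega)
  constructor
  · intro x y hxy
    have h4 := hfar a (hBp 230 (by unfold kU; norm_num)) x y hxy
    have h5 : (a : ℤ) ^ (T ^ 230) ≤ (a : ℤ) ^ (T ^ kU) := by
      refine pow_le_pow_right₀ (by exact_mod_cast ha1) (Nat.pow_le_pow_right (by omega) ?_)
      unfold kU
      norm_num
    exact ⟨h4.1.trans h5, h4.2.trans h5⟩
  · intro hp
    have ha2 : B ^ ((T ^ 232) ^ 366) ≤ a := by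
      rw [← pow_mul]
      exact hBp _ (by unfold kU; norm_num)
    obtain ⟨S1, hS1, h4⟩ := half_u hn hB h2 h hF hR hfar hp ha2
    obtain ⟨S2, hS2, h5⟩ := half_u hn hB h2 (h.swap (by omega)) (cb_sw hF) (hr_sw h hR)
      (far_sw h.H hfar) (fun hq => hp (prp_sw hq)) ha2
    refine ⟨S1 ∪ S2.image Prod.swap, ?_, ?_⟩
    · have h6 : (S2.image Prod.swap).card ≤ S2.card := card_image_le
      have h7 := card_union_le S1 (S2.image Prod.swap)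
      have h8 : (T ^ 232) ^ 32 = T ^ 7424 := by rw [← pow_mul]
      rw [h8] at hS1 hS2
      have h9 : 2 * T ^ 7424 ≤ T ^ 7425 := by
        rw [pow_succ' T 7424]
        exact Nat.mul_le_mul_right _ h3
      have h10 : T ^ 7425 ≤ T ^ kU := Nat.pow_le_pow_right (by omega) (by unfold kU; norm_num)
      omega
    · intro x y hxy
      rcases le_total |y| |x| with hle | hle
      · exact mem_union_left _ (h4 x y hle hxy)
      · refine mem_union_right _ (mem_image.2 ⟨(y, x), h5 y x hle ?_, rfl⟩)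
        rw [Pool.Agent.H98.TE.swF_ev3 h.H]
        exact hxy

theorem all_z {n m B : ℕ} (hn : 3 ≤ n) (hm : 1 ≤ m) (hB : 2 ≤ B) {F : ℤ[X][X][X]}
    (h : HypG n m F) (hF : CB B F) (hR : HR n m F)
    (hc : Alpha (topf n F) ∨ Beta (topf n F) ∨ Gamma (topf n F)) (a : ℤ)
    (ha : (B : ℤ) ^ (TN n m 1 ^ kU) ≤ |a|) :
    (∀ x y : ℤ, ev3 a x y F = 0 →
      |x| ≤ |a| ^ (TN n m 1 ^ kU) ∧ |y| ≤ |a| ^ (TN n m 1 ^ kU)) ∧
    (¬ Prp m F → ∃ S : Finset (ℤ × ℤ), S.card ≤ TN n m 1 ^ kU ∧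
      ∀ x y : ℤ, ev3 a x y F = 0 → (x, y) ∈ S) := by
  rcases le_total 0 a with h0 | h0
  · obtain ⟨k, rfl⟩ := Int.eq_ofNat_of_zero_le h0
    have h1 : |((k : ℕ) : ℤ)| = k := abs_of_nonneg h0
    rw [h1] at ha ⊢
    exact pos_u hn hm hB h hF hR hc k (by exact_mod_cast ha)
  · obtain ⟨k, hk⟩ := Int.eq_ofNat_of_zero_le (neg_nonneg.2 h0)
    have h1 : |a| = k := by
      rw [abs_of_nonpos h0, hk]
    rw [h1] at ha ⊢
    obtain ⟨h2, h3⟩ := pos_u hn hm hB (hypG_ng h) (cb_ng hF) (hr_ng hR) (cases_ng hc) k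
      (by exact_mod_cast ha)
    have h4 : ∀ x y : ℤ, ev3 a x y F = 0 → ev3 (k : ℤ) x y (ngF F) = 0 := by
      intro x y hxy
      rw [ev3_ng, ← hk, neg_neg]
      exact hxy
    refine ⟨fun x y hxy => h2 x y (h4 x y hxy), fun hp => ?_⟩
    obtain ⟨S, hS, h5⟩ := h3 (fun hq => hp (prp_ng hq))
    exact ⟨S, hS, fun x y hxy => h5 x y (h4 x y hxy)⟩

end Pool.Agent.H97.XU
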