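import Pool.Agent.H97.XU.Defs

/-! # [H97 XU SZA] The calculus of sizes

`L1` is the sum of the absolute values of the coefficients of an integer polynomial. Everything follows from
`MvPolynomial.support_add`, `MvPolynomial.support_mul`, `coeff_mul` and induction.
* `L1_le`: if `P = ∑ i ∈ s, C (c i) * (monomial (e i) 1)` then `L1 P ≤ ∑ |c i|`: from `L1_add` and `L1_monomial`.
* `L1_mul`: `P = ∑_e monomial e (coeff)`, product = double sum of monomials (`MvPolynomial.as_sum`, `Finset.sum_mul_sum`,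
  `monomial_mul`), `L1` of a sum is at most the sum of the `L1`.
* `L1_aeval`: `aeval Q P = ∑_(e ∈ supp) C (coeff) * ∏_i Q i ^ e i` (`MvPolynomial.aeval_def`, `eval₂_eq'`), `L1` of the product is
  at most `A^(∑ e i) ≤ A^(totalDegree)` (`MvPolynomial.le_totalDegree`).
* `deg_aeval`: `MvPolynomial.totalDegree_finsetSum`, `totalDegree_mul`, `totalDegree_finsetProd`, `totalDegree_pow`.
* `sz_sum`: `L1 ≤ card * B^k ≤ 2^card B^k`. -/

namespace Pool.Agent.H97.XU

open Finset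

variable {r s : ℕ} {B k l : ℕ}

/-- for any finite set containing the support -/
theorem L1_eq (P : MvPolynomial (Fin r) ℤ) {t : Finset (Fin r →₀ ℕ)} (h : P.support ⊆ t) :
    L1 P = ∑ e ∈ t, (P.coeff e).natAbs := by
  unfold L1
  refine Finset.sum_subset h fun e _ he => ?_
  rw [MvPolynomial.notMem_support_iff] at he
  rw [he, Int.natAbs_zero]

private theorem L1_mon (e : Fin r →₀ ℕ) (c : ℤ) :
    L1 (MvPolynomial.monomial e c : MvPolynomial (Fin r) ℤ) = c.natAbs := by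
  rw [L1_eq _ (t := {e}) MvPolynomial.support_monomial_subset, Finset.sum_singleton,
    MvPolynomial.coeff_monomial, if_pos rfl]

theorem L1_zero : L1 (0 : MvPolynomial (Fin r) ℤ) = 0 := by
  unfold L1
  rw [MvPolynomial.support_zero, Finset.sum_empty]

theorem L1_C (c : ℤ) : L1 (MvPolynomial.C c : MvPolynomial (Fin r) ℤ) = c.natAbs :=
  L1_mon 0 c

theorem L1_X (i : Fin r) : L1 (MvPolynomial.X i : MvPolynomial (Fin r) ℤ) = 1 :=
  L1_mon (Finsupp.single i 1) 1

theorem L1_neg (P : MvPolynomial (Fin r) ℤ) : L1 (-P) = L1 P := by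
  unfold L1
  rw [MvPolynomial.support_neg]
  refine Finset.sum_congr rfl fun e _ => ?_
  rw [MvPolynomial.coeff_neg, Int.natAbs_neg]

theorem L1_add (P Q : MvPolynomial (Fin r) ℤ) : L1 (P + Q) ≤ L1 P + L1 Q := by
  classical
  rw [L1_eq P (t := P.support ∪ Q.support) Finset.subset_union_left,
    L1_eq Q (t := P.support ∪ Q.support) Finset.subset_union_right,
    L1_eq (P + Q) (t := P.support ∪ Q.support) MvPolynomial.support_add, ← Finset.sum_add_distrib]
  refine Finset.sum_le_sum fun e _ => ?_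
  rw [MvPolynomial.coeff_add]
  exact Int.natAbs_add_le _ _

theorem L1_sum {ι : Type*} (t : Finset ι) (f : ι → MvPolynomial (Fin r) ℤ) :
    L1 (∑ i ∈ t, f i) ≤ ∑ i ∈ t, L1 (f i) :=
  Finset.le_sum_of_subadditive L1 L1_zero.le L1_add t f

theorem L1_mul (P Q : MvPolynomial (Fin r) ℤ) : L1 (P * Q) ≤ L1 P * L1 Q := by
  have h : P * Q = ∑ e ∈ P.support, ∑ f ∈ Q.support,
      MvPolynomial.monomial (e + f) (P.coeff e * Q.coeff f) := by
    conv_lhs => rw [P.as_sum, Q.as_sum]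
    rw [Finset.sum_mul_sum]
    refine Finset.sum_congr rfl fun e _ => Finset.sum_congr rfl fun f _ => ?_
    rw [MvPolynomial.monomial_mul]
  rw [h]
  refine (L1_sum _ _).trans ?_
  have h2 : L1 P * L1 Q = ∑ e ∈ P.support, ∑ f ∈ Q.support,
      (P.coeff e).natAbs * (Q.coeff f).natAbs := by
    unfold L1
    rw [Finset.sum_mul_sum]
  rw [h2]
  refine Finset.sum_le_sum fun e _ => (L1_sum _ _).trans (Finset.sum_le_sum fun f _ => ?_)
  rw [L1_mon, Int.natAbs_mul]

private theorem L1_one : L1 (1 : MvPolynomial (Fin r) ℤ) = 1 := L1_C 1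

theorem L1_pow (P : MvPolynomial (Fin r) ℤ) (j : ℕ) : L1 (P ^ j) ≤ L1 P ^ j := by
  induction j with
  | zero => rw [pow_zero, pow_zero, L1_one]
  | succ j ih =>
    rw [pow_succ, pow_succ]
    exact (L1_mul _ _).trans (Nat.mul_le_mul_right _ ih)

private theorem L1_prod {ι : Type*} (t : Finset ι) (f : ι → MvPolynomial (Fin r) ℤ) :
    L1 (∏ i ∈ t, f i) ≤ ∏ i ∈ t, L1 (f i) := by
  classical
  induction t using Finset.induction_on with
  | empty => rw [Finset.prod_empty, Finset.prod_empty, L1_one]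
  | insert a t ha ih =>
    rw [Finset.prod_insert ha, Finset.prod_insert ha]
    exact (L1_mul _ _).trans (Nat.mul_le_mul_left _ ih)

theorem coeff_le_L1 (P : MvPolynomial (Fin r) ℤ) (e : Fin r →₀ ℕ) : (P.coeff e).natAbs ≤ L1 P := by
  by_cases he : e ∈ P.support
  · unfold L1
    exact Finset.single_le_sum (f := fun e => (P.coeff e).natAbs) (fun _ _ => Nat.zero_le _) he
  · rw [MvPolynomial.notMem_support_iff] at he
    rw [he, Int.natAbs_zero]
    exact Nat.zero_le _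

private theorem sum_le_deg {P : MvPolynomial (Fin r) ℤ} {e : Fin r →₀ ℕ} (he : e ∈ P.support) :
    ∑ i, e i ≤ P.totalDegree := by
  have h := MvPolynomial.le_totalDegree he
  rwa [Finsupp.sum_fintype _ _ (fun _ => rfl)] at h

private theorem aeval_sum (Q : Fin r → MvPolynomial (Fin s) ℤ) (P : MvPolynomial (Fin r) ℤ) :
    MvPolynomial.aeval Q P =
      ∑ e ∈ P.support, MvPolynomial.C (P.coeff e) * ∏ i, Q i ^ e i := by
  rw [MvPolynomial.aeval_def, MvPolynomial.eval₂_eq']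
  rfl

theorem L1_aeval (Q : Fin r → MvPolynomial (Fin s) ℤ) {A : ℕ} (hA : 1 ≤ A) (hQ : ∀ i, L1 (Q i) ≤ A)
    (P : MvPolynomial (Fin r) ℤ) : L1 (MvPolynomial.aeval Q P) ≤ L1 P * A ^ P.totalDegree := by
  rw [aeval_sum]
  refine (L1_sum _ _).trans ?_
  have h1 : L1 P * A ^ P.totalDegree = ∑ e ∈ P.support, (P.coeff e).natAbs * A ^ P.totalDegree := by
    unfold L1
    rw [Finset.sum_mul]
  rw [h1]
  refine Finset.sum_le_sum fun e he => (L1_mul _ _).trans ?_
  rw [L1_C]
  refine Nat.mul_le_mul_left _ ((L1_prod _ _).trans ?_)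
  calc ∏ i, L1 (Q i ^ e i) ≤ ∏ i, A ^ e i :=
        Finset.prod_le_prod' fun i _ => (L1_pow _ _).trans (Nat.pow_le_pow_left (hQ i) _)
    _ = A ^ ∑ i, e i := by rw [Finset.prod_pow_eq_pow_sum]
    _ ≤ A ^ P.totalDegree := Nat.pow_le_pow_right hA (sum_le_deg he)

theorem deg_aeval (Q : Fin r → MvPolynomial (Fin s) ℤ) {d : ℕ} (hQ : ∀ i, (Q i).totalDegree ≤ d)
    (P : MvPolynomial (Fin r) ℤ) : (MvPolynomial.aeval Q P).totalDegree ≤ P.totalDegree * d := by
  rw [aeval_sum]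
  refine (MvPolynomial.totalDegree_finsetSum _ _).trans (Finset.sup_le fun e he => ?_)
  refine (MvPolynomial.totalDegree_mul _ _).trans ?_
  rw [MvPolynomial.totalDegree_C, zero_add]
  refine (MvPolynomial.totalDegree_finsetProd _ _).trans ?_
  calc ∑ i, (Q i ^ e i).totalDegree ≤ ∑ i, e i * d :=
        Finset.sum_le_sum fun i _ => (MvPolynomial.totalDegree_pow _ _).trans
          (Nat.mul_le_mul_left _ (hQ i))
    _ = (∑ i, e i) * d := by rw [Finset.sum_mul]
    _ ≤ P.totalDegree * d := Nat.mul_le_mul_right _ (sum_le_deg he)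

private theorem pd_sum (i : Fin r) (P : MvPolynomial (Fin r) ℤ) :
    MvPolynomial.pderiv i P =
      ∑ e ∈ P.support, MvPolynomial.monomial (e - Finsupp.single i 1) (P.coeff e * (e i : ℤ)) := by
  conv_lhs => rw [P.as_sum]
  rw [map_sum]
  refine Finset.sum_congr rfl fun e _ => ?_
  rw [MvPolynomial.pderiv_monomial]

private theorem le_sum_fin (e : Fin r →₀ ℕ) (i : Fin r) : e i ≤ ∑ j, e j :=
  Finset.single_le_sum (f := fun j => e j) (fun _ _ => Nat.zero_le _) (Finset.mem_univ i)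

theorem L1_pderiv (i : Fin r) (P : MvPolynomial (Fin r) ℤ) :
    L1 (MvPolynomial.pderiv i P) ≤ P.totalDegree * L1 P := by
  rw [pd_sum]
  refine (L1_sum _ _).trans ?_
  have h1 : P.totalDegree * L1 P = ∑ e ∈ P.support, P.totalDegree * (P.coeff e).natAbs := by
    unfold L1
    rw [Finset.mul_sum]
  rw [h1]
  refine Finset.sum_le_sum fun e he => ?_
  rw [L1_mon, Int.natAbs_mul, Int.natAbs_natCast, mul_comm]
  exact Nat.mul_le_mul_right _ ((le_sum_fin e i).trans (sum_le_deg he))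

theorem deg_pderiv (i : Fin r) (P : MvPolynomial (Fin r) ℤ) :
    (MvPolynomial.pderiv i P).totalDegree ≤ P.totalDegree := by
  rw [pd_sum]
  refine (MvPolynomial.totalDegree_finsetSum _ _).trans (Finset.sup_le fun e he => ?_)
  refine (MvPolynomial.totalDegree_monomial_le _ _).trans ?_
  rw [Finsupp.sum_fintype _ _ (fun _ => rfl)]
  refine (Finset.sum_le_sum fun j _ => ?_).trans (sum_le_deg he)
  show ((e - Finsupp.single i 1 : Fin r →₀ ℕ)) j ≤ e j
  rw [Finsupp.tsub_apply]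
  exact Nat.sub_le _ _

theorem sz_mono (hB : 1 ≤ B) {P : MvPolynomial (Fin r) ℤ} (h : Sz B k P) (hkl : k ≤ l) :
    Sz B l P :=
  ⟨h.1.trans hkl, h.2.trans (Nat.pow_le_pow_right hB hkl)⟩

theorem sz_zero : Sz B k (0 : MvPolynomial (Fin r) ℤ) := by
  refine ⟨?_, ?_⟩
  · rw [MvPolynomial.totalDegree_zero]
    exact Nat.zero_le _
  · rw [L1_zero]
    exact Nat.zero_le _

theorem sz_C (c : ℤ) (h : c.natAbs ≤ B ^ k) : Sz B k (MvPolynomial.C c : MvPolynomial (Fin r) ℤ) := by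
  refine ⟨?_, ?_⟩
  · rw [MvPolynomial.totalDegree_C]
    exact Nat.zero_le _
  · rw [L1_C]
    exact h

theorem sz_X (hB : 1 ≤ B) (i : Fin r) : Sz B 1 (MvPolynomial.X i : MvPolynomial (Fin r) ℤ) := by
  refine ⟨?_, ?_⟩
  · rw [MvPolynomial.totalDegree_X]
  · rw [L1_X, pow_one]
    exact hB

theorem sz_neg {P : MvPolynomial (Fin r) ℤ} (h : Sz B k P) : Sz B k (-P) := by
  refine ⟨?_, ?_⟩
  · rw [MvPolynomial.totalDegree_neg]
    exact h.1
  · rw [L1_neg]
    exact h.2

theorem sz_add (hB : 2 ≤ B) {P Q : MvPolynomial (Fin r) ℤ} (h : Sz B k P) (h' : Sz B l Q) :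
    Sz B (max k l + 1) (P + Q) := by
  refine ⟨?_, ?_⟩
  · exact ((MvPolynomial.totalDegree_add P Q).trans (max_le_max h.1 h'.1)).trans (Nat.le_succ _)
  · refine (L1_add P Q).trans ?_
    have h1 : B ^ k ≤ B ^ max k l := Nat.pow_le_pow_right (by omega) (le_max_left _ _)
    have h2 : B ^ l ≤ B ^ max k l := Nat.pow_le_pow_right (by omega) (le_max_right _ _)
    have h3 : B ^ (max k l + 1) = B ^ max k l * B := pow_succ _ _
    have h4 : B ^ max k l * 2 ≤ B ^ max k l * B := Nat.mul_le_mul_left _ hB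
    have h5 := h.2
    have h6 := h'.2
    rw [h3]
    omega

theorem sz_sub (hB : 2 ≤ B) {P Q : MvPolynomial (Fin r) ℤ} (h : Sz B k P) (h' : Sz B l Q) :
    Sz B (max k l + 1) (P - Q) := by
  rw [sub_eq_add_neg]
  exact sz_add hB h (sz_neg h')

theorem sz_mul {P Q : MvPolynomial (Fin r) ℤ} (h : Sz B k P) (h' : Sz B l Q) :
    Sz B (k + l) (P * Q) := by
  refine ⟨(MvPolynomial.totalDegree_mul P Q).trans (Nat.add_le_add h.1 h'.1), ?_⟩
  rw [pow_add]
  exact (L1_mul P Q).trans (Nat.mul_le_mul h.2 h'.2)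

theorem sz_pow {P : MvPolynomial (Fin r) ℤ} (h : Sz B k P) (j : ℕ) : Sz B (j * k) (P ^ j) := by
  refine ⟨(MvPolynomial.totalDegree_pow P j).trans (Nat.mul_le_mul_left _ h.1), ?_⟩
  rw [mul_comm, pow_mul]
  exact (L1_pow P j).trans (Nat.pow_le_pow_left h.2 _)

theorem sz_sum (hB : 2 ≤ B) {ι : Type*} (t : Finset ι) (f : ι → MvPolynomial (Fin r) ℤ)
    (h : ∀ i ∈ t, Sz B k (f i)) : Sz B (k + t.card) (∑ i ∈ t, f i) := by
  refine ⟨?_, ?_⟩
  · refine (MvPolynomial.totalDegree_finsetSum _ _).trans (Finset.sup_le fun i hi => ?_)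
    exact (h i hi).1.trans (Nat.le_add_right _ _)
  · refine (L1_sum t f).trans ((Finset.sum_le_sum fun i hi => (h i hi).2).trans ?_)
    rw [Finset.sum_const, smul_eq_mul, pow_add, mul_comm]
    refine Nat.mul_le_mul_left _ ?_
    exact (Nat.lt_two_pow_self).le.trans (Nat.pow_le_pow_left hB _)

theorem sz_aeval (hB : 1 ≤ B) {P : MvPolynomial (Fin r) ℤ} (h : Sz B k P)
    {Q : Fin r → MvPolynomial (Fin s) ℤ} (hQ : ∀ i, Sz B l (Q i)) :
    Sz B (k * l + k) (MvPolynomial.aeval Q P) := by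
  refine ⟨?_, ?_⟩
  · refine (deg_aeval Q (fun i => (hQ i).1) P).trans ?_
    exact (Nat.mul_le_mul_right _ h.1).trans (Nat.le_add_right _ _)
  · refine (L1_aeval Q (Nat.one_le_pow _ _ hB) (fun i => (hQ i).2) P).trans ?_
    rw [pow_add, mul_comm (B ^ (k * l)), ← pow_mul]
    refine Nat.mul_le_mul h.2 (Nat.pow_le_pow_right hB ?_)
    rw [mul_comm k l]
    exact Nat.mul_le_mul_left _ h.1

theorem sz_pderiv (hB : 2 ≤ B) {P : MvPolynomial (Fin r) ℤ} (h : Sz B k P) (i : Fin r) :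
    Sz B (2 * k) (MvPolynomial.pderiv i P) := by
  refine ⟨?_, ?_⟩
  · refine (deg_pderiv i P).trans (h.1.trans ?_)
    omega
  · refine (L1_pderiv i P).trans ?_
    have h1 : B ^ (2 * k) = B ^ k * B ^ k := by rw [← pow_add]; congr 1; omega
    rw [h1]
    refine Nat.mul_le_mul (h.1.trans ?_) h.2
    exact (Nat.lt_two_pow_self).le.trans (Nat.pow_le_pow_left hB _)

/-- substitution of variables or zeros: the size does not grow -/
theorem sz_rename (hB : 1 ≤ B) {P : MvPolynomial (Fin r) ℤ} (h : Sz B k P)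
    {Q : Fin r → MvPolynomial (Fin s) ℤ} (hQ : ∀ i, Q i = 0 ∨ ∃ j, Q i = MvPolynomial.X j) :
    Sz B k (MvPolynomial.aeval Q P) := by
  have hB' := hB
  have h1 : ∀ i, L1 (Q i) ≤ 1 := by
    intro i
    rcases hQ i with h2 | ⟨j, h2⟩
    · rw [h2, L1_zero]
      exact Nat.zero_le _
    · rw [h2, L1_X]
  have h3 : ∀ i, (Q i).totalDegree ≤ 1 := by
    intro i
    rcases hQ i with h2 | ⟨j, h2⟩
    · rw [h2, MvPolynomial.totalDegree_zero]
      exact Nat.zero_le _
    · rw [h2, MvPolynomial.totalDegree_X]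
  refine ⟨?_, ?_⟩
  · have h4 := deg_aeval Q h3 P
    rw [mul_one] at h4
    exact h4.trans h.1
  · have h4 := L1_aeval Q le_rfl h1 P
    rw [one_pow, mul_one] at h4
    exact h4.trans h.2

theorem sz_q0 (hB : 1 ≤ B) {P : U4} (h : Sz B k P) : Sz B k (q0 P) := by
  refine sz_rename hB h fun i => ?_
  fin_cases i
  · exact Or.inr ⟨0, rfl⟩
  · exact Or.inr ⟨1, rfl⟩
  · exact Or.inl rfl
  · exact Or.inl rfl

theorem sz_dq (hB : 2 ≤ B) {P : U4} (h : Sz B k P) : Sz B (2 * k) (dq P) :=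
  sz_pderiv hB (sz_q0 (by omega) h) 0

end Pool.Agent.H97.XU
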