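import Pool.Agent.H97.XU.CHT
import Pool.Agent.H4.TP.SEP

/-! # [H97 XU BEZ] Bezout identity for `q, q'` with sizes

`q ∈ ℤ[t][Z]`, `q.natDegree = n ≥ 1`, degrees in `t` at most `m`, coefficients at most `B`, squarefree over `ℚ(t)`.
`Δ = resultant q q' n (n - 1)` (`Polynomial.resultant`), `U, V` from `Polynomial.adjSylvester` (Mathlib, `RingTheory/Polynomial/Resultant`): the
coefficients of `U, V` are entries of the adjugate of the Sylvester matrix `M` (size `2n - 1`), `U q + V q' = C Δ`
(`exists_mul_add_mul_eq_C_resultant`; go into its proof, `sylveserMap_comp_adjSylvester`, to see that the coefficients of `adjSylvester f g 1`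
are `M.adjugate i j0`; or directly: `M * M.adjugate = Δ • 1`, read as identity of polynomials). Entries of `M`: degree `≤ m` in `t`, sum of the absolute values of the
coefficients at most `n (m + 1) B`. Determinants of size `≤ 2n`: sums of at most `(2n)!` products of at most `2n` entries
(`Matrix.det_apply`; `adjugate` = `det (updateRow ..)` with a unit vector: entries `0, 1`): degree `≤ 2 n m`, sum of absolute values
`≤ (2n)! (n (m+1) B)^(2n) ≤ B^(4n² + 2n(n + m + 1) + 2n)`.
`Δ ≠ 0`: `resultant_map_map` to `K = FractionRing ℤ[X]`, `resultant_eq_zero_iff`, `q` over `K` (characteristic zero, perfect) is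
separable (`PerfectField.separable_iff_squarefree` or `Squarefree.. separable`), i.e. coprime to the derivative; the degree of the derivative is `n - 1`
(`natDegree_derivative_eq`). -/

namespace Pool.Agent.H97.XU

open Finset Polynomial Pool.Agent.H37.TE Pool.Agent.H98.TE Pool.Agent.H4.TP

private theorem bez_L1_one : L1 (1 : U4) = 1 := by
  have h := L1_C (r := 4) (1 : ℤ)
  rwa [MvPolynomial.C_1] at h

private theorem bez_L1_prod {ι : Type*} (t : Finset ι) (f : ι → U4) {S : ℕ} (h : ∀ i ∈ t, L1 (f i) ≤ S) :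
    L1 (∏ i ∈ t, f i) ≤ S ^ t.card := by
  classical
  induction t using Finset.induction_on with
  | empty => simp [bez_L1_one]
  | insert a s ha ih =>
    rw [prod_insert ha, card_insert_of_notMem ha, pow_succ, mul_comm (S ^ _)]
    exact (L1_mul _ _).trans (Nat.mul_le_mul (h a (mem_insert_self a s))
      (ih fun i hi => h i (mem_insert_of_mem hi)))

private theorem bez_det {N d S : ℕ} (M : Matrix (Fin N) (Fin N) U4) (hd : ∀ i j, (M i j).totalDegree ≤ d)
    (hL : ∀ i j, L1 (M i j) ≤ S) : M.det.totalDegree ≤ N * d ∧ L1 M.det ≤ N.factorial * S ^ N := by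
  rw [Matrix.det_apply]
  constructor
  · refine (MvPolynomial.totalDegree_finsetSum _ _).trans (Finset.sup_le fun σ _ => ?_)
    have h1 : (Equiv.Perm.sign σ • ∏ i, M (σ i) i).totalDegree = (∏ i, M (σ i) i).totalDegree := by
      rcases Int.units_eq_one_or (Equiv.Perm.sign σ) with h | h
      · rw [h, one_smul]
      · rw [h]
        simp
    rw [h1]
    refine (MvPolynomial.totalDegree_finsetProd _ _).trans ((Finset.sum_le_sum fun i _ => hd (σ i) i).trans ?_)
    simp
  · refine (L1_sum _ _).trans ?_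
    have h1 : ∀ σ ∈ (univ : Finset (Equiv.Perm (Fin N))), L1 (Equiv.Perm.sign σ • ∏ i, M (σ i) i) ≤ S ^ N := by
      intro σ _
      have h2 : L1 (Equiv.Perm.sign σ • ∏ i, M (σ i) i) = L1 (∏ i, M (σ i) i) := by
        rcases Int.units_eq_one_or (Equiv.Perm.sign σ) with h | h
        · rw [h, one_smul]
        · rw [h]
          simp [L1_neg]
      rw [h2]
      have h3 := bez_L1_prod univ (fun i => M (σ i) i) (S := S) fun i _ => hL (σ i) i
      simpa using h3
    refine (Finset.sum_le_sum h1).trans ?_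
    rw [sum_const, smul_eq_mul, card_univ, Fintype.card_perm, Fintype.card_fin]

private theorem bez_adj {N d S : ℕ} (hS : 1 ≤ S) (M : Matrix (Fin N) (Fin N) U4) (hd : ∀ i j, (M i j).totalDegree ≤ d)
    (hL : ∀ i j, L1 (M i j) ≤ S) (i j : Fin N) :
    (M.adjugate i j).totalDegree ≤ N * d ∧ L1 (M.adjugate i j) ≤ N.factorial * S ^ N := by
  rw [Matrix.adjugate_apply]
  apply bez_det
  · intro a b
    rw [Matrix.updateRow_apply]
    split_ifs
    · rw [Pi.single_apply]
      split_ifs <;> simp
    · exact hd a b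
  · intro a b
    rw [Matrix.updateRow_apply]
    split_ifs
    · rw [Pi.single_apply]
      split_ifs
      · rw [bez_L1_one]; exact hS
      · rw [L1_zero]; exact Nat.zero_le _
    · exact hL a b

/-- the coefficients -/
private noncomputable def bez_phi : ℤ[X] →+* U4 := emb.comp C

private theorem bez_phi_eq (a : ℤ[X]) : bez_phi a = ∑ i ∈ range (a.natDegree + 1),
    MvPolynomial.C (a.coeff i) * MvPolynomial.X 1 ^ i := by
  have h : bez_phi a = eval₂ (Int.castRingHom U4) (MvPolynomial.X 1) a := by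
    unfold bez_phi emb
    simp
  rw [h, eval₂_eq_sum_range]
  rfl

private theorem bez_phi_coeff (a : ℤ[X]) (i : ℕ) : (bez_phi a).coeff (Finsupp.single 1 i) = a.coeff i := by
  rw [bez_phi_eq, MvPolynomial.coeff_sum]
  simp only [MvPolynomial.coeff_C_mul, MvPolynomial.coeff_X_pow]
  have h : ∀ j, (if (Finsupp.single (1 : Fin 4) j) = Finsupp.single 1 i then (1 : ℤ) else 0) = if j = i then 1 else 0 := by
    intro j
    by_cases hj : j = i
    · rw [if_pos hj, hj, if_pos rfl]
    · rw [if_neg hj, if_neg]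
      intro h
      exact hj (Finsupp.single_injective _ h)
  simp only [h, mul_ite, mul_one, mul_zero]
  rw [Finset.sum_ite_eq']
  split_ifs with h1
  · rfl
  · rw [mem_range, not_lt] at h1
    exact (coeff_eq_zero_of_natDegree_lt (by omega)).symm

private theorem bez_phi_deg (a : ℤ[X]) : a.natDegree ≤ (bez_phi a).totalDegree := by
  by_cases ha : a = 0
  · rw [ha, natDegree_zero]; exact Nat.zero_le _
  have h : Finsupp.single 1 a.natDegree ∈ (bez_phi a).support := by
    rw [MvPolynomial.mem_support_iff, bez_phi_coeff]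
    exact leadingCoeff_ne_zero.2 ha
  have h1 := MvPolynomial.le_totalDegree h
  rwa [Finsupp.sum_single_index rfl] at h1

private theorem bez_phi_abs (a : ℤ[X]) (i : ℕ) : (a.coeff i).natAbs ≤ L1 (bez_phi a) := by
  rw [← bez_phi_coeff a i]
  exact coeff_le_L1 _ _

private theorem bez_phi_sz {a : ℤ[X]} {m S : ℕ} (hm : a.natDegree ≤ m) (hS : ∀ i, (a.coeff i).natAbs ≤ S) :
    (bez_phi a).totalDegree ≤ m ∧ L1 (bez_phi a) ≤ (m + 1) * S := by
  rw [bez_phi_eq]
  constructor
  · refine (MvPolynomial.totalDegree_finsetSum _ _).trans (Finset.sup_le fun i hi => ?_)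
    rw [mem_range] at hi
    refine (MvPolynomial.totalDegree_mul _ _).trans ?_
    rw [MvPolynomial.totalDegree_C, zero_add]
    rw [MvPolynomial.totalDegree_X_pow]
    omega
  · refine (L1_sum _ _).trans ?_
    have h1 : ∀ i ∈ range (a.natDegree + 1), L1 (MvPolynomial.C (a.coeff i) * MvPolynomial.X 1 ^ i : U4) ≤ S := by
      intro i _
      refine (L1_mul _ _).trans ?_
      have h2 := L1_pow (MvPolynomial.X 1 : U4) i
      rw [L1_X, one_pow] at h2
      calc _ ≤ (a.coeff i).natAbs * 1 := Nat.mul_le_mul (by rw [L1_C]) h2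
        _ ≤ S := by rw [mul_one]; exact hS i
    refine (Finset.sum_le_sum h1).trans ?_
    rw [sum_const, smul_eq_mul, card_range]
    exact Nat.mul_le_mul (by omega) le_rfl


/-- the Bezout identity with the entries of the adjugate -/
private theorem bez_id {n k : ℕ} (hn : 1 ≤ n) {f g : ℤ[X][X]} (hf : f.natDegree ≤ n) (hg : g.natDegree ≤ k) :
    f * (∑ j : Fin k, C ((f.sylvester g n k).adjugate (Fin.natAdd n j) ⟨0, by omega⟩) * X ^ (j : ℕ)) +
      g * (∑ j : Fin n, C ((f.sylvester g n k).adjugate (Fin.castAdd k j) ⟨0, by omega⟩) * X ^ (j : ℕ)) =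
      C (f.resultant g n k) := by
  let b₁ := ((degreeLT.basis ℤ[X] n).prod (degreeLT.basis ℤ[X] k)).reindex finSumFinEquiv
  let e : degreeLT ℤ[X] (n + k) := degreeLT.basis ℤ[X] (n + k) ⟨0, by omega⟩
  have h1 : ((sylvesterMap f g hf hg (adjSylvester f g e)).1 : ℤ[X][X]) = (f.resultant g n k • e : degreeLT ℤ[X] (n + k)).1 :=
    congrArg Subtype.val (LinearMap.congr_fun (sylveserMap_comp_adjSylvester f g hf hg) e)
  have h2 : adjSylvester (m := n) (n := k) f g e =
      ∑ j, (f.sylvester g n k).adjugate j ⟨0, by omega⟩ • b₁ j := Matrix.toLin_self _ _ _ _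
  rw [sylvesterMap_apply_coe] at h1
  have h3 : ((f.resultant g n k • e : degreeLT ℤ[X] (n + k)) : ℤ[X][X]) = C (f.resultant g n k) := by
    rw [Submodule.coe_smul, degreeLT.basis_val, pow_zero, smul_eq_C_mul, mul_one]
  rw [h3] at h1
  rw [← h1, h2]
  have h4 : ((∑ j, (f.sylvester g n k).adjugate j ⟨0, by omega⟩ • b₁ j).2 : ℤ[X][X]) =
      ∑ j : Fin k, C ((f.sylvester g n k).adjugate (Fin.natAdd n j) ⟨0, by omega⟩) * X ^ (j : ℕ) := by
    rw [Prod.snd_sum, Fin.sum_univ_add]
    simp [b₁, smul_eq_C_mul]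
  have h5 : ((∑ j, (f.sylvester g n k).adjugate j ⟨0, by omega⟩ • b₁ j).1 : ℤ[X][X]) =
      ∑ j : Fin n, C ((f.sylvester g n k).adjugate (Fin.castAdd k j) ⟨0, by omega⟩) * X ^ (j : ℕ) := by
    rw [Prod.fst_sum, Fin.sum_univ_add]
    simp [b₁, smul_eq_C_mul]
  rw [h4, h5]

private theorem bez_num {n m B N : ℕ} (hn : 1 ≤ n) (hB : 2 ≤ B) (hN : N ≤ 2 * n) :
    n * (N.factorial * ((m + 1) * (n * B)) ^ N) ≤ B ^ ((n + m + 2) ^ 4) ∧ N * m + n ≤ (n + m + 2) ^ 4 := by
  have e1 : ∀ k : ℕ, k + 1 ≤ B ^ k := fun k =>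
    (Nat.lt_two_pow_self (n := k)).trans_le (Nat.pow_le_pow_left hB k)
  have e2 : ∀ k : ℕ, k ≤ B ^ k := fun k => (Nat.le_succ k).trans (e1 k)
  have h1 : N.factorial ≤ B ^ (N * N) := by
    calc N.factorial ≤ N ^ N := Nat.factorial_le_pow N
      _ ≤ (B ^ N) ^ N := Nat.pow_le_pow_left (e2 N) N
      _ = B ^ (N * N) := (pow_mul B N N).symm
  have h2 : ((m + 1) * (n * B)) ^ N ≤ B ^ ((m + n + 1) * N) := by
    rw [pow_mul]
    apply Nat.pow_le_pow_left
    calc (m + 1) * (n * B) ≤ B ^ m * (B ^ n * B) := Nat.mul_le_mul (e1 m) (Nat.mul_le_mul (e2 n) le_rfl)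
      _ = B ^ (m + n + 1) := by rw [pow_succ, pow_add, mul_assoc]
  obtain ⟨s, hs⟩ : ∃ s, s = n + m + 2 := ⟨_, rfl⟩
  have hs3 : 3 ≤ s := by omega
  have h4 : s + 6 * (s * s) ≤ s ^ 4 := by
    have : 9 ≤ s * s := Nat.mul_le_mul hs3 hs3
    calc s + 6 * (s * s) ≤ s * s + 6 * (s * s) := by nlinarith
      _ ≤ 9 * (s * s) := by omega
      _ ≤ (s * s) * (s * s) := Nat.mul_le_mul this le_rfl
      _ = s ^ 4 := by ring
  rw [← hs]
  constructor
  · calc n * (N.factorial * ((m + 1) * (n * B)) ^ N) ≤ B ^ n * (B ^ (N * N) * B ^ ((m + n + 1) * N)) :=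
        Nat.mul_le_mul (e2 n) (Nat.mul_le_mul h1 h2)
      _ = B ^ (n + (N * N + (m + n + 1) * N)) := by rw [pow_add, pow_add]
      _ ≤ B ^ (s ^ 4) := by
        apply Nat.pow_le_pow_right (by omega)
        refine le_trans ?_ h4
        have a1 : N * N ≤ (2 * s) * (2 * s) := Nat.mul_le_mul (by omega) (by omega)
        have a2 : (m + n + 1) * N ≤ s * (2 * s) := Nat.mul_le_mul (by omega) (by omega)
        nlinarith
  · refine le_trans ?_ h4
    have a2 : N * m ≤ (2 * s) * s := Nat.mul_le_mul (by omega) (by omega)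
    nlinarith

theorem bez {n m B : ℕ} (hn : 1 ≤ n) (hB : 2 ≤ B) {q : ℤ[X][X]} (hd : q.natDegree = n)
    (hm : ∀ i, (q.coeff i).natDegree ≤ m) (hq : ∀ i j, |(q.coeff i).coeff j| ≤ (B : ℤ))
    (hsq : Squarefree (q.map (algebraMap ℤ[X] (FractionRing ℤ[X])))) :
    ∃ (U V : ℤ[X][X]) (Δ : ℤ[X]), Δ ≠ 0 ∧ U * q + V * derivative q = C Δ ∧
      Sz B ((n + m + 2) ^ 4) (emb U) ∧ Sz B ((n + m + 2) ^ 4) (emb V) ∧
      Δ.natDegree ≤ (n + m + 2) ^ 4 ∧ ∀ i, |Δ.coeff i| ≤ (B : ℤ) ^ ((n + m + 2) ^ 4) := by
  have hinj : Function.Injective (algebraMap ℤ[X] (FractionRing ℤ[X])) := IsFractionRing.injective _ _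
  obtain ⟨k, hk⟩ : ∃ k, n = k + 1 := ⟨n - 1, by omega⟩
  have hd' : (derivative q).natDegree ≤ k := (natDegree_derivative_le q).trans (by omega)
  -- the resultant is not zero
  have hne : q.resultant (derivative q) n k ≠ 0 := by
    intro h0
    have h1 := resultant_map_map q (derivative q) n k (algebraMap ℤ[X] (FractionRing ℤ[X]))
    rw [h0, map_zero, ← derivative_map] at h1
    have h2 : (q.map (algebraMap ℤ[X] (FractionRing ℤ[X]))).natDegree = n := by
      rw [natDegree_map_eq_of_injective hinj, hd]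
    have h3 : (derivative (q.map (algebraMap ℤ[X] (FractionRing ℤ[X])))).natDegree = k := by
      rw [natDegree_derivative, h2, hk, Nat.add_sub_cancel]
    have h4 : resultant (q.map (algebraMap ℤ[X] (FractionRing ℤ[X])))
        (derivative (q.map (algebraMap ℤ[X] (FractionRing ℤ[X])))) = 0 := by
      rw [h2, h3]; exact h1
    rw [resultant_eq_zero_iff] at h4
    exact h4.2 (PerfectField.separable_iff_squarefree.2 hsq)
  obtain ⟨N, hN⟩ : ∃ N, N = n + k := ⟨_, rfl⟩
  obtain ⟨S, hS⟩ : ∃ S, S = (m + 1) * (n * B) := ⟨_, rfl⟩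
  have hS1 : 1 ≤ S := by
    rw [hS]
    exact Nat.mul_pos (Nat.succ_pos m) (Nat.mul_pos hn (by omega))
  -- the entries
  have hent1 : ∀ i, (bez_phi (q.coeff i)).totalDegree ≤ m ∧ L1 (bez_phi (q.coeff i)) ≤ S := by
    intro i
    have h1 := bez_phi_sz (hm i) (S := B) fun j => by
      have := hq i j
      rw [Int.abs_eq_natAbs] at this
      exact_mod_cast this
    refine ⟨h1.1, h1.2.trans ?_⟩
    rw [hS]
    exact Nat.mul_le_mul le_rfl (Nat.le_mul_of_pos_left _ hn)
  have hent2 : ∀ i, (bez_phi ((derivative q).coeff i)).totalDegree ≤ m ∧ L1 (bez_phi ((derivative q).coeff i)) ≤ S := by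
    intro i
    have h0 : (derivative q).coeff i = C ((i : ℤ) + 1) * q.coeff (i + 1) := by
      rw [coeff_derivative, mul_comm]
      simp
    by_cases hi : i + 1 ≤ n
    · have h1 := bez_phi_sz (a := (derivative q).coeff i) (m := m) (S := n * B) ?_ ?_
      · rw [hS]; exact h1
      · rw [h0]
        exact (natDegree_C_mul_le _ _).trans (hm (i + 1))
      · intro j
        rw [h0, coeff_C_mul, Int.natAbs_mul]
        apply Nat.mul_le_mul
        · have : ((i : ℤ) + 1).natAbs = i + 1 := by omega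
          omega
        · have := hq (i + 1) j
          rw [Int.abs_eq_natAbs] at this
          exact_mod_cast this
    · rw [h0, coeff_eq_zero_of_natDegree_lt (by omega), mul_zero, map_zero]
      refine ⟨by simp, ?_⟩
      rw [L1_zero]
      exact Nat.zero_le _
  have hent : ∀ i j, (bez_phi.mapMatrix (q.sylvester (derivative q) n k) i j).totalDegree ≤ m ∧
      L1 (bez_phi.mapMatrix (q.sylvester (derivative q) n k) i j) ≤ S := by
    intro i j
    rw [RingHom.mapMatrix_apply, Matrix.map_apply]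
    induction j using Fin.addCases with
    | left j =>
      simp only [sylvester, Matrix.of_apply, Fin.addCases_left]
      split_ifs
      · exact hent2 _
      · rw [map_zero, L1_zero]; simp
    | right j =>
      simp only [sylvester, Matrix.of_apply, Fin.addCases_right]
      split_ifs
      · exact hent1 _
      · rw [map_zero, L1_zero]; simp
  have hadj : ∀ i j, (bez_phi ((q.sylvester (derivative q) n k).adjugate i j)).totalDegree ≤ (n + k) * m ∧
      L1 (bez_phi ((q.sylvester (derivative q) n k).adjugate i j)) ≤ (n + k).factorial * S ^ (n + k) := by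
    intro i j
    have h1 : bez_phi ((q.sylvester (derivative q) n k).adjugate i j) =
        (bez_phi.mapMatrix (q.sylvester (derivative q) n k)).adjugate i j := by
      rw [← RingHom.map_adjugate, RingHom.mapMatrix_apply, Matrix.map_apply]
    rw [h1]
    exact bez_adj hS1 _ (fun i j => (hent i j).1) (fun i j => (hent i j).2) i j
  have hdet : (bez_phi (q.resultant (derivative q) n k)).totalDegree ≤ (n + k) * m ∧
      L1 (bez_phi (q.resultant (derivative q) n k)) ≤ (n + k).factorial * S ^ (n + k) := by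
    have h1 : bez_phi (q.resultant (derivative q) n k) = (bez_phi.mapMatrix (q.sylvester (derivative q) n k)).det := by
      rw [← RingHom.map_det]
      rfl
    rw [h1]
    exact bez_det _ (fun i j => (hent i j).1) (fun i j => (hent i j).2)
  obtain ⟨hn1, hn2⟩ := bez_num (m := m) (N := n + k) hn hB (by omega)
  rw [← hS] at hn1
  -- the sizes of the sums
  have hsum : ∀ (r : ℕ) (a : Fin r → Fin (n + k)) (b : Fin (n + k)), r ≤ n →
      Sz B ((n + m + 2) ^ 4) (emb (∑ j : Fin r, C ((q.sylvester (derivative q) n k).adjugate (a j) b) * X ^ (j : ℕ))) := by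
    intro r a b hr
    have h1 : emb (∑ j : Fin r, C ((q.sylvester (derivative q) n k).adjugate (a j) b) * X ^ (j : ℕ)) =
        ∑ j : Fin r, bez_phi ((q.sylvester (derivative q) n k).adjugate (a j) b) * MvPolynomial.X 0 ^ (j : ℕ) := by
      rw [map_sum]
      refine sum_congr rfl fun j _ => ?_
      have h2 : emb (X : ℤ[X][X]) = MvPolynomial.X 0 := by simp [emb]
      rw [map_mul, map_pow, h2]
      rfl
    rw [h1]
    constructor
    · refine (MvPolynomial.totalDegree_finsetSum _ _).trans (Finset.sup_le fun j _ => ?_)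
      refine (MvPolynomial.totalDegree_mul _ _).trans ?_
      rw [MvPolynomial.totalDegree_X_pow]
      have h2 := (hadj (a j) b).1
      have h3 := j.2
      omega
    · refine (L1_sum _ _).trans ?_
      have h2 : ∀ j ∈ (univ : Finset (Fin r)), L1 (bez_phi ((q.sylvester (derivative q) n k).adjugate (a j) b) *
          MvPolynomial.X 0 ^ (j : ℕ) : U4) ≤ (n + k).factorial * S ^ (n + k) := by
        intro j _
        refine (L1_mul _ _).trans ?_
        have h2 := L1_pow (MvPolynomial.X 0 : U4) (j : ℕ)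
        rw [L1_X, one_pow] at h2
        calc _ ≤ ((n + k).factorial * S ^ (n + k)) * 1 := Nat.mul_le_mul (hadj _ _).2 h2
          _ = _ := mul_one _
      refine (Finset.sum_le_sum h2).trans ?_
      rw [sum_const, smul_eq_mul, card_univ, Fintype.card_fin]
      exact (Nat.mul_le_mul hr le_rfl).trans hn1
  refine ⟨_, _, q.resultant (derivative q) n k, hne, ?_, hsum k (fun j => Fin.natAdd n j) ⟨0, by omega⟩ (by omega),
    hsum n (fun j => Fin.castAdd k j) ⟨0, by omega⟩ le_rfl, ?_, ?_⟩
  · rw [mul_comm _ q, mul_comm _ (derivative q)]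
    exact bez_id hn hd.le hd'
  · refine (bez_phi_deg _).trans (hdet.1.trans ?_)
    omega
  · intro i
    have h1 := (bez_phi_abs (q.resultant (derivative q) n k) i).trans hdet.2
    have h2 : (n + k).factorial * S ^ (n + k) ≤ B ^ ((n + m + 2) ^ 4) :=
      (Nat.le_mul_of_pos_left _ hn).trans hn1
    rw [Int.abs_eq_natAbs]
    exact_mod_cast h1.trans h2

private theorem bez_clear (p : (FractionRing ℤ[X])[X]) : ∃ (e : ℤ[X]) (P : ℤ[X][X]), e ≠ 0 ∧
    P.map (algebraMap ℤ[X] (FractionRing ℤ[X])) = C (algebraMap ℤ[X] (FractionRing ℤ[X]) e) * p := by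
  obtain ⟨b, hb, h⟩ := IsLocalization.integerNormalization_spec (nonZeroDivisors ℤ[X]) p
  refine ⟨b, _, nonZeroDivisors.ne_zero hb, h.trans ?_⟩
  rw [Polynomial.C_mul', algebraMap_smul]

/-- the top form is squarefree over `ℚ(t)`: if `p² ∣ f` over `ℚ(t)`, clear denominators and use `coprime_of_top` -/
theorem top_sqf {n m : ℕ} {F : ℤ[X][X][X]} (hn : 1 ≤ n) (h : HypG n m F) :
    Squarefree ((topf n F).map (algebraMap ℤ[X] (FractionRing ℤ[X]))) := by
  have hinj : Function.Injective (algebraMap ℤ[X] (FractionRing ℤ[X])) := IsFractionRing.injective _ _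
  rintro p ⟨s, hs⟩
  obtain ⟨e1, P, he1, hP⟩ := bez_clear p
  obtain ⟨e2, S, he2, hS⟩ := bez_clear (p * s)
  have h1 : C (e1 * e2) * topf n F = P * S := by
    apply map_injective _ hinj
    rw [Polynomial.map_mul, Polynomial.map_mul, hs, hP, hS, map_C, map_mul, map_mul]
    ring
  have h2 := coprime_of_top h (mul_ne_zero he1 he2) h1
  refine h2.isUnit_of_dvd' ?_ ?_
  · change p ∣ P.map (algebraMap ℤ[X] (FractionRing ℤ[X]))
    rw [hP]
    exact dvd_mul_left _ _
  · change p ∣ S.map (algebraMap ℤ[X] (FractionRing ℤ[X]))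
    rw [hS]
    exact (dvd_mul_right p s).trans (dvd_mul_left _ _)

/-- the same for the constant polynomial `topz` (`ℚ ⊂ ℚ(t)` is a separable extension: squarefree over `ℚ` = coprime to the
derivative, and this is preserved) -/
theorem topz_sqf {n m : ℕ} {F : ℤ[X][X][X]} (h : HypG n m F) :
    Squarefree (((topz n m F).map C).map (algebraMap ℤ[X] (FractionRing ℤ[X]))) := by
  have h1 : (topq n m F).Separable := PerfectField.separable_iff_squarefree.2 h.sq
  have h2 : ((topz n m F).map C).map (algebraMap ℤ[X] (FractionRing ℤ[X])) =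
      (topq n m F).map (algebraMap ℚ (FractionRing ℤ[X])) := by
    rw [← topz_rat, Polynomial.map_map, Polynomial.map_map]
    congr 1
    exact RingHom.ext_int _ _
  rw [h2]
  exact (h1.map).squarefree

end Pool.Agent.H97.XU
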