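import Pool.Agent.H97.XU.BEZ
import Pool.Agent.H97.XU.NRA

/-! # [H97 XU BZN] Bezout identity for a polynomial without `t`; points of the windows are near the real roots of `f_m(1, Z)`

`bez0`: `bez` (with `m = 0`) for `q.map C ∈ ℤ[t][Z]` gives `U (q.map C) + V (q'.map C) = C Δ`, `Δ ≠ 0` in `ℤ[t]`. Let `e` be with
`Δ.coeff e ≠ 0` and compare the coefficients of `t^e`: `U0 = ∑_i (U.coeff i).coeff e Z^i`, `V0` the same, `U0 q + V0 q' = C (Δ.coeff e)`.
`emb (U0.map C)` consists of the monomials of `emb U` with exponent `e` of `t`, divided by `t^e`: `L1` and the total degree do not increase.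
`near_win`: `P = PW n m F` (`sz_PW`: `2n+m+1`), `t = 0`, `A = B`, `Y = y/x` (`|Y| ≤ 1`), `u = 1/a`, `w = 1/x`; `ev Y 0 u w P = 0`
(`ev_PW`; `ev3` over `ℝ` by `ev3_cast` or `map`). `U, V` from `bez0` for `q = topz n m F` (`topz_sqf`, degree `n`: `topz_rat`, `h.tq`; coefficients `cf3 F m (n-b) b`,
`CB`), `U = emb (U0.map C)`: `U * q0 P + V * dq P = C Δ0` (`q0_PW`, `emb_pderiv`, `derivative_map`), value an integer `≠ 0`.
`root_near` with `κ = 30 (2n+m+1 + (n+2)^4 + 1) ≤ T^6` (`T ≥ 2n+m+4 ≥ 10`); `(B : ℝ)^κ ≤ B^(T^6)`. -/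

namespace Pool.Agent.H97.XU

open Finset Polynomial Pool.Agent.H37.TE Pool.Agent.H98.TE Pool.Agent.H4.TP

private theorem coeff_emb (p : ℤ[X][X]) (e : Fin 4 →₀ ℕ) : MvPolynomial.coeff e (emb p) =
    if e 2 = 0 ∧ e 3 = 0 then (p.coeff (e 0)).coeff (e 1) else 0 := by
  classical
  have hbase : ∀ (n m : ℕ) (c : ℤ), emb (monomial n (monomial m c)) =
      MvPolynomial.monomial (Finsupp.single 0 n + Finsupp.single 1 m) c := by
    intro n m c
    unfold emb
    rw [coe_eval₂RingHom, eval₂_monomial, coe_eval₂RingHom, eval₂_monomial,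
      MvPolynomial.X_pow_eq_monomial, MvPolynomial.X_pow_eq_monomial, eq_intCast,
      ← map_intCast (MvPolynomial.C : ℤ →+* U4) c, Int.cast_id,
      MvPolynomial.C_mul_monomial, MvPolynomial.monomial_mul]
    rw [mul_one, mul_one, add_comm]
  induction p using Polynomial.induction_on' with
  | add p q hp hq =>
    rw [map_add, MvPolynomial.coeff_add, hp, hq]
    split_ifs
    · rw [coeff_add, coeff_add]
    · rw [add_zero]
  | monomial n a =>
    induction a using Polynomial.induction_on' with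
    | add a b ha hb =>
      rw [map_add, map_add, MvPolynomial.coeff_add, ha, hb]
      split_ifs
      · rw [← coeff_add, ← coeff_add]
      · rw [add_zero]
    | monomial m c =>
      rw [hbase, MvPolynomial.coeff_monomial]
      by_cases h : Finsupp.single 0 n + Finsupp.single 1 m = e
      · rw [if_pos h]
        have e0 : e 0 = n := by rw [← h]; simp
        have e1 : e 1 = m := by rw [← h]; simp
        have e2 : e 2 = 0 := by rw [← h]; simp
        have e3 : e 3 = 0 := by rw [← h]; simp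
        rw [if_pos ⟨e2, e3⟩, e0, e1, coeff_monomial, if_pos rfl, coeff_monomial, if_pos rfl]
      · rw [if_neg h]
        split_ifs with h2
        · rw [coeff_monomial]
          split_ifs with h3
          · rw [coeff_monomial]
            split_ifs with h4
            · exfalso
              apply h
              ext i
              fin_cases i
              · simpa using h3
              · simpa using h4
              · simpa using h2.1.symm
              · simpa using h2.2.symm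
            · rfl
          · simp
        · rfl

/-- restriction to some monomials, after an injective change of exponents -/
private theorem sz_inj {B k : ℕ} {P Q : U4} (f : (Fin 4 →₀ ℕ) → (Fin 4 →₀ ℕ)) (hf : Function.Injective f)
    (hdeg : ∀ e, e 0 + e 1 + e 2 + e 3 ≤ f e 0 + f e 1 + f e 2 + f e 3)
    (h : ∀ e ∈ Q.support, P.coeff (f e) = Q.coeff e) (hP : Sz B k P) : Sz B k Q := by
  classical
  have hsub : Q.support.image f ⊆ P.support := by
    intro e he
    rw [Finset.mem_image] at he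
    obtain ⟨a, ha, rfl⟩ := he
    rw [MvPolynomial.mem_support_iff, h a ha]
    exact MvPolynomial.mem_support_iff.mp ha
  constructor
  · apply Finset.sup_le
    intro e he
    have h1 := MvPolynomial.le_totalDegree (hsub (Finset.mem_image_of_mem f he))
    rw [Finsupp.sum_fintype _ _ (fun _ => rfl), Fin.sum_univ_four] at h1
    show (Finsupp.sum e fun _ n => n) ≤ k
    rw [Finsupp.sum_fintype _ _ (fun _ => rfl), Fin.sum_univ_four]
    exact (hdeg e).trans (h1.trans hP.1)
  · refine le_trans ?_ hP.2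
    unfold L1
    calc ∑ e ∈ Q.support, (Q.coeff e).natAbs = ∑ e ∈ Q.support, (P.coeff (f e)).natAbs :=
          Finset.sum_congr rfl fun e he => by rw [h e he]
      _ = ∑ e ∈ Q.support.image f, (P.coeff e).natAbs := by
          rw [Finset.sum_image (fun a _ b _ hab => hf hab)]
      _ ≤ ∑ e ∈ P.support, (P.coeff e).natAbs :=
          Finset.sum_le_sum_of_subset hsub


private theorem map_C_swap (q : ℤ[X]) : Bivariate.swap (q.map C) = C q := by
  ext i j
  rw [swap_coeff, coeff_map, coeff_C, coeff_C]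
  split_ifs
  · rfl
  · rw [coeff_zero]

private theorem C_swap (q : ℤ[X]) : Bivariate.swap (C q) = q.map C := by
  rw [← map_C_swap]
  ext i j
  rw [swap_coeff, swap_coeff]

/-- the coefficient of `t^e` -/
private theorem sz_coef {B k : ℕ} {U : ℤ[X][X]} (e : ℕ) (hU : Sz B k (emb U)) :
    Sz B k (emb (((Bivariate.swap U).coeff e).map C)) := by
  refine sz_inj (fun ε => ε + Finsupp.single 1 e) (add_left_injective _) ?_ ?_ hU
  · intro ε
    simp
  · intro ε hε
    rw [MvPolynomial.mem_support_iff, coeff_emb] at hε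
    rw [coeff_emb, coeff_emb]
    split_ifs at hε with h1
    · rw [if_pos (by simpa using h1), if_pos h1]
      have h0 : ε 1 = 0 := by
        by_contra hne
        rw [coeff_map, coeff_C, if_neg hne] at hε
        exact hε rfl
      rw [coeff_map, h0, coeff_C_zero, swap_coeff]
      simp [h0]
    · exact absurd rfl hε

theorem bez0 {n B : ℕ} (hn : 1 ≤ n) (hB : 2 ≤ B) {q : ℤ[X]} (hd : q.natDegree = n)
    (hq : ∀ i, |q.coeff i| ≤ (B : ℤ))
    (hsq : Squarefree ((q.map C).map (algebraMap ℤ[X] (FractionRing ℤ[X])))) :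
    ∃ (U V : ℤ[X]) (Δ : ℤ), Δ ≠ 0 ∧ U * q + V * derivative q = C Δ ∧
      Sz B ((n + 2) ^ 4) (emb (U.map C)) ∧ Sz B ((n + 2) ^ 4) (emb (V.map C)) := by
  obtain ⟨U, V, Δ, hΔ, hUV, hU, hV, -, -⟩ := bez (m := 0) hn hB (q := q.map C)
    (by rw [natDegree_map_eq_of_injective C_injective, hd])
    (fun i => by rw [coeff_map, natDegree_C])
    (fun i j => by
      rw [coeff_map, coeff_C]
      split_ifs
      · exact hq i
      · rw [abs_zero]; positivity) hsq
  refine ⟨(Bivariate.swap U).coeff Δ.natDegree, (Bivariate.swap V).coeff Δ.natDegree,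
    Δ.coeff Δ.natDegree, ?_, ?_, sz_coef _ hU, sz_coef _ hV⟩
  · exact leadingCoeff_ne_zero.2 hΔ
  · have h1 := congrArg (fun P => (Bivariate.swap P).coeff Δ.natDegree) hUV
    simp only [map_add, map_mul, derivative_map] at h1
    rw [map_C_swap, map_C_swap, C_swap, coeff_add, coeff_mul_C, coeff_mul_C, coeff_map] at h1
    exact h1

theorem near_win {n m B T : ℕ} (hn : 3 ≤ n) (hB : 2 ≤ B) (hT : 2 * n + m + 4 ≤ T)
    {F : ℤ[X][X][X]} (h : HypG n m F) (hF : CB B F) {a : ℕ} (ha : 1 ≤ a) {x y : ℤ} (hx : x ≠ 0)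
    (hyx : |y| ≤ |x|) (hxy : ev3 (a : ℤ) x y F = 0) {ρ : ℝ} (h1 : 1 / (a : ℝ) ≤ ρ)
    (h2 : 1 / |(x : ℝ)| ≤ ρ) (hρ : ρ * (B : ℝ) ^ (T ^ 6) ≤ 1) :
    ∃ θ : ℝ, (topm n m F).eval θ = 0 ∧ |(y : ℝ) / x - θ| ≤ (B : ℝ) ^ (T ^ 6) * ρ ∧
      1 ≤ (B : ℝ) ^ (T ^ 6) * |ev θ 0 0 0 (dq (PW n m F))| := by
  have H := h.H
  have haR : (a : ℝ) ≠ 0 := by
    have : a ≠ 0 := by omega
    exact_mod_cast this
  have haR0 : (0 : ℝ) < a := by
    have : 0 < a := by omega
    exact_mod_cast this
  have hxR : (x : ℝ) ≠ 0 := by exact_mod_cast hx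
  have hxR0 : (0 : ℝ) < |(x : ℝ)| := abs_pos.2 hxR
  have hBR : (2 : ℝ) ≤ B := by exact_mod_cast hB
  have hB1 : (1 : ℝ) ≤ B := by linarith
  have hρ0 : 0 ≤ ρ := le_trans (by positivity) h1
  -- the Bezout identity
  have hqc : ∀ i, (topz n m F).coeff i = if i ≤ n then cf3 F m (n - i) i else 0 := by
    intro i
    unfold topz
    rw [finsetSum_coeff]
    simp only [coeff_C_mul, coeff_X_pow, mul_ite, mul_one, mul_zero]
    rw [Finset.sum_ite_eq]
    simp only [mem_range]
    split_ifs <;> first | rfl | omega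
  have hdeg : (topz n m F).natDegree = n := by
    calc (topz n m F).natDegree = ((topz n m F).map (Int.castRingHom ℚ)).natDegree :=
          (natDegree_map_eq_of_injective (RingHom.injective_int _) _).symm
      _ = n := by rw [topz_rat, h.tq]
  obtain ⟨U, V, Δ, hΔ, hUV, hU, hV⟩ := bez0 (n := n) (B := B) (by omega) hB hdeg
    (fun i => by
      rw [hqc]
      split_ifs
      · exact hF _ _ _
      · rw [abs_zero]; positivity) (topz_sqf h)
  have hid : emb (U.map C) * q0 (PW n m F) + emb (V.map C) * dq (PW n m F) = MvPolynomial.C Δ := by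
    have e1 : dq (PW n m F) = emb ((derivative (topz n m F)).map C) := by
      unfold dq
      rw [q0_PW, emb_pderiv, derivative_map]
    rw [e1, q0_PW, ← emb_C_C, ← map_mul, ← map_mul, ← map_add, ← Polynomial.map_mul,
      ← Polynomial.map_mul, ← Polynomial.map_add, hUV, map_C]
  have hκ : 30 * (2 * n + m + 1 + (n + 2) ^ 4 + 1) ≤ T ^ 6 := by
    have e1 : (n + 2) ^ 4 ≤ T ^ 4 := Nat.pow_le_pow_left (by omega) 4
    have e2 : T ≤ T ^ 4 := by
      calc T = T ^ 1 := (pow_one T).symm
        _ ≤ T ^ 4 := Nat.pow_le_pow_right (by omega) (by norm_num)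
    calc 30 * (2 * n + m + 1 + (n + 2) ^ 4 + 1) ≤ 60 * T ^ 4 := by omega
      _ ≤ T ^ 2 * T ^ 4 := Nat.mul_le_mul_right _ (by nlinarith)
      _ = T ^ 6 := by ring
  have hBκ : (B : ℝ) ^ (30 * (2 * n + m + 1 + (n + 2) ^ 4 + 1)) ≤ (B : ℝ) ^ (T ^ 6) :=
    pow_le_pow_right₀ hB1 hκ
  have hev : ev ((y : ℝ) / x) 0 (1 / (a : ℝ)) (1 / (x : ℝ)) (PW n m F) = 0 := by
    rw [ev_PW H haR hxR]
    have e1 : ev3 (a : ℝ) (x : ℝ) (y : ℝ) F = ((ev3 (a : ℤ) x y F : ℤ) : ℝ) := by
      have := ev3_cast H (a : ℤ) x y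
      simpa using this
    rw [e1, hxy, Int.cast_zero, mul_zero]
  obtain ⟨θ, ht1, ht2, ht3⟩ := root_near (A := (B : ℝ)) (t := 0) (k := 2 * n + m + 1)
    (kb := (n + 2) ^ 4) hB (sz_PW hB hF) hU hV le_rfl (by rw [abs_zero]; linarith)
    (by
      intro z
      rw [hid]
      have e1 : ev z 0 0 0 (MvPolynomial.C Δ) = (Δ : ℝ) := by simp [ev]
      rw [e1]
      exact_mod_cast Int.one_le_abs hΔ)
    (Y := (y : ℝ) / x) (u := 1 / (a : ℝ)) (w := 1 / (x : ℝ)) (ρ := ρ)
    (by
      rw [abs_div, div_le_iff₀ hxR0]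
      have e1 : |(y : ℝ)| ≤ |(x : ℝ)| := by exact_mod_cast hyx
      nlinarith)
    (by rw [abs_of_nonneg (by positivity)]; exact h1)
    (by rw [abs_div, abs_one]; exact h2)
    ((mul_le_mul_of_nonneg_left hBκ hρ0).trans hρ) hev
  rw [ev_q0_PW] at ht1
  refine ⟨θ, ht1, ht2.trans (mul_le_mul_of_nonneg_right hBκ hρ0),
    ht3.trans (mul_le_mul_of_nonneg_right hBκ (abs_nonneg _))⟩

end Pool.Agent.H97.XU
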