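import Pool.Agent.H97.XU.SZB
import Pool.Agent.H4.TP.ST

/-! # [H97 XU CHT] The two charts

`PW n m F = u^m w^n F(1/u, 1/w, Z/w)` (windows: `u = 1/t`, `w = 1/x` small, `t` does not occur) and
`PR n m F = w^n F(t, 1/w, Z/w)` (Runge: `w = 1/x` small, `u` does not occur).
`topz n m F = f_m(1, Z) ∈ ℤ[Z]`. Proofs as `PF_zero`, `PF_eval` in `Pool/Agent/H98/TE/FAM.lean`.
Sizes: at most `(n+1)^2 (m+1) ≤ 2^(2n+m)` terms with coefficients `≤ B`, total degree `≤ n + m`. -/

namespace Pool.Agent.H97.XU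

open Finset Polynomial Pool.Agent.H37.TE Pool.Agent.H98.TE Pool.Agent.H4.TP

/-- the chart of the windows -/
noncomputable def PW (n m : ℕ) (F : ℤ[X][X][X]) : U4 :=
  ∑ b ∈ range (n + 1), ∑ a ∈ range (n + 1 - b), ∑ j ∈ range (m + 1),
    MvPolynomial.C (cf3 F j a b) * (MvPolynomial.X 2 ^ (m - j) * MvPolynomial.X 3 ^ (n - a - b) *
      MvPolynomial.X 0 ^ b)

/-- the chart of Runge's method -/
noncomputable def PR (n m : ℕ) (F : ℤ[X][X][X]) : U4 :=
  ∑ b ∈ range (n + 1), ∑ a ∈ range (n + 1 - b), ∑ j ∈ range (m + 1),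
    MvPolynomial.C (cf3 F j a b) * (MvPolynomial.X 1 ^ j * MvPolynomial.X 3 ^ (n - a - b) *
      MvPolynomial.X 0 ^ b)

/-- the top form of the coefficient of `t^m` -/
noncomputable def topz (n m : ℕ) (F : ℤ[X][X][X]) : ℤ[X] :=
  ∑ b ∈ range (n + 1), C (cf3 F m (n - b) b) * X ^ b

variable {n m B : ℕ} {F : ℤ[X][X][X]}

theorem topz_real : (topz n m F).map (Int.castRingHom ℝ) = topm n m F := by
  unfold topz topm
  rw [Polynomial.map_sum]
  refine sum_congr rfl fun b _ => ?_
  rw [Polynomial.map_mul, Polynomial.map_pow, Polynomial.map_X, Polynomial.map_C]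
  rfl

theorem topz_rat : (topz n m F).map (Int.castRingHom ℚ) = topq n m F := by
  unfold topz topq
  rw [Polynomial.map_sum]
  refine sum_congr rfl fun b _ => ?_
  rw [Polynomial.map_mul, Polynomial.map_pow, Polynomial.map_X, Polynomial.map_C]
  rfl

private theorem cht_pow (i : Fin 4) (k : ℕ) : L1 ((MvPolynomial.X i : U4) ^ k) ≤ 1 := by
  refine (L1_pow _ _).trans ?_
  rw [L1_X, one_pow]

private theorem cht_L1 (c : ℤ) (i j l : Fin 4) (a b d : ℕ) :
    L1 (MvPolynomial.C c * ((MvPolynomial.X i : U4) ^ a * MvPolynomial.X j ^ b *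
      MvPolynomial.X l ^ d)) ≤ c.natAbs := by
  refine (L1_mul _ _).trans ?_
  rw [L1_C]
  have h : L1 ((MvPolynomial.X i : U4) ^ a * MvPolynomial.X j ^ b * MvPolynomial.X l ^ d) ≤ 1 := by
    calc _ ≤ L1 ((MvPolynomial.X i : U4) ^ a * MvPolynomial.X j ^ b) *
          L1 ((MvPolynomial.X l : U4) ^ d) := L1_mul _ _
      _ ≤ (L1 ((MvPolynomial.X i : U4) ^ a) * L1 ((MvPolynomial.X j : U4) ^ b)) *
          L1 ((MvPolynomial.X l : U4) ^ d) := Nat.mul_le_mul_right _ (L1_mul _ _)
      _ ≤ (1 * 1) * 1 := Nat.mul_le_mul (Nat.mul_le_mul (cht_pow _ _) (cht_pow _ _)) (cht_pow _ _)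
      _ = 1 := by norm_num
  calc c.natAbs * _ ≤ c.natAbs * 1 := Nat.mul_le_mul_left _ h
    _ = c.natAbs := Nat.mul_one _

private theorem cht_deg (c : ℤ) (i j l : Fin 4) (a b d : ℕ) :
    (MvPolynomial.C c * ((MvPolynomial.X i : U4) ^ a * MvPolynomial.X j ^ b *
      MvPolynomial.X l ^ d)).totalDegree ≤ a + b + d := by
  have hp : ∀ (i : Fin 4) (k : ℕ), ((MvPolynomial.X i : U4) ^ k).totalDegree ≤ k := by
    intro i k
    refine (MvPolynomial.totalDegree_pow _ _).trans ?_
    rw [MvPolynomial.totalDegree_X, mul_one]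
  calc _ ≤ (MvPolynomial.C c : U4).totalDegree + ((MvPolynomial.X i : U4) ^ a *
        MvPolynomial.X j ^ b * MvPolynomial.X l ^ d).totalDegree := MvPolynomial.totalDegree_mul _ _
    _ = ((MvPolynomial.X i : U4) ^ a * MvPolynomial.X j ^ b * MvPolynomial.X l ^ d).totalDegree := by
        rw [MvPolynomial.totalDegree_C, zero_add]
    _ ≤ ((MvPolynomial.X i : U4) ^ a * MvPolynomial.X j ^ b).totalDegree +
        ((MvPolynomial.X l : U4) ^ d).totalDegree := MvPolynomial.totalDegree_mul _ _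
    _ ≤ (((MvPolynomial.X i : U4) ^ a).totalDegree + ((MvPolynomial.X j : U4) ^ b).totalDegree) +
        ((MvPolynomial.X l : U4) ^ d).totalDegree :=
          Nat.add_le_add_right (MvPolynomial.totalDegree_mul _ _) _
    _ ≤ a + b + d := Nat.add_le_add (Nat.add_le_add (hp _ _) (hp _ _)) (hp _ _)

/-- the number of terms -/
private theorem cht_num (n m B : ℕ) (hB : 2 ≤ B) :
    ∑ b ∈ range (n + 1), ∑ _a ∈ range (n + 1 - b), ∑ _j ∈ range (m + 1), B ≤ B ^ (2 * n + m + 1) := by
  have h1 : ∀ b ∈ range (n + 1), ∑ _a ∈ range (n + 1 - b), ∑ _j ∈ range (m + 1), B ≤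
      (n + 1) * ((m + 1) * B) := by
    intro b _
    rw [sum_const, card_range, smul_eq_mul, sum_const, card_range, smul_eq_mul]
    exact Nat.mul_le_mul_right _ (by omega)
  have h2 : n + 1 ≤ 2 ^ n := Nat.lt_two_pow_self
  have h3 : m + 1 ≤ 2 ^ m := Nat.lt_two_pow_self
  calc _ ≤ ∑ _b ∈ range (n + 1), (n + 1) * ((m + 1) * B) := sum_le_sum h1
    _ = (n + 1) * ((n + 1) * ((m + 1) * B)) := by rw [sum_const, card_range, smul_eq_mul]
    _ ≤ 2 ^ n * (2 ^ n * (2 ^ m * B)) :=
        Nat.mul_le_mul h2 (Nat.mul_le_mul h2 (Nat.mul_le_mul_right _ h3))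
    _ ≤ B ^ n * (B ^ n * (B ^ m * B)) :=
        Nat.mul_le_mul (Nat.pow_le_pow_left hB _) (Nat.mul_le_mul (Nat.pow_le_pow_left hB _)
          (Nat.mul_le_mul_right _ (Nat.pow_le_pow_left hB _)))
    _ = B ^ (2 * n + m + 1) := by ring

private theorem cht_CB {B : ℕ} {F : ℤ[X][X][X]} (hF : CB B F) (j a b : ℕ) :
    (cf3 F j a b).natAbs ≤ B := by
  have h := hF j a b
  rw [Int.abs_eq_natAbs] at h
  exact_mod_cast h

theorem sz_PW (hB : 2 ≤ B) (hF : CB B F) : Sz B (2 * n + m + 1) (PW n m F) := by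
  refine ⟨?_, ?_⟩
  · unfold PW
    refine (MvPolynomial.totalDegree_finsetSum_le fun b hb => ?_)
    rw [mem_range] at hb
    refine (MvPolynomial.totalDegree_finsetSum_le fun a ha => ?_)
    rw [mem_range] at ha
    refine (MvPolynomial.totalDegree_finsetSum_le fun j hj => ?_)
    refine (cht_deg _ _ _ _ _ _ _).trans ?_
    omega
  · unfold PW
    refine (L1_sum _ _).trans ?_
    refine le_trans (sum_le_sum fun b _ => (L1_sum _ _).trans (sum_le_sum fun a _ =>
      (L1_sum _ _).trans (sum_le_sum fun j _ => (cht_L1 _ _ _ _ _ _ _).trans (cht_CB hF _ _ _))))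
      (cht_num n m B hB)

theorem sz_PR (hB : 2 ≤ B) (hF : CB B F) : Sz B (2 * n + m + 1) (PR n m F) := by
  refine ⟨?_, ?_⟩
  · unfold PR
    refine (MvPolynomial.totalDegree_finsetSum_le fun b hb => ?_)
    rw [mem_range] at hb
    refine (MvPolynomial.totalDegree_finsetSum_le fun a ha => ?_)
    rw [mem_range] at ha
    refine (MvPolynomial.totalDegree_finsetSum_le fun j hj => ?_)
    rw [mem_range] at hj
    refine (cht_deg _ _ _ _ _ _ _).trans ?_
    omega
  · unfold PR
    refine (L1_sum _ _).trans ?_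
    refine le_trans (sum_le_sum fun b _ => (L1_sum _ _).trans (sum_le_sum fun a _ =>
      (L1_sum _ _).trans (sum_le_sum fun j _ => (cht_L1 _ _ _ _ _ _ _).trans (cht_CB hF _ _ _))))
      (cht_num n m B hB)

private theorem cht_embX : emb (X : ℤ[X][X]) = MvPolynomial.X 0 := by
  unfold emb
  simp

private theorem cht_emb_C (p : ℤ[X]) : emb (C p) = eval₂ (Int.castRingHom U4) (MvPolynomial.X 1) p := by
  unfold emb
  simp

theorem q0_PW : q0 (PW n m F) = emb ((topz n m F).map C) := by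
  unfold q0 PW topz
  rw [Polynomial.map_sum, map_sum, map_sum]
  refine sum_congr rfl fun b hb => ?_
  rw [mem_range, Nat.lt_succ_iff] at hb
  rw [Polynomial.map_mul, Polynomial.map_pow, Polynomial.map_X, Polynomial.map_C, map_mul, map_pow,
    emb_C_C, cht_embX, map_sum, sum_eq_single (n - b)]
  · rw [map_sum, sum_eq_single m]
    · have h1 : n - (n - b) - b = 0 := by omega
      rw [h1]
      simp [MvPolynomial.aeval_X]
    · intro j hj hjm
      rw [mem_range] at hj
      have h1 : m - j ≠ 0 := by omega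
      simp [MvPolynomial.aeval_X, h1]
    · intro h
      exact absurd (mem_range.2 (Nat.lt_succ_self m)) h
  · intro a ha hab
    rw [mem_range] at ha
    have h1 : n - a - b ≠ 0 := by omega
    rw [map_sum]
    refine sum_eq_zero fun j _ => ?_
    simp [MvPolynomial.aeval_X, h1]
  · intro h
    exact absurd (mem_range.2 (by omega)) h

theorem q0_PR (H : DegF n m F) : q0 (PR n m F) = emb (topf n F) := by
  unfold q0 PR topf tpf
  rw [map_sum, map_sum]
  refine sum_congr rfl fun b hb => ?_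
  rw [mem_range, Nat.lt_succ_iff] at hb
  rw [map_mul, map_pow, cht_emb_C, cht_embX, map_sum, sum_eq_single (n - b),
    eval₂_eq_sum_range' _ (lt_of_le_of_lt (H.deg (n - b) b) (Nat.lt_succ_self m)), map_sum, sum_mul]
  · refine sum_congr rfl fun j _ => ?_
    have h1 : n - (n - b) - b = 0 := by omega
    rw [h1, cf3]
    simp [MvPolynomial.aeval_X, mul_assoc]
  · intro a ha hab
    rw [mem_range] at ha
    have h1 : n - a - b ≠ 0 := by omega
    rw [map_sum]
    refine sum_eq_zero fun j _ => ?_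
    simp [MvPolynomial.aeval_X, h1]
  · intro h
    exact absurd (mem_range.2 (by omega)) h

theorem PW_t0 : MvPolynomial.aeval ![(MvPolynomial.X 0 : U4), 0, MvPolynomial.X 2,
    MvPolynomial.X 3] (PW n m F) = PW n m F := by
  unfold PW
  rw [map_sum]
  refine sum_congr rfl fun b _ => ?_
  rw [map_sum]
  refine sum_congr rfl fun a _ => ?_
  rw [map_sum]
  refine sum_congr rfl fun j _ => ?_
  simp [MvPolynomial.aeval_X]

theorem PR_u0 : MvPolynomial.aeval ![(MvPolynomial.X 0 : U4), MvPolynomial.X 1, 0,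
    MvPolynomial.X 3] (PR n m F) = PR n m F := by
  unfold PR
  rw [map_sum]
  refine sum_congr rfl fun b _ => ?_
  rw [map_sum]
  refine sum_congr rfl fun a _ => ?_
  rw [map_sum]
  refine sum_congr rfl fun j _ => ?_
  simp [MvPolynomial.aeval_X]

private theorem cht_evC (z t u w : ℝ) (c : ℤ) : ev z t u w (MvPolynomial.C c) = (c : ℝ) := by
  unfold ev
  simp

private theorem cht_ev0 (z t u w : ℝ) : ev z t u w (MvPolynomial.X 0) = z := by
  unfold ev
  simp

private theorem cht_ev1 (z t u w : ℝ) : ev z t u w (MvPolynomial.X 1) = t := by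
  unfold ev
  simp

private theorem cht_ev2 (z t u w : ℝ) : ev z t u w (MvPolynomial.X 2) = u := by
  unfold ev
  simp

private theorem cht_ev3 (z t u w : ℝ) : ev z t u w (MvPolynomial.X 3) = w := by
  unfold ev
  simp

theorem ev_PW (H : DegF n m F) {a x y : ℝ} (ha : a ≠ 0) (hx : x ≠ 0) (t : ℝ) :
    ev (y / x) t (1 / a) (1 / x) (PW n m F) = (1 / a) ^ m * (1 / x) ^ n * ev3 a x y F := by
  unfold PW
  rw [Pool.Agent.H98.TE.ev3_sum H, map_sum, mul_sum]
  refine sum_congr rfl fun b hb => ?_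
  rw [mem_range, Nat.lt_succ_iff] at hb
  rw [map_sum, mul_sum]
  refine sum_congr rfl fun c hc => ?_
  rw [mem_range] at hc
  rw [map_sum, mul_sum]
  refine sum_congr rfl fun j hj => ?_
  rw [mem_range, Nat.lt_succ_iff] at hj
  simp only [map_mul, map_pow, cht_evC, cht_ev0, cht_ev2, cht_ev3]
  obtain ⟨m', rfl⟩ : ∃ m', m = j + m' := ⟨m - j, by omega⟩
  obtain ⟨n', hn'⟩ : ∃ n', n = c + b + n' := ⟨n - c - b, by omega⟩
  have e1 : j + m' - j = m' := by omega
  have e2 : n - c - b = n' := by omega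
  rw [e1, e2, hn']
  rw [_root_.div_pow, _root_.div_pow, _root_.div_pow, _root_.div_pow, _root_.div_pow, pow_add,
    pow_add, pow_add, one_pow, one_pow, one_pow, one_pow]
  field_simp
  ring

theorem ev_PR (H : DegF n m F) {a x y : ℝ} (hx : x ≠ 0) (u : ℝ) :
    ev (y / x) a u (1 / x) (PR n m F) = (1 / x) ^ n * ev3 a x y F := by
  unfold PR
  rw [Pool.Agent.H98.TE.ev3_sum H, map_sum, mul_sum]
  refine sum_congr rfl fun b hb => ?_
  rw [mem_range, Nat.lt_succ_iff] at hb
  rw [map_sum, mul_sum]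
  refine sum_congr rfl fun c hc => ?_
  rw [mem_range] at hc
  rw [map_sum, mul_sum]
  refine sum_congr rfl fun j hj => ?_
  rw [mem_range, Nat.lt_succ_iff] at hj
  simp only [map_mul, map_pow, cht_evC, cht_ev0, cht_ev1, cht_ev3]
  obtain ⟨n', hn'⟩ : ∃ n', n = c + b + n' := ⟨n - c - b, by omega⟩
  have e2 : n - c - b = n' := by omega
  rw [e2, hn']
  rw [_root_.div_pow, _root_.div_pow, _root_.div_pow, pow_add, pow_add, one_pow, one_pow]
  field_simp
  ring

/-- values of `q0 (PW ..)` and of its derivative -/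
theorem ev_q0_PW (θ t : ℝ) : ev θ t 0 0 (q0 (PW n m F)) = (topm n m F).eval θ := by
  rw [q0_PW, ev_emb, eval₂_map, ← topz_real, eval_map]
  congr 1
  ext c
  simp

theorem ev_q0_PR (H : DegF n m F) (θ t : ℝ) : ev θ t 0 0 (q0 (PR n m F)) =
    eval₂ (eval₂RingHom (Int.castRingHom ℝ) t) θ (topf n F) := by
  rw [q0_PR H, ev_emb]

end Pool.Agent.H97.XU
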