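import Pool.Agent.H4.SX.Defs

/-!
# [H97 XU] MP_821da1_nt, THEOREM XU: Theorem X uniformly and explicitly, definitions

`F ∈ ℤ[t][x][y]` as in `Pool/Agent/H4/SX` (`HypG n m F`, `HR n m F`), coefficients at most `B`
(`CB B F`).

All estimates are made with one measure of size. `U4 = ℤ[Z, t, u, w]` (`Z = X 0`, `t = X 1`, `u = X 2`, `w = X 3`);
`Sz B k P`: total degree at most `k`, sum `L1 P` of the absolute values of the coefficients at most `B^k`.
`Ord r P`: all monomials have degree at least `r` in the small variables `u, w`.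
`ev z t u w P`: the real value. `emb : ℤ[t][Z] → U4`.
`q0 P = P(Z, t, 0, 0)`, `dq P = ∂(q0 P)/∂Z`, `sbs D η P = P(Z + D η, t, D² u, D² w)`.
-/

namespace Pool.Agent.H97.XU

open Finset Polynomial Pool.Agent.H98.TE

/-- polynomials in `Z = X 0, t = X 1, u = X 2, w = X 3` -/
abbrev U4 : Type := MvPolynomial (Fin 4) ℤ

/-- the sum of the absolute values of the coefficients -/
noncomputable def L1 {r : ℕ} (P : MvPolynomial (Fin r) ℤ) : ℕ :=
  ∑ e ∈ P.support, (P.coeff e).natAbs

/-- total degree at most `k`, sum of the absolute values of the coefficients at most `B ^ k` -/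
def Sz (B k : ℕ) {r : ℕ} (P : MvPolynomial (Fin r) ℤ) : Prop :=
  P.totalDegree ≤ k ∧ L1 P ≤ B ^ k

/-- all monomials have degree at least `r` in `u, w` -/
def Ord (r : ℕ) (P : U4) : Prop := ∀ e ∈ P.support, r ≤ e 2 + e 3

/-- the value at real numbers -/
noncomputable def ev (z t u w : ℝ) : U4 →+* ℝ :=
  MvPolynomial.eval₂Hom (Int.castRingHom ℝ) ![z, t, u, w]

/-- `ℤ[t][Z] → U4` -/
noncomputable def emb : ℤ[X][X] →+* U4 :=
  eval₂RingHom (eval₂RingHom (Int.castRingHom U4) (MvPolynomial.X 1)) (MvPolynomial.X 0)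

/-- the polynomial at `u = w = 0` -/
noncomputable def q0 (P : U4) : U4 :=
  MvPolynomial.aeval ![(MvPolynomial.X 0 : U4), MvPolynomial.X 1, 0, 0] P

/-- the derivative of `q0 P` -/
noncomputable def dq (P : U4) : U4 := MvPolynomial.pderiv 0 (q0 P)

/-- `P(Z + D η, t, D² u, D² w)` -/
noncomputable def sbs (D η : U4) : U4 →ₐ[ℤ] U4 :=
  MvPolynomial.aeval ![(MvPolynomial.X 0 : U4) + D * η, MvPolynomial.X 1,
    D ^ 2 * MvPolynomial.X 2, D ^ 2 * MvPolynomial.X 3]

/-- all coefficients are at most `B` in absolute value -/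
def CB (B : ℕ) (F : ℤ[X][X][X]) : Prop := ∀ j a b, |cf3 F j a b| ≤ (B : ℤ)

end Pool.Agent.H97.XU
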