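import Pool.Agent.H4.SX.FCX
import Pool.Agent.H4.TE.IRF
import Pool.Agent.H97.XU.FCG

/-! # [H97 XU FCE] Factors through a point, explicit exponents; the coefficients of a member

`fac_pointE`: `fac_point` (`Pool/Agent/H4/SX/FCX.lean`) gives the factor `F ∣ G`; the size from `gelf2` through
`toB : ℤ[x, y] → ℤ[x][y]`.
`fm_coeffE`: `fm_coeff` (`Pool/Agent/H4/TE/IRF.lean`) with the constant `(n + 1)^2 (m + 1) B`. -/

namespace Pool.Agent.H97.XU

open Finset Polynomial Pool.Agent.H37.TE Pool.Agent.H98.TE Pool.Agent.H4.TP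

open Pool.Agent.H34.AC Pool.Agent.H97.NW in
theorem fac_pointE {n : ℕ} (hn : 1 ≤ n) {G : MvPolynomial (Fin 2) ℤ} {H : ℕ} (hH : 2 ≤ H)
    (hGn : G.totalDegree ≤ n) (hGy : G.coeff (Finsupp.single 1 n) ≠ 0)
    (hGH : ∀ e, |G.coeff e| ≤ (H : ℤ)) {x y : ℤ} (h0 : vl G x y = 0) :
    ∃ F : MvPolynomial (Fin 2) ℤ, F ∣ G ∧ Irreducible (MvPolynomial.map (Int.castRingHom ℚ) F) ∧
      F.totalDegree ≤ n ∧ (∃ e ∈ F.support, 1 ≤ e 1) ∧ vl F x y = 0 ∧
      ∀ e, |F.coeff e| ≤ ((H ^ (2 * ((n + 1) * (n + 1)) + 1) : ℕ) : ℤ) := by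
  obtain ⟨c, hc⟩ := Pool.Agent.H4.SX.fac_point n hn
  obtain ⟨F, hFG, hirr, hdeg, hy, hv, -⟩ := hc G H hH hGn hGy hGH x y h0
  refine ⟨F, hFG, hirr, hdeg, hy, hv, fun e => ?_⟩
  have htot : ∀ (P : MvPolynomial (Fin 2) ℤ), P.totalDegree ≤ n → ∀ e : Fin 2 →₀ ℕ,
      P.coeff e ≠ 0 → e 0 + e 1 ≤ n := by
    intro P hP e he
    have h1 := MvPolynomial.le_totalDegree (MvPolynomial.mem_support_iff.2 he)
    rw [Finsupp.sum_fintype _ _ (fun _ => rfl), Fin.sum_univ_two] at h1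
    exact h1.trans hP
  have hG0 : G ≠ 0 := by
    rintro rfl
    exact hGy (MvPolynomial.coeff_zero _)
  have hB0 : toB G ≠ 0 := by
    intro h'
    exact hG0 ((map_eq_zero_iff _ (AlgEquiv.injective _)).1 h')
  obtain ⟨R, hR⟩ := hFG
  have hmul : toB G = toB F * toB R := by rw [hR, map_mul]
  have hB2 : B2 n n H (toB G) := by
    refine ⟨?_, ?_, ?_⟩
    · rw [natDegree_le_iff_coeff_eq_zero]
      intro N hN
      ext i
      rw [toB_coeff, coeff_zero]
      by_contra h'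
      have h1 := htot G hGn _ h'
      simp at h1
      omega
    · intro j
      rw [natDegree_le_iff_coeff_eq_zero]
      intro N hN
      rw [toB_coeff]
      by_contra h'
      have h1 := htot G hGn _ h'
      simp at h1
      omega
    · intro i j
      rw [toB_coeff]
      exact hGH _
  have h1 := (gelf2 hH hB2 hB0 hmul).2.2 (e 1) (e 0)
  rw [toB_coeff] at h1
  have h2 : (Finsupp.single 0 (e 0) + Finsupp.single 1 (e 1) : Fin 2 →₀ ℕ) = e := by
    ext v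
    fin_cases v <;> simp
  rwa [h2] at h1

open Pool.Agent.H4.TE in
private theorem fce_sum {n m : ℕ} {F : ℤ[X][X][X]} (H : DegF n m F) (a : ℕ) :
    Fm F a = ∑ b ∈ range (n + 1), ∑ i ∈ range (n + 1 - b), ∑ j ∈ range (m + 1),
      MvPolynomial.monomial (Finsupp.single 0 i + Finsupp.single 1 b) (cf3 F j i b * (a : ℤ) ^ j) := by
  unfold Fm
  rw [Pool.Agent.H98.TE.ev3_sum H]
  refine sum_congr rfl fun b _ => sum_congr rfl fun i _ => sum_congr rfl fun j _ => ?_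
  have h1 : ((cf3 F j i b : ℤ) : MvPolynomial (Fin 2) ℤ) = MvPolynomial.C (cf3 F j i b) := rfl
  rw [MvPolynomial.X_pow_eq_monomial, MvPolynomial.X_pow_eq_monomial, ← map_pow, mul_assoc,
    MvPolynomial.monomial_mul, MvPolynomial.C_mul_monomial, h1, MvPolynomial.C_mul_monomial,
    mul_one, mul_one]

open Pool.Agent.H4.TE in
theorem fm_coeffE {n m B : ℕ} {F : ℤ[X][X][X]} (H : DegF n m F) (hF : CB B F) {a : ℕ}
    (ha : 1 ≤ a) (e : Fin 2 →₀ ℕ) :
    |(Fm F a).coeff e| ≤ (((n + 1) * (n + 1) * (m + 1) * B * a ^ m : ℕ) : ℤ) := by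
  classical
  rw [fce_sum H, MvPolynomial.coeff_sum]
  have h1 : (1 : ℤ) ≤ a := by exact_mod_cast ha
  have hB : (0 : ℤ) ≤ (B : ℤ) := Int.natCast_nonneg B
  have h5 : ∀ b i j, j ≤ m → |(MvPolynomial.monomial (Finsupp.single 0 i + Finsupp.single 1 b)
      (cf3 F j i b * (a : ℤ) ^ j) : MvPolynomial (Fin 2) ℤ).coeff e| ≤ (B : ℤ) * (a : ℤ) ^ m := by
    intro b i j hj
    rw [MvPolynomial.coeff_monomial]
    have h2 : (a : ℤ) ^ j ≤ (a : ℤ) ^ m := pow_le_pow_right₀ h1 hj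
    split_ifs
    · rw [abs_mul, abs_pow, abs_of_nonneg (by omega : (0 : ℤ) ≤ a)]
      exact mul_le_mul (hF _ _ _) h2 (by positivity) hB
    · rw [abs_zero]
      positivity
  have h6 : ∀ b, |(∑ i ∈ range (n + 1 - b), ∑ j ∈ range (m + 1),
      MvPolynomial.monomial (Finsupp.single 0 i + Finsupp.single 1 b)
        (cf3 F j i b * (a : ℤ) ^ j) : MvPolynomial (Fin 2) ℤ).coeff e| ≤
      ((n + 1 : ℕ) : ℤ) * (((m + 1 : ℕ) : ℤ) * ((B : ℤ) * (a : ℤ) ^ m)) := by
    intro b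
    rw [MvPolynomial.coeff_sum]
    have h7 : ∀ i ∈ range (n + 1 - b), |(∑ j ∈ range (m + 1),
        MvPolynomial.monomial (Finsupp.single 0 i + Finsupp.single 1 b)
        (cf3 F j i b * (a : ℤ) ^ j) : MvPolynomial (Fin 2) ℤ).coeff e| ≤
        ((m + 1 : ℕ) : ℤ) * ((B : ℤ) * (a : ℤ) ^ m) := by
      intro i _
      rw [MvPolynomial.coeff_sum]
      refine (abs_sum_le_sum_abs _ _).trans ?_
      refine (sum_le_sum fun j hj => h5 b i j (by rw [mem_range] at hj; omega)).trans ?_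
      rw [sum_const, card_range, nsmul_eq_mul]
    refine (abs_sum_le_sum_abs _ _).trans ((sum_le_sum h7).trans ?_)
    rw [sum_const, card_range, nsmul_eq_mul]
    refine mul_le_mul_of_nonneg_right ?_ (by positivity)
    exact_mod_cast (by omega : n + 1 - b ≤ n + 1)
  refine (abs_sum_le_sum_abs _ _).trans ((sum_le_sum fun b _ => h6 b).trans ?_)
  rw [sum_const, card_range, nsmul_eq_mul]
  apply le_of_eq
  push_cast
  ring

end Pool.Agent.H97.XU
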