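import Pool.Agent.H97.XU.ELU
import Pool.Agent.H4.SX.SMF

/-! # [H97 XU SMU] Small points, with sizes

`small_fibU`: as `small_fib` (`Pool/Agent/H4/SX/SMF.lean`): `fib F x y ∈ ℤ[t]` of degree `≤ m` with coefficients at most
`(n+1)² B max(1,|x|)^n` (`fib_coeff`, `CB`); if it is not `0`, `root_le` gives `a ≤ m (n+1)² B max(1,|x|)^n`, so `a² ≤ (m (n+1)² B)² a`
(`max(1,|x|)^(2n) ≤ a`), `a ≤ (m (n+1)² B)² < B^(4n+2m+4)` (`m < 2^m`, `(n+1)² ≤ 2^(2n)`, `2 ≤ B`).
`small_aux`: `p = (F.coeff n).coeff 0`, `pm = cf3 F m 0 n ≠ 0` (`h.tq`: `topq n m F` has degree `n`; `topq_coeff`),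
`F_m = ∑_b ∑_a cf3 F m a b x^a y^b` (constant in `t`), `G = pm F - p F_m`, i.e. `cf3 G j a b = pm * cf3 F j a b - cf3 F j 0 n * cf3 F m a b`
(`F.coeff n = C p` as `DegF.tot`). So `G.coeff n = 0`, `natDegree < n`; `CB (2 B²)`; `G = 0` would give `Prp m F` (cancel `pm`).
If `fib F x y = 0`, then `ev3 a x y F = 0` (`fib_eval`) and `F_m(x, y) = (fib F x y).coeff m = 0` (`fib_coeff`), so
`ev3 a x y G = pm * 0 - p(a) * 0 = 0`. -/

namespace Pool.Agent.H97.XU

open Finset Polynomial Pool.Agent.H37.TE Pool.Agent.H98.TE Pool.Agent.H4.TP Pool.Agent.H4.SX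

/-- the coefficients of all `t^j` are proportional to those of `t^m` -/
def Prp (m : ℕ) (F : ℤ[X][X][X]) : Prop :=
  ∀ j a b a' b', cf3 F j a b * cf3 F m a' b' = cf3 F j a' b' * cf3 F m a b

theorem small_fibU {n m B : ℕ} (hn : 1 ≤ n) (hB : 2 ≤ B) {F : ℤ[X][X][X]} (H : DegF n m F)
    (hF : CB B F) {a : ℕ} (ha : B ^ (4 * n + 2 * m + 4) ≤ a) {x y : ℤ} (hyx : |y| ≤ |x|)
    (hx : |x| ^ (2 * n) ≤ (a : ℤ)) (hxy : ev3 (a : ℤ) x y F = 0) : fib F x y = 0 := by
  by_contra hq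
  have hBpos : 0 < B ^ (4 * n + 2 * m + 4) := pow_pos (by omega) _
  have ha1 : (1 : ℤ) ≤ a := by
    have : 1 ≤ a := by omega
    exact_mod_cast this
  obtain ⟨M, hM⟩ : ∃ M : ℤ, M = max 1 |x| := ⟨_, rfl⟩
  have hM1 : 1 ≤ M := by rw [hM]; exact le_max_left _ _
  have hMx : |x| ≤ M := by rw [hM]; exact le_max_right _ _
  have hMa : M ^ (2 * n) ≤ a := by
    rw [hM]
    rcases le_total |x| 1 with h | h
    · rw [max_eq_left h, one_pow]
      exact ha1
    · rw [max_eq_right h]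
      exact hx
  have hK : ∀ i, |(fib F x y).coeff i| ≤ ((n : ℤ) + 1) ^ 2 * B * M ^ n := by
    intro i
    rw [fib_coeff H]
    split_ifs with hi
    · refine (abs_sum_le_sum_abs _ _).trans ?_
      have h1 : ∀ b ∈ range (n + 1), |∑ c ∈ range (n + 1 - b), cf3 F i c b * (x ^ c * y ^ b)| ≤
          ((n : ℤ) + 1) * (B * M ^ n) := by
        intro b hb
        refine (abs_sum_le_sum_abs _ _).trans ?_
        have h2 : ∀ c ∈ range (n + 1 - b), |cf3 F i c b * (x ^ c * y ^ b)| ≤ B * M ^ n := by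
          intro c hc
          rw [mem_range] at hb hc
          rw [abs_mul, abs_mul, abs_pow, abs_pow]
          refine mul_le_mul (hF i c b) ?_ (by positivity) (by positivity)
          calc |x| ^ c * |y| ^ b ≤ M ^ c * M ^ b :=
                mul_le_mul (pow_le_pow_left₀ (abs_nonneg _) hMx c)
                  (pow_le_pow_left₀ (abs_nonneg _) (hyx.trans hMx) b) (by positivity) (by positivity)
            _ = M ^ (c + b) := by rw [pow_add]
            _ ≤ M ^ n := pow_le_pow_right₀ hM1 (by omega)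
        refine (sum_le_sum h2).trans ?_
        rw [sum_const, card_range, nsmul_eq_mul]
        apply mul_le_mul_of_nonneg_right _ (by positivity)
        exact_mod_cast (by omega : n + 1 - b ≤ n + 1)
      refine (sum_le_sum h1).trans ?_
      rw [sum_const, card_range, nsmul_eq_mul]
      push_cast
      exact le_of_eq (by ring)
    · rw [abs_zero]
      positivity
  have h1 : (a : ℤ) ≤ (fib F x y).natDegree * (((n : ℤ) + 1) ^ 2 * B * M ^ n) :=
    root_le ha1 hK hq (by rw [fib_eval H]; exact hxy)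
  obtain ⟨E, hE⟩ : ∃ E : ℤ, E = (m : ℤ) * ((n : ℤ) + 1) ^ 2 * B := ⟨_, rfl⟩
  have hE0 : 0 ≤ E := by rw [hE]; positivity
  have h2 : (a : ℤ) ≤ E * M ^ n := by
    refine h1.trans ?_
    have h3 : (((fib F x y).natDegree : ℕ) : ℤ) ≤ m := by exact_mod_cast fib_deg H x y
    calc ((fib F x y).natDegree : ℤ) * (((n : ℤ) + 1) ^ 2 * B * M ^ n) ≤
          m * (((n : ℤ) + 1) ^ 2 * B * M ^ n) := mul_le_mul_of_nonneg_right h3 (by positivity)
      _ = _ := by rw [hE]; ring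
  have h3 : (a : ℤ) * a ≤ E ^ 2 * a := by
    calc (a : ℤ) * a ≤ (E * M ^ n) * (E * M ^ n) :=
          mul_le_mul h2 h2 (by positivity) (by positivity)
      _ = E ^ 2 * M ^ (2 * n) := by ring
      _ ≤ E ^ 2 * a := mul_le_mul_of_nonneg_left hMa (by positivity)
  have h4 : (a : ℤ) ≤ E ^ 2 := le_of_mul_le_mul_right h3 (by omega)
  have h5 : (m * (n + 1) ^ 2 * B) ^ 2 ≤ B ^ (4 * n + 2 * m + 2) := by
    have e1 : m ≤ B ^ m := (Nat.lt_pow_self (by omega : 1 < B)).le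
    have e2 : n + 1 ≤ B ^ n := Nat.lt_pow_self (by omega : 1 < B)
    calc (m * (n + 1) ^ 2 * B) ^ 2 ≤ (B ^ m * (B ^ n) ^ 2 * B) ^ 2 := by
          apply Nat.pow_le_pow_left
          exact Nat.mul_le_mul_right _ (Nat.mul_le_mul e1 (Nat.pow_le_pow_left e2 2))
      _ = B ^ (4 * n + 2 * m + 2) := by ring
  have h6 : E ^ 2 ≤ (B : ℤ) ^ (4 * n + 2 * m + 2) := by
    rw [hE]
    exact_mod_cast h5
  have h7 : B ^ (4 * n + 2 * m + 2) < B ^ (4 * n + 2 * m + 4) :=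
    Nat.pow_lt_pow_right (by omega) (by omega)
  have h8 : (B : ℤ) ^ (4 * n + 2 * m + 2) < (B : ℤ) ^ (4 * n + 2 * m + 4) := by exact_mod_cast h7
  have h9 : (B : ℤ) ^ (4 * n + 2 * m + 4) ≤ a := by exact_mod_cast ha
  linarith

private theorem aux_Fm {n m : ℕ} {F : ℤ[X][X][X]} (H : DegF n m F) (b a : ℕ) :
    ((∑ b ∈ range (n + 1), ∑ a ∈ range (n + 1 - b),
      C (C (C (cf3 F m a b)) * X ^ a) * X ^ b : ℤ[X][X][X]).coeff b).coeff a = C (cf3 F m a b) := by
  have h1 : (∑ b ∈ range (n + 1), ∑ a ∈ range (n + 1 - b),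
      C (C (C (cf3 F m a b)) * X ^ a) * X ^ b : ℤ[X][X][X]) =
      ∑ b ∈ range (n + 1), C (∑ a ∈ range (n + 1 - b), C (C (cf3 F m a b)) * X ^ a) * X ^ b := by
    refine sum_congr rfl fun b _ => ?_
    rw [map_sum, sum_mul]
  rw [h1, finsetSum_coeff]
  simp only [coeff_C_mul, coeff_X_pow, mul_ite, mul_one, mul_zero]
  rw [Finset.sum_ite_eq]
  by_cases hb : b ∈ range (n + 1)
  · rw [if_pos hb, finsetSum_coeff]
    simp only [coeff_C_mul, coeff_X_pow, mul_ite, mul_one, mul_zero]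
    rw [Finset.sum_ite_eq]
    by_cases ha : a ∈ range (n + 1 - b)
    · rw [if_pos ha]
    · rw [if_neg ha]
      rw [mem_range] at ha hb
      unfold cf3
      rw [H.tot a b (by omega), coeff_zero, C_0]
  · rw [if_neg hb, coeff_zero]
    rw [mem_range] at hb
    unfold cf3
    rw [H.tot a b (by omega), coeff_zero, C_0]

theorem small_aux {n m B : ℕ} (hn : 1 ≤ n) (hB : 2 ≤ B) {F : ℤ[X][X][X]} (h : HypG n m F)
    (hF : CB B F) (hp : ¬ Prp m F) : ∃ G : ℤ[X][X][X], G ≠ 0 ∧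
      TD (n + m) (n + m) (n + m) G ∧ G.natDegree < n ∧ CB (B ^ 3) G ∧
      ∀ a x y : ℤ, fib F x y = 0 → ev3 a x y G = 0 := by
  have H := h.H
  obtain ⟨pm, hpm⟩ : ∃ pm : ℤ, pm = cf3 F m 0 n := ⟨_, rfl⟩
  obtain ⟨p, hpd⟩ : ∃ p : ℤ[X], p = (F.coeff n).coeff 0 := ⟨_, rfl⟩
  have hpm0 : pm ≠ 0 := by
    intro h0
    have h1 : (topq n m F).coeff n ≠ 0 := by
      have h2 : (topq n m F).leadingCoeff ≠ 0 := leadingCoeff_ne_zero.2 h.sq.ne_zero
      rwa [leadingCoeff, h.tq] at h2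
    apply h1
    rw [topq_coeff, if_pos le_rfl, Nat.sub_self, ← hpm, h0]
    simp
  obtain ⟨Fm, hFm⟩ : ∃ Fm : ℤ[X][X][X], Fm = ∑ b ∈ range (n + 1), ∑ a ∈ range (n + 1 - b),
      C (C (C (cf3 F m a b)) * X ^ a) * X ^ b := ⟨_, rfl⟩
  have hFmc : ∀ b a, (Fm.coeff b).coeff a = C (cf3 F m a b) := by
    intro b a
    rw [hFm]
    exact aux_Fm H b a
  obtain ⟨G, hG⟩ : ∃ G : ℤ[X][X][X], G = C (C (C pm)) * F - C (C p) * Fm := ⟨_, rfl⟩
  have hGc : ∀ b a, (G.coeff b).coeff a = C pm * (F.coeff b).coeff a - p * C (cf3 F m a b) := by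
    intro b a
    rw [hG, coeff_sub, coeff_C_mul, coeff_C_mul, coeff_sub, coeff_C_mul, coeff_C_mul, hFmc]
  have hGcf : ∀ j a b, cf3 G j a b = pm * cf3 F j a b - cf3 F j 0 n * cf3 F m a b := by
    intro j a b
    show ((G.coeff b).coeff a).coeff j = _
    rw [hGc, coeff_sub, coeff_C_mul, coeff_mul_C, hpd]
    rfl
  have hGtot : ∀ a b, n < a + b → (G.coeff b).coeff a = 0 := by
    intro a b hab
    rw [hGc]
    unfold cf3
    rw [H.tot a b hab, coeff_zero, C_0, mul_zero, mul_zero, sub_zero]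
  have hGdeg : ∀ a b, ((G.coeff b).coeff a).natDegree ≤ m := by
    intro a b
    rw [hGc, hpd]
    refine (natDegree_sub_le _ _).trans (max_le ?_ ?_)
    · exact (natDegree_C_mul_le _ _).trans (H.deg a b)
    · exact (natDegree_mul_C_le _ _).trans (H.deg 0 n)
  have hGH : DegF n m G := ⟨hGtot, hGdeg⟩
  have hGn : G.coeff n = 0 := by
    ext1 a
    rw [coeff_zero]
    rcases Nat.eq_zero_or_pos a with h0 | h0
    · subst h0
      rw [hGc, ← hpd, ← hpm]
      ring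
    · exact hGtot a n (by omega)
  have hG0 : G ≠ 0 := by
    intro h0
    apply hp
    have h1 : ∀ j a b, pm * cf3 F j a b = cf3 F j 0 n * cf3 F m a b := by
      intro j a b
      have h2 := hGcf j a b
      rw [h0] at h2
      have h3 : cf3 (0 : ℤ[X][X][X]) j a b = 0 := by simp [cf3]
      rw [h3] at h2
      linarith
    intro j a b a' b'
    apply mul_left_cancel₀ hpm0
    calc pm * (cf3 F j a b * cf3 F m a' b') = (pm * cf3 F j a b) * cf3 F m a' b' := by ring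
      _ = (pm * cf3 F j a' b') * cf3 F m a b := by rw [h1 j a b, h1 j a' b']; ring
      _ = _ := by ring
  refine ⟨G, hG0, ?_, ?_, ?_, ?_⟩
  · refine ⟨hGH.nat.trans (by omega), fun k => ⟨?_, fun j => (hGdeg j k).trans (by omega)⟩⟩
    rw [natDegree_le_iff_coeff_eq_zero]
    intro i hi
    exact hGtot i k (by omega)
  · rcases lt_or_eq_of_le hGH.nat with h1 | h1
    · exact h1
    · exfalso
      apply hG0
      rw [← leadingCoeff_eq_zero, leadingCoeff, h1, hGn]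
  · intro j a b
    rw [hGcf]
    have e1 := hF m 0 n
    have e2 := hF j a b
    have e3 := hF j 0 n
    have e4 := hF m a b
    rw [← hpm] at e1
    have hB2 : (2 : ℤ) ≤ B := by exact_mod_cast hB
    have e5 : |pm * cf3 F j a b| ≤ (B : ℤ) * B := by
      rw [abs_mul]
      exact mul_le_mul e1 e2 (abs_nonneg _) (by positivity)
    have e6 : |cf3 F j 0 n * cf3 F m a b| ≤ (B : ℤ) * B := by
      rw [abs_mul]
      exact mul_le_mul e3 e4 (abs_nonneg _) (by positivity)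
    calc |pm * cf3 F j a b - cf3 F j 0 n * cf3 F m a b| ≤
          |pm * cf3 F j a b| + |cf3 F j 0 n * cf3 F m a b| := abs_sub _ _
      _ ≤ (B : ℤ) * B + B * B := add_le_add e5 e6
      _ = 2 * (B * B) := by ring
      _ ≤ B * (B * B) := mul_le_mul_of_nonneg_right hB2 (by positivity)
      _ = ((B ^ 3 : ℕ) : ℤ) := by push_cast; ring
  · intro a x y hfib
    have h1 : ev3 a x y F = 0 := by
      rw [← fib_eval H, hfib, eval_zero]
    have h2 : ∑ b ∈ range (n + 1), ∑ a ∈ range (n + 1 - b), cf3 F m a b * (x ^ a * y ^ b) = 0 := by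
      have h3 := fib_coeff H x y m
      rw [hfib, coeff_zero, if_pos le_rfl] at h3
      exact h3.symm
    have h4 : ev3 a x y Fm = 0 := by
      rw [hFm]
      unfold ev3
      rw [eval₂_finsetSum, ← h2]
      refine sum_congr rfl fun b _ => ?_
      rw [eval₂_finsetSum]
      refine sum_congr rfl fun c _ => ?_
      rw [eval₂_mul, eval₂_pow, eval₂_X, eval₂_C, coe_eval₂RingHom, eval₂_mul, eval₂_pow, eval₂_X,
        eval₂_C, coe_eval₂RingHom, eval₂_C, eq_intCast, Int.cast_id]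
      ring
    rw [hG]
    unfold ev3 at h1 h4 ⊢
    rw [eval₂_sub, eval₂_mul, eval₂_mul, h1, h4, mul_zero, mul_zero, sub_zero]

/-- all small points of a member -/
theorem small_cnt {n m B : ℕ} (hn : 1 ≤ n) (hB : 2 ≤ B) {F : ℤ[X][X][X]} (h : HypG n m F)
    (hF : CB B F) (hp : ¬ Prp m F) {a : ℕ} (ha : B ^ ((n + m + 5) ^ 5) ≤ a) :
    ∃ S : Finset (ℤ × ℤ), S.card ≤ 4 * (n + m) ^ 4 ∧ ∀ x y : ℤ, ev3 (a : ℤ) x y F = 0 →
      |y| ≤ |x| → |x| ^ (2 * n) ≤ (a : ℤ) → (x, y) ∈ S := by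
  obtain ⟨G, hG0, hGT, hGn, hGB, hGv⟩ := small_aux hn hB h hF hp
  obtain ⟨R, R', hR, hR', hd, hd', hk, hk', hv⟩ := elimU (k := 3) (D := n + m) hn hB h hF
    (by norm_num) le_rfl hG0 hGT hGn hGB
  obtain ⟨D, hD⟩ : ∃ D, D = n + m := ⟨_, rfl⟩
  rw [← hD] at hd hd' hk hk' ha ⊢
  have hB1 : 1 ≤ B := by omega
  have hX : 1 ≤ D + 5 := by omega
  have e0 : (D + 3 + 2) ^ 4 = (D + 5) ^ 4 := by ring
  have e1 : (D + 3 + 2) ^ 4 + 2 * D * D + 1 ≤ (D + 5) ^ 5 := by
    have q1 : 2 * D * D + 1 ≤ (D + 5) ^ 4 := by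
      calc 2 * D * D + 1 ≤ 25 * (D + 5) ^ 2 := by nlinarith
        _ ≤ (D + 5) ^ 2 * (D + 5) ^ 2 := Nat.mul_le_mul_right _ (by nlinarith)
        _ = (D + 5) ^ 4 := by ring
    calc (D + 3 + 2) ^ 4 + 2 * D * D + 1 ≤ (D + 5) ^ 4 + (D + 5) ^ 4 := by rw [e0]; omega
      _ = 2 * (D + 5) ^ 4 := by ring
      _ ≤ (D + 5) * (D + 5) ^ 4 := Nat.mul_le_mul_right _ (by omega)
      _ = (D + 5) ^ 5 := by ring
  have haa : (B : ℤ) ^ ((D + 3 + 2) ^ 4 + 2 * D * D + 1) ≤ |(a : ℤ)| := by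
    rw [abs_of_nonneg (by positivity)]
    exact_mod_cast (Nat.pow_le_pow_right hB1 e1).trans ha
  obtain ⟨S, hS, hSm⟩ := roots_cnt hB hR hd hk haa
  obtain ⟨S', hS', hSm'⟩ := roots_cnt hB hR' hd' hk' haa
  refine ⟨S ×ˢ S', ?_, fun x y hxy hyx hx => ?_⟩
  · rw [card_product]
    calc S.card * S'.card ≤ (2 * D * D) * (2 * D * D) := Nat.mul_le_mul hS hS'
      _ = 4 * D ^ 4 := by ring
  · have e2 : 4 * n + 2 * m + 4 ≤ (D + 5) ^ 5 := by
      calc 4 * n + 2 * m + 4 ≤ 5 * (D + 5) := by omega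
        _ ≤ (D + 5) ^ 4 * (D + 5) := by
            apply Nat.mul_le_mul_right
            calc 5 ≤ D + 5 := by omega
              _ = (D + 5) ^ 1 := by ring
              _ ≤ (D + 5) ^ 4 := Nat.pow_le_pow_right hX (by norm_num)
        _ = (D + 5) ^ 5 := by ring
    have h1 := small_fibU hn hB h.H hF ((Nat.pow_le_pow_right hB1 e2).trans ha) hyx hx hxy
    have h2 := hv a x y hxy (hGv a x y h1)
    exact mem_product.2 ⟨hSm x h2.1, hSm' y h2.2⟩

end Pool.Agent.H97.XU
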