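import Pool.Agent.H97.XU.WCT
import Pool.Agent.H97.XU.SMU
import Pool.Agent.H97.XU.FAR

/-! # [H97 XU HFU] All points with `|y| ≤ |x|` of a member

`Q = 2 n²`, `T ≥ (C0 + 2) Q + n + m + 4`. `S_0` from `small_cnt` (`(n+m+5)^5 ≤ T^366`, `4 (n+m)^4 ≤ T^6`), `S_j` from `win_cnt` for
`j ∈ Icc n (C0 Q)` (`n + m + Q + j + 3 ≤ T`). `S = S_0 ∪ ⋃_j S_j`: at most `T^6 + T * T^30 ≤ T^32` elements (the number of `j` is at most `C0 Q + 1 ≤ T`).
A point with `|x|^(2n) ≤ a` is in `S_0`. Otherwise `a^n ≤ |x|^Q` (`|x|^Q = (|x|^(2n))^n`), `|x| ≤ a^C0` by `hfar` (`C0 ≤ T^366`), so `|x|^Q ≤ a^(C0 Q)`;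
`j = Nat.log a (|x|^Q)` (`a ≥ 2`; see `half_all` in `Pool/Agent/H4/SX/HLF.lean`): `n ≤ j ≤ C0 Q`, `a^j ≤ |x|^Q ≤ a^(j+1)`. -/

namespace Pool.Agent.H97.XU

open Finset Polynomial Pool.Agent.H37.TE Pool.Agent.H98.TE Pool.Agent.H4.TP Pool.Agent.H4.SX

theorem half_u {n m B C0 T : ℕ} (hn : 3 ≤ n) (hB : 2 ≤ B)
    (hT : (C0 + 2) * (2 * n ^ 2) + n + m + 4 ≤ T) {F : ℤ[X][X][X]} (h : HypG n m F)
    (hF : CB B F) (hR : HR n m F) (hfar : Far B C0 F) (hp : ¬ Prp m F) {a : ℕ}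
    (ha : B ^ (T ^ 366) ≤ a) :
    ∃ S : Finset (ℤ × ℤ), S.card ≤ T ^ 32 ∧ ∀ x y : ℤ, |y| ≤ |x| → ev3 (a : ℤ) x y F = 0 →
      (x, y) ∈ S := by
  classical
  obtain ⟨Q, hQ⟩ : ∃ Q, Q = 2 * n ^ 2 := ⟨_, rfl⟩
  rw [← hQ] at hT
  have hQ1 : 1 ≤ Q := by
    rw [hQ]
    nlinarith
  have hQ18 : 18 ≤ Q := by
    rw [hQ]
    nlinarith
  have hTe : (C0 + 2) * Q = C0 * Q + 2 * Q := by ring
  rw [hTe] at hT
  have hC0Q : C0 ≤ C0 * Q := Nat.le_mul_of_pos_right _ (by omega)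
  have hT1 : 1 ≤ T := by omega
  have hnm : n + m + 5 ≤ T := by omega
  have hpT : ∀ i j : ℕ, i ≤ j → T ^ i ≤ T ^ j := fun i j hij => Nat.pow_le_pow_right hT1 hij
  have hB1 : 0 < B := by omega
  have haB : 2 ≤ a := by
    have h0 : 0 < T ^ 366 := Nat.pow_pos hT1
    have h1 : B ^ 1 ≤ B ^ (T ^ 366) := Nat.pow_le_pow_right hB1 h0
    rw [pow_one] at h1
    omega
  have ha5 : B ^ ((n + m + 5) ^ 5) ≤ a := by
    refine le_trans (Nat.pow_le_pow_right hB1 ?_) ha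
    exact (Nat.pow_le_pow_left hnm 5).trans (hpT 5 366 (by norm_num))
  have haC : B ^ C0 ≤ a := by
    refine le_trans (Nat.pow_le_pow_right hB1 ?_) ha
    calc C0 ≤ T := by omega
      _ = T ^ 1 := (pow_one T).symm
      _ ≤ T ^ 366 := hpT 1 366 (by norm_num)
  obtain ⟨S0, hS0c, hS0⟩ := small_cnt (by omega) hB h hF hp ha5
  have hwin : ∀ j : ℕ, ∃ S : Finset (ℤ × ℤ), n ≤ j → j ≤ C0 * Q → (S.card ≤ T ^ 30 ∧
      ∀ x y : ℤ, ev3 (a : ℤ) x y F = 0 → |y| ≤ |x| →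
        (a : ℤ) ^ j ≤ |x| ^ Q → |x| ^ Q ≤ (a : ℤ) ^ (j + 1) → (x, y) ∈ S) := by
    intro j
    by_cases hj : n ≤ j ∧ j ≤ C0 * Q
    · obtain ⟨S, hh⟩ := win_cnt hn hB hQ1 hj.1 (T := T) (by omega) h hF hR ha
      exact ⟨S, fun _ _ => hh⟩
    · exact ⟨∅, fun h1 h2 => absurd ⟨h1, h2⟩ hj⟩
  choose S hS using hwin
  refine ⟨S0 ∪ (Finset.Icc n (C0 * Q)).biUnion S, ?_, fun x y hyx hxy => ?_⟩
  · have h1 : ((Finset.Icc n (C0 * Q)).biUnion S).card ≤ (Finset.Icc n (C0 * Q)).card * T ^ 30 := by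
      refine Finset.card_biUnion_le_card_mul _ _ _ fun j hj => ?_
      rw [Finset.mem_Icc] at hj
      exact (hS j hj.1 hj.2).1
    have h2 : (Finset.Icc n (C0 * Q)).card ≤ T := by
      rw [Nat.card_Icc]
      omega
    have h3 : (Finset.Icc n (C0 * Q)).card * T ^ 30 ≤ T ^ 31 := by
      calc (Finset.Icc n (C0 * Q)).card * T ^ 30 ≤ T * T ^ 30 := Nat.mul_le_mul_right _ h2
        _ = T ^ 31 := by ring
    have h4 : 4 * (n + m) ^ 4 ≤ T ^ 5 := by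
      calc 4 * (n + m) ^ 4 ≤ T * T ^ 4 :=
            Nat.mul_le_mul (by omega) (Nat.pow_le_pow_left (by omega) 4)
        _ = T ^ 5 := by ring
    have h5 : T ^ 5 ≤ T ^ 31 := hpT 5 31 (by norm_num)
    have h6 : 2 * T ^ 31 ≤ T ^ 32 := by
      calc 2 * T ^ 31 ≤ T * T ^ 31 := Nat.mul_le_mul_right _ (by omega)
        _ = T ^ 32 := by ring
    refine (Finset.card_union_le _ _).trans ?_
    omega
  · rw [Finset.mem_union]
    by_cases hsm : |x| ^ (2 * n) ≤ (a : ℤ)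
    · exact Or.inl (hS0 x y hxy hyx hsm)
    · right
      push Not at hsm
      have ha1 : 1 < a := by omega
      have hxa : (a : ℤ) < ((x.natAbs : ℤ)) ^ (2 * n) := by
        rw [Int.natCast_natAbs]
        exact hsm
      have hxa' : a < x.natAbs ^ (2 * n) := by exact_mod_cast hxa
      obtain ⟨Y, hY⟩ : ∃ Y, Y = x.natAbs ^ Q := ⟨_, rfl⟩
      have hYz : |x| ^ Q = (Y : ℤ) := by
        rw [hY, ← Int.natCast_natAbs]
        push_cast
        rfl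
      have hYn : a ^ n ≤ Y := by
        have h1 : Q = 2 * n * n := by rw [hQ]; ring
        rw [hY, h1, pow_mul]
        exact Nat.pow_le_pow_left hxa'.le n
      have hY0 : Y ≠ 0 := by
        have : 0 < a ^ n := by positivity
        omega
      obtain ⟨hx1, -⟩ := hfar a haC x y hxy
      have hx2 : x.natAbs ≤ a ^ C0 := by
        have : (x.natAbs : ℤ) ≤ (a : ℤ) ^ C0 := by
          rw [Int.natCast_natAbs]
          exact hx1
        exact_mod_cast this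
      have hYC : Y ≤ a ^ (C0 * Q) := by
        rw [hY, pow_mul]
        exact Nat.pow_le_pow_left hx2 Q
      obtain ⟨j, hj⟩ : ∃ j, j = Nat.log a Y := ⟨_, rfl⟩
      have hj1 : a ^ j ≤ Y := by
        rw [hj]
        exact Nat.pow_log_le_self a hY0
      have hj2 : Y < a ^ (j + 1) := by
        rw [hj]
        exact Nat.lt_pow_succ_log_self ha1 Y
      have hjn : n ≤ j := by
        have h5 : a ^ n < a ^ (j + 1) := lt_of_le_of_lt hYn hj2
        have h6 := (Nat.pow_lt_pow_iff_right ha1).1 h5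
        omega
      have hjC : j ≤ C0 * Q := (Nat.pow_le_pow_iff_right ha1).1 (hj1.trans hYC)
      rw [Finset.mem_biUnion]
      refine ⟨j, Finset.mem_Icc.2 ⟨hjn, hjC⟩, (hS j hjn hjC).2 x y hxy hyx ?_ ?_⟩
      · rw [hYz]
        exact_mod_cast hj1
      · rw [hYz]
        exact_mod_cast hj2.le

end Pool.Agent.H97.XU
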