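import Pool.Agent.H97.XU.SZB

/-! # [H97 XU NWA] The equation of Newton's method

For `P ∈ U4` there are `P1, P2 ∈ U4` and `q2 ∈ U4` (the variable `X 2` of `q2` stands for the increment `h`, `X 3` does not occur) with
`P = q0 P + X 2 * P1 + X 3 * P2`, `q0 P (Z + h, t) = q0 P + dq P * h + h² q2(Z, t, h)`. Put
`TN P D η = η² q2(Z, t, D η) + X 2 * sbs D η P1 + X 3 * sbs D η P2`, `D = dq P`; then
`sbs D η P = q0 P + D² (η + TN)`.
PROOF. By linearity it is enough to treat a monomial `P = c Z^l t^i u^j w^k` (then sum over `P.support`):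
`j = k = 0`: `P1 = P2 = 0`; `j ≥ 1`: `P1 = c Z^l t^i u^(j-1) w^k`, `P2 = 0`; `j = 0, k ≥ 1`: `P2 = c Z^l t^i w^(k-1)`.
`q2` for `c Z^l t^i`: `(Z + h)^l = Z^l + l Z^(l-1) h + h² ∑_(r ≥ 2) (l choose r) Z^(l-r) h^(r-2)` (`add_pow`), `L1 ≤ 2^l |c|`, total degree at most
that of `P`. Sums: `L1 (∑ ..) ≤ ∑ L1`; `∑_e |c_e| 2^(..) ≤ 2^k L1 P ≤ B^(2k)`. It is convenient to define all three as sums over
`P.support` and to use `L1_sum`, `MvPolynomial.totalDegree_finset_sum`. -/

namespace Pool.Agent.H97.XU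

open Finset

variable {B k : ℕ}

/-- the substitution `X 2 ↦ h` in `q2` -/
noncomputable def hsub (h : U4) : U4 →ₐ[ℤ] U4 :=
  MvPolynomial.aeval ![(MvPolynomial.X 0 : U4), MvPolynomial.X 1, h, 0]

private theorem aeval4 (Q : Fin 4 → U4) (P : U4) :
    MvPolynomial.aeval Q P = ∑ e ∈ P.support, MvPolynomial.C (P.coeff e) *
      (Q 0 ^ e 0 * Q 1 ^ e 1 * Q 2 ^ e 2 * Q 3 ^ e 3) := by
  rw [MvPolynomial.aeval_def, MvPolynomial.eval₂_eq']
  apply Finset.sum_congr rfl
  intro e _
  rw [Fin.prod_univ_four]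
  rfl

private theorem rep4 (P : U4) :
    P = ∑ e ∈ P.support, MvPolynomial.C (P.coeff e) *
      ((MvPolynomial.X 0 : U4) ^ e 0 * MvPolynomial.X 1 ^ e 1 * MvPolynomial.X 2 ^ e 2 *
        MvPolynomial.X 3 ^ e 3) := by
  have h := aeval4 (fun i => (MvPolynomial.X i : U4)) P
  rw [← MvPolynomial.aeval_X_left_apply P] at h ⊢
  simp only [MvPolynomial.aeval_X_left_apply] at h ⊢
  exact h

private theorem supp4 {P : U4} (h : Sz B k P) {e : Fin 4 →₀ ℕ} (he : e ∈ P.support) :
    e 0 + e 1 + e 2 + e 3 ≤ k := by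
  have h1 := (MvPolynomial.le_totalDegree he).trans h.1
  rw [Finsupp.sum_fintype _ _ (fun _ => rfl), Fin.sum_univ_four] at h1
  exact h1

private theorem comb_L1 (P : U4) (g : (Fin 4 →₀ ℕ) → U4) (m : ℕ)
    (hg : ∀ e ∈ P.support, L1 (g e) ≤ m) :
    L1 (∑ e ∈ P.support, MvPolynomial.C (P.coeff e) * g e) ≤ L1 P * m := by
  refine (L1_sum _ _).trans ?_
  unfold L1
  rw [Finset.sum_mul]
  apply Finset.sum_le_sum
  intro e he
  refine (L1_mul _ _).trans ?_
  rw [L1_C]
  exact Nat.mul_le_mul_left _ (hg e he)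

private theorem comb_deg (P : U4) (g : (Fin 4 →₀ ℕ) → U4) (d : ℕ)
    (hg : ∀ e ∈ P.support, (g e).totalDegree ≤ d) :
    (∑ e ∈ P.support, MvPolynomial.C (P.coeff e) * g e).totalDegree ≤ d := by
  refine MvPolynomial.totalDegree_finsetSum_le ?_
  intro e he
  refine (MvPolynomial.totalDegree_mul _ _).trans ?_
  rw [MvPolynomial.totalDegree_C, zero_add]
  exact hg e he

private theorem mono_L1 (a b c d : ℕ) :
    L1 ((MvPolynomial.X 0 : U4) ^ a * MvPolynomial.X 1 ^ b * MvPolynomial.X 2 ^ c *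
        MvPolynomial.X 3 ^ d) ≤ 1 := by
  have h : ∀ (i : Fin 4) (n : ℕ), L1 ((MvPolynomial.X i : U4) ^ n) ≤ 1 := by
    intro i n
    have := L1_pow (MvPolynomial.X i : U4) n
    rwa [L1_X, one_pow] at this
  calc _ ≤ _ := L1_mul _ _
    _ ≤ 1 * 1 := Nat.mul_le_mul ((L1_mul _ _).trans
        ((Nat.mul_le_mul ((L1_mul _ _).trans (Nat.mul_le_mul (h 0 a) (h 1 b))) (h 2 c)).trans
          (by norm_num))) (h 3 d)
    _ = 1 := by norm_num

private theorem mono_deg (a b c d : ℕ) :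
    ((MvPolynomial.X 0 : U4) ^ a * MvPolynomial.X 1 ^ b * MvPolynomial.X 2 ^ c *
        MvPolynomial.X 3 ^ d).totalDegree ≤ a + b + c + d := by
  refine (MvPolynomial.totalDegree_mul _ _).trans (add_le_add ?_ (by
    rw [MvPolynomial.totalDegree_X_pow]))
  refine (MvPolynomial.totalDegree_mul _ _).trans (add_le_add ?_ (by
    rw [MvPolynomial.totalDegree_X_pow]))
  refine (MvPolynomial.totalDegree_mul _ _).trans (add_le_add ?_ (by
    rw [MvPolynomial.totalDegree_X_pow]))
  rw [MvPolynomial.totalDegree_X_pow]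

private theorem q0_rep (P : U4) : q0 P = ∑ e ∈ P.support, MvPolynomial.C (P.coeff e) *
      ((MvPolynomial.X 0 : U4) ^ e 0 * MvPolynomial.X 1 ^ e 1 * 0 ^ e 2 * 0 ^ e 3) := by
  unfold q0
  rw [aeval4]
  rfl

/-- decomposition by the small variables -/
theorem split_uw (hB : 2 ≤ B) {P : U4} (h : Sz B k P) : ∃ P1 P2 : U4,
    P = q0 P + MvPolynomial.X 2 * P1 + MvPolynomial.X 3 * P2 ∧ Sz B k P1 ∧ Sz B k P2 := by
  classical
  let g1 : (Fin 4 →₀ ℕ) → U4 := fun e => if 1 ≤ e 2 then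
    (MvPolynomial.X 0 : U4) ^ e 0 * MvPolynomial.X 1 ^ e 1 * MvPolynomial.X 2 ^ (e 2 - 1) *
      MvPolynomial.X 3 ^ e 3 else 0
  let g2 : (Fin 4 →₀ ℕ) → U4 := fun e => if e 2 = 0 ∧ 1 ≤ e 3 then
    (MvPolynomial.X 0 : U4) ^ e 0 * MvPolynomial.X 1 ^ e 1 * MvPolynomial.X 2 ^ 0 *
      MvPolynomial.X 3 ^ (e 3 - 1) else 0
  refine ⟨∑ e ∈ P.support, MvPolynomial.C (P.coeff e) * g1 e,
    ∑ e ∈ P.support, MvPolynomial.C (P.coeff e) * g2 e, ?_, ⟨?_, ?_⟩, ⟨?_, ?_⟩⟩
  · rw [Finset.mul_sum, Finset.mul_sum, q0_rep, ← Finset.sum_add_distrib, ← Finset.sum_add_distrib]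
    conv_lhs => rw [rep4 P]
    apply Finset.sum_congr rfl
    intro e _
    simp only [g1, g2]
    rcases Nat.eq_zero_or_pos (e 2) with h2 | h2
    · rcases Nat.eq_zero_or_pos (e 3) with h3 | h3
      · rw [h2, h3, if_neg (by omega), if_neg (by omega)]
        ring
      · rw [h2, if_neg (by omega), if_pos ⟨rfl, h3⟩, zero_pow (by omega : e 3 ≠ 0)]
        obtain ⟨n, hn⟩ : ∃ n, e 3 = n + 1 := ⟨e 3 - 1, by omega⟩
        rw [hn, Nat.add_sub_cancel]
        ring
    · rw [if_pos (show 1 ≤ e 2 from h2), if_neg (by omega), zero_pow (by omega : e 2 ≠ 0)]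
      obtain ⟨n, hn⟩ : ∃ n, e 2 = n + 1 := ⟨e 2 - 1, by omega⟩
      rw [hn, Nat.add_sub_cancel]
      ring
  · apply comb_deg
    intro e he
    simp only [g1]
    split_ifs with h1
    · exact (mono_deg _ _ _ _).trans (by have := supp4 h he; omega)
    · rw [MvPolynomial.totalDegree_zero]
      exact Nat.zero_le _
  · refine (comb_L1 P g1 1 ?_).trans (by rw [mul_one]; exact h.2)
    intro e he
    simp only [g1]
    split_ifs with h1
    · exact mono_L1 _ _ _ _
    · rw [L1_zero]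
      exact Nat.zero_le _
  · apply comb_deg
    intro e he
    simp only [g2]
    split_ifs with h1
    · exact (mono_deg _ _ _ _).trans (by have := supp4 h he; omega)
    · rw [MvPolynomial.totalDegree_zero]
      exact Nat.zero_le _
  · refine (comb_L1 P g2 1 ?_).trans (by rw [mul_one]; exact h.2)
    intro e he
    simp only [g2]
    split_ifs with h1
    · exact mono_L1 _ _ _ _
    · rw [L1_zero]
      exact Nat.zero_le _

/-- the second order part of `(Z + h)^l` -/
private noncomputable def TT : ℕ → U4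
  | 0 => 0
  | l + 1 => (MvPolynomial.X 0 + MvPolynomial.X 2) * TT l +
      MvPolynomial.C (l : ℤ) * MvPolynomial.X 0 ^ (l - 1)

private theorem TT_succ (l : ℕ) : TT (l + 1) = (MvPolynomial.X 0 + MvPolynomial.X 2) * TT l +
      MvPolynomial.C (l : ℤ) * MvPolynomial.X 0 ^ (l - 1) := rfl

private theorem TT_eq (x : U4) (l : ℕ) : (MvPolynomial.X 0 + x) ^ l =
    (MvPolynomial.X 0 : U4) ^ l + MvPolynomial.C (l : ℤ) * MvPolynomial.X 0 ^ (l - 1) * x +
      x ^ 2 * hsub x (TT l) := by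
  induction l with
  | zero => simp [TT]
  | succ l ih =>
    have h1 : hsub x (TT (l + 1)) = (MvPolynomial.X 0 + x) * hsub x (TT l) +
        MvPolynomial.C (l : ℤ) * MvPolynomial.X 0 ^ (l - 1) := by
      rw [TT_succ]
      unfold hsub
      rw [map_add, map_mul, map_add, map_mul, map_pow, MvPolynomial.aeval_X, MvPolynomial.aeval_X,
        MvPolynomial.aeval_C]
      rfl
    have h2 : (MvPolynomial.C ((l + 1 : ℕ) : ℤ) : U4) = MvPolynomial.C (l : ℤ) + 1 := by
      push_cast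
      rw [map_add, map_one]
    rw [pow_succ, ih, h1, Nat.add_sub_cancel, h2]
    rcases Nat.eq_zero_or_pos l with hl | hl
    · subst hl
      simp
      ring
    · obtain ⟨n, rfl⟩ := Nat.exists_eq_add_of_le hl
      rw [Nat.add_sub_cancel_left]
      ring

private theorem TT_L1 (l : ℕ) : L1 (TT l) + l + 1 ≤ 2 ^ l := by
  induction l with
  | zero =>
    unfold TT
    rw [L1_zero]
    norm_num
  | succ l ih =>
    have h1 : L1 (TT (l + 1)) ≤ 2 * L1 (TT l) + l := by
      rw [TT_succ]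
      refine (L1_add _ _).trans (add_le_add ?_ ?_)
      · refine (L1_mul _ _).trans (Nat.mul_le_mul_right _ ((L1_add _ _).trans ?_))
        rw [L1_X, L1_X]
      · refine (L1_mul _ _).trans ?_
        have h2 := L1_pow (MvPolynomial.X 0 : U4) (l - 1)
        rw [L1_X, one_pow] at h2
        rw [L1_C, Int.natAbs_natCast]
        calc l * _ ≤ l * 1 := Nat.mul_le_mul_left _ h2
          _ = l := mul_one l
    rw [pow_succ]
    omega

private theorem TT_deg (l : ℕ) : (TT l).totalDegree ≤ l := by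
  induction l with
  | zero =>
    unfold TT
    rw [MvPolynomial.totalDegree_zero]
  | succ l ih =>
    rw [TT_succ]
    refine (MvPolynomial.totalDegree_add _ _).trans (max_le ?_ ?_)
    · refine (MvPolynomial.totalDegree_mul _ _).trans ?_
      have h1 : (MvPolynomial.X 0 + MvPolynomial.X 2 : U4).totalDegree ≤ 1 := by
        refine (MvPolynomial.totalDegree_add _ _).trans ?_
        rw [MvPolynomial.totalDegree_X, MvPolynomial.totalDegree_X, max_self]
      omega
    · refine (MvPolynomial.totalDegree_mul _ _).trans ?_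
      rw [MvPolynomial.totalDegree_C, MvPolynomial.totalDegree_X_pow]
      omega

/-- Taylor's formula of order two for `q0 P` -/
theorem taylor2 (hB : 2 ≤ B) {P : U4} (h : Sz B k P) : ∃ q2 : U4, Sz B (2 * k) q2 ∧
    ∀ x : U4, MvPolynomial.aeval ![(MvPolynomial.X 0 : U4) + x, MvPolynomial.X 1, 0, 0] P =
      q0 P + dq P * x + x ^ 2 * hsub x q2 := by
  classical
  let g : (Fin 4 →₀ ℕ) → U4 := fun e => if e 2 = 0 ∧ e 3 = 0 then
    TT (e 0) * MvPolynomial.X 1 ^ e 1 else 0
  refine ⟨∑ e ∈ P.support, MvPolynomial.C (P.coeff e) * g e, ⟨?_, ?_⟩, ?_⟩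
  · refine (comb_deg P g k ?_).trans (by omega)
    intro e he
    simp only [g]
    split_ifs with h1
    · refine (MvPolynomial.totalDegree_mul _ _).trans ?_
      rw [MvPolynomial.totalDegree_X_pow]
      have h2 := TT_deg (e 0)
      have h3 := supp4 h he
      omega
    · rw [MvPolynomial.totalDegree_zero]
      exact Nat.zero_le _
  · refine (comb_L1 P g (2 ^ k) ?_).trans ?_
    · intro e he
      simp only [g]
      split_ifs with h1
      · refine (L1_mul _ _).trans ?_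
        have h2 := L1_pow (MvPolynomial.X 1 : U4) (e 1)
        rw [L1_X, one_pow] at h2
        have h3 := TT_L1 (e 0)
        have h4 := supp4 h he
        have h5 : 2 ^ (e 0) ≤ 2 ^ k := Nat.pow_le_pow_right (by norm_num) (by omega)
        calc _ ≤ L1 (TT (e 0)) * 1 := Nat.mul_le_mul_left _ h2
          _ ≤ 2 ^ k := by omega
      · rw [L1_zero]
        exact Nat.zero_le _
    · rw [two_mul, pow_add]
      exact Nat.mul_le_mul h.2 (Nat.pow_le_pow_left hB _)
  · intro x
    have hd : dq P = ∑ e ∈ P.support, MvPolynomial.C (P.coeff e) *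
        ((MvPolynomial.C ((e 0 : ℕ) : ℤ) * (MvPolynomial.X 0 : U4) ^ (e 0 - 1)) *
          MvPolynomial.X 1 ^ e 1 * 0 ^ e 2 * 0 ^ e 3) := by
      unfold dq
      rw [q0_rep, map_sum]
      apply Finset.sum_congr rfl
      intro e _
      have h0 : ∀ n : ℕ, MvPolynomial.pderiv 0 ((0 : U4) ^ n) = 0 := by
        intro n
        rw [Derivation.leibniz_pow, map_zero, smul_zero, smul_zero]
      have h1 : MvPolynomial.pderiv 0 ((MvPolynomial.X 1 : U4) ^ e 1) = 0 := by
        rw [Derivation.leibniz_pow, MvPolynomial.pderiv_X_of_ne (by decide), smul_zero, smul_zero]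
      have h2 : MvPolynomial.pderiv 0 ((MvPolynomial.X 0 : U4) ^ e 0) =
          MvPolynomial.C ((e 0 : ℕ) : ℤ) * (MvPolynomial.X 0 : U4) ^ (e 0 - 1) := by
        rw [Derivation.leibniz_pow, MvPolynomial.pderiv_X_self, smul_eq_mul, mul_one,
          nsmul_eq_mul]
        congr 1
      rw [MvPolynomial.pderiv_C_mul, MvPolynomial.pderiv_mul, MvPolynomial.pderiv_mul,
        MvPolynomial.pderiv_mul, h0, h0, h1, h2]
      ring
    rw [aeval4, q0_rep, hd, Finset.sum_mul, map_sum, Finset.mul_sum, ← Finset.sum_add_distrib,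
      ← Finset.sum_add_distrib]
    apply Finset.sum_congr rfl
    intro e _
    have hC : hsub x (MvPolynomial.C (P.coeff e)) = MvPolynomial.C (P.coeff e) := by
      unfold hsub
      rw [MvPolynomial.aeval_C]
      rfl
    have hX : hsub x (MvPolynomial.X 1) = MvPolynomial.X 1 := by
      unfold hsub
      rw [MvPolynomial.aeval_X]
      rfl
    rw [map_mul, hC]
    change MvPolynomial.C (P.coeff e) * ((MvPolynomial.X 0 + x) ^ e 0 * MvPolynomial.X 1 ^ e 1 *
      (0 : U4) ^ e 2 * (0 : U4) ^ e 3) = _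
    simp only [g]
    by_cases h23 : e 2 = 0 ∧ e 3 = 0
    · rw [if_pos h23, h23.1, h23.2, map_mul, map_pow, hX, TT_eq x (e 0)]
      ring
    · rw [if_neg h23, map_zero (hsub x)]
      have h0 : (0 : U4) ^ e 2 * (0 : U4) ^ e 3 = 0 := by
        by_cases h2 : e 2 = 0
        · have h3 : e 3 ≠ 0 := fun h3 => h23 ⟨h2, h3⟩
          rw [zero_pow h3, mul_zero]
        · rw [zero_pow h2, zero_mul]
      have h1 : ∀ a : U4, a * (0 : U4) ^ e 2 * (0 : U4) ^ e 3 = 0 := fun a => by
        rw [mul_assoc, h0, mul_zero]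
      rw [h1, h1, h1]
      ring

/-- the equation of Newton's method -/
theorem newton_eq (hB : 2 ≤ B) {P : U4} (h : Sz B k P) : ∃ P1 P2 q2 : U4, Sz B k P1 ∧
    Sz B k P2 ∧ Sz B (2 * k) q2 ∧
    ∀ η : U4, sbs (dq P) η P = q0 P + dq P ^ 2 * (η + (η ^ 2 * hsub (dq P * η) q2 +
      MvPolynomial.X 2 * sbs (dq P) η P1 + MvPolynomial.X 3 * sbs (dq P) η P2)) := by
  obtain ⟨P1, P2, hsp, h1, h2⟩ := split_uw hB h
  obtain ⟨q2, hq2, hT⟩ := taylor2 hB h
  refine ⟨P1, P2, q2, h1, h2, hq2, ?_⟩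
  intro η
  have h3 : ∀ D : U4, sbs D η P = sbs D η (q0 P) + (D ^ 2 * MvPolynomial.X 2) * sbs D η P1 +
      (D ^ 2 * MvPolynomial.X 3) * sbs D η P2 := by
    intro D
    have e1 := congrArg (sbs D η) hsp
    have e2 : sbs D η (MvPolynomial.X 2) = D ^ 2 * MvPolynomial.X 2 := by
      unfold sbs
      rw [MvPolynomial.aeval_X]
      rfl
    have e3 : sbs D η (MvPolynomial.X 3) = D ^ 2 * MvPolynomial.X 3 := by
      unfold sbs
      rw [MvPolynomial.aeval_X]
      rfl
    rw [map_add, map_add, map_mul, map_mul, e2, e3] at e1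
    exact e1
  have h4 : sbs (dq P) η (q0 P) =
      MvPolynomial.aeval ![(MvPolynomial.X 0 : U4) + dq P * η, MvPolynomial.X 1, 0, 0] P := by
    unfold q0
    rw [← AlgHom.comp_apply, MvPolynomial.comp_aeval]
    congr 2
    funext i
    fin_cases i
    · simp [sbs]
    · simp [sbs]
    · simp
    · simp
  rw [h3, h4, hT]
  ring

end Pool.Agent.H97.XU
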