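import Pool.Agent.H97.XU.SZB

/-! # [H97 XU PDV] Division with remainder by a polynomial in `Z` over `ℤ[t]`, with sizes

`g ∈ ℤ[t][Z]` of degree `s ≥ 1` in `Z` with leading coefficient `λ(t)`, `W ∈ U4` of degree `≤ kz` in `Z = X 0`: `λ^kz W = g Q + R`, `R` of degree
`< s` in `Z`. Induction on `kz`: `kz = 0`: `Q = 0`, `R = W`. Step: if `degreeOf 0 W ≤ kz`: the induction hypothesis times `λ`. Otherwise
`W = c Z^(kz+1) + W'` (`c` = the sum of the monomials with `e 0 = kz + 1`, divided by `Z^(kz+1)`; `c` does not contain `Z`,
`degreeOf 0 W' ≤ kz`, `L1 c + L1 W' = L1 W`). If `kz + 1 < s`: `Q = 0`, `R = λ^(kz+1) W`. If `kz + 1 ≥ s`: `λ W - c Z^(kz+1-s) g` has degree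
`≤ kz` in `Z` (`emb g = λ Z^s + ..`, `λ = emb (C g.leadingCoeff)`), `L1 ≤ 2 L1(g) L1(W) ≤ B^(kw + k + 1)`, total degree `≤ kw + k`, degree in
`t` at most `τ + μ` (`MvPolynomial.degreeOf_mul_le`, `degreeOf_add_le`, `degreeOf_le_iff`). -/

namespace Pool.Agent.H97.XU

open Finset Polynomial

private theorem coeff_emb (p : ℤ[X][X]) (e : Fin 4 →₀ ℕ) : MvPolynomial.coeff e (emb p) =
    if e 2 = 0 ∧ e 3 = 0 then (p.coeff (e 0)).coeff (e 1) else 0 := by
  classical
  have hbase : ∀ (n m : ℕ) (c : ℤ), emb (monomial n (monomial m c)) =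
      MvPolynomial.monomial (Finsupp.single 0 n + Finsupp.single 1 m) c := by
    intro n m c
    unfold emb
    rw [coe_eval₂RingHom, eval₂_monomial, coe_eval₂RingHom, eval₂_monomial,
      MvPolynomial.X_pow_eq_monomial, MvPolynomial.X_pow_eq_monomial, eq_intCast,
      ← map_intCast (MvPolynomial.C : ℤ →+* U4) c, Int.cast_id,
      MvPolynomial.C_mul_monomial, MvPolynomial.monomial_mul]
    rw [mul_one, mul_one, add_comm]
  induction p using Polynomial.induction_on' with
  | add p q hp hq =>
    rw [map_add, MvPolynomial.coeff_add, hp, hq]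
    split_ifs
    · rw [coeff_add, coeff_add]
    · rw [add_zero]
  | monomial n a =>
    induction a using Polynomial.induction_on' with
    | add a b ha hb =>
      rw [map_add, map_add, MvPolynomial.coeff_add, ha, hb]
      split_ifs
      · rw [← coeff_add, ← coeff_add]
      · rw [add_zero]
    | monomial m c =>
      rw [hbase, MvPolynomial.coeff_monomial]
      by_cases h : Finsupp.single 0 n + Finsupp.single 1 m = e
      · rw [if_pos h]
        have e0 : e 0 = n := by rw [← h]; simp
        have e1 : e 1 = m := by rw [← h]; simp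
        have e2 : e 2 = 0 := by rw [← h]; simp
        have e3 : e 3 = 0 := by rw [← h]; simp
        rw [if_pos ⟨e2, e3⟩, e0, e1, coeff_monomial, if_pos rfl, coeff_monomial, if_pos rfl]
      · rw [if_neg h]
        split_ifs with h2
        · rw [coeff_monomial]
          split_ifs with h3
          · rw [coeff_monomial]
            split_ifs with h4
            · exfalso
              apply h
              ext i
              fin_cases i
              · simpa using h3
              · simpa using h4
              · simpa using h2.1.symm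
              · simpa using h2.2.symm
            · rfl
          · simp
        · rfl

private theorem degreeOf_zero_emb (p : ℤ[X][X]) {d : ℕ} (h : p.natDegree ≤ d) :
    MvPolynomial.degreeOf 0 (emb p) ≤ d := by
  rw [MvPolynomial.degreeOf_le_iff]
  intro e he
  rw [MvPolynomial.mem_support_iff, coeff_emb] at he
  split_ifs at he with h1
  · by_contra hlt
    push Not at hlt
    rw [coeff_eq_zero_of_natDegree_lt (lt_of_le_of_lt h hlt), coeff_zero] at he
    exact he rfl
  · exact absurd rfl he

private theorem degreeOf_one_emb (p : ℤ[X][X]) {μ : ℕ} (h : ∀ i, (p.coeff i).natDegree ≤ μ) :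
    MvPolynomial.degreeOf 1 (emb p) ≤ μ := by
  rw [MvPolynomial.degreeOf_le_iff]
  intro e he
  rw [MvPolynomial.mem_support_iff, coeff_emb] at he
  split_ifs at he with h1
  · by_contra hlt
    push Not at hlt
    rw [coeff_eq_zero_of_natDegree_lt (lt_of_le_of_lt (h _) hlt)] at he
    exact he rfl
  · exact absurd rfl he

/-- restriction to some monomials, after an injective change of exponents -/
private theorem sz_inj {B k : ℕ} {P Q : U4} (f : (Fin 4 →₀ ℕ) → (Fin 4 →₀ ℕ)) (hf : Function.Injective f)
    (hdeg : ∀ e, e 0 + e 1 + e 2 + e 3 ≤ f e 0 + f e 1 + f e 2 + f e 3)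
    (h : ∀ e ∈ Q.support, P.coeff (f e) = Q.coeff e) (hP : Sz B k P) : Sz B k Q := by
  classical
  have hsub : Q.support.image f ⊆ P.support := by
    intro e he
    rw [Finset.mem_image] at he
    obtain ⟨a, ha, rfl⟩ := he
    rw [MvPolynomial.mem_support_iff, h a ha]
    exact MvPolynomial.mem_support_iff.mp ha
  constructor
  · apply Finset.sup_le
    intro e he
    have h1 := MvPolynomial.le_totalDegree (hsub (Finset.mem_image_of_mem f he))
    rw [Finsupp.sum_fintype _ _ (fun _ => rfl), Fin.sum_univ_four] at h1
    show (Finsupp.sum e fun _ n => n) ≤ k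
    rw [Finsupp.sum_fintype _ _ (fun _ => rfl), Fin.sum_univ_four]
    exact (hdeg e).trans (h1.trans hP.1)
  · refine le_trans ?_ hP.2
    unfold L1
    calc ∑ e ∈ Q.support, (Q.coeff e).natAbs = ∑ e ∈ Q.support, (P.coeff (f e)).natAbs :=
          Finset.sum_congr rfl fun e he => by rw [h e he]
      _ = ∑ e ∈ Q.support.image f, (P.coeff e).natAbs := by
          rw [Finset.sum_image (fun a _ b _ hab => hf hab)]
      _ ≤ ∑ e ∈ P.support, (P.coeff e).natAbs :=
          Finset.sum_le_sum_of_subset hsub

private theorem sz_lead {B k s : ℕ} {g : ℤ[X][X]} (hs : g.natDegree = s) (hg : Sz B k (emb g)) :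
    Sz B k (emb (C g.leadingCoeff)) := by
  refine sz_inj (fun e => e + Finsupp.single 0 s) (add_left_injective _) ?_ ?_ hg
  · intro e
    simp
  · intro e he
    rw [MvPolynomial.mem_support_iff, coeff_emb] at he
    rw [coeff_emb, coeff_emb]
    split_ifs at he with h1
    · rw [if_pos (by simpa using h1), if_pos h1]
      have h0 : e 0 = 0 := by
        by_contra hne
        rw [coeff_C, if_neg hne, coeff_zero] at he
        exact he rfl
      rw [h0, coeff_C_zero, leadingCoeff, hs]
      simp [h0]
    · exact absurd rfl he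

private theorem sz_erase {B k : ℕ} {g : ℤ[X][X]} (hg : Sz B k (emb g)) :
    Sz B k (emb g.eraseLead) := by
  refine sz_inj id Function.injective_id (fun e => le_refl _) ?_ hg
  intro e he
  rw [MvPolynomial.mem_support_iff, coeff_emb] at he
  rw [id, coeff_emb, coeff_emb]
  split_ifs at he ⊢ with h1
  · rw [eraseLead_coeff] at he ⊢
    split_ifs at he ⊢ with h2
    · rw [coeff_zero] at he
      exact absurd rfl he
    · rfl
  · rfl

private theorem emb_split {s : ℕ} {g : ℤ[X][X]} (hs : g.natDegree = s) :
    emb g = emb (C g.leadingCoeff) * MvPolynomial.X 0 ^ s + emb g.eraseLead := by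
  have h1 : g = g.eraseLead + C g.leadingCoeff * X ^ s := by
    rw [← hs]
    exact (g.eraseLead_add_C_mul_X_pow).symm
  conv_lhs => rw [h1, map_add, map_mul, map_pow]
  rw [add_comm]
  congr 2
  simp [emb]

private theorem L1_monomial_le (e : Fin 4 →₀ ℕ) (a : ℤ) :
    L1 (MvPolynomial.monomial e a : U4) ≤ a.natAbs := by
  classical
  rw [L1_eq _ MvPolynomial.support_monomial_subset]
  simp

/-- sums of monomials -/
private theorem mem_supp_sum {ι : Type} (s : Finset ι) (f : ι → (Fin 4 →₀ ℕ)) (a : ι → ℤ)
    (m : Fin 4 →₀ ℕ) (h : m ∈ (∑ i ∈ s, MvPolynomial.monomial (f i) (a i) : U4).support) :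
    ∃ i ∈ s, m = f i := by
  classical
  have h1 := MvPolynomial.support_sum h
  rw [Finset.mem_biUnion] at h1
  obtain ⟨i, hi, h2⟩ := h1
  have h3 := MvPolynomial.support_monomial_subset h2
  rw [Finset.mem_singleton] at h3
  exact ⟨i, hi, h3⟩

theorem pdiv {B k s μ : ℕ} (hB : 2 ≤ B) {g : ℤ[X][X]} (hs : g.natDegree = s) (hs1 : 1 ≤ s)
    (hg : Sz B k (emb g)) (hμ : ∀ i, (g.coeff i).natDegree ≤ μ) (kz : ℕ) :
    ∀ (W : U4) (kw τ : ℕ), Sz B kw W → MvPolynomial.degreeOf 0 W ≤ kz →
      MvPolynomial.degreeOf 1 W ≤ τ → ∃ Q R : U4,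
        emb (C g.leadingCoeff) ^ kz * W = emb g * Q + R ∧ MvPolynomial.degreeOf 0 R < s ∧
        MvPolynomial.degreeOf 1 R ≤ τ + kz * μ ∧ Sz B (kw + kz * (k + 1)) R := by
  classical
  have hB1 : 1 ≤ B := by omega
  set lam : U4 := emb (C g.leadingCoeff) with hlam
  have hlamS : Sz B k lam := sz_lead hs hg
  have hlam0 : MvPolynomial.degreeOf 0 lam ≤ 0 := degreeOf_zero_emb _ (by simp)
  have hlam1 : MvPolynomial.degreeOf 1 lam ≤ μ := by
    apply degreeOf_one_emb
    intro i
    by_cases hi : i = 0
    · rw [hi, coeff_C_zero]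
      exact hμ _
    · rw [coeff_C, if_neg hi]
      simp
  set g' : U4 := emb g.eraseLead with hg'
  have hg'S : Sz B k g' := sz_erase hg
  have hg'0 : MvPolynomial.degreeOf 0 g' ≤ s - 1 := by
    apply degreeOf_zero_emb
    rw [← hs]
    exact g.eraseLead_natDegree_le
  have hg'1 : MvPolynomial.degreeOf 1 g' ≤ μ := by
    apply degreeOf_one_emb
    intro i
    rw [eraseLead_coeff]
    split_ifs
    · simp
    · exact hμ i
  have hsplit : emb g = lam * MvPolynomial.X 0 ^ s + g' := emb_split hs
  induction kz with
  | zero =>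
    intro W kw τ hW h0 h1
    refine ⟨0, W, by rw [pow_zero, one_mul, mul_zero, zero_add], by omega, by simpa using h1, ?_⟩
    simpa using hW
  | succ kz ih =>
    intro W kw τ hW h0 h1
    by_cases hA : MvPolynomial.degreeOf 0 W ≤ kz
    · obtain ⟨Q, R, e1, e2, e3, e4⟩ := ih W kw τ hW hA h1
      refine ⟨lam * Q, lam * R, ?_, ?_, ?_, ?_⟩
      · rw [pow_succ', mul_assoc, e1]
        ring
      · have := MvPolynomial.degreeOf_mul_le 0 lam R
        omega
      · have := MvPolynomial.degreeOf_mul_le 1 lam R
        have h2 : (kz + 1) * μ = kz * μ + μ := by ring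
        omega
      · have := sz_mul hlamS e4
        refine sz_mono hB1 this ?_
        have h2 : (kz + 1) * (k + 1) = kz * (k + 1) + k + 1 := by ring
        omega
    · by_cases hC : kz + 1 < s
      · refine ⟨0, lam ^ (kz + 1) * W, by rw [mul_zero, zero_add], ?_, ?_, ?_⟩
        · have a1 := MvPolynomial.degreeOf_mul_le 0 (lam ^ (kz + 1)) W
          have a2 := MvPolynomial.degreeOf_pow_le 0 lam (kz + 1)
          have a3 : (kz + 1) * MvPolynomial.degreeOf 0 lam = 0 := by
            rw [Nat.le_zero.mp hlam0, mul_zero]
          omega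
        · have a1 := MvPolynomial.degreeOf_mul_le 1 (lam ^ (kz + 1)) W
          have a2 := MvPolynomial.degreeOf_pow_le 1 lam (kz + 1)
          have a3 : (kz + 1) * MvPolynomial.degreeOf 1 lam ≤ (kz + 1) * μ :=
            Nat.mul_le_mul_left _ hlam1
          omega
        · have := sz_mul (sz_pow hlamS (kz + 1)) hW
          refine sz_mono hB1 this ?_
          have h2 : (kz + 1) * (k + 1) = (kz + 1) * k + (kz + 1) := by ring
          omega
      · push Not at hC
        -- the top part of W, divided by Z^s
        set T : Finset (Fin 4 →₀ ℕ) := W.support.filter (fun e => e 0 = kz + 1) with hT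
        set T' : Finset (Fin 4 →₀ ℕ) := W.support.filter (fun e => ¬ e 0 = kz + 1) with hT'
        set cm : U4 := ∑ e ∈ T, MvPolynomial.monomial (e - Finsupp.single 0 s) (W.coeff e) with hcm
        set W' : U4 := ∑ e ∈ T', MvPolynomial.monomial e (W.coeff e) with hW'
        have hWsplit : W = cm * MvPolynomial.X 0 ^ s + W' := by
          conv_lhs => rw [MvPolynomial.as_sum W]
          rw [← Finset.sum_filter_add_sum_filter_not W.support (fun e => e 0 = kz + 1)]
          congr 1
          rw [hcm, Finset.sum_mul]
          refine Finset.sum_congr rfl fun e he => ?_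
          rw [MvPolynomial.X_pow_eq_monomial, MvPolynomial.monomial_mul, mul_one]
          congr 1
          rw [tsub_add_cancel_of_le]
          rw [Finsupp.single_le_iff]
          rw [hT, Finset.mem_filter] at he
          omega
        have hdeg4 : ∀ e ∈ W.support, e 0 + e 1 + e 2 + e 3 ≤ kw := by
          intro e he
          have h2 := MvPolynomial.le_totalDegree he
          rw [Finsupp.sum_fintype _ _ (fun _ => rfl), Fin.sum_univ_four] at h2
          exact h2.trans hW.1
        have hW'0 : MvPolynomial.degreeOf 0 W' ≤ kz := by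
          rw [MvPolynomial.degreeOf_le_iff]
          intro m hm
          obtain ⟨e, he, rfl⟩ := mem_supp_sum _ _ _ _ hm
          rw [hT', Finset.mem_filter] at he
          have h2 := (MvPolynomial.degreeOf_le_iff.mp h0) m he.1
          omega
        have hW'1 : MvPolynomial.degreeOf 1 W' ≤ τ := by
          rw [MvPolynomial.degreeOf_le_iff]
          intro m hm
          obtain ⟨e, he, rfl⟩ := mem_supp_sum _ _ _ _ hm
          rw [hT', Finset.mem_filter] at he
          exact (MvPolynomial.degreeOf_le_iff.mp h1) m he.1
        have hW'd : W'.totalDegree ≤ kw := by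
          apply Finset.sup_le
          intro m hm
          obtain ⟨e, he, rfl⟩ := mem_supp_sum _ _ _ _ hm
          rw [hT', Finset.mem_filter] at he
          show (Finsupp.sum m fun _ n => n) ≤ kw
          rw [Finsupp.sum_fintype _ _ (fun _ => rfl), Fin.sum_univ_four]
          exact hdeg4 m he.1
        have hcm0 : MvPolynomial.degreeOf 0 cm ≤ kz + 1 - s := by
          rw [MvPolynomial.degreeOf_le_iff]
          intro m hm
          obtain ⟨e, he, rfl⟩ := mem_supp_sum _ _ _ _ hm
          rw [hT, Finset.mem_filter] at he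
          simp [he.2]
        have hcm1 : MvPolynomial.degreeOf 1 cm ≤ τ := by
          rw [MvPolynomial.degreeOf_le_iff]
          intro m hm
          obtain ⟨e, he, rfl⟩ := mem_supp_sum _ _ _ _ hm
          rw [hT, Finset.mem_filter] at he
          have h2 := (MvPolynomial.degreeOf_le_iff.mp h1) e he.1
          simpa using h2
        have hcmd : cm.totalDegree ≤ kw := by
          apply Finset.sup_le
          intro m hm
          obtain ⟨e, he, rfl⟩ := mem_supp_sum _ _ _ _ hm
          rw [hT, Finset.mem_filter] at he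
          show (Finsupp.sum _ fun _ n => n) ≤ kw
          rw [Finsupp.sum_fintype _ _ (fun _ => rfl), Fin.sum_univ_four]
          have h2 := hdeg4 e he.1
          simp
          omega
        have hL : L1 cm + L1 W' ≤ L1 W := by
          have b1 : L1 cm ≤ ∑ e ∈ T, (W.coeff e).natAbs :=
            (L1_sum _ _).trans (Finset.sum_le_sum fun e _ => L1_monomial_le _ _)
          have b2 : L1 W' ≤ ∑ e ∈ T', (W.coeff e).natAbs :=
            (L1_sum _ _).trans (Finset.sum_le_sum fun e _ => L1_monomial_le _ _)
          have b3 : ∑ e ∈ T, (W.coeff e).natAbs + ∑ e ∈ T', (W.coeff e).natAbs = L1 W := by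
            unfold L1
            rw [hT, hT', Finset.sum_filter_add_sum_filter_not]
          omega
        -- V
        set V : U4 := lam * W' - cm * g' with hV
        have hVeq : lam * W = cm * emb g + V := by
          rw [hV, hsplit]
          conv_lhs => rw [hWsplit]
          ring
        have hV0 : MvPolynomial.degreeOf 0 V ≤ kz := by
          have a1 := MvPolynomial.degreeOf_mul_le 0 lam W'
          have a2 := MvPolynomial.degreeOf_mul_le 0 cm g'
          have a3 := MvPolynomial.degreeOf_sub_le 0 (lam * W') (cm * g')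
          rw [← hV] at a3
          refine a3.trans (max_le (by omega) (by omega))
        have hV1 : MvPolynomial.degreeOf 1 V ≤ τ + μ := by
          have a1 := MvPolynomial.degreeOf_mul_le 1 lam W'
          have a2 := MvPolynomial.degreeOf_mul_le 1 cm g'
          have a3 := MvPolynomial.degreeOf_sub_le 1 (lam * W') (cm * g')
          rw [← hV] at a3
          refine a3.trans (max_le (by omega) (by omega))
        have hVS : Sz B (kw + k) V := by
          constructor
          · have a1 := MvPolynomial.totalDegree_mul lam W'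
            have a2 := MvPolynomial.totalDegree_mul cm g'
            have a3 := MvPolynomial.totalDegree_sub (lam * W') (cm * g')
            have a4 := hlamS.1
            have a5 := hg'S.1
            refine a3.trans (max_le (by omega) (by omega))
          · have a1 : L1 V ≤ L1 (lam * W') + L1 (cm * g') := by
              rw [hV, sub_eq_add_neg]
              refine (L1_add _ _).trans ?_
              rw [L1_neg]
            calc L1 V ≤ L1 (lam * W') + L1 (cm * g') := a1
              _ ≤ L1 lam * L1 W' + L1 cm * L1 g' := Nat.add_le_add (L1_mul _ _) (L1_mul _ _)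
              _ ≤ B ^ k * L1 W' + L1 cm * B ^ k :=
                  Nat.add_le_add (Nat.mul_le_mul_right _ hlamS.2) (Nat.mul_le_mul_left _ hg'S.2)
              _ = (L1 cm + L1 W') * B ^ k := by ring
              _ ≤ L1 W * B ^ k := Nat.mul_le_mul_right _ hL
              _ ≤ B ^ kw * B ^ k := Nat.mul_le_mul_right _ hW.2
              _ = B ^ (kw + k) := by rw [pow_add]
        obtain ⟨Q, R, e1, e2, e3, e4⟩ := ih V (kw + k) (τ + μ) hVS hV0 hV1
        refine ⟨Q + lam ^ kz * cm, R, ?_, e2, ?_, ?_⟩
        · rw [pow_succ, mul_assoc, hVeq, mul_add, e1]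
          ring
        · have h2 : (kz + 1) * μ = kz * μ + μ := by ring
          omega
        · refine sz_mono hB1 e4 ?_
          have h2 : (kz + 1) * (k + 1) = kz * (k + 1) + k + 1 := by ring
          omega

end Pool.Agent.H97.XU
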