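import Pool.Agent.H97.XU.SIE
import Pool.Agent.H97.XU.FCG
import Pool.Agent.H98.TE.PAR

/-! # [H97 XU RUA] Runge's method: the relation

`D = dq (PR n m F)`, `η` a Newton approximation without `u`; `M = n^2`, `WR D η l` the function of the index `l = (i, b, k)`.
Sizes (`T ≥ n + m + 3 ≥ 6`; check the smallest cases): `PR`: `2n+m+1 ≤ 2T`; `D`: `4T`; `D² w`: `≤ 8T + 1 ≤ T^3`, its powers: `≤ T^5`; `Z + D η`: `≤ T^20`, its powers
`≤ T^21`; the part without `t^i` has size `≤ T^22 =: kz`. `I = 2 (n - 1) (m + 1) T^22 + 1 ≤ T^25`; `Sz B (T^26) (WR D η l)`, `degreeOf 0 ≤ T^22`,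
`degreeOf 1 ≤ I - 1 + T^22 =: τ`. `siegel_mod` for `g`, `μ = m`, `k = T^26` (`sz_emb` for `emb g`), `TT = {0} ×ˢ range (M + 1)`, `v = T^29`.
Count: `s ≤ n - 1`, `(n - 1) (I + (m + 1) T^22) (M + 1) < I QQ n M`, since `QQ n M = n (M + 1) - n (n-1)/2` (`QQ n M ≥ (n - 1)(M + 1) + (M + 1)/2`).
`(v + k + kz + 2)^4 ≤ (T^30)^4`, `(..)^5 ≤ T^150`.
`u ↦ 0` in the identity (or evaluate at `u = 0` only): a monomial of `R` with `e 2 = 0` has `(e 2, e 3) ∉ TT`, so `e 3 ≥ M + 1`. -/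

namespace Pool.Agent.H97.XU

open Finset Polynomial Pool.Agent.H37.TE Pool.Agent.H98.TE Pool.Agent.H4.TP

/-- the function of the index `l = (i, b, k)` in Runge's chart -/
noncomputable def WR {I n M : ℕ} (D η : U4) (l : Lam I n M) : U4 :=
  MvPolynomial.X 1 ^ (l.1 : ℕ) *
    (D ^ 2 * MvPolynomial.X 3) ^ (M - (l.2.2 : ℕ) - (l.2.1 : ℕ)) *
    (MvPolynomial.X 0 + D * η) ^ (l.2.1 : ℕ)

private theorem rua_QQ (n M : ℕ) (hM : n ≤ M + 1) :
    2 * QQ n M + n * (n - 1) = 2 * n * (M + 1) := by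
  have h : ∀ k : ℕ, k ≤ M + 1 → 2 * (∑ i ∈ range k, (M + 1 - i)) + k * (k - 1) =
      2 * k * (M + 1) := by
    intro k
    induction k with
    | zero => intro _; simp
    | succ k ih =>
      intro hk
      have h1 := ih (by omega)
      obtain ⟨r, hr⟩ : ∃ r, M + 1 = k + r := ⟨M + 1 - k, by omega⟩
      rw [sum_range_succ]
      have h2 : M + 1 - k = r := by omega
      rw [h2]
      rcases Nat.eq_zero_or_pos k with h0 | h0
      · subst h0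
        simp only [range_zero, sum_empty] at h1 ⊢
        omega
      · obtain ⟨j, rfl⟩ : ∃ j, k = j + 1 := ⟨k - 1, by omega⟩
        simp only [Nat.add_sub_cancel] at h1 ⊢
        rw [hr] at h1 ⊢
        nlinarith
  unfold QQ
  rw [Fin.sum_univ_eq_sum_range (fun i => M + 1 - i) n]
  exact h n hM

theorem runge_alg {n m B T : ℕ} (hn : 3 ≤ n) (hB : 2 ≤ B) (hT : n + m + 3 ≤ T)
    {F : ℤ[X][X][X]} (h : HypG n m F) (hF : CB B F) {η : U4} (hη : Sz B (T ^ 19) η)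
    {g : ℤ[X][X]} (hg : B2 n m (B ^ (T ^ 3)) g) (hg1 : 1 ≤ g.natDegree)
    (hg2 : g.natDegree < n) :
    ∃ (I : ℕ) (c : Lam I n (n ^ 2) → ℤ) (R : U4), I ≤ T ^ 25 ∧ c ≠ 0 ∧
      (∀ l, |c l| ≤ (B : ℤ) ^ (T ^ 120)) ∧ Sz B (T ^ 150) R ∧
      (∀ e ∈ R.support, e 2 = 0 → n ^ 2 + 1 ≤ e 3) ∧
      ∀ a θ w : ℝ, eval₂ (eval₂RingHom (Int.castRingHom ℝ) a) θ g = 0 →
        (eval₂ (Int.castRingHom ℝ) a g.leadingCoeff) ^ (T ^ 22) *
          ∑ l, (c l : ℝ) * ev θ a 0 w (WR (dq (PR n m F)) η l) = ev θ a 0 w R := by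
  have hB1 : 1 ≤ B := by omega
  have hT6 : 6 ≤ T := by omega
  have hpow : ∀ j : ℕ, 0 < T ^ j := fun j => Nat.pow_pos (by omega)
  have hnT : n ≤ T := by omega
  have hstep : ∀ j : ℕ, 6 * T ^ j ≤ T ^ (j + 1) := fun j => by
    rw [pow_succ, mul_comm]
    exact Nat.mul_le_mul_left _ hT6
  have hmono : ∀ i j : ℕ, i ≤ j → T ^ i ≤ T ^ j := fun i j hij =>
    Nat.pow_le_pow_right (by omega) hij
  obtain ⟨D, hDdef⟩ : ∃ D, D = dq (PR n m F) := ⟨_, rfl⟩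
  rw [← hDdef]
  have hD : Sz B (4 * T) D := by
    rw [hDdef]
    exact sz_mono hB1 (sz_dq hB (sz_PR hB hF)) (by omega)
  obtain ⟨I, hI⟩ : ∃ I, I = 2 * ((n - 1) * (m + 1) * T ^ 22) + 1 := ⟨_, rfl⟩
  have hIT : I ≤ T ^ 25 := by
    have h1 : (n - 1) * (m + 1) ≤ T * T := Nat.mul_le_mul (by omega) (by omega)
    have h2 : (n - 1) * (m + 1) * T ^ 22 ≤ T ^ 24 := by
      calc (n - 1) * (m + 1) * T ^ 22 ≤ T * T * T ^ 22 := Nat.mul_le_mul_right _ h1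
        _ = T ^ 24 := by ring
    have h3 : 6 * T ^ 24 ≤ T ^ 25 := hstep 24
    have h4 := hpow 24
    omega
  -- the sizes
  have hM : n ^ 2 ≤ T ^ 2 := Nat.pow_le_pow_left hnT 2
  have hw : Sz B (T ^ 3) (D ^ 2 * MvPolynomial.X 3) := by
    refine sz_mono hB1 (sz_mul (sz_pow hD 2) (sz_X hB1 3)) ?_
    have h1 : 36 * T ≤ T ^ 3 := by
      calc 36 * T ≤ T * T * T := Nat.mul_le_mul_right _ (Nat.mul_le_mul hT6 hT6)
        _ = T ^ 3 := by ring
    omega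
  have hz : Sz B (T ^ 20) (MvPolynomial.X 0 + D * η) := by
    refine sz_mono hB1 (sz_add hB (sz_X hB1 0) (sz_mul hD hη)) ?_
    have h1 : 6 * T ^ 19 ≤ T ^ 20 := hstep 19
    have h2 : T ≤ T ^ 19 := by
      calc T = T ^ 1 := (pow_one T).symm
        _ ≤ T ^ 19 := hmono 1 19 (by norm_num)
    have h3 : max 1 (4 * T + T ^ 19) = 4 * T + T ^ 19 := max_eq_right (by omega)
    rw [h3]
    omega
  have hP : ∀ l : Lam I n (n ^ 2), Sz B (T ^ 22)
      ((D ^ 2 * MvPolynomial.X 3) ^ (n ^ 2 - (l.2.2 : ℕ) - (l.2.1 : ℕ)) *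
        (MvPolynomial.X 0 + D * η) ^ (l.2.1 : ℕ)) := by
    intro l
    have h1 : (n ^ 2 - (l.2.2 : ℕ) - (l.2.1 : ℕ)) * T ^ 3 ≤ T ^ 5 := by
      calc (n ^ 2 - (l.2.2 : ℕ) - (l.2.1 : ℕ)) * T ^ 3 ≤ T ^ 2 * T ^ 3 :=
            Nat.mul_le_mul_right _ (by omega)
        _ = T ^ 5 := by ring
    have h2 : (l.2.1 : ℕ) * T ^ 20 ≤ T ^ 21 := by
      have h3 : (l.2.1 : ℕ) ≤ T := l.2.1.2.le.trans hnT
      calc (l.2.1 : ℕ) * T ^ 20 ≤ T * T ^ 20 := Nat.mul_le_mul_right _ h3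
        _ = T ^ 21 := by ring
    refine sz_mono hB1 (sz_mul (sz_pow hw _) (sz_pow hz _)) ?_
    have h4 : 6 * T ^ 21 ≤ T ^ 22 := hstep 21
    have h5 := hmono 5 21 (by norm_num)
    omega
  have hWeq : ∀ l : Lam I n (n ^ 2), WR D η l = MvPolynomial.X 1 ^ (l.1 : ℕ) *
      ((D ^ 2 * MvPolynomial.X 3) ^ (n ^ 2 - (l.2.2 : ℕ) - (l.2.1 : ℕ)) *
        (MvPolynomial.X 0 + D * η) ^ (l.2.1 : ℕ)) := by
    intro l
    unfold WR
    rw [mul_assoc]
  have hW : ∀ l : Lam I n (n ^ 2), Sz B (T ^ 26) (WR D η l) := by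
    intro l
    rw [hWeq]
    refine sz_mono hB1 (sz_mul (sz_pow (sz_X hB1 1) _) (hP l)) ?_
    have h1 : (l.1 : ℕ) ≤ T ^ 25 := l.1.2.le.trans hIT
    have h2 : 6 * T ^ 25 ≤ T ^ 26 := hstep 25
    have h3 := hmono 22 25 (by norm_num)
    omega
  have hd0 : ∀ l : Lam I n (n ^ 2), MvPolynomial.degreeOf 0 (WR D η l) ≤ T ^ 22 := by
    intro l
    rw [hWeq]
    refine (MvPolynomial.degreeOf_mul_le _ _ _).trans ?_
    have h1 : MvPolynomial.degreeOf 0 (MvPolynomial.X 1 ^ (l.1 : ℕ) : U4) = 0 := by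
      have h2 := MvPolynomial.degreeOf_pow_le (0 : Fin 4) (MvPolynomial.X 1 : U4) (l.1 : ℕ)
      rw [MvPolynomial.degreeOf_X, if_neg (by decide), mul_zero] at h2
      omega
    rw [h1, zero_add]
    exact (MvPolynomial.degreeOf_le_totalDegree _ _).trans (hP l).1
  have hd1 : ∀ l : Lam I n (n ^ 2), MvPolynomial.degreeOf 1 (WR D η l) ≤ I - 1 + T ^ 22 := by
    intro l
    rw [hWeq]
    refine (MvPolynomial.degreeOf_mul_le _ _ _).trans ?_
    have h1 : MvPolynomial.degreeOf 1 (MvPolynomial.X 1 ^ (l.1 : ℕ) : U4) ≤ I - 1 := by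
      have h2 := MvPolynomial.degreeOf_pow_le (1 : Fin 4) (MvPolynomial.X 1 : U4) (l.1 : ℕ)
      rw [MvPolynomial.degreeOf_X, if_pos rfl, mul_one] at h2
      have h3 := l.1.2
      omega
    exact Nat.add_le_add h1 ((MvPolynomial.degreeOf_le_totalDegree _ _).trans (hP l).1)
  have hge : Sz B (T ^ 26) (emb g) := by
    refine sz_mono hB1 (sz_emb hB hg.1 hg.2.1 fun i j => ?_) (?_ : T ^ 3 + n + m ≤ T ^ 26)
    · have h1 := hg.2.2 i j
      rw [Nat.cast_pow] at h1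
      exact h1
    · have h2 := hmono 3 25 (by norm_num)
      have h3 : 6 * T ^ 25 ≤ T ^ 26 := hstep 25
      have h4 : T ≤ T ^ 25 := by
        calc T = T ^ 1 := (pow_one T).symm
          _ ≤ T ^ 25 := hmono 1 25 (by norm_num)
      omega
  have hQQ := rua_QQ n (n ^ 2) (by nlinarith)
  have hcardI : Fintype.card (Lam I n (n ^ 2)) = I * QQ n (n ^ 2) := lam_card I n (n ^ 2)
  have hv : Fintype.card (Lam I n (n ^ 2)) ≤ T ^ 29 := by
    rw [hcardI]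
    have h1 : QQ n (n ^ 2) ≤ n * (n ^ 2 + 1) := by
      have h2 : 2 * n * (n ^ 2 + 1) = 2 * (n * (n ^ 2 + 1)) := by ring
      omega
    have h3 : n * (n ^ 2 + 1) ≤ T ^ 4 := by
      calc n * (n ^ 2 + 1) ≤ T * (T ^ 2 + T ^ 2) :=
            Nat.mul_le_mul hnT (Nat.add_le_add hM (hpow 2))
        _ = 2 * T ^ 3 := by ring
        _ ≤ T ^ 4 := by
          have h4 : 6 * T ^ 3 ≤ T ^ 4 := hstep 3
          have h5 := hpow 3
          omega
    calc I * QQ n (n ^ 2) ≤ T ^ 25 * T ^ 4 := Nat.mul_le_mul hIT (h1.trans h3)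
      _ = T ^ 29 := by ring
  have hcard : g.natDegree * (I - 1 + T ^ 22 + T ^ 22 * m + 1) *
      (({0} : Finset ℕ) ×ˢ range (n ^ 2 + 1)).card < Fintype.card (Lam I n (n ^ 2)) := by
    rw [hcardI, card_product, card_singleton, one_mul, card_range]
    have h1 : I - 1 + T ^ 22 + T ^ 22 * m + 1 = I + (m + 1) * T ^ 22 := by
      have h2 : (m + 1) * T ^ 22 = T ^ 22 + T ^ 22 * m := by ring
      omega
    rw [h1]
    have h3 : g.natDegree * (I + (m + 1) * T ^ 22) * (n ^ 2 + 1) ≤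
        (n - 1) * (I + (m + 1) * T ^ 22) * (n ^ 2 + 1) :=
      Nat.mul_le_mul_right _ (Nat.mul_le_mul_right _ (by omega))
    refine lt_of_le_of_lt h3 ?_
    obtain ⟨n', rfl⟩ : ∃ n', n = n' + 1 := ⟨n - 1, by omega⟩
    simp only [Nat.add_sub_cancel] at hI hQQ ⊢
    have h4 : 2 * (n' * (I + (m + 1) * T ^ 22) * ((n' + 1) ^ 2 + 1)) <
        2 * (I * QQ (n' + 1) ((n' + 1) ^ 2)) := by
      have h5 : 2 * (n' * (I + (m + 1) * T ^ 22) * ((n' + 1) ^ 2 + 1)) + ((n' + 1) ^ 2 + 1) =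
          (2 * n' * I + I) * ((n' + 1) ^ 2 + 1) := by
        have h6 : 2 * (n' * (m + 1) * T ^ 22) + 1 = I := hI.symm
        calc 2 * (n' * (I + (m + 1) * T ^ 22) * ((n' + 1) ^ 2 + 1)) + ((n' + 1) ^ 2 + 1) =
            (2 * n' * I + (2 * (n' * (m + 1) * T ^ 22) + 1)) * ((n' + 1) ^ 2 + 1) := by ring
          _ = (2 * n' * I + I) * ((n' + 1) ^ 2 + 1) := by rw [h6]
      have h7 : 2 * (I * QQ (n' + 1) ((n' + 1) ^ 2)) + I * ((n' + 1) * n') =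
          I * (2 * (n' + 1) * ((n' + 1) ^ 2 + 1)) := by
        rw [← hQQ]
        ring
      have h8 : I * ((n' + 1) * n') ≤ I * ((n' + 1) ^ 2 + 1) :=
        Nat.mul_le_mul_left _ (by nlinarith)
      have h9 : I * (2 * (n' + 1) * ((n' + 1) ^ 2 + 1)) =
          (2 * n' * I + I) * ((n' + 1) ^ 2 + 1) + I * ((n' + 1) ^ 2 + 1) := by ring
      have h10 : 0 < (n' + 1) ^ 2 + 1 := Nat.succ_pos _
      omega
    omega
  obtain ⟨c, Q, R, hc0, hcb, hid, hR, hRs⟩ := siegel_mod hB (fun l => WR D η l) hW hd0 hd1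
    (s := g.natDegree) rfl hg1 hge hg.2.1 (({0} : Finset ℕ) ×ˢ range (n ^ 2 + 1))
    ⟨(0, 0), mem_product.2 ⟨mem_singleton_self 0, mem_range.2 (Nat.succ_pos _)⟩⟩ hv hcard
  have hbase : T ^ 29 + T ^ 26 + T ^ 22 + 2 ≤ T ^ 30 := by
    have h1 : 6 * T ^ 29 ≤ T ^ 30 := hstep 29
    have h2 := hmono 26 29 (by norm_num)
    have h3 := hmono 22 29 (by norm_num)
    have h4 : 6 ≤ T ^ 29 := by
      calc 6 ≤ T := hT6
        _ = T ^ 1 := (pow_one T).symm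
        _ ≤ T ^ 29 := hmono 1 29 (by norm_num)
    omega
  refine ⟨I, c, R, hIT, hc0, fun l => (hcb l).trans ?_, sz_mono hB1 hRs ?_, ?_, ?_⟩
  · refine pow_le_pow_right₀ (by exact_mod_cast hB1) ?_
    calc (T ^ 29 + T ^ 26 + T ^ 22 + 2) ^ 4 ≤ (T ^ 30) ^ 4 := Nat.pow_le_pow_left hbase 4
      _ = T ^ 120 := by rw [← pow_mul]
  · calc (T ^ 29 + T ^ 26 + T ^ 22 + 2) ^ 5 ≤ (T ^ 30) ^ 5 := Nat.pow_le_pow_left hbase 5
      _ = T ^ 150 := by rw [← pow_mul]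
  · intro e he he2
    by_contra h1
    rw [not_le] at h1
    exact hR e he (mem_product.2 ⟨by rw [he2]; exact mem_singleton_self 0, mem_range.2 h1⟩)
  · intro a θ w hθ
    have h1 := congrArg (ev θ a 0 w) hid
    rw [map_mul, map_pow, map_add, map_mul, ev_emb, ev_emb, hθ, zero_mul, zero_add, map_sum,
      eval₂_C] at h1
    rw [← h1]
    have h2 : ∀ l, ev θ a 0 w (MvPolynomial.C (c l) * WR D η l) =
        (c l : ℝ) * ev θ a 0 w (WR D η l) := by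
      intro l
      rw [map_mul]
      congr 1
      unfold ev
      simp
    simp only [h2]
    rfl

end Pool.Agent.H97.XU
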