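import Pool.Agent.H97.XU.PDV

/-! # [H97 XU SIE] Siegel's lemma modulo a polynomial

`pdiv` for every `W l` (`kw = k`): `λ^kz W_l = g Q_l + R_l`, `degreeOf 0 (R_l) < s`, `degreeOf 1 (R_l) ≤ τ + kz μ`, `Sz B (k + kz (k+1)) R_l`. Unknowns
`c_l ∈ ℤ`; equations: for `(p, q) ∈ TT`, `i ≤ τ + kz μ`, `e < s` the coefficient of `Z^e t^i u^p w^q` in `∑ c_l R_l` vanishes:
`Int.Matrix.exists_ne_zero_int_vec_norm_le` (`Mathlib.NumberTheory.SiegelsLemma`), index types `ι` and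
`Fin s × Fin (τ + kz μ + 1) × TT`; entries at most `B^(k + kz (k+1)) ≤ B^((k+kz+2)^2)`. Solution
`|c| ≤ (card ι · B^((k+kz+2)²))^E`, `E ≤ v` (the exponent `m/(n-m) ≤ m < v` as `n - m ≥ 1`; the base is `≥ 1`): at most
`B^((v + (k+kz+2)²) v) ≤ B^((v+k+kz+2)^4)`. `R = ∑ c_l R_l`, `Q = ∑ c_l Q_l`; `R` has only monomials with `(e 2, e 3) ∉ TT`, since all its
monomials have `e 0 < s`, `e 1 ≤ τ + kz μ`. Size: `L1 R ≤ v B^((v+k+kz+2)^4 - ..) B^(..)`; use the sharper bound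
`(v + (k+kz+2)²) v ≤ (v+k+kz+2)³`-like for `c`. -/

namespace Pool.Agent.H97.XU

open Finset Polynomial

attribute [local instance] Matrix.seminormedAddCommGroup in
/-- Siegel's lemma with a crude bound for integer matrices -/
private theorem siegel_crude {α ι : Type} [Fintype α] [Fintype ι] {B K v : ℕ} (hB : 2 ≤ B)
    (A : Matrix α ι ℤ) (hA : ∀ i j, (A i j).natAbs ≤ B ^ K) (hv : Fintype.card ι ≤ v)
    (hn : Fintype.card α < Fintype.card ι) (hm : 0 < Fintype.card α) :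
    ∃ c : ι → ℤ, c ≠ 0 ∧ Matrix.mulVec A c = 0 ∧ ∀ l, |c l| ≤ (B : ℤ) ^ ((v + K) * v) := by
  obtain ⟨c, hc0, hAc, hcn⟩ := Int.Matrix.exists_ne_zero_int_vec_norm_le A hn hm
  refine ⟨c, hc0, hAc, fun l => ?_⟩
  have hBR : (1 : ℝ) ≤ B := by exact_mod_cast (by omega : 1 ≤ B)
  have hnR : (1 : ℝ) ≤ (Fintype.card ι : ℝ) := by exact_mod_cast (by omega : 1 ≤ Fintype.card ι)
  have hAn : max 1 ‖A‖ ≤ (B : ℝ) ^ K := by
    apply max_le (one_le_pow₀ hBR)
    rw [Matrix.norm_le_iff (by positivity)]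
    intro i j
    rw [Int.norm_eq_abs, ← Int.cast_abs, ← Nat.cast_natAbs]
    exact_mod_cast hA i j
  have h1 : (1 : ℝ) ≤ (Fintype.card ι : ℝ) * max 1 ‖A‖ := by
    have : (1 : ℝ) ≤ max 1 ‖A‖ := le_max_left _ _
    nlinarith
  have h2 : (Fintype.card ι : ℝ) * max 1 ‖A‖ ≤ (B : ℝ) ^ (v + K) := by
    rw [pow_add]
    apply mul_le_mul _ hAn (by positivity) (by positivity)
    have h3 : (v : ℝ) ≤ (B : ℝ) ^ v := by
      exact_mod_cast (Nat.lt_pow_self (by omega : 1 < B)).le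
    exact le_trans (by exact_mod_cast hv) h3
  have h3 : (Fintype.card α : ℝ) / ((Fintype.card ι : ℝ) - Fintype.card α) ≤ (v : ℝ) := by
    have h4 : (1 : ℝ) ≤ (Fintype.card ι : ℝ) - Fintype.card α := by
      have : (Fintype.card α : ℝ) + 1 ≤ (Fintype.card ι : ℝ) := by exact_mod_cast hn
      linarith
    rw [div_le_iff₀ (by linarith)]
    have h5 : (Fintype.card α : ℝ) ≤ v := by exact_mod_cast hn.le.trans hv
    have h6 : (0 : ℝ) ≤ v := Nat.cast_nonneg v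
    nlinarith
  have h7 : ‖c‖ ≤ (B : ℝ) ^ ((v + K) * v) := by
    refine hcn.trans ?_
    calc ((Fintype.card ι : ℝ) * max 1 ‖A‖) ^ ((Fintype.card α : ℝ) /
          ((Fintype.card ι : ℝ) - Fintype.card α))
        ≤ ((Fintype.card ι : ℝ) * max 1 ‖A‖) ^ (v : ℝ) := Real.rpow_le_rpow_of_exponent_le h1 h3
      _ = ((Fintype.card ι : ℝ) * max 1 ‖A‖) ^ v := Real.rpow_natCast _ _
      _ ≤ ((B : ℝ) ^ (v + K)) ^ v := pow_le_pow_left₀ (by linarith) h2 v
      _ = (B : ℝ) ^ ((v + K) * v) := by rw [← pow_mul]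
  have h8 : ‖c l‖ ≤ (B : ℝ) ^ ((v + K) * v) := (norm_le_pi_norm c l).trans h7
  rw [Int.norm_eq_abs] at h8
  exact_mod_cast h8

theorem siegel_mod {ι : Type} [Fintype ι] [DecidableEq ι] {B k kz τ s μ v : ℕ} (hB : 2 ≤ B)
    (W : ι → U4) (hW : ∀ l, Sz B k (W l)) (hz : ∀ l, MvPolynomial.degreeOf 0 (W l) ≤ kz)
    (ht : ∀ l, MvPolynomial.degreeOf 1 (W l) ≤ τ) {g : ℤ[X][X]} (hs : g.natDegree = s)
    (hs1 : 1 ≤ s) (hg : Sz B k (emb g)) (hμ : ∀ i, (g.coeff i).natDegree ≤ μ)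
    (TT : Finset (ℕ × ℕ)) (hTT : TT.Nonempty) (hv : Fintype.card ι ≤ v)
    (hcard : s * (τ + kz * μ + 1) * TT.card < Fintype.card ι) :
    ∃ (c : ι → ℤ) (Q R : U4), c ≠ 0 ∧ (∀ l, |c l| ≤ (B : ℤ) ^ ((v + k + kz + 2) ^ 4)) ∧
      emb (C g.leadingCoeff) ^ kz * ∑ l, MvPolynomial.C (c l) * W l = emb g * Q + R ∧
      (∀ e ∈ R.support, (e 2, e 3) ∉ TT) ∧ Sz B ((v + k + kz + 2) ^ 5) R := by
  classical
  have hB1 : 1 ≤ B := by omega
  have hdiv : ∀ l, ∃ Q R : U4, emb (C g.leadingCoeff) ^ kz * W l = emb g * Q + R ∧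
      MvPolynomial.degreeOf 0 R < s ∧ MvPolynomial.degreeOf 1 R ≤ τ + kz * μ ∧
      Sz B (k + kz * (k + 1)) R :=
    fun l => pdiv hB hs hs1 hg hμ kz (W l) k τ (hW l) (hz l) (ht l)
  choose Q R hQR h0 h1 hS using hdiv
  set K : ℕ := k + kz * (k + 1) with hK
  have hTc : 0 < TT.card := hTT.card_pos
  let A : Matrix (Fin s × Fin (τ + kz * μ + 1) × TT) ι ℤ := fun x l =>
    (R l).coeff (Finsupp.single 0 (x.1 : ℕ) + Finsupp.single 1 (x.2.1 : ℕ) +
      Finsupp.single 2 (x.2.2 : ℕ × ℕ).1 + Finsupp.single 3 (x.2.2 : ℕ × ℕ).2)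
  have hcα : Fintype.card (Fin s × Fin (τ + kz * μ + 1) × TT) = s * (τ + kz * μ + 1) * TT.card := by
    simp [Fintype.card_prod, mul_assoc]
  obtain ⟨c, hc0, hAc, hcn⟩ := siegel_crude hB A (K := K) (v := v)
    (fun x l => (coeff_le_L1 _ _).trans (hS l).2) hv (by rw [hcα]; exact hcard)
    (by rw [hcα]; positivity)
  set N : ℕ := v + k + kz + 2 with hN
  have hKv : v + K ≤ N ^ 2 := by
    rw [hK, hN]
    nlinarith
  have hvN : v ≤ N := by omega
  have hexp : (v + K) * v ≤ N ^ 3 := by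
    calc (v + K) * v ≤ N ^ 2 * N := Nat.mul_le_mul hKv hvN
      _ = N ^ 3 := by ring
  have hN2 : 2 ≤ N := by omega
  have h34 : N ^ 3 ≤ N ^ 4 := Nat.pow_le_pow_right (by omega) (by norm_num)
  have h35 : N ^ 3 + N ^ 2 ≤ N ^ 5 := by
    have h23 : N ^ 2 ≤ N ^ 3 := Nat.pow_le_pow_right (by omega) (by norm_num)
    calc N ^ 3 + N ^ 2 ≤ N ^ 3 + N ^ 3 := by omega
      _ = 2 * N ^ 3 := by ring
      _ ≤ N * N ^ 3 := Nat.mul_le_mul_right _ hN2
      _ = N ^ 4 := by ring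
      _ ≤ N ^ 5 := Nat.pow_le_pow_right (by omega) (by norm_num)
  have hcb : ∀ l, |c l| ≤ (B : ℤ) ^ (N ^ 3) := fun l =>
    (hcn l).trans (pow_le_pow_right₀ (by exact_mod_cast hB1) hexp)
  refine ⟨c, ∑ l, MvPolynomial.C (c l) * Q l, ∑ l, MvPolynomial.C (c l) * R l, hc0,
    fun l => (hcb l).trans (pow_le_pow_right₀ (by exact_mod_cast hB1) h34), ?_, ?_, ?_⟩
  · rw [Finset.mul_sum, Finset.mul_sum, ← Finset.sum_add_distrib]
    refine Finset.sum_congr rfl fun l _ => ?_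
    calc emb (C g.leadingCoeff) ^ kz * (MvPolynomial.C (c l) * W l)
        = MvPolynomial.C (c l) * (emb (C g.leadingCoeff) ^ kz * W l) := by ring
      _ = emb g * (MvPolynomial.C (c l) * Q l) + MvPolynomial.C (c l) * R l := by
          rw [hQR l]
          ring
  · intro e he hmem
    have hne := MvPolynomial.mem_support_iff.mp he
    -- some R l has the monomial e
    rw [MvPolynomial.coeff_sum] at hne
    obtain ⟨l, _, hl⟩ := Finset.exists_ne_zero_of_sum_ne_zero hne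
    rw [MvPolynomial.coeff_C_mul] at hl
    have hRl : (R l).coeff e ≠ 0 := fun h => hl (by rw [h, mul_zero])
    have hes : e ∈ (R l).support := MvPolynomial.mem_support_iff.mpr hRl
    have he0 : e 0 < s := by
      have := (MvPolynomial.degreeOf_le_iff.mp (le_refl (MvPolynomial.degreeOf 0 (R l)))) e hes
      exact lt_of_le_of_lt this (h0 l)
    have he1 : e 1 < τ + kz * μ + 1 := by
      have := (MvPolynomial.degreeOf_le_iff.mp (h1 l)) e hes
      omega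
    have hAe := congrFun hAc (⟨e 0, he0⟩, ⟨e 1, he1⟩, ⟨(e 2, e 3), hmem⟩)
    have hee : Finsupp.single 0 (e 0) + Finsupp.single 1 (e 1) + Finsupp.single 2 (e 2) +
        Finsupp.single 3 (e 3) = e := by
      ext i
      fin_cases i <;> simp
    apply hne
    simp only [Matrix.mulVec, dotProduct, Pi.zero_apply, A] at hAe
    rw [hee] at hAe
    rw [← hAe]
    refine Finset.sum_congr rfl fun l _ => ?_
    rw [MvPolynomial.coeff_C_mul, mul_comm]
  · have hterm : ∀ l ∈ (Finset.univ : Finset ι), Sz B (N ^ 3 + K) (MvPolynomial.C (c l) * R l) := by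
      intro l _
      refine sz_mul (sz_C _ ?_) (hS l)
      have := hcb l
      rw [Int.abs_eq_natAbs] at this
      exact_mod_cast this
    have := sz_sum hB Finset.univ _ hterm
    refine sz_mono hB1 this ?_
    rw [Finset.card_univ]
    omega

end Pool.Agent.H97.XU
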