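import Pool.Agent.H97.XU.SZA

/-! # [H97 XU SZB] Values and orders

`ev z t u w P = ∑_(e ∈ supp) coeff * z^(e 0) t^(e 1) u^(e 2) w^(e 3)` (`MvPolynomial.eval₂_eq'`, `Fin.prod_univ_four`).
`ev_bd`: each monomial is at most `|coeff| A^(totalDegree)`, `L1 P ≤ B^k ≤ A^k`. `ev_ord`: a monomial with `e 2 + e 3 ≥ r` is at
most `|coeff| A^(e 0 + e 1) ρ^(e 2 + e 3) ≤ |coeff| A^k ρ^r`.
`ev_sbs`, `ev_q0`, `ev_emb`: both sides are ring homs (`MvPolynomial.ringHom_ext`, `Polynomial.ringHom_ext'`), or
`MvPolynomial.eval₂_eq'`-type lemmas: `MvPolynomial.eval₂Hom_comp..`, `MvPolynomial.comp_aeval`.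
`Ord`: `MvPolynomial.support_add`, `support_mul` (`Finset.mem_add`), and for `ord_aeval`-type statements the description of
`sbs` by monomials. -/

namespace Pool.Agent.H97.XU

open Finset Polynomial

variable {B k r r' : ℕ} {P Q : U4} {A z t u w ρ : ℝ}

private theorem ev_eq (z t u w : ℝ) (P : U4) :
    ev z t u w P = ∑ e ∈ P.support, ((P.coeff e : ℤ) : ℝ) * (z ^ e 0 * t ^ e 1 * u ^ e 2 * w ^ e 3) := by
  unfold ev
  rw [MvPolynomial.coe_eval₂Hom, MvPolynomial.eval₂_eq']
  refine Finset.sum_congr rfl fun e _ => ?_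
  rw [Fin.prod_univ_four]
  simp

private theorem L1_real (P : U4) : (L1 P : ℝ) = ∑ e ∈ P.support, |((P.coeff e : ℤ) : ℝ)| := by
  unfold L1
  push_cast
  refine Finset.sum_congr rfl fun e _ => ?_
  rw [Nat.cast_natAbs, Int.cast_abs]

private theorem deg_four (P : U4) (e : Fin 4 →₀ ℕ) (he : e ∈ P.support) :
    e 0 + e 1 + e 2 + e 3 ≤ P.totalDegree := by
  have h := MvPolynomial.le_totalDegree he
  rw [Finsupp.sum_fintype _ _ (fun _ => rfl), Fin.sum_univ_four] at h
  exact h

theorem ev_bd (hA : 1 ≤ A) (hB : (B : ℝ) ≤ A) (h : Sz B k P) (hz : |z| ≤ A) (ht : |t| ≤ A)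
    (hu : |u| ≤ A) (hw : |w| ≤ A) : |ev z t u w P| ≤ A ^ (2 * k) := by
  have hA0 : 0 ≤ A := by linarith
  rw [ev_eq]
  calc |∑ e ∈ P.support, ((P.coeff e : ℤ) : ℝ) * (z ^ e 0 * t ^ e 1 * u ^ e 2 * w ^ e 3)|
      ≤ ∑ e ∈ P.support, |((P.coeff e : ℤ) : ℝ) * (z ^ e 0 * t ^ e 1 * u ^ e 2 * w ^ e 3)| :=
        Finset.abs_sum_le_sum_abs _ _
    _ ≤ ∑ e ∈ P.support, |((P.coeff e : ℤ) : ℝ)| * A ^ k := by
        refine Finset.sum_le_sum fun e he => ?_
        rw [abs_mul]
        apply mul_le_mul_of_nonneg_left _ (abs_nonneg _)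
        rw [abs_mul, abs_mul, abs_mul, abs_pow, abs_pow, abs_pow, abs_pow]
        calc |z| ^ e 0 * |t| ^ e 1 * |u| ^ e 2 * |w| ^ e 3 ≤ A ^ e 0 * A ^ e 1 * A ^ e 2 * A ^ e 3 := by
              gcongr
          _ = A ^ (e 0 + e 1 + e 2 + e 3) := by rw [pow_add, pow_add, pow_add]
          _ ≤ A ^ k := pow_le_pow_right₀ hA ((deg_four P e he).trans h.1)
    _ = (L1 P : ℝ) * A ^ k := by rw [← Finset.sum_mul, L1_real]
    _ ≤ A ^ k * A ^ k := by
        apply mul_le_mul_of_nonneg_right _ (by positivity)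
        calc (L1 P : ℝ) ≤ (B : ℝ) ^ k := by exact_mod_cast h.2
          _ ≤ A ^ k := pow_le_pow_left₀ (Nat.cast_nonneg B) hB k
    _ = A ^ (2 * k) := by rw [← pow_add, two_mul]

theorem ev_ord (hA : 1 ≤ A) (hB : (B : ℝ) ≤ A) (h : Sz B k P) (hz : |z| ≤ A) (ht : |t| ≤ A)
    (hρ : ρ ≤ 1) (hu : |u| ≤ ρ) (hw : |w| ≤ ρ) (ho : Ord r P) :
    |ev z t u w P| ≤ A ^ (2 * k) * ρ ^ r := by
  have hA0 : 0 ≤ A := by linarith
  have hρ0 : 0 ≤ ρ := (abs_nonneg u).trans hu
  rw [ev_eq]
  calc |∑ e ∈ P.support, ((P.coeff e : ℤ) : ℝ) * (z ^ e 0 * t ^ e 1 * u ^ e 2 * w ^ e 3)|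
      ≤ ∑ e ∈ P.support, |((P.coeff e : ℤ) : ℝ) * (z ^ e 0 * t ^ e 1 * u ^ e 2 * w ^ e 3)| :=
        Finset.abs_sum_le_sum_abs _ _
    _ ≤ ∑ e ∈ P.support, |((P.coeff e : ℤ) : ℝ)| * (A ^ k * ρ ^ r) := by
        refine Finset.sum_le_sum fun e he => ?_
        rw [abs_mul]
        apply mul_le_mul_of_nonneg_left _ (abs_nonneg _)
        rw [abs_mul, abs_mul, abs_mul, abs_pow, abs_pow, abs_pow, abs_pow]
        calc |z| ^ e 0 * |t| ^ e 1 * |u| ^ e 2 * |w| ^ e 3 ≤ A ^ e 0 * A ^ e 1 * ρ ^ e 2 * ρ ^ e 3 := by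
              gcongr
          _ = A ^ (e 0 + e 1) * ρ ^ (e 2 + e 3) := by rw [pow_add, pow_add]; ring
          _ ≤ A ^ k * ρ ^ r := by
              have h1 := deg_four P e he
              have h2 := h.1
              apply mul_le_mul (pow_le_pow_right₀ hA (by omega))
                (pow_le_pow_of_le_one hρ0 hρ (ho e he)) (by positivity) (by positivity)
    _ = (L1 P : ℝ) * (A ^ k * ρ ^ r) := by rw [← Finset.sum_mul, L1_real]
    _ ≤ A ^ k * (A ^ k * ρ ^ r) := by
        apply mul_le_mul_of_nonneg_right _ (by positivity)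
        calc (L1 P : ℝ) ≤ (B : ℝ) ^ k := by exact_mod_cast h.2
          _ ≤ A ^ k := pow_le_pow_left₀ (Nat.cast_nonneg B) hB k
    _ = A ^ (2 * k) * ρ ^ r := by rw [two_mul, pow_add]; ring

private theorem ev_C (c : ℤ) : ev z t u w (MvPolynomial.C c) = c := by
  unfold ev
  simp

private theorem ev_X (i : Fin 4) : ev z t u w (MvPolynomial.X i) = (![z, t, u, w] : Fin 4 → ℝ) i := by
  unfold ev
  simp

private theorem ev_aeval (R : Fin 4 → U4) (P : U4) :
    ev z t u w (MvPolynomial.aeval R P) =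
      MvPolynomial.eval₂Hom (Int.castRingHom ℝ) (fun i => ev z t u w (R i)) P := by
  induction P using MvPolynomial.induction_on with
  | C c => simp
  | add p q hp hq => rw [map_add, map_add, map_add, hp, hq]
  | mul_X p i hp => rw [map_mul, map_mul, map_mul, hp, MvPolynomial.aeval_X]; simp

theorem ev_sbs (D η : U4) : ev z t u w (sbs D η P) =
    ev (z + ev z t u w D * ev z t u w η) t ((ev z t u w D) ^ 2 * u) ((ev z t u w D) ^ 2 * w) P := by
  unfold sbs
  rw [ev_aeval]
  show _ = MvPolynomial.eval₂Hom (Int.castRingHom ℝ)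
    ![z + ev z t u w D * ev z t u w η, t, (ev z t u w D) ^ 2 * u, (ev z t u w D) ^ 2 * w] P
  congr 2
  funext i
  fin_cases i
  · simp [ev_X]
  · simp [ev_X]
  · simp [ev_X]
  · simp [ev_X]

theorem ev_q0 : ev z t u w (q0 P) = ev z t 0 0 P := by
  unfold q0
  rw [ev_aeval]
  show _ = MvPolynomial.eval₂Hom (Int.castRingHom ℝ) ![z, t, 0, 0] P
  congr 2
  funext i
  fin_cases i
  · simp [ev_X]
  · simp [ev_X]
  · simp
  · simp

/-- `q0 P` does not contain `u, w` -/
theorem ev_q0' : ev z t u w (q0 P) = ev z t 0 0 (q0 P) := by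
  rw [ev_q0, ev_q0]

private theorem q0_mul (P Q : U4) : q0 (P * Q) = q0 P * q0 Q := by
  unfold q0
  rw [map_mul]

private theorem q0_add (P Q : U4) : q0 (P + Q) = q0 P + q0 Q := by
  unfold q0
  rw [map_add]

private theorem q0_C (c : ℤ) : q0 (MvPolynomial.C c) = MvPolynomial.C c := by
  unfold q0
  simp

private theorem pderiv_q0 (P : U4) : MvPolynomial.pderiv 0 (q0 P) = q0 (MvPolynomial.pderiv 0 P) := by
  induction P using MvPolynomial.induction_on with
  | C c =>
    rw [q0_C, MvPolynomial.pderiv_C]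
    unfold q0
    simp
  | add p q hp hq => rw [q0_add, map_add, map_add, q0_add, hp, hq]
  | mul_X p i hp =>
    rw [q0_mul, MvPolynomial.pderiv_mul, hp, MvPolynomial.pderiv_mul, q0_add, q0_mul, q0_mul]
    congr 2
    fin_cases i
    · simp [q0]
    · simp [q0, MvPolynomial.pderiv_X]
    · simp [q0, MvPolynomial.pderiv_X]
    · simp [q0, MvPolynomial.pderiv_X]

theorem ev_dq' : ev z t u w (dq P) = ev z t 0 0 (dq P) := by
  unfold dq
  rw [pderiv_q0, ev_q0']

theorem ev_emb (p : ℤ[X][X]) :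
    ev z t u w (emb p) = eval₂ (eval₂RingHom (Int.castRingHom ℝ) t) z p := by
  have h : (ev z t u w).comp emb = eval₂RingHom (eval₂RingHom (Int.castRingHom ℝ) t) z := by
    apply Polynomial.ringHom_ext'
    · apply Polynomial.ringHom_ext'
      · apply RingHom.ext_int
      · simp [emb, ev_X]
    · simp [emb, ev_X]
  exact RingHom.congr_fun h p

theorem emb_C_C (c : ℤ) : emb (C (C c)) = MvPolynomial.C c := by
  unfold emb
  simp

private theorem pderiv_inner (a : ℤ[X]) : MvPolynomial.pderiv 0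
    (eval₂RingHom (Int.castRingHom U4) (MvPolynomial.X 1) a) = 0 := by
  induction a using Polynomial.induction_on' with
  | add p q hp hq => rw [map_add, map_add, hp, hq, add_zero]
  | monomial n c =>
    rw [coe_eval₂RingHom, eval₂_monomial, MvPolynomial.pderiv_mul]
    simp [MvPolynomial.pderiv_X]

theorem emb_pderiv (p : ℤ[X][X]) : MvPolynomial.pderiv 0 (emb p) = emb (derivative p) := by
  induction p using Polynomial.induction_on' with
  | add p q hp hq => rw [map_add, map_add, hp, hq, derivative_add, map_add]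
  | monomial n a =>
    rw [derivative_monomial]
    unfold emb
    rw [coe_eval₂RingHom, eval₂_monomial, eval₂_monomial, MvPolynomial.pderiv_mul, pderiv_inner,
      map_mul, map_natCast]
    simp only [zero_mul, zero_add]
    rw [MvPolynomial.pderiv_pow, MvPolynomial.pderiv_X_self]
    ring

theorem q0_emb (p : ℤ[X][X]) : q0 (emb p) = emb p := by
  have h : ((MvPolynomial.aeval ![(MvPolynomial.X 0 : U4), MvPolynomial.X 1, 0, 0]).toRingHom).comp
      emb = emb := by
    apply Polynomial.ringHom_ext'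
    · apply Polynomial.ringHom_ext'
      · apply RingHom.ext_int
      · simp [emb]
    · simp [emb]
  exact RingHom.congr_fun h p

/-- the size of `emb p` -/
theorem sz_emb {d e : ℕ} (hB : 2 ≤ B) {p : ℤ[X][X]} (h1 : p.natDegree ≤ d)
    (h2 : ∀ i, (p.coeff i).natDegree ≤ e) (h3 : ∀ i j, |(p.coeff i).coeff j| ≤ (B : ℤ) ^ k) :
    Sz B (k + d + e) (emb p) := by
  have hp : emb p = ∑ i ∈ Finset.range (d + 1), ∑ j ∈ Finset.range (e + 1),
      MvPolynomial.C ((p.coeff i).coeff j) * MvPolynomial.X 1 ^ j * MvPolynomial.X 0 ^ i := by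
    unfold emb
    rw [coe_eval₂RingHom, eval₂_eq_sum_range' _ (Nat.lt_succ_of_le h1)]
    refine Finset.sum_congr rfl fun i _ => ?_
    rw [coe_eval₂RingHom, eval₂_eq_sum_range' _ (Nat.lt_succ_of_le (h2 i)), Finset.sum_mul]
    refine Finset.sum_congr rfl fun j _ => ?_
    rfl
  rw [hp]
  constructor
  · apply MvPolynomial.totalDegree_finsetSum_le
    intro i hi
    apply MvPolynomial.totalDegree_finsetSum_le
    intro j hj
    rw [Finset.mem_range] at hi hj
    refine (MvPolynomial.totalDegree_mul _ _).trans ?_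
    have a1 := MvPolynomial.totalDegree_mul (MvPolynomial.C ((p.coeff i).coeff j) : U4) (MvPolynomial.X 1 ^ j)
    have a2 : (MvPolynomial.C ((p.coeff i).coeff j) : U4).totalDegree = 0 := MvPolynomial.totalDegree_C _
    have a3 : (MvPolynomial.X 1 ^ j : U4).totalDegree ≤ j := by
      rw [MvPolynomial.totalDegree_X_pow]
    have a4 : (MvPolynomial.X 0 ^ i : U4).totalDegree ≤ i := by
      rw [MvPolynomial.totalDegree_X_pow]
    omega
  · have hterm : ∀ i ∈ Finset.range (d + 1), ∀ j ∈ Finset.range (e + 1),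
        L1 (MvPolynomial.C ((p.coeff i).coeff j) * MvPolynomial.X 1 ^ j * MvPolynomial.X 0 ^ i : U4) ≤
          B ^ k := by
      intro i _ j _
      have a1 : L1 (MvPolynomial.X 1 ^ j : U4) ≤ 1 := by
        refine (L1_pow _ j).trans ?_
        rw [L1_X, one_pow]
      have a2 : L1 (MvPolynomial.X 0 ^ i : U4) ≤ 1 := by
        refine (L1_pow _ i).trans ?_
        rw [L1_X, one_pow]
      have a3 : ((p.coeff i).coeff j).natAbs ≤ B ^ k := by
        have := h3 i j
        zify
        exact this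
      calc L1 (MvPolynomial.C ((p.coeff i).coeff j) * MvPolynomial.X 1 ^ j * MvPolynomial.X 0 ^ i : U4)
          ≤ L1 (MvPolynomial.C ((p.coeff i).coeff j) * MvPolynomial.X 1 ^ j : U4) *
            L1 (MvPolynomial.X 0 ^ i : U4) := L1_mul _ _
        _ ≤ (L1 (MvPolynomial.C ((p.coeff i).coeff j) : U4) * L1 (MvPolynomial.X 1 ^ j : U4)) *
            L1 (MvPolynomial.X 0 ^ i : U4) := Nat.mul_le_mul_right _ (L1_mul _ _)
        _ ≤ (B ^ k * 1) * 1 := by
            rw [L1_C]
            exact Nat.mul_le_mul (Nat.mul_le_mul a3 a1) a2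
        _ = B ^ k := by ring
    refine (L1_sum _ _).trans ?_
    calc ∑ i ∈ Finset.range (d + 1), L1 (∑ j ∈ Finset.range (e + 1),
          MvPolynomial.C ((p.coeff i).coeff j) * MvPolynomial.X 1 ^ j * MvPolynomial.X 0 ^ i : U4)
        ≤ ∑ i ∈ Finset.range (d + 1), ∑ j ∈ Finset.range (e + 1), B ^ k :=
          Finset.sum_le_sum fun i hi => (L1_sum _ _).trans (Finset.sum_le_sum fun j hj => hterm i hi j hj)
      _ = (d + 1) * ((e + 1) * B ^ k) := by
          rw [Finset.sum_const, Finset.sum_const, Finset.card_range, Finset.card_range, smul_eq_mul,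
            smul_eq_mul]
      _ ≤ B ^ d * (B ^ e * B ^ k) := by
          have b1 : ∀ n : ℕ, n + 1 ≤ B ^ n := fun n =>
            (Nat.lt_two_pow_self (n := n)).trans_le (Nat.pow_le_pow_left hB n)
          exact Nat.mul_le_mul (b1 d) (Nat.mul_le_mul_right _ (b1 e))
      _ = B ^ (k + d + e) := by rw [pow_add, pow_add]; ring

/-- the derivative in `Z` -/
theorem ev_deriv (z t u w : ℝ) (P : U4) :
    HasDerivAt (fun z => ev z t u w P) (ev z t u w (MvPolynomial.pderiv 0 P)) z := by
  induction P using MvPolynomial.induction_on with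
  | C c =>
    rw [MvPolynomial.pderiv_C, map_zero]
    simp only [ev_C]
    exact hasDerivAt_const z _
  | add p q hp hq =>
    simp only [map_add]
    exact hp.add hq
  | mul_X p i hp =>
    have hX : HasDerivAt (fun z => ev z t u w (MvPolynomial.X i))
        (ev z t u w (MvPolynomial.pderiv 0 (MvPolynomial.X i))) z := by
      simp only [ev_X]
      fin_cases i
      · simpa using hasDerivAt_id' z
      · simpa [MvPolynomial.pderiv_X] using hasDerivAt_const z t
      · simpa [MvPolynomial.pderiv_X] using hasDerivAt_const z u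
      · simpa [MvPolynomial.pderiv_X] using hasDerivAt_const z w
    have h := hp.mul hX
    rw [MvPolynomial.pderiv_mul]
    simp only [map_mul, map_add]
    exact h

theorem ord_mono (h : Ord r P) (hr : r' ≤ r) : Ord r' P := fun e he => hr.trans (h e he)

theorem ord_add (h : Ord r P) (h' : Ord r Q) : Ord r (P + Q) := by
  classical
  intro e he
  rcases Finset.mem_union.mp (MvPolynomial.support_add he) with h1 | h1
  · exact h e h1
  · exact h' e h1

theorem ord_neg (h : Ord r P) : Ord r (-P) := by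
  intro e he
  rw [MvPolynomial.support_neg] at he
  exact h e he

theorem ord_mul (h : Ord r P) (h' : Ord r' Q) : Ord (r + r') (P * Q) := by
  classical
  intro e he
  have h1 := MvPolynomial.support_mul P Q he
  rw [Finset.mem_add] at h1
  obtain ⟨a, ha, b, hb, rfl⟩ := h1
  have h2 := h a ha
  have h3 := h' b hb
  simp only [Finsupp.add_apply]
  omega

/-- substitution of zeros for the variables in `S` -/
private noncomputable def kill (S : Finset (Fin 4)) : U4 →ₐ[ℤ] U4 :=
  MvPolynomial.aeval fun j => if j ∈ S then (0 : U4) else MvPolynomial.X j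

private theorem kill_monomial (S : Finset (Fin 4)) (e : Fin 4 →₀ ℕ) (c : ℤ) :
    kill S (MvPolynomial.monomial e c) =
      if ∀ j ∈ S, e j = 0 then MvPolynomial.monomial e c else 0 := by
  unfold kill
  rw [MvPolynomial.aeval_monomial, Finsupp.prod_fintype _ _ (fun _ => pow_zero _)]
  split_ifs with h
  · rw [MvPolynomial.monomial_eq, Finsupp.prod_fintype _ _ (fun _ => pow_zero _)]
    congr 1
    refine Finset.prod_congr rfl fun j _ => ?_
    by_cases hj : j ∈ S
    · rw [h j hj, pow_zero, pow_zero]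
    · rw [if_neg hj]
  · push Not at h
    obtain ⟨j, hj, hj0⟩ := h
    rw [Finset.prod_eq_zero (Finset.mem_univ j), mul_zero]
    rw [if_pos hj, zero_pow hj0]

private theorem kill_eq (S : Finset (Fin 4)) (P : U4) :
    kill S P = ∑ e ∈ P.support.filter (fun e => ∀ j ∈ S, e j = 0),
      MvPolynomial.monomial e (P.coeff e) := by
  conv_lhs => rw [MvPolynomial.as_sum P]
  rw [map_sum, Finset.sum_filter]
  exact Finset.sum_congr rfl fun e _ => kill_monomial S e _

private theorem coeff_kill (S : Finset (Fin 4)) (P : U4) (e : Fin 4 →₀ ℕ) :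
    (kill S P).coeff e = if ∀ j ∈ S, e j = 0 then P.coeff e else 0 := by
  classical
  rw [kill_eq, MvPolynomial.coeff_sum]
  simp only [MvPolynomial.coeff_monomial]
  rw [Finset.sum_ite_eq']
  by_cases h : ∀ j ∈ S, e j = 0
  · rw [if_pos h]
    split_ifs with h2
    · rfl
    · rw [Finset.mem_filter, not_and] at h2
      by_contra h3
      exact h2 (MvPolynomial.mem_support_iff.mpr (Ne.symm h3)) h
  · rw [if_neg h, if_neg]
    rw [Finset.mem_filter]
    exact fun h2 => h h2.2

private theorem support_kill (S : Finset (Fin 4)) (P : U4) : (kill S P).support ⊆ P.support := by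
  intro e he
  rw [MvPolynomial.mem_support_iff] at he ⊢
  rw [coeff_kill] at he
  split_ifs at he with h
  · exact he
  · exact absurd rfl he

private theorem q0_eq_kill (P : U4) : q0 P = kill {2, 3} P := by
  unfold q0 kill
  congr 2
  funext j
  fin_cases j <;> simp

theorem ord_sub_q0 (P : U4) : Ord 1 (P - q0 P) := by
  intro e he
  rw [MvPolynomial.mem_support_iff, MvPolynomial.coeff_sub, q0_eq_kill, coeff_kill] at he
  by_contra hlt
  have h2 : e 2 = 0 := by omega
  have h3 : e 3 = 0 := by omega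
  rw [if_pos, sub_self] at he
  · exact he rfl
  · intro j hj
    rw [Finset.mem_insert, Finset.mem_singleton] at hj
    rcases hj with rfl | rfl
    · exact h2
    · exact h3

/-- monomials kept by a substitution of zeros: the size of `P - q0 P` -/
theorem sz_sub_q0 (h : Sz B k P) : Sz B k (P - q0 P) := by
  classical
  have hco : ∀ e, (P - q0 P).coeff e = if ∀ j ∈ ({2, 3} : Finset (Fin 4)), e j = 0 then 0 else P.coeff e := by
    intro e
    rw [MvPolynomial.coeff_sub, q0_eq_kill, coeff_kill]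
    split_ifs <;> simp
  have hsub : (P - q0 P).support ⊆ P.support := by
    intro e he
    rw [MvPolynomial.mem_support_iff] at he ⊢
    rw [hco] at he
    split_ifs at he with h1
    · exact absurd rfl he
    · exact he
  constructor
  · apply Finset.sup_le
    intro e he
    exact (MvPolynomial.le_totalDegree (hsub he)).trans h.1
  · refine le_trans ?_ h.2
    rw [L1_eq _ hsub]
    unfold L1
    refine Finset.sum_le_sum fun e _ => ?_
    rw [hco]
    split_ifs
    · simp
    · exact le_refl _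

/-- `t ↦ 0` -/
theorem ord_t0 (h : Ord r P) : Ord r (MvPolynomial.aeval ![(MvPolynomial.X 0 : U4), 0,
    MvPolynomial.X 2, MvPolynomial.X 3] P) := by
  have h1 : MvPolynomial.aeval ![(MvPolynomial.X 0 : U4), 0, MvPolynomial.X 2, MvPolynomial.X 3] P =
      kill {1} P := by
    unfold kill
    congr 2
    funext j
    fin_cases j <;> simp
  rw [h1]
  exact fun e he => h e (support_kill {1} P he)

/-- `u ↦ 0` -/
theorem ord_u0 (h : Ord r P) : Ord r (MvPolynomial.aeval ![(MvPolynomial.X 0 : U4),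
    MvPolynomial.X 1, 0, MvPolynomial.X 3] P) := by
  have h1 : MvPolynomial.aeval ![(MvPolynomial.X 0 : U4), MvPolynomial.X 1, 0, MvPolynomial.X 3] P =
      kill {2} P := by
    unfold kill
    congr 2
    funext j
    fin_cases j <;> simp
  rw [h1]
  exact fun e he => h e (support_kill {2} P he)

end Pool.Agent.H97.XU
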