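import Pool.Agent.H4.SX.TRC

/-! # [H97 XU TRV] The parameters of the windows, explicit

`exists_V` of `Pool/Agent/H4/SX/TRC.lean` for `s0 = (n - 1)/2`; for `2 s < n`: `s ≤ s0` and `s * card ≤ s0 * card`. -/

namespace Pool.Agent.H97.XU

open Finset Polynomial Pool.Agent.H98.TE Pool.Agent.H4.SX

/-- the parameter `V` -/
def VW (n Q j : ℕ) : ℕ :=
  ((n - 1) / 2) * (2 * (2 * j + 1) * (2 * Q + j) + (2 * Q + j) ^ 2) + 2 * j ^ 2 * n * (n - 1) + n

private theorem trv_V (n s Q j : ℕ) (hs : 2 * s < n) (hQ : 1 ≤ Q) (hj : n ≤ j) :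
    ∃ V : ℕ, V = s * (2 * (2 * j + 1) * (2 * Q + j) + (2 * Q + j) ^ 2) + 2 * j ^ 2 * n * (n - 1) + n ∧
      1 ≤ V ∧ n ≤ Q * V ∧
      s * (tri Q j (Q * ((2 * j + 1) * V + 1))).card < (j * V) * QQ n (Q * V) := by
  obtain ⟨E, hE⟩ : ∃ E, E = 2 * Q + j := ⟨_, rfl⟩
  obtain ⟨W, hW⟩ : ∃ W, W = s * (2 * (2 * j + 1) * E + E ^ 2) + 2 * j ^ 2 * n * (n - 1) :=
    ⟨_, rfl⟩
  refine ⟨W + n, by rw [hW, hE], by omega, ?_, ?_⟩
  · nlinarith [Nat.zero_le W]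
  · obtain ⟨V, hV⟩ : ∃ V, V = W + n := ⟨_, rfl⟩
    rw [← hV]
    have hVn : n ≤ V := by omega
    have hQV : V ≤ Q * V := Nat.le_mul_of_pos_left V (by omega)
    have h1 := tri_card Q j (Q * ((2 * j + 1) * V + 1)) hQ (by omega)
    have h2 : n * (Q * V + 1 - n) ≤ QQ n (Q * V) := by
      unfold QQ
      calc n * (Q * V + 1 - n) = ∑ _k : Fin n, (Q * V + 1 - n) := by
            rw [Finset.sum_const, Finset.card_univ, Fintype.card_fin, smul_eq_mul]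
        _ ≤ _ := Finset.sum_le_sum fun k _ => by
            have := k.2
            omega
    have h3 : ((n * (Q * V + 1 - n) : ℕ) : ℤ) = n * ((Q : ℤ) * V + 1 - n) := by
      rw [Nat.cast_mul, Nat.cast_sub (by omega)]
      push_cast
      ring
    have h2' : (n : ℤ) * ((Q : ℤ) * V + 1 - n) ≤ (QQ n (Q * V) : ℤ) := by
      rw [← h3]
      exact_mod_cast h2
    have h1' : (2 : ℤ) * Q * j * ((tri Q j (Q * ((2 * j + 1) * V + 1))).card : ℤ) ≤
        ((2 * j + 1) * (Q * V) + E) ^ 2 := by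
      have h4 : ((2 * Q * j * (tri Q j (Q * ((2 * j + 1) * V + 1))).card : ℕ) : ℤ) ≤
          (((Q * ((2 * j + 1) * V + 1) + Q + j) ^ 2 : ℕ) : ℤ) := by exact_mod_cast h1
      have h5 : (((Q * ((2 * j + 1) * V + 1) + Q + j) ^ 2 : ℕ) : ℤ) =
          ((2 * (j : ℤ) + 1) * (Q * V) + E) ^ 2 := by
        rw [hE]
        push_cast
        ring
      rw [h5] at h4
      push_cast at h4
      exact h4
    -- integers
    have hn1 : (1 : ℤ) ≤ n := by exact_mod_cast (by omega : 1 ≤ n)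
    have hs0 : (0 : ℤ) ≤ s := Int.natCast_nonneg s
    have hs' : 2 * (s : ℤ) ≤ n - 1 := by
      have : 2 * s + 1 ≤ n := hs
      have h6 : (2 * (s : ℤ) + 1) ≤ n := by exact_mod_cast this
      linarith
    have hj' : (n : ℤ) ≤ j := by exact_mod_cast hj
    have hW' : (W : ℤ) = s * (2 * (2 * (j : ℤ) + 1) * E + (E : ℤ) ^ 2) +
        2 * (j : ℤ) ^ 2 * n * (n - 1) := by
      rw [hW]
      push_cast [Nat.cast_sub (by omega : 1 ≤ n)]
      ring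
    have hX : (W : ℤ) + n ≤ (Q : ℤ) * V := by
      have : W + n ≤ Q * V := by omega
      exact_mod_cast this
    have hE0 : (0 : ℤ) ≤ E := Int.natCast_nonneg E
    have hQ' : (1 : ℤ) ≤ Q := by exact_mod_cast hQ
    have hbr : (s : ℤ) * (2 * j + 1) ^ 2 + 1 ≤ 2 * n * (j : ℤ) ^ 2 := by
      have h7 : 2 * (s : ℤ) * (2 * j + 1) ^ 2 ≤ (n - 1) * (2 * (j : ℤ) + 1) ^ 2 :=
        mul_le_mul_of_nonneg_right hs' (sq_nonneg _)
      have h8 : ((n : ℤ) - 1) * (4 * j + 1) ≤ (j - 1) * (4 * j + 1) :=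
        mul_le_mul_of_nonneg_right (by linarith) (by linarith)
      nlinarith
    have hW0 : (0 : ℤ) ≤ W := Int.natCast_nonneg W
    obtain ⟨X, hXd⟩ : ∃ X : ℤ, X = (Q : ℤ) * V := ⟨_, rfl⟩
    rw [← hXd] at hX h1' h2'
    have hX1 : 1 ≤ X := by linarith
    have hmain : (s : ℤ) * ((2 * j + 1) * X + E) ^ 2 < 2 * (j : ℤ) ^ 2 * X * (n * (X + 1 - n)) := by
      have h9 : 0 ≤ X ^ 2 * (2 * n * (j : ℤ) ^ 2 - s * (2 * j + 1) ^ 2 - 1) :=
        mul_nonneg (sq_nonneg _) (by linarith)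
      have h10 : 0 ≤ (s : ℤ) * (E : ℤ) ^ 2 * (X - 1) :=
        mul_nonneg (mul_nonneg hs0 (sq_nonneg _)) (by linarith)
      have h11 : 0 < X * (X - W) := mul_pos (by linarith) (by linarith)
      have h12 : (s : ℤ) * ((2 * j + 1) * X + E) ^ 2 = 2 * (j : ℤ) ^ 2 * X * (n * (X + 1 - n)) -
          X ^ 2 * (2 * n * (j : ℤ) ^ 2 - s * (2 * j + 1) ^ 2 - 1) -
          (s : ℤ) * (E : ℤ) ^ 2 * (X - 1) - X * (X - W) := by
        rw [hW']
        ring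
      linarith
    have hfin : (2 * (Q : ℤ) * j) * (s * ((tri Q j (Q * ((2 * j + 1) * V + 1))).card : ℤ)) <
        (2 * (Q : ℤ) * j) * ((j * V) * (QQ n (Q * V) : ℤ)) := by
      have h13 := mul_le_mul_of_nonneg_left h1' hs0
      have h14 : 0 ≤ 2 * (j : ℤ) ^ 2 * X := by positivity
      have h15 := mul_le_mul_of_nonneg_left h2' h14
      have h16 : (2 * (Q : ℤ) * j) * ((j * V) * (QQ n (Q * V) : ℤ)) =
          2 * (j : ℤ) ^ 2 * X * (QQ n (Q * V) : ℤ) := by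
        rw [hXd]
        ring
      rw [h16]
      calc (2 * (Q : ℤ) * j) * (s * ((tri Q j (Q * ((2 * j + 1) * V + 1))).card : ℤ)) =
          s * (2 * (Q : ℤ) * j * ((tri Q j (Q * ((2 * j + 1) * V + 1))).card : ℤ)) := by ring
        _ ≤ _ := h13
        _ < _ := hmain
        _ ≤ _ := h15
    have hpos : (0 : ℤ) < 2 * (Q : ℤ) * j := by
      have : (1 : ℤ) ≤ j := by linarith
      positivity
    have := lt_of_mul_lt_mul_left hfin hpos.le
    exact_mod_cast this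

theorem VW_spec (n s Q j : ℕ) (hs : 2 * s < n) (hQ : 1 ≤ Q) (hj : n ≤ j) :
    1 ≤ VW n Q j ∧ n ≤ Q * VW n Q j ∧
      s * (tri Q j (Q * ((2 * j + 1) * VW n Q j + 1))).card <
        (j * VW n Q j) * QQ n (Q * VW n Q j) := by
  have hn : 1 ≤ n := by omega
  have hs0 : 2 * ((n - 1) / 2) < n := by omega
  obtain ⟨V, hV, h1, h2, h3⟩ := trv_V n ((n - 1) / 2) Q j hs0 hQ hj
  have e : VW n Q j = V := by
    rw [hV]
    rfl
  rw [e]
  refine ⟨h1, h2, lt_of_le_of_lt ?_ h3⟩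
  exact Nat.mul_le_mul_right _ (by omega)

theorem VW_le {n Q j T : ℕ} (hn : 3 ≤ n) (hQ : 1 ≤ Q) (hj : n ≤ j) (hT : n + Q + j + 3 ≤ T) :
    VW n Q j ≤ T ^ 5 := by
  have hT10 : 10 ≤ T := by omega
  have hj' : j + 3 ≤ T := by omega
  have hQ' : Q ≤ T := by omega
  have hn' : n ≤ T := by omega
  have a1 : 2 * Q + j ≤ 2 * T := by omega
  have a2 : 2 * j + 1 ≤ 2 * T := by omega
  have a3 : 2 * (2 * j + 1) * (2 * Q + j) ≤ 2 * (2 * T) * (2 * T) :=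
    Nat.mul_le_mul (Nat.mul_le_mul_left 2 a2) a1
  have a4 : (2 * Q + j) ^ 2 ≤ (2 * T) ^ 2 := Nat.pow_le_pow_left a1 2
  have a5 : (n - 1) / 2 ≤ T := by omega
  have a6 : ((n - 1) / 2) * (2 * (2 * j + 1) * (2 * Q + j) + (2 * Q + j) ^ 2) ≤
      T * (2 * (2 * T) * (2 * T) + (2 * T) ^ 2) := Nat.mul_le_mul a5 (Nat.add_le_add a3 a4)
  have a7 : 2 * j ^ 2 * n * (n - 1) ≤ 2 * T ^ 2 * T * T :=
    Nat.mul_le_mul (Nat.mul_le_mul (Nat.mul_le_mul_left 2 (Nat.pow_le_pow_left (by omega) 2)) hn')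
      (by omega)
  unfold VW
  calc _ ≤ T * (2 * (2 * T) * (2 * T) + (2 * T) ^ 2) + 2 * T ^ 2 * T * T + T :=
        Nat.add_le_add (Nat.add_le_add a6 a7) hn'
    _ = 12 * T ^ 3 + 2 * T ^ 4 + T := by ring
    _ ≤ T ^ 5 := by
        have b1 : T ^ 4 = T ^ 3 * T := by ring
        have b2 : T ^ 5 = T ^ 4 * T := by ring
        have b3 : 10 * T ^ 3 ≤ T ^ 4 := by rw [b1, mul_comm]; exact Nat.mul_le_mul_left _ hT10
        have b4 : 10 * T ^ 4 ≤ T ^ 5 := by rw [b2, mul_comm]; exact Nat.mul_le_mul_left _ hT10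
        have b5 : T ≤ T ^ 3 := Nat.le_self_pow (by norm_num) T
        omega

/-- the sizes of the parameters -/
theorem par_le {n Q j T : ℕ} (hn : 3 ≤ n) (hQ : 1 ≤ Q) (hj : n ≤ j) (hT : n + Q + j + 3 ≤ T) :
    j * VW n Q j ≤ T ^ 6 ∧ Q * VW n Q j ≤ T ^ 6 ∧ Q * ((2 * j + 1) * VW n Q j + 1) ≤ T ^ 8 ∧
      (j * VW n Q j) * QQ n (Q * VW n Q j) ≤ T ^ 14 := by
  have hT10 : 10 ≤ T := by omega
  have hV := VW_le hn hQ hj hT
  obtain ⟨V, hVe⟩ : ∃ V, V = VW n Q j := ⟨_, rfl⟩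
  rw [← hVe] at hV ⊢
  have hj' : j ≤ T := by omega
  have hQ' : Q ≤ T := by omega
  have hn' : n ≤ T := by omega
  have p1 : j * V ≤ T ^ 6 := by
    calc j * V ≤ T * T ^ 5 := Nat.mul_le_mul hj' hV
      _ = T ^ 6 := by ring
  have p2 : Q * V ≤ T ^ 6 := by
    calc Q * V ≤ T * T ^ 5 := Nat.mul_le_mul hQ' hV
      _ = T ^ 6 := by ring
  refine ⟨p1, p2, ?_, ?_⟩
  · have a2 : 2 * j + 1 ≤ 2 * T := by omega
    calc Q * ((2 * j + 1) * V + 1) ≤ T * ((2 * T) * T ^ 5 + 1) :=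
          Nat.mul_le_mul hQ' (Nat.add_le_add_right (Nat.mul_le_mul a2 hV) 1)
      _ = 2 * T ^ 7 + T := by ring
      _ ≤ T ^ 8 := by
          have b1 : T ^ 8 = T ^ 7 * T := by ring
          have b2 : 10 * T ^ 7 ≤ T ^ 8 := by rw [b1, mul_comm]; exact Nat.mul_le_mul_left _ hT10
          have b3 : T ≤ T ^ 7 := Nat.le_self_pow (by norm_num) T
          omega
  · have h2 : QQ n (Q * V) ≤ n * (Q * V + 1) := by
      unfold QQ
      calc _ ≤ ∑ _k : Fin n, (Q * V + 1) := Finset.sum_le_sum fun k _ => Nat.sub_le _ _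
        _ = n * (Q * V + 1) := by
            rw [Finset.sum_const, Finset.card_univ, Fintype.card_fin, smul_eq_mul]
    calc (j * V) * QQ n (Q * V) ≤ T ^ 6 * (T * (T ^ 6 + 1)) :=
          Nat.mul_le_mul p1 (h2.trans (Nat.mul_le_mul hn' (Nat.add_le_add_right p2 1)))
      _ = T ^ 13 + T ^ 7 := by ring
      _ ≤ T ^ 14 := by
          have b1 : T ^ 14 = T ^ 13 * T := by ring
          have b2 : 10 * T ^ 13 ≤ T ^ 14 := by rw [b1, mul_comm]; exact Nat.mul_le_mul_left _ hT10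
          have b3 : T ^ 7 ≤ T ^ 13 := Nat.pow_le_pow_right (by omega) (by norm_num)
          omega

end Pool.Agent.H97.XU
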