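import Pool.Agent.H97.XU.WIA
import Pool.Agent.H97.XU.NWT
import Pool.Agent.H97.XU.NRB
import Pool.Agent.H4.SX.EST

/-! # [H97 XU WIE] The auxiliary polynomial of a window

`P = PW n m F` (`Sz B (2n+m+1)`, `2n+m+3 ≤ T`), `L = Q ((2j+1) V + 1) ≤ T^8` (`par_le`; `L = Q I + (j+1) M + Q`). `newton` with `N = L`: sizes
`(2n+m+3)^8 (L+2) ≤ T^17`; apply `t ↦ 0` to the identity (`PW_t0`, `q0_PW`: `dq P` does not contain `t` either; `sz_rename`, `ord_t0`): `η, E` without `t`.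
`win_alg`: `c, R, lam`. `G = relG c` (`relG_ne`, `relG_TD` with `I + M + n ≤ T^7`, `relG_deg`, `relG_coeff` for `CB`).
Let `B^(T^120) ≤ a` and `(a, x, y)` as in the statement, `x ≠ 0`, `Y = y/x`, `u = 1/a`, `w = 1/x`: `ev Y 0 u w P = 0` (`ev_PW`, `ev3_cast`).
`ρ^Q ≤ 1/a ≤ B^(-T^120)`, so `ρ B^(T^20) ≤ 1`. `newton_near` (`A = B`, `t = 0`, `k = 2n+m+1`, `kη = T^17`, `κ0 = T^6`,
`30 (k + kη + κ0 + 1) ≤ T^19`): `|Φ - θ| ≤ 1`, `|Y - Φ| ≤ B^(T^19) (B^(T^19) ρ)^(L+1) ≤ B^(T^28) ρ^L`. `|θ| ≤ 2`, `|Φ| ≤ 3`.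
`ev3 a x y G = ∑ c_l a^i x^k y^b = a^I x^M ∑ c_l u^(I-i) w^(M-k-b) Y^b` (`relG_ev`; see `hmain` in `EST.lean`).
Main part: `∑ c_l u^(I-i) w^(M-k-b) Φ^b = ∑ c_l ev θ 0 u' w' (WW D η l)`, `u' = u/D0²`, `w' = w/D0²`, `= ev θ 0 u' w' R / lam`; expand `R` into monomials
(`e 1 = 0` or the value is `0`): `|coeff| |θ|^(e 0) u^(e 2) |w|^(e 3) |D0|^(-2 (e 2 + e 3))`, the last factor is at most `B^(2 T^6 T^110)`, `|θ|^(e 0) ≤ B^(T^110)`,
and `a^I |x|^M u^(e 2) |w|^(e 3) ≤ 1/a` by `est_mono` (`(e 2, e 3) ∉ tri` means `L < Q (e 2) + j (e 3)`). Total `≤ B^(T^117) / a`.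
Error: `|Y^b - Φ^b| ≤ n 3^n |Y - Φ|` (`pow_diff`), `∑ |c_l| ≤ T^14 B^(T^90)`, `a^I |x|^M ρ^L ≤ 1/a` (`est_rho`): total `≤ B^(T^92)/a`.
Together `< 1`, so the integer is `0`. -/

namespace Pool.Agent.H97.XU

open Finset Polynomial Pool.Agent.H37.TE Pool.Agent.H98.TE Pool.Agent.H4.TP Pool.Agent.H4.SX

/-- `t ↦ 0` -/
private noncomputable def wieT : U4 →ₐ[ℤ] U4 :=
  MvPolynomial.aeval ![(MvPolynomial.X 0 : U4), 0, MvPolynomial.X 2, MvPolynomial.X 3]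

private theorem wieT0 : wieT (MvPolynomial.X 0) = MvPolynomial.X 0 := by
  unfold wieT
  rw [MvPolynomial.aeval_X]
  rfl

private theorem wieT1 : wieT (MvPolynomial.X 1) = 0 := by
  unfold wieT
  rw [MvPolynomial.aeval_X]
  rfl

private theorem wieT2 : wieT (MvPolynomial.X 2) = MvPolynomial.X 2 := by
  unfold wieT
  rw [MvPolynomial.aeval_X]
  rfl

private theorem wieT3 : wieT (MvPolynomial.X 3) = MvPolynomial.X 3 := by
  unfold wieT
  rw [MvPolynomial.aeval_X]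
  rfl

private theorem wieT_idem (x : U4) : wieT (wieT x) = wieT x := by
  have h : wieT.comp wieT = wieT := by
    apply MvPolynomial.algHom_ext
    intro i
    rw [AlgHom.comp_apply]
    fin_cases i
    · exact (congrArg wieT wieT0).trans rfl
    · show wieT (wieT (MvPolynomial.X 1)) = wieT (MvPolynomial.X 1)
      rw [wieT1, map_zero]
    · show wieT (wieT (MvPolynomial.X 2)) = wieT (MvPolynomial.X 2)
      rw [wieT2, wieT2]
    · show wieT (wieT (MvPolynomial.X 3)) = wieT (MvPolynomial.X 3)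
      rw [wieT3, wieT3]
  exact DFunLike.congr_fun h x

private theorem wieT_q0 (x : U4) : wieT (q0 x) = q0 (wieT x) := by
  have h : wieT.comp (MvPolynomial.aeval ![(MvPolynomial.X 0 : U4), MvPolynomial.X 1, 0, 0]) =
      (MvPolynomial.aeval ![(MvPolynomial.X 0 : U4), MvPolynomial.X 1, 0, 0]).comp wieT := by
    apply MvPolynomial.algHom_ext
    intro i
    rw [AlgHom.comp_apply, AlgHom.comp_apply, MvPolynomial.aeval_X]
    fin_cases i
    · show wieT (MvPolynomial.X 0) = (MvPolynomial.aeval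
        ![(MvPolynomial.X 0 : U4), MvPolynomial.X 1, 0, 0]) (wieT (MvPolynomial.X 0))
      rw [wieT0, MvPolynomial.aeval_X]
      rfl
    · show wieT (MvPolynomial.X 1) = (MvPolynomial.aeval
        ![(MvPolynomial.X 0 : U4), MvPolynomial.X 1, 0, 0]) (wieT (MvPolynomial.X 1))
      rw [wieT1, map_zero]
    · show wieT 0 = (MvPolynomial.aeval
        ![(MvPolynomial.X 0 : U4), MvPolynomial.X 1, 0, 0]) (wieT (MvPolynomial.X 2))
      rw [wieT2, map_zero, MvPolynomial.aeval_X]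
      rfl
    · show wieT 0 = (MvPolynomial.aeval
        ![(MvPolynomial.X 0 : U4), MvPolynomial.X 1, 0, 0]) (wieT (MvPolynomial.X 3))
      rw [wieT3, map_zero, MvPolynomial.aeval_X]
      rfl
  exact DFunLike.congr_fun h x

private theorem wieT_sbs {D : U4} (hD : wieT D = D) (η x : U4) :
    wieT (sbs D η x) = sbs D (wieT η) (wieT x) := by
  have h : wieT.comp (sbs D η) = (sbs D (wieT η)).comp wieT := by
    apply MvPolynomial.algHom_ext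
    intro i
    rw [AlgHom.comp_apply, AlgHom.comp_apply]
    unfold sbs
    rw [MvPolynomial.aeval_X]
    fin_cases i
    · show wieT (MvPolynomial.X 0 + D * η) = (MvPolynomial.aeval
        ![(MvPolynomial.X 0 : U4) + D * wieT η, MvPolynomial.X 1, D ^ 2 * MvPolynomial.X 2,
          D ^ 2 * MvPolynomial.X 3]) (wieT (MvPolynomial.X 0))
      rw [wieT0, MvPolynomial.aeval_X, map_add, map_mul, wieT0, hD]
      rfl
    · show wieT (MvPolynomial.X 1) = (MvPolynomial.aeval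
        ![(MvPolynomial.X 0 : U4) + D * wieT η, MvPolynomial.X 1, D ^ 2 * MvPolynomial.X 2,
          D ^ 2 * MvPolynomial.X 3]) (wieT (MvPolynomial.X 1))
      rw [wieT1, map_zero]
    · show wieT (D ^ 2 * MvPolynomial.X 2) = (MvPolynomial.aeval
        ![(MvPolynomial.X 0 : U4) + D * wieT η, MvPolynomial.X 1, D ^ 2 * MvPolynomial.X 2,
          D ^ 2 * MvPolynomial.X 3]) (wieT (MvPolynomial.X 2))
      rw [wieT2, MvPolynomial.aeval_X, map_mul, map_pow, wieT2, hD]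
      rfl
    · show wieT (D ^ 2 * MvPolynomial.X 3) = (MvPolynomial.aeval
        ![(MvPolynomial.X 0 : U4) + D * wieT η, MvPolynomial.X 1, D ^ 2 * MvPolynomial.X 2,
          D ^ 2 * MvPolynomial.X 3]) (wieT (MvPolynomial.X 3))
      rw [wieT3, MvPolynomial.aeval_X, map_mul, map_pow, wieT3, hD]
      rfl
  exact DFunLike.congr_fun h x

private theorem wieT_emb (p : ℤ[X]) : wieT (emb (p.map C)) = emb (p.map C) := by
  have h : ((wieT : U4 →+* U4).comp emb).comp (mapRingHom (C : ℤ →+* ℤ[X])) =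
      emb.comp (mapRingHom (C : ℤ →+* ℤ[X])) := by
    apply Polynomial.ringHom_ext'
    · exact RingHom.ext_int _ _
    · show wieT (emb ((X : ℤ[X]).map C)) = emb ((X : ℤ[X]).map C)
      rw [Polynomial.map_X]
      have h1 : emb (X : ℤ[X][X]) = MvPolynomial.X 0 := by
        unfold emb
        rw [coe_eval₂RingHom, eval₂_X]
      rw [h1, wieT0]
  exact DFunLike.congr_fun h p

private theorem wieT_dq {n m : ℕ} {F : ℤ[X][X][X]} : wieT (dq (PW n m F)) = dq (PW n m F) := by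
  unfold dq
  rw [q0_PW, emb_pderiv, derivative_map, wieT_emb]

private theorem wie_newton {n m B T L : ℕ} (hB : 2 ≤ B) (hT : 2 * n + m + 4 ≤ T) (hT10 : 10 ≤ T)
    (hL : L ≤ T ^ 8) {F : ℤ[X][X][X]} (hF : CB B F) :
    ∃ η E : U4, Sz B (T ^ 17) η ∧ Sz B (T ^ 17) E ∧ Ord 1 η ∧ Ord (L + 1) E ∧
      sbs (dq (PW n m F)) η (PW n m F) = q0 (PW n m F) + dq (PW n m F) ^ 2 * E ∧
      wieT η = η := by
  obtain ⟨η, E, h1, h2, h3, h4, h5⟩ := newton hB (sz_PW (n := n) (m := m) hB hF) L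
  have hB1 : 1 ≤ B := by omega
  have hle : (2 * n + m + 1 + 2) ^ 8 * (L + 2) ≤ T ^ 17 := by
    have e1 : (2 * n + m + 1 + 2) ^ 8 ≤ T ^ 8 := Nat.pow_le_pow_left (by omega) 8
    have e2 : L + 2 ≤ T ^ 9 := by
      have e3 : 1 ≤ T ^ 8 := Nat.one_le_pow _ _ (by omega)
      have e4 : T ^ 9 = T * T ^ 8 := by ring
      rw [e4]
      have e5 : 10 * T ^ 8 ≤ T * T ^ 8 := Nat.mul_le_mul_right _ hT10
      omega
    calc _ ≤ T ^ 8 * T ^ 9 := Nat.mul_le_mul e1 e2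
      _ = T ^ 17 := by ring
  have hQ : ∀ i : Fin 4, (![(MvPolynomial.X 0 : U4), 0, MvPolynomial.X 2,
      MvPolynomial.X 3] i = 0 ∨ ∃ j, ![(MvPolynomial.X 0 : U4), 0, MvPolynomial.X 2,
      MvPolynomial.X 3] i = MvPolynomial.X j) := by
    intro i
    fin_cases i
    · exact Or.inr ⟨0, rfl⟩
    · exact Or.inl rfl
    · exact Or.inr ⟨2, rfl⟩
    · exact Or.inr ⟨3, rfl⟩
  refine ⟨wieT η, wieT E, sz_mono hB1 (sz_rename hB1 h1 hQ) hle,
    sz_mono hB1 (sz_rename hB1 h2 hQ) hle, ord_t0 h3, ord_t0 h4, ?_, wieT_idem η⟩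
  have h6 := congrArg wieT h5
  have hP : wieT (PW n m F) = PW n m F := PW_t0
  rw [wieT_sbs wieT_dq, hP, map_add, wieT_q0, hP, map_mul, map_pow, wieT_dq] at h6
  exact h6

private theorem wie_ev (θ t u w : ℝ) (R : U4) : ev θ t u w R =
    ∑ e ∈ R.support, ((R.coeff e : ℤ) : ℝ) * (θ ^ e 0 * t ^ e 1 * u ^ e 2 * w ^ e 3) := by
  unfold ev
  rw [MvPolynomial.coe_eval₂Hom, MvPolynomial.eval₂_eq']
  refine sum_congr rfl fun e _ => ?_
  rw [Fin.prod_univ_four]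
  simp only [Matrix.cons_val_zero, Matrix.cons_val_one, Matrix.cons_val, eq_intCast]

private theorem wie_main {Q j I M L K κ B : ℕ} (hQ : 1 ≤ Q) (hj : 1 ≤ j)
    (hL : L = Q * I + (j + 1) * M + Q) (hB : 2 ≤ B) {R : U4} (hR : Sz B K R)
    (hs : ∀ e ∈ R.support, (e 2, e 3) ∉ tri Q j L) {a x θ D0 : ℝ} (ha : 1 ≤ a) (hx : 1 ≤ |x|)
    (h1 : a ^ j ≤ |x| ^ Q) (h2 : |x| ^ Q ≤ a ^ (j + 1)) (hθ : |θ| ≤ 2)
    (hD : 1 ≤ (B : ℝ) ^ κ * |D0|) :
    a ^ I * |x| ^ M * |ev θ 0 (1 / a / D0 ^ 2) (1 / x / D0 ^ 2) R| ≤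
      (B : ℝ) ^ (K + (K + 2 * κ * K)) * (1 / a) := by
  have ha0 : 0 < a := by linarith
  have hx0 : 0 < |x| := by linarith
  have hBr : (2 : ℝ) ≤ B := by exact_mod_cast hB
  have hB0 : (0 : ℝ) < B := by linarith
  have hB1 : (1 : ℝ) ≤ B := by linarith
  have hD0 : 0 < |D0| := by
    by_contra hcon
    have h3 : |D0| = 0 := le_antisymm (not_lt.1 hcon) (abs_nonneg _)
    rw [h3, mul_zero] at hD
    linarith
  have hD2 : 0 < D0 ^ 2 := by
    rw [← sq_abs]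
    positivity
  have hDi : 1 / D0 ^ 2 ≤ (B : ℝ) ^ (2 * κ) := by
    rw [div_le_iff₀ hD2, ← sq_abs, mul_comm 2 κ, pow_mul, ← mul_pow]
    exact one_le_pow₀ hD
  have key : ∀ e ∈ R.support, a ^ I * |x| ^ M * |((R.coeff e : ℤ) : ℝ) * (θ ^ e 0 * 0 ^ e 1 *
      (1 / a / D0 ^ 2) ^ e 2 * (1 / x / D0 ^ 2) ^ e 3)| ≤
      ((R.coeff e).natAbs : ℝ) * ((B : ℝ) ^ (K + 2 * κ * K) * (1 / a)) := by
    intro e he
    have hdeg : e 0 + e 1 + e 2 + e 3 ≤ K := by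
      refine le_trans ?_ hR.1
      have h3 := MvPolynomial.le_totalDegree he
      rw [Finsupp.sum_fintype _ _ (fun _ => rfl), Fin.sum_univ_four] at h3
      exact h3
    have h3 : Q * I + (j + 1) * M + Q < Q * e 2 + j * e 3 := by
      rw [← hL]
      by_contra hcon
      push Not at hcon
      apply hs e he
      unfold tri
      rw [mem_filter, mem_product, mem_range, mem_range]
      refine ⟨⟨?_, ?_⟩, hcon⟩
      · have : e 2 ≤ Q * e 2 := Nat.le_mul_of_pos_left _ hQ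
        simp only
        omega
      · have : e 3 ≤ j * e 3 := Nat.le_mul_of_pos_left _ hj
        simp only
        omega
    have h4 := est_mono (I := I) (M := M) hQ h3 ha hx h1 h2
    have h5 : |θ| ^ e 0 ≤ (B : ℝ) ^ K := by
      calc |θ| ^ e 0 ≤ 2 ^ e 0 := pow_le_pow_left₀ (abs_nonneg _) hθ _
        _ ≤ 2 ^ K := pow_le_pow_right₀ (by norm_num) (by omega)
        _ ≤ (B : ℝ) ^ K := pow_le_pow_left₀ (by norm_num) hBr _
    have h6 : |(0 : ℝ)| ^ e 1 ≤ 1 := by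
      rw [abs_zero]
      exact pow_le_one₀ le_rfl (by norm_num)
    have h7 : (1 / D0 ^ 2) ^ (e 2 + e 3) ≤ (B : ℝ) ^ (2 * κ * K) := by
      calc (1 / D0 ^ 2) ^ (e 2 + e 3) ≤ ((B : ℝ) ^ (2 * κ)) ^ (e 2 + e 3) :=
            pow_le_pow_left₀ (by positivity) hDi _
        _ = (B : ℝ) ^ (2 * κ * (e 2 + e 3)) := by rw [← pow_mul]
        _ ≤ (B : ℝ) ^ (2 * κ * K) := pow_le_pow_right₀ hB1 (Nat.mul_le_mul_left _ (by omega))
    have e1 : |((R.coeff e : ℤ) : ℝ)| = ((R.coeff e).natAbs : ℝ) := by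
      rw [← Int.cast_abs, Int.abs_eq_natAbs, Int.cast_natCast]
    have e2 : |1 / a / D0 ^ 2| = (1 / a) * (1 / D0 ^ 2) := by
      rw [abs_of_pos (by positivity)]
      ring
    have e3 : |1 / x / D0 ^ 2| = (1 / |x|) * (1 / D0 ^ 2) := by
      rw [abs_div, abs_div, abs_one, abs_of_pos hD2]
      ring
    rw [abs_mul, abs_mul, abs_mul, abs_mul, abs_pow, abs_pow, abs_pow, abs_pow, e1, e2, e3]
    calc a ^ I * |x| ^ M * (((R.coeff e).natAbs : ℝ) * (|θ| ^ e 0 * |(0 : ℝ)| ^ e 1 *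
          (1 / a * (1 / D0 ^ 2)) ^ e 2 * (1 / |x| * (1 / D0 ^ 2)) ^ e 3)) =
          ((R.coeff e).natAbs : ℝ) * ((|θ| ^ e 0 * |(0 : ℝ)| ^ e 1) * (1 / D0 ^ 2) ^ (e 2 + e 3) *
          (a ^ I * |x| ^ M * ((1 / a) ^ e 2 * (1 / |x|) ^ e 3))) := by
          rw [mul_pow (1 / a), mul_pow (1 / |x|), pow_add]
          ring
      _ ≤ ((R.coeff e).natAbs : ℝ) * (((B : ℝ) ^ K * 1) * (B : ℝ) ^ (2 * κ * K) * (1 / a)) := by
          refine mul_le_mul_of_nonneg_left ?_ (by positivity)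
          exact mul_le_mul (mul_le_mul (mul_le_mul h5 h6 (by positivity) (by positivity)) h7
            (by positivity) (by positivity)) h4 (by positivity) (by positivity)
      _ = _ := by
          rw [pow_add]
          ring
  rw [wie_ev]
  calc a ^ I * |x| ^ M * |∑ e ∈ R.support, ((R.coeff e : ℤ) : ℝ) * (θ ^ e 0 * 0 ^ e 1 *
        (1 / a / D0 ^ 2) ^ e 2 * (1 / x / D0 ^ 2) ^ e 3)| ≤
        a ^ I * |x| ^ M * ∑ e ∈ R.support, |((R.coeff e : ℤ) : ℝ) * (θ ^ e 0 * 0 ^ e 1 *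
        (1 / a / D0 ^ 2) ^ e 2 * (1 / x / D0 ^ 2) ^ e 3)| :=
        mul_le_mul_of_nonneg_left (abs_sum_le_sum_abs _ _) (by positivity)
    _ ≤ ∑ e ∈ R.support, ((R.coeff e).natAbs : ℝ) * ((B : ℝ) ^ (K + 2 * κ * K) * (1 / a)) := by
        rw [mul_sum]
        exact sum_le_sum key
    _ = (L1 R : ℝ) * ((B : ℝ) ^ (K + 2 * κ * K) * (1 / a)) := by
        rw [← sum_mul]
        unfold L1
        push_cast
        rfl
    _ ≤ (B : ℝ) ^ K * ((B : ℝ) ^ (K + 2 * κ * K) * (1 / a)) := by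
        refine mul_le_mul_of_nonneg_right ?_ (by positivity)
        exact_mod_cast hR.2
    _ = _ := by
        rw [pow_add (B : ℝ) K (K + 2 * κ * K)]
        ring

private theorem wie_err {Q j I M n L B K1 : ℕ} (hQ : 1 ≤ Q)
    (hL : Q * I + (j + 1) * M + Q = L) (hB : 2 ≤ B) (c : Lam I n M → ℤ)
    (hc : ∀ l, |c l| ≤ (B : ℤ) ^ K1) {a x Y Φ ρ D : ℝ} (ha : 1 ≤ a) (hx : 1 ≤ |x|)
    (h2 : |x| ^ Q ≤ a ^ (j + 1)) (hρ0 : 0 ≤ ρ) (hρ : ρ ^ Q ≤ 1 / a) (hD : 0 ≤ D)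
    (hY : |Y| ≤ 3) (hΦ : |Φ| ≤ 3) (hYΦ : |Y - Φ| ≤ D * ρ ^ L) :
    |a ^ I * x ^ M * ∑ l : Lam I n M, (c l : ℝ) * ((1 / a) ^ (I - (l.1 : ℕ)) *
      (1 / x) ^ (M - (l.2.2 : ℕ) - (l.2.1 : ℕ)) * (Y ^ (l.2.1 : ℕ) - Φ ^ (l.2.1 : ℕ)))| ≤
      (Fintype.card (Lam I n M) : ℝ) * ((B : ℝ) ^ K1 * ((n : ℝ) * 3 ^ n * D)) * (1 / a) := by
  have ha0 : 0 < a := by linarith
  have hx0 : 0 < |x| := by linarith
  rw [abs_mul, abs_mul, abs_pow, abs_pow, abs_of_pos ha0]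
  have h3 : |∑ l : Lam I n M, (c l : ℝ) * ((1 / a) ^ (I - (l.1 : ℕ)) *
      (1 / x) ^ (M - (l.2.2 : ℕ) - (l.2.1 : ℕ)) * (Y ^ (l.2.1 : ℕ) - Φ ^ (l.2.1 : ℕ)))| ≤
      (Fintype.card (Lam I n M) : ℝ) * ((B : ℝ) ^ K1 * ((n : ℝ) * 3 ^ n * (D * ρ ^ L))) := by
    refine (abs_sum_le_sum_abs _ _).trans ?_
    have h4 : ∀ l ∈ (univ : Finset (Lam I n M)), |(c l : ℝ) * ((1 / a) ^ (I - (l.1 : ℕ)) *
        (1 / x) ^ (M - (l.2.2 : ℕ) - (l.2.1 : ℕ)) * (Y ^ (l.2.1 : ℕ) - Φ ^ (l.2.1 : ℕ)))| ≤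
        (B : ℝ) ^ K1 * ((n : ℝ) * 3 ^ n * (D * ρ ^ L)) := by
      intro l _
      rw [abs_mul, abs_mul, abs_mul, abs_pow, abs_pow, abs_div, abs_div, abs_one, abs_of_pos ha0]
      have h5 := pow_diff (by norm_num : (1 : ℝ) ≤ 3) hY hΦ hYΦ (l.2.1 : ℕ)
      have h6 : (1 / a) ^ (I - (l.1 : ℕ)) * (1 / |x|) ^ (M - (l.2.2 : ℕ) - (l.2.1 : ℕ)) ≤ 1 := by
        refine mul_le_one₀ (pow_le_one₀ (by positivity) ?_) (by positivity)
          (pow_le_one₀ (by positivity) ?_)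
        · rw [div_le_one ha0]
          exact ha
        · rw [div_le_one hx0]
          exact hx
      have h7 : |(c l : ℝ)| ≤ (B : ℝ) ^ K1 := by exact_mod_cast hc l
      have h8 : (((l.2.1 : ℕ) : ℝ)) * 3 ^ (l.2.1 : ℕ) * (D * ρ ^ L) ≤
          (n : ℝ) * 3 ^ n * (D * ρ ^ L) := by
        refine mul_le_mul_of_nonneg_right ?_ (by positivity)
        have h9 : (l.2.1 : ℕ) ≤ n := l.2.1.isLt.le
        exact mul_le_mul (by exact_mod_cast h9) (pow_le_pow_right₀ (by norm_num) h9)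
          (by positivity) (by positivity)
      refine mul_le_mul h7 ?_ (by positivity) (by positivity)
      calc _ ≤ 1 * ((n : ℝ) * 3 ^ n * (D * ρ ^ L)) :=
            mul_le_mul h6 (h5.trans h8) (abs_nonneg _) (by norm_num)
        _ = _ := one_mul _
    refine (sum_le_sum h4).trans ?_
    rw [sum_const, card_univ, nsmul_eq_mul]
  have h4 := est_rho (I := I) (M := M) (N := L) hQ (by rw [hL]) ha hx h2 hρ0 hρ
  calc a ^ I * |x| ^ M * |_| ≤ a ^ I * |x| ^ M * ((Fintype.card (Lam I n M) : ℝ) *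
        ((B : ℝ) ^ K1 * ((n : ℝ) * 3 ^ n * (D * ρ ^ L)))) :=
        mul_le_mul_of_nonneg_left h3 (by positivity)
    _ = (Fintype.card (Lam I n M) : ℝ) * ((B : ℝ) ^ K1 * ((n : ℝ) * 3 ^ n * D)) *
        (a ^ I * |x| ^ M * ρ ^ L) := by ring
    _ ≤ _ := mul_le_mul_of_nonneg_left h4 (by positivity)

private theorem wie_sum {I n M : ℕ} (c : Lam I n M → ℤ) {a x : ℝ} (ha : a ≠ 0) (hx : x ≠ 0)
    (W : ℝ) : ∑ l : Lam I n M, (c l : ℝ) * (a ^ (l.1 : ℕ) * x ^ (l.2.2 : ℕ) *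
      (W * x) ^ (l.2.1 : ℕ)) = a ^ I * x ^ M * ∑ l : Lam I n M, (c l : ℝ) *
      ((1 / a) ^ (I - (l.1 : ℕ)) * (1 / x) ^ (M - (l.2.2 : ℕ) - (l.2.1 : ℕ)) *
        W ^ (l.2.1 : ℕ)) := by
  rw [mul_sum]
  refine sum_congr rfl fun l _ => ?_
  have h3 : (l.1 : ℕ) < I := l.1.isLt
  have h4 : (l.2.2 : ℕ) + (l.2.1 : ℕ) ≤ M := by
    have := l.2.2.isLt
    omega
  obtain ⟨r, hr⟩ : ∃ r, I = (l.1 : ℕ) + r := ⟨I - l.1, by omega⟩
  obtain ⟨t, ht⟩ : ∃ t, M = (l.2.2 : ℕ) + (l.2.1 : ℕ) + t := ⟨M - l.2.2 - l.2.1, by omega⟩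
  have e1 : I - (l.1 : ℕ) = r := by omega
  have e2 : M - (l.2.2 : ℕ) - (l.2.1 : ℕ) = t := by omega
  rw [e1, e2]
  have e3 : a ^ I = a ^ (l.1 : ℕ) * a ^ r := by rw [← pow_add, ← hr]
  have e4 : x ^ M = x ^ (l.2.2 : ℕ) * x ^ (l.2.1 : ℕ) * x ^ t := by
    rw [← pow_add, ← pow_add, ← ht]
  rw [e3, e4, mul_pow, one_div, one_div, inv_pow, inv_pow]
  have e5 : a ^ r ≠ 0 := pow_ne_zero _ ha
  have e6 : x ^ t ≠ 0 := pow_ne_zero _ hx
  field_simp

private theorem wie_coeff {I n M : ℕ} (c : Lam I n M → ℤ) {N : ℤ} (hN : 0 ≤ N)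
    (hc : ∀ l, |c l| ≤ N) (b a j : ℕ) : |(((relG c).coeff b).coeff a).coeff j| ≤ N := by
  rw [relG_coeff]
  by_cases hex : ∃ l0 : Lam I n M, b = (l0.2.1 : ℕ) ∧ a = (l0.2.2 : ℕ) ∧ j = (l0.1 : ℕ)
  · obtain ⟨l0, h1, h2, h3⟩ := hex
    rw [sum_eq_single l0]
    · rw [if_pos ⟨h1, h2, h3⟩]
      exact hc l0
    · intro l _ hl
      refine if_neg fun h' => hl ?_
      obtain ⟨e1, e2, e3⟩ := h'
      obtain ⟨i, ⟨k, j'⟩⟩ := l
      obtain ⟨i0, ⟨k0, j0⟩⟩ := l0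
      simp only at e1 e2 e3 h1 h2 h3
      have e4 : i = i0 := Fin.ext (e3.symm.trans h3)
      have e5 : k = k0 := Fin.ext (e1.symm.trans h1)
      subst e4 e5
      have e6 : j' = j0 := Fin.ext (e2.symm.trans h2)
      rw [e6]
    · intro h4
      exact absurd (mem_univ _) h4
  · rw [sum_eq_zero, abs_zero]
    · exact hN
    · intro l _
      exact if_neg fun h => hex ⟨l, h⟩

theorem window_aux {n m B Q j T : ℕ} (hn : 3 ≤ n) (hB : 2 ≤ B) (hQ : 1 ≤ Q)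
    (hj : n ≤ j) (hT : n + m + Q + j + 3 ≤ T) {F : ℤ[X][X][X]} (h : HypG n m F) (hF : CB B F)
    (θ : ℝ) (hθ : (topm n m F).eval θ = 0) (hs : 2 * (minpoly ℚ θ).natDegree < n) :
    ∃ G : ℤ[X][X][X], G ≠ 0 ∧ TD (T ^ 7) (T ^ 7) (T ^ 7) G ∧ G.natDegree < n ∧
      CB (B ^ (T ^ 90)) G ∧
      ∀ (a : ℕ) (x y : ℤ) (ρ : ℝ), B ^ (T ^ 120) ≤ a → ev3 (a : ℤ) x y F = 0 → |y| ≤ |x| →
        (a : ℤ) ^ j ≤ |x| ^ Q → |x| ^ Q ≤ (a : ℤ) ^ (j + 1) →
        1 / (a : ℝ) ≤ ρ → 1 / |(x : ℝ)| ≤ ρ → ρ ^ Q ≤ 1 / (a : ℝ) →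
        |(y : ℝ) / x - θ| ≤ (B : ℝ) ^ (T ^ 6) * ρ →
        1 ≤ (B : ℝ) ^ (T ^ 6) * |ev θ 0 0 0 (dq (PW n m F))| →
        ev3 (a : ℤ) x y G = 0 := by
  have hT10 : 10 ≤ T := by omega
  obtain ⟨hI, hM, hL, hcd⟩ := par_le (T := T) hn hQ hj (by omega)
  have hVW := VW_spec n 0 Q j (by omega) hQ hj
  obtain ⟨V, hV⟩ : ∃ V, V = VW n Q j := ⟨_, rfl⟩
  obtain ⟨L, hLdef⟩ : ∃ L, L = Q * ((2 * j + 1) * V + 1) := ⟨_, rfl⟩
  have hL' : L = Q * (j * V) + (j + 1) * (Q * V) + Q := by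
    rw [hLdef]
    ring
  have hL8 : L ≤ T ^ 8 := by
    rw [hLdef, hV]
    exact hL
  obtain ⟨η, E, hη, hE, o1, o2, hid, hη0⟩ := wie_newton (n := n) (m := m) hB (by omega) hT10 hL8 hF
  obtain ⟨c, R, lam, hc0, hcb, hR, hRs, hlam, hrel⟩ := win_alg hn hB hQ hj hT h hF hη hη0 hθ hs
  rw [← hV] at hI hM hcd
  revert c
  rw [← hV]
  intro c hc0 hcb hrel
  rw [← hV, ← hLdef] at hRs
  have tp : ∀ k l : ℕ, k + 1 ≤ l → 10 * T ^ k ≤ T ^ l := by
    intro k l hkl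
    refine le_trans ?_ (Nat.pow_le_pow_right (by omega) hkl)
    rw [pow_succ, mul_comm]
    exact Nat.mul_le_mul_left _ hT10
  have tm : ∀ k l : ℕ, k ≤ l → T ^ k ≤ T ^ l := fun k l hkl =>
    Nat.pow_le_pow_right (by omega) hkl
  refine ⟨relG c, relG_ne c hc0, relG_TD c ?_, relG_deg c (by omega), ?_, ?_⟩
  · have h1 := tp 6 7 (by norm_num)
    have h2 := tm 1 6 (by norm_num)
    rw [pow_one] at h2
    omega
  · intro k a b
    unfold cf3
    push_cast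
    exact wie_coeff c (by positivity) hcb b a k
  · intro a x y ρ hBa hev hyx h1 h2 hρa hρx hρQ hYθ hD
    -- elementary facts
    have hBr : (2 : ℝ) ≤ B := by exact_mod_cast hB
    have hB1 : (1 : ℝ) ≤ B := by linarith
    have hB0 : (0 : ℝ) < B := by linarith
    have ha1N : 1 ≤ a := le_trans (Nat.one_le_pow _ _ (by omega)) hBa
    have haB : (B : ℝ) ^ (T ^ 120) ≤ a := by exact_mod_cast hBa
    have ha1 : (1 : ℝ) ≤ a := by exact_mod_cast ha1N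
    have ha0 : (0 : ℝ) < a := by linarith
    have hx0 : x ≠ 0 := by
      rintro rfl
      rw [abs_zero, zero_pow (by omega)] at h1
      have h3 : (0 : ℤ) < (a : ℤ) ^ j := by
        have : (0 : ℤ) < a := by exact_mod_cast ha1N
        positivity
      omega
    have hx1' : (1 : ℤ) ≤ |x| := Int.one_le_abs hx0
    have hx1 : (1 : ℝ) ≤ |(x : ℝ)| := by exact_mod_cast hx1'
    have hxr0 : (x : ℝ) ≠ 0 := by exact_mod_cast hx0
    have hxp : 0 < |(x : ℝ)| := by linarith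
    have h1r : (a : ℝ) ^ j ≤ |(x : ℝ)| ^ Q := by exact_mod_cast h1
    have h2r : |(x : ℝ)| ^ Q ≤ (a : ℝ) ^ (j + 1) := by exact_mod_cast h2
    have hyxr : |(y : ℝ)| ≤ |(x : ℝ)| := by exact_mod_cast hyx
    have hρ0 : 0 < ρ := lt_of_lt_of_le (by positivity) hρa
    -- `ρ` is small
    have hρB : ∀ κ : ℕ, κ ≤ T ^ 119 → ρ * (B : ℝ) ^ κ ≤ 1 := by
      intro κ hκ
      have h3 : (ρ * (B : ℝ) ^ κ) ^ Q ≤ 1 := by
        rw [mul_pow, ← pow_mul]
        have h4 : (B : ℝ) ^ (κ * Q) ≤ (B : ℝ) ^ (T ^ 120) := by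
          refine pow_le_pow_right₀ hB1 ?_
          calc κ * Q ≤ T ^ 119 * T := Nat.mul_le_mul hκ (by omega)
            _ = T ^ 120 := by ring
        calc ρ ^ Q * (B : ℝ) ^ (κ * Q) ≤ 1 / (a : ℝ) * a :=
              mul_le_mul hρQ (h4.trans haB) (by positivity) (by positivity)
          _ = 1 := by field_simp
      by_contra hcon
      push Not at hcon
      exact absurd h3 (not_le.2 (one_lt_pow₀ hcon (by omega)))
    have hρ1 : ρ ≤ 1 := by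
      have h3 := hρB 0 (Nat.zero_le _)
      rwa [pow_zero, mul_one] at h3
    obtain ⟨Y, hY⟩ : ∃ Y : ℝ, Y = (y : ℝ) / x := ⟨_, rfl⟩
    rw [← hY] at hYθ
    have hY1 : |Y| ≤ 1 := by
      rw [hY, abs_div, div_le_one hxp]
      exact hyxr
    have hθ2 : |θ| ≤ 2 := by
      have h3 := hρB (T ^ 6) (tm 6 119 (by norm_num))
      have h4 : |θ| ≤ |Y| + |Y - θ| := by
        have h5 := abs_sub_abs_le_abs_sub θ Y
        rw [abs_sub_comm θ Y] at h5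
        linarith
      have h5 : (B : ℝ) ^ (T ^ 6) * ρ ≤ 1 := by
        rw [mul_comm]
        exact h3
      linarith
    have hPev : ev Y 0 (1 / (a : ℝ)) (1 / (x : ℝ)) (PW n m F) = 0 := by
      rw [hY, ev_PW h.H ha0.ne' hxr0]
      have h3 := ev3_cast h.H (a : ℤ) x y
      rw [hev, Int.cast_zero, Int.cast_natCast] at h3
      rw [h3, mul_zero]
    have hq0 : ev θ 0 0 0 (q0 (PW n m F)) = 0 := by
      rw [ev_q0_PW]
      exact hθ
    obtain ⟨κ, hκ⟩ : ∃ κ, κ = 30 * ((2 * n + m + 1) + T ^ 17 + T ^ 6 + 1) := ⟨_, rfl⟩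
    have hκ19 : κ ≤ T ^ 19 := by
      have e1 := tp 17 18 (by norm_num)
      have e2 := tp 18 19 (by norm_num)
      have e3 := tp 6 7 (by norm_num)
      have e4 := tm 7 17 (by norm_num)
      have e5 := tm 1 6 (by norm_num)
      have e6 := tm 0 6 (by norm_num)
      rw [pow_one] at e5
      rw [pow_zero] at e6
      rw [hκ]
      omega
    have hnn := newton_near (κ0 := T ^ 6) hB (sz_PW (n := n) (m := m) hB hF) hη hE o1 o2 hid
      (le_refl (B : ℝ)) (by rw [abs_zero]; positivity : |(0 : ℝ)| ≤ B) (Y := Y) (θ := θ)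
      (u := 1 / (a : ℝ)) (w := 1 / (x : ℝ)) (ρ := ρ) (by linarith)
      (by rw [abs_div, abs_one, abs_of_pos ha0]; exact hρa)
      (by rw [abs_div, abs_one]; exact hρx)
      (by rw [← hκ]; exact hρB κ (hκ19.trans (tm 19 119 (by norm_num)))) hPev hq0 hYθ hD
    rw [← hκ] at hnn
    obtain ⟨hn1, hn2⟩ := hnn
    obtain ⟨Φ, hΦ⟩ : ∃ Φ : ℝ, Φ = Phi (PW n m F) η θ 0 (1 / (a : ℝ)) (1 / (x : ℝ)) := ⟨_, rfl⟩
    rw [← hΦ] at hn1 hn2
    have hΦ3 : |Φ| ≤ 3 := by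
      have h5 := abs_sub_abs_le_abs_sub Φ θ
      linarith
    have hYΦ : |Y - Φ| ≤ (B : ℝ) ^ (T ^ 28) * ρ ^ L := by
      refine hn2.trans ?_
      rw [mul_pow, ← pow_mul, ← mul_assoc, ← pow_add]
      have e1 : κ + κ * (L + 1) ≤ T ^ 28 := by
        have e2 : L + 2 ≤ T ^ 9 := by
          have e3 := tp 8 9 (by norm_num)
          have e4 := tm 0 8 (by norm_num)
          rw [pow_zero] at e4
          omega
        calc κ + κ * (L + 1) = κ * (L + 2) := by ring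
          _ ≤ T ^ 19 * T ^ 9 := Nat.mul_le_mul hκ19 e2
          _ = T ^ 28 := by ring
      refine mul_le_mul (pow_le_pow_right₀ hB1 e1) ?_ (by positivity) (by positivity)
      exact pow_le_pow_of_le_one hρ0.le hρ1 (Nat.le_succ L)
    -- the value of `G`
    obtain ⟨D0, hD0⟩ : ∃ D0 : ℝ, D0 = ev θ 0 0 0 (dq (PW n m F)) := ⟨_, rfl⟩
    rw [← hD0] at hD
    have hD0' : D0 ≠ 0 := by
      rintro rfl
      rw [abs_zero, mul_zero] at hD
      linarith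
    have hWW : ∀ l : Lam (j * V) n (Q * V), ev θ 0 (1 / (a : ℝ) / D0 ^ 2) (1 / (x : ℝ) / D0 ^ 2)
        (WW (dq (PW n m F)) η l) = (1 / (a : ℝ)) ^ (j * V - (l.1 : ℕ)) *
        (1 / (x : ℝ)) ^ (Q * V - (l.2.2 : ℕ) - (l.2.1 : ℕ)) * Φ ^ (l.2.1 : ℕ) := by
      intro l
      have x0 : ev θ 0 (1 / (a : ℝ) / D0 ^ 2) (1 / (x : ℝ) / D0 ^ 2) (MvPolynomial.X 0) = θ := by
        unfold ev
        rw [MvPolynomial.eval₂Hom_X']
        rfl
      have x2 : ev θ 0 (1 / (a : ℝ) / D0 ^ 2) (1 / (x : ℝ) / D0 ^ 2) (MvPolynomial.X 2) =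
          1 / (a : ℝ) / D0 ^ 2 := by
        unfold ev
        rw [MvPolynomial.eval₂Hom_X']
        rfl
      have x3 : ev θ 0 (1 / (a : ℝ) / D0 ^ 2) (1 / (x : ℝ) / D0 ^ 2) (MvPolynomial.X 3) =
          1 / (x : ℝ) / D0 ^ 2 := by
        unfold ev
        rw [MvPolynomial.eval₂Hom_X']
        rfl
      have xd : ev θ 0 (1 / (a : ℝ) / D0 ^ 2) (1 / (x : ℝ) / D0 ^ 2) (dq (PW n m F)) = D0 := by
        rw [ev_dq', hD0]
      have hΦ' : θ + D0 * ev θ 0 (1 / (a : ℝ) / D0 ^ 2) (1 / (x : ℝ) / D0 ^ 2) η = Φ := by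
        rw [hΦ, Phi, ← hD0]
      unfold WW
      rw [map_mul, map_mul, map_pow, map_pow, map_pow, map_mul, map_mul, map_add, map_mul, map_pow,
        x0, x2, x3, xd, hΦ']
      have e1 : D0 ^ 2 * (1 / (a : ℝ) / D0 ^ 2) = 1 / (a : ℝ) := by
        field_simp
      have e2 : D0 ^ 2 * (1 / (x : ℝ) / D0 ^ 2) = 1 / (x : ℝ) := by
        field_simp
      rw [e1, e2]
    have hrel' := hrel (1 / (a : ℝ) / D0 ^ 2) (1 / (x : ℝ) / D0 ^ 2)
    simp only [hWW] at hrel'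
    have hyY : (y : ℝ) = Y * x := by
      rw [hY]
      field_simp
    have hval : ((ev3 (a : ℤ) x y (relG c) : ℤ) : ℝ) = (a : ℝ) ^ (j * V) * (x : ℝ) ^ (Q * V) *
        ∑ l : Lam (j * V) n (Q * V), (c l : ℝ) * ((1 / (a : ℝ)) ^ (j * V - (l.1 : ℕ)) *
        (1 / (x : ℝ)) ^ (Q * V - (l.2.2 : ℕ) - (l.2.1 : ℕ)) * Y ^ (l.2.1 : ℕ)) := by
      rw [relG_ev, ← wie_sum c ha0.ne' hxr0 Y, ← hyY]
      push_cast
      rfl
    have hsplit : ((ev3 (a : ℤ) x y (relG c) : ℤ) : ℝ) = (a : ℝ) ^ (j * V) * (x : ℝ) ^ (Q * V) *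
        (∑ l : Lam (j * V) n (Q * V), (c l : ℝ) * ((1 / (a : ℝ)) ^ (j * V - (l.1 : ℕ)) *
        (1 / (x : ℝ)) ^ (Q * V - (l.2.2 : ℕ) - (l.2.1 : ℕ)) * Φ ^ (l.2.1 : ℕ))) +
        (a : ℝ) ^ (j * V) * (x : ℝ) ^ (Q * V) *
        ∑ l : Lam (j * V) n (Q * V), (c l : ℝ) * ((1 / (a : ℝ)) ^ (j * V - (l.1 : ℕ)) *
        (1 / (x : ℝ)) ^ (Q * V - (l.2.2 : ℕ) - (l.2.1 : ℕ)) *
          (Y ^ (l.2.1 : ℕ) - Φ ^ (l.2.1 : ℕ))) := by
      rw [hval, ← mul_add, ← sum_add_distrib]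
      congr 1
      refine sum_congr rfl fun l _ => ?_
      ring
    -- the main part
    have hj1 : 1 ≤ j := by omega
    have hmain := wie_main (κ := T ^ 6) hQ hj1 hL' hB hR hRs ha1 hx1 h1r h2r hθ2 hD
    obtain ⟨S, hS⟩ : ∃ S : ℝ, S = ∑ l : Lam (j * V) n (Q * V), (c l : ℝ) *
        ((1 / (a : ℝ)) ^ (j * V - (l.1 : ℕ)) *
        (1 / (x : ℝ)) ^ (Q * V - (l.2.2 : ℕ) - (l.2.1 : ℕ)) * Φ ^ (l.2.1 : ℕ)) := ⟨_, rfl⟩
    rw [← hS] at hrel' hsplit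
    have hSb : |(a : ℝ) ^ (j * V) * (x : ℝ) ^ (Q * V) * S| ≤
        (B : ℝ) ^ (T ^ 110 + (T ^ 110 + 2 * T ^ 6 * T ^ 110)) * (1 / a) := by
      refine le_trans ?_ hmain
      rw [← hrel', abs_mul, abs_mul, abs_mul, abs_pow, abs_pow, abs_of_pos ha0]
      refine mul_le_mul_of_nonneg_left ?_ (by positivity)
      calc |S| = 1 * |S| := (one_mul _).symm
        _ ≤ |lam| * |S| := mul_le_mul_of_nonneg_right hlam (abs_nonneg _)
    -- the error
    have herr := wie_err hQ hL'.symm hB c hcb ha1 hx1 h2r hρ0.le hρQ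
      (by positivity : (0 : ℝ) ≤ (B : ℝ) ^ (T ^ 28)) (by linarith : |Y| ≤ 3) hΦ3 hYΦ
    have hcardB : (Fintype.card (Lam (j * V) n (Q * V)) : ℝ) ≤ (B : ℝ) ^ (T ^ 14) := by
      have e1 : Fintype.card (Lam (j * V) n (Q * V)) ≤ T ^ 14 := by
        rw [lam_card]
        exact hcd
      have e2 : T ^ 14 < 2 ^ (T ^ 14) := Nat.lt_two_pow_self
      have e3 : (2 : ℕ) ^ (T ^ 14) ≤ B ^ (T ^ 14) := Nat.pow_le_pow_left hB _
      have e4 : Fintype.card (Lam (j * V) n (Q * V)) ≤ B ^ (T ^ 14) := by omega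
      exact_mod_cast e4
    have hn3 : (n : ℝ) * 3 ^ n ≤ (B : ℝ) ^ (3 * T) := by
      have e1 : n ≤ B ^ T := by
        have e2 : n < 2 ^ n := Nat.lt_two_pow_self
        have e3 : (2 : ℕ) ^ n ≤ 2 ^ T := Nat.pow_le_pow_right (by norm_num) (by omega)
        have e4 : (2 : ℕ) ^ T ≤ B ^ T := Nat.pow_le_pow_left hB _
        omega
      have e5 : 3 ^ n ≤ B ^ (2 * T) := by
        calc 3 ^ n ≤ (2 ^ 2) ^ n := Nat.pow_le_pow_left (by norm_num) n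
          _ = 2 ^ (2 * n) := by rw [← pow_mul]
          _ ≤ 2 ^ (2 * T) := Nat.pow_le_pow_right (by norm_num) (by omega)
          _ ≤ B ^ (2 * T) := Nat.pow_le_pow_left hB _
      have e6 : n * 3 ^ n ≤ B ^ (3 * T) := by
        calc n * 3 ^ n ≤ B ^ T * B ^ (2 * T) := Nat.mul_le_mul e1 e5
          _ = B ^ (3 * T) := by
            rw [← pow_add]
            congr 1
            ring
      exact_mod_cast e6
    have herr2 : (Fintype.card (Lam (j * V) n (Q * V)) : ℝ) * ((B : ℝ) ^ (T ^ 90) *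
        ((n : ℝ) * 3 ^ n * (B : ℝ) ^ (T ^ 28))) * (1 / (a : ℝ)) ≤
        (B : ℝ) ^ (T ^ 91) * (1 / a) := by
      refine mul_le_mul_of_nonneg_right ?_ (by positivity)
      calc (Fintype.card (Lam (j * V) n (Q * V)) : ℝ) * ((B : ℝ) ^ (T ^ 90) *
          ((n : ℝ) * 3 ^ n * (B : ℝ) ^ (T ^ 28))) ≤ (B : ℝ) ^ (T ^ 14) * ((B : ℝ) ^ (T ^ 90) *
          ((B : ℝ) ^ (3 * T) * (B : ℝ) ^ (T ^ 28))) := by
            refine mul_le_mul hcardB ?_ (by positivity) (by positivity)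
            refine mul_le_mul_of_nonneg_left ?_ (by positivity)
            exact mul_le_mul_of_nonneg_right hn3 (by positivity)
        _ = (B : ℝ) ^ (T ^ 14 + (T ^ 90 + (3 * T + T ^ 28))) := by
            rw [pow_add, pow_add, pow_add]
        _ ≤ (B : ℝ) ^ (T ^ 91) := by
            refine pow_le_pow_right₀ hB1 ?_
            have e1 := tp 90 91 (by norm_num)
            have e2 := tm 14 90 (by norm_num)
            have e3 := tm 28 90 (by norm_num)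
            have e4 := tm 1 90 (by norm_num)
            rw [pow_one] at e4
            omega
    have hmain2 : (B : ℝ) ^ (T ^ 110 + (T ^ 110 + 2 * T ^ 6 * T ^ 110)) * (1 / (a : ℝ)) ≤
        (B : ℝ) ^ (T ^ 117) * (1 / a) := by
      refine mul_le_mul_of_nonneg_right (pow_le_pow_right₀ hB1 ?_) (by positivity)
      have e1 := tp 116 117 (by norm_num)
      have e2 := tm 110 116 (by norm_num)
      have e3 : 2 * T ^ 6 * T ^ 110 = 2 * T ^ 116 := by ring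
      omega
    have herr3 : (B : ℝ) ^ (T ^ 91) * (1 / (a : ℝ)) ≤ (B : ℝ) ^ (T ^ 117) * (1 / a) :=
      mul_le_mul_of_nonneg_right (pow_le_pow_right₀ hB1 (tm 91 117 (by norm_num)))
        (by positivity)
    have htot : |((ev3 (a : ℤ) x y (relG c) : ℤ) : ℝ)| ≤ 2 * (B : ℝ) ^ (T ^ 117) * (1 / a) := by
      rw [hsplit]
      refine (abs_add_le _ _).trans ?_
      have e1 := hSb.trans hmain2
      have e2 := herr.trans (herr2.trans herr3)
      linarith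
    have hlt : 2 * (B : ℝ) ^ (T ^ 117) * (1 / (a : ℝ)) < 1 := by
      rw [mul_one_div, div_lt_one ha0]
      refine lt_of_lt_of_le ?_ haB
      calc 2 * (B : ℝ) ^ (T ^ 117) ≤ B * (B : ℝ) ^ (T ^ 117) :=
            mul_le_mul_of_nonneg_right hBr (by positivity)
        _ = (B : ℝ) ^ (T ^ 117 + 1) := (pow_succ' (B : ℝ) (T ^ 117)).symm
        _ < (B : ℝ) ^ (T ^ 120) := by
            refine pow_lt_pow_right₀ (by linarith) ?_
            have e1 := tp 117 118 (by norm_num)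
            have e2 := tm 118 120 (by norm_num)
            have e3 := tm 0 117 (by norm_num)
            rw [pow_zero] at e3
            omega
    have hfin : |ev3 (a : ℤ) x y (relG c)| < 1 := by
      have e1 := lt_of_le_of_lt htot hlt
      exact_mod_cast e1
    exact Int.abs_lt_one_iff.1 hfin

end Pool.Agent.H97.XU
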