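import Pool.Agent.H97.XU.BZN
import Pool.Agent.H97.XU.WIE
import Pool.Agent.H97.XU.ELU

/-! # [H97 XU WCT] The points of one window

For every real root `θ` of `topm n m F` (a finset of at most `n ≤ T` elements; `topm ≠ 0`) `window_aux` gives `G_θ` (`TD (T^7)`, `CB (B^(T^90))`) and `elimU`
(`D = T^7`, `k = T^90`; `n + m ≤ T^7`) gives `R_θ, R'_θ` with degrees `≤ 2 T^14` and coefficients `≤ B^((T^7 + T^90 + 2)^4) ≤ B^(T^364)`; `roots_cnt` at `a` (`a ≥ B^(T^366)`,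
`T^364 + 2 T^14 + 1 ≤ T^366`) gives finsets `S_θ, S'_θ` with at most `2 T^14` elements (use `BD` with `d = 2 T^14`: `2 * D * D = 2 * T^7 * T^7`).
`S = ⋃_θ S_θ ×ˢ S'_θ`: at most `n * 4 T^28 ≤ T^30` elements.
For a point of the window: `x ≠ 0` (`a^j ≥ 1`; `|x|^Q ≥ 1`, `Q ≥ 1`), `ρ = max (1/a) (1/|x|)`: `ρ^Q ≤ 1/a` (`(1/a)^Q ≤ 1/a`; `|x|^Q ≥ a^j ≥ a`), so
`(ρ B^(T^6))^Q ≤ B^(Q T^6) / a ≤ 1` (`Q T^6 ≤ T^7 ≤ T^366`), so `ρ B^(T^6) ≤ 1`. `near_win` (`2n+m+4 ≤ T` as `j ≥ n`, `Q ≥ 1`) gives `θ`, and `window_aux`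
gives `G_θ(a, x, y) = 0`, so `R_θ(a, x) = 0 = R'_θ(a, y)`. -/

namespace Pool.Agent.H97.XU

open Finset Polynomial Pool.Agent.H37.TE Pool.Agent.H98.TE Pool.Agent.H4.TP Pool.Agent.H4.SX

private theorem wct_num {T : ℕ} (hT : 10 ≤ T) :
    (T ^ 7 + T ^ 90 + 2) ^ 4 + 2 * T ^ 7 * T ^ 7 + 1 ≤ T ^ 366 := by
  have h1 : 1 ≤ T := by omega
  have e7 : T ^ 7 ≤ T ^ 90 := Nat.pow_le_pow_right h1 (by norm_num)
  have e2 : 2 ≤ T ^ 90 := by
    calc 2 ≤ T ^ 1 := by rw [pow_one]; omega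
      _ ≤ T ^ 90 := Nat.pow_le_pow_right h1 (by norm_num)
  have e3 : (T ^ 7 + T ^ 90 + 2) ^ 4 ≤ T ^ 364 := by
    calc (T ^ 7 + T ^ 90 + 2) ^ 4 ≤ (3 * T ^ 90) ^ 4 := Nat.pow_le_pow_left (by omega) 4
      _ ≤ (T * T ^ 90) ^ 4 := Nat.pow_le_pow_left (Nat.mul_le_mul_right _ (by omega)) 4
      _ = T ^ 364 := by rw [← pow_succ', ← pow_mul]
  have e4 : 2 * T ^ 7 * T ^ 7 = 2 * T ^ 14 := by ring
  have e5 : T ^ 14 ≤ T ^ 364 := Nat.pow_le_pow_right h1 (by norm_num)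
  have e6 : 1 ≤ T ^ 364 := Nat.one_le_pow _ _ h1
  have e8 : T ^ 366 = T ^ 2 * T ^ 364 := by rw [← pow_add]
  have e9 : 4 ≤ T ^ 2 := by nlinarith
  rw [e4, e8]
  calc (T ^ 7 + T ^ 90 + 2) ^ 4 + 2 * T ^ 14 + 1 ≤ 4 * T ^ 364 := by omega
    _ ≤ T ^ 2 * T ^ 364 := Nat.mul_le_mul_right _ e9

theorem win_cnt {n m B Q j T : ℕ} (hn : 3 ≤ n) (hB : 2 ≤ B) (hQ : 1 ≤ Q) (hj : n ≤ j)
    (hT : n + m + Q + j + 3 ≤ T) {F : ℤ[X][X][X]} (h : HypG n m F) (hF : CB B F)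
    (hR : HR n m F) {a : ℕ} (ha : B ^ (T ^ 366) ≤ a) :
    ∃ S : Finset (ℤ × ℤ), S.card ≤ T ^ 30 ∧ ∀ x y : ℤ, ev3 (a : ℤ) x y F = 0 → |y| ≤ |x| →
      (a : ℤ) ^ j ≤ |x| ^ Q → |x| ^ Q ≤ (a : ℤ) ^ (j + 1) → (x, y) ∈ S := by
  classical
  have hT10 : 10 ≤ T := by omega
  have hT1 : 1 ≤ T := by omega
  have hB1 : 1 ≤ B := by omega
  have hBR : (1 : ℝ) ≤ B := by exact_mod_cast hB1
  have hapos : 0 < a := lt_of_lt_of_le (pow_pos (by omega) _) ha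
  -- the finset of one root
  have hone : ∀ θ : ℝ, (topm n m F).eval θ = 0 → ∃ S : Finset (ℤ × ℤ), S.card ≤ 4 * T ^ 28 ∧
      ∀ (x y : ℤ) (ρ : ℝ), ev3 (a : ℤ) x y F = 0 → |y| ≤ |x| →
        (a : ℤ) ^ j ≤ |x| ^ Q → |x| ^ Q ≤ (a : ℤ) ^ (j + 1) →
        1 / (a : ℝ) ≤ ρ → 1 / |(x : ℝ)| ≤ ρ → ρ ^ Q ≤ 1 / (a : ℝ) →
        |(y : ℝ) / x - θ| ≤ (B : ℝ) ^ (T ^ 6) * ρ →
        1 ≤ (B : ℝ) ^ (T ^ 6) * |ev θ 0 0 0 (dq (PW n m F))| → (x, y) ∈ S := by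
    intro θ hθ
    obtain ⟨G, hG0, hGT, hGn, hGB, hGv⟩ := window_aux hn hB hQ hj hT h hF θ hθ (hR θ hθ)
    have hD : n + m ≤ T ^ 7 := by
      calc n + m ≤ T := by omega
        _ = T ^ 1 := (pow_one T).symm
        _ ≤ T ^ 7 := Nat.pow_le_pow_right hT1 (by norm_num)
    obtain ⟨R, R', hR0, hR0', hd, hd', hk, hk', hv⟩ := elimU (k := T ^ 90) (D := T ^ 7)
      (by omega) hB h hF (Nat.one_le_pow _ _ hT1) hD hG0 hGT hGn hGB
    have haa : (B : ℤ) ^ ((T ^ 7 + T ^ 90 + 2) ^ 4 + 2 * T ^ 7 * T ^ 7 + 1) ≤ |(a : ℤ)| := by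
      rw [abs_of_nonneg (by positivity)]
      exact_mod_cast (Nat.pow_le_pow_right hB1 (wct_num hT10)).trans ha
    obtain ⟨S, hS, hSm⟩ := roots_cnt hB hR0 hd hk haa
    obtain ⟨S', hS', hSm'⟩ := roots_cnt hB hR0' hd' hk' haa
    refine ⟨S ×ˢ S', ?_, fun x y ρ k1 k2 k3 k4 k5 k6 k7 k8 k9 => ?_⟩
    · rw [card_product]
      calc S.card * S'.card ≤ (2 * T ^ 7 * T ^ 7) * (2 * T ^ 7 * T ^ 7) := Nat.mul_le_mul hS hS'
        _ = 4 * T ^ 28 := by ring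
    · have h120 : B ^ (T ^ 120) ≤ a := by
        refine le_trans ?_ ha
        exact Nat.pow_le_pow_right hB1 (Nat.pow_le_pow_right hT1 (by norm_num))
      have h2 := hv (a : ℤ) x y k1 (hGv a x y ρ h120 k1 k2 k3 k4 k5 k6 k7 k8 k9)
      exact mem_product.2 ⟨hSm x h2.1, hSm' y h2.2⟩
  choose! SS hSc hSm using hone
  refine ⟨(topm n m F).roots.toFinset.biUnion SS, ?_, fun x y k1 k2 k3 k4 => ?_⟩
  · have hroot : ∀ θ ∈ (topm n m F).roots.toFinset, (topm n m F).eval θ = 0 := by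
      intro θ hθ
      rw [Multiset.mem_toFinset] at hθ
      exact (mem_roots'.1 hθ).2
    have hcard : (topm n m F).roots.toFinset.card ≤ n := by
      refine (Multiset.toFinset_card_le _).trans ((card_roots' _).trans ?_)
      rw [topm_eq]
      exact natDegree_map_le.trans (topq_deg n m F)
    calc ((topm n m F).roots.toFinset.biUnion SS).card
        ≤ ∑ θ ∈ (topm n m F).roots.toFinset, (SS θ).card := card_biUnion_le
      _ ≤ ∑ θ ∈ (topm n m F).roots.toFinset, 4 * T ^ 28 :=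
          sum_le_sum fun θ hθ => hSc θ (hroot θ hθ)
      _ = (topm n m F).roots.toFinset.card * (4 * T ^ 28) := by rw [sum_const, smul_eq_mul]
      _ ≤ T * (T * T ^ 28) := Nat.mul_le_mul (by omega) (Nat.mul_le_mul_right _ (by omega))
      _ = T ^ 30 := by ring
  · -- a point of the window
    have haZ : (1 : ℤ) ≤ a := by exact_mod_cast hapos
    have hx0 : x ≠ 0 := by
      rintro rfl
      rw [abs_zero, zero_pow (by omega)] at k3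
      have : (0 : ℤ) < (a : ℤ) ^ j := by positivity
      omega
    have haR : (0 : ℝ) < a := by exact_mod_cast hapos
    have haR1 : (1 : ℝ) ≤ a := by exact_mod_cast hapos
    have hxR : (0 : ℝ) < |(x : ℝ)| := abs_pos.2 (by exact_mod_cast hx0)
    have hxQ : (a : ℝ) ≤ |(x : ℝ)| ^ Q := by
      have e1 : (a : ℤ) ≤ |x| ^ Q := by
        calc (a : ℤ) = (a : ℤ) ^ 1 := (pow_one _).symm
          _ ≤ (a : ℤ) ^ j := pow_le_pow_right₀ haZ (by omega)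
          _ ≤ |x| ^ Q := k3
      exact_mod_cast e1
    obtain ⟨ρ, hρ⟩ : ∃ ρ : ℝ, ρ = max (1 / (a : ℝ)) (1 / |(x : ℝ)|) := ⟨_, rfl⟩
    have h5 : 1 / (a : ℝ) ≤ ρ := by rw [hρ]; exact le_max_left _ _
    have h6 : 1 / |(x : ℝ)| ≤ ρ := by rw [hρ]; exact le_max_right _ _
    have hρ0 : 0 < ρ := lt_of_lt_of_le (by positivity) h5
    have h7 : ρ ^ Q ≤ 1 / (a : ℝ) := by
      rcases le_total (1 / (a : ℝ)) (1 / |(x : ℝ)|) with hle | hle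
      · rw [hρ, max_eq_right hle, one_div, one_div, inv_pow]
        exact inv_anti₀ haR hxQ
      · rw [hρ, max_eq_left hle, one_div, inv_pow]
        apply inv_anti₀ haR
        calc (a : ℝ) = (a : ℝ) ^ 1 := (pow_one _).symm
          _ ≤ (a : ℝ) ^ Q := pow_le_pow_right₀ haR1 hQ
    have h8 : ρ * (B : ℝ) ^ (T ^ 6) ≤ 1 := by
      have e1 : (B : ℝ) ^ (T ^ 6 * Q) ≤ a := by
        have e2 : T ^ 6 * Q ≤ T ^ 366 := by
          calc T ^ 6 * Q ≤ T ^ 6 * T := Nat.mul_le_mul_left _ (by omega)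
            _ = T ^ 7 := by ring
            _ ≤ T ^ 366 := Nat.pow_le_pow_right hT1 (by norm_num)
        exact_mod_cast (Nat.pow_le_pow_right hB1 e2).trans ha
      have e3 : (ρ * (B : ℝ) ^ (T ^ 6)) ^ Q ≤ 1 := by
        rw [mul_pow, ← pow_mul]
        calc ρ ^ Q * (B : ℝ) ^ (T ^ 6 * Q) ≤ 1 / (a : ℝ) * a :=
              mul_le_mul h7 e1 (by positivity) (by positivity)
          _ = 1 := by field_simp
      by_contra hcon
      rw [not_le] at hcon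
      exact absurd e3 (not_le.2 (one_lt_pow₀ hcon (by omega)))
    obtain ⟨θ, t1, t2, t3⟩ := near_win hn hB (T := T) (by omega) h hF (by omega) hx0 k2 k1 h5 h6 h8
    have htop : topm n m F ≠ 0 := (topm_simple h.sq).1
    rw [mem_biUnion]
    refine ⟨θ, ?_, hSm θ t1 x y ρ k1 k2 k3 k4 h5 h6 h7 t2 t3⟩
    rw [Multiset.mem_toFinset, mem_roots htop]
    exact t1

end Pool.Agent.H97.XU
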