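import Pool.Agent.H97.XU.SIE
import Pool.Agent.H97.XU.FCG
import Pool.Agent.H97.XU.TRV

/-! # [H97 XU WIA] The relation of a window: Siegel's lemma

`D = dq (PW n m F)`, `η` a Newton approximation without `t`; `I = j V`, `M = Q V`, `V = VW n Q j`, `WW D η l` the function of the index
`l = (i, b, k)`. `g` from `fac_theta` (degree `s = deg θ`, `2 s < n`), `g1 = g.map C ∈ ℤ[t][Z]` (`μ = 0`, `g1.leadingCoeff = C g.leadingCoeff`).
Sizes (`T ≥ 10`; `2 n + m + 4 ≤ T` as `j ≥ n`): `PW`: `2n+m+1 ≤ T`; `D`: `2 T` (`sz_dq`); `D² u`: `≤ 4T + 1 ≤ T²`, its powers (exponent `≤ T^6`): `≤ T^8`;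
`Z + D η`: `≤ T^18`, its powers: `≤ T^19`; so `Sz B (T^20) (WW D η l)`, and `Sz B (T^20) (emb g1)` (`sz_emb`).
`degreeOf 0 ≤ totalDegree ≤ T^20 =: kz`; `degreeOf 1 = 0 =: τ` (`D` and `η` do not contain `t`: `hη0`, `q0_PW`; e.g. from
`aeval ![X 0, 0, X 2, X 3] (WW D η l) = WW D η l` and a lemma: such a polynomial has `degreeOf 1 = 0`).
`siegel_mod` with `TT = tri Q j L` (contains `(0, 0)`), `v = T^14` (`par_le`, `lam_card`), `VW_spec` for the count: `c`, `R` with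
`(v + 2 T^20 + 2)^4 ≤ (T^21)^4 ≤ T^90`, `(..)^5 ≤ T^110`.
Evaluate at `(θ, 0, u, w)`: `ev_emb`: `ev (emb g1) = g(θ) = 0`, `lam = (g.leadingCoeff)^kz`, an integer `≠ 0`. -/

namespace Pool.Agent.H97.XU

open Finset Polynomial Pool.Agent.H37.TE Pool.Agent.H98.TE Pool.Agent.H4.TP Pool.Agent.H4.SX

/-- the function of the index `l = (i, b, k)` in the chart of the windows -/
noncomputable def WW {I n M : ℕ} (D η : U4) (l : Lam I n M) : U4 :=
  (D ^ 2 * MvPolynomial.X 2) ^ (I - (l.1 : ℕ)) *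
    (D ^ 2 * MvPolynomial.X 3) ^ (M - (l.2.2 : ℕ) - (l.2.1 : ℕ)) *
    (MvPolynomial.X 0 + D * η) ^ (l.2.1 : ℕ)

/-- without `t` -/
theorem deg1_sub (P : U4) : MvPolynomial.degreeOf 1 (MvPolynomial.aeval
    ![(MvPolynomial.X 0 : U4), 0, MvPolynomial.X 2, MvPolynomial.X 3] P) = 0 := by
  induction P using MvPolynomial.induction_on with
  | C a =>
    rw [MvPolynomial.aeval_C]
    exact MvPolynomial.degreeOf_C a 1
  | add p q hp hq =>
    rw [map_add]
    have := MvPolynomial.degreeOf_add_le 1 (MvPolynomial.aeval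
      ![(MvPolynomial.X 0 : U4), 0, MvPolynomial.X 2, MvPolynomial.X 3] p) (MvPolynomial.aeval
      ![(MvPolynomial.X 0 : U4), 0, MvPolynomial.X 2, MvPolynomial.X 3] q)
    omega
  | mul_X p i hp =>
    rw [map_mul, MvPolynomial.aeval_X]
    have h1 := MvPolynomial.degreeOf_mul_le 1 (MvPolynomial.aeval
      ![(MvPolynomial.X 0 : U4), 0, MvPolynomial.X 2, MvPolynomial.X 3] p)
      ((![(MvPolynomial.X 0 : U4), 0, MvPolynomial.X 2, MvPolynomial.X 3] : Fin 4 → U4) i)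
    have h2 : MvPolynomial.degreeOf 1
        ((![(MvPolynomial.X 0 : U4), 0, MvPolynomial.X 2, MvPolynomial.X 3] : Fin 4 → U4) i) =
        0 := by
      fin_cases i
      · show MvPolynomial.degreeOf 1 (MvPolynomial.X 0 : U4) = 0
        rw [MvPolynomial.degreeOf_X]
        simp
      · show MvPolynomial.degreeOf 1 (0 : U4) = 0
        exact MvPolynomial.degreeOf_zero 1
      · show MvPolynomial.degreeOf 1 (MvPolynomial.X 2 : U4) = 0
        rw [MvPolynomial.degreeOf_X]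
        simp
      · show MvPolynomial.degreeOf 1 (MvPolynomial.X 3 : U4) = 0
        rw [MvPolynomial.degreeOf_X]
        simp
    omega

theorem emb_map_C (q : ℤ[X]) : emb (q.map C) =
    q.eval₂ (Int.castRingHom U4) (MvPolynomial.X 0) := by
  unfold emb
  rw [coe_eval₂RingHom, eval₂_map]
  congr 1
  exact RingHom.ext_int _ _

theorem emb_t0 (q : ℤ[X]) : MvPolynomial.aeval ![(MvPolynomial.X 0 : U4), 0, MvPolynomial.X 2,
    MvPolynomial.X 3] (emb (q.map C)) = emb (q.map C) := by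
  rw [emb_map_C]
  have h := Polynomial.hom_eval₂ q (Int.castRingHom U4) (MvPolynomial.aeval
    ![(MvPolynomial.X 0 : U4), 0, MvPolynomial.X 2, MvPolynomial.X 3] : U4 →ₐ[ℤ] U4).toRingHom
    (MvPolynomial.X 0)
  have e1 : ((MvPolynomial.aeval ![(MvPolynomial.X 0 : U4), 0, MvPolynomial.X 2,
      MvPolynomial.X 3] : U4 →ₐ[ℤ] U4).toRingHom).comp (Int.castRingHom U4) =
      Int.castRingHom U4 := RingHom.ext_int _ _
  rw [e1] at h
  have e2 : (MvPolynomial.aeval ![(MvPolynomial.X 0 : U4), 0, MvPolynomial.X 2,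
      MvPolynomial.X 3] : U4 →ₐ[ℤ] U4).toRingHom (MvPolynomial.X 0) = MvPolynomial.X 0 := by
    show MvPolynomial.aeval ![(MvPolynomial.X 0 : U4), 0, MvPolynomial.X 2,
      MvPolynomial.X 3] (MvPolynomial.X 0) = MvPolynomial.X 0
    rw [MvPolynomial.aeval_X]
    rfl
  rw [e2] at h
  exact h

theorem dq_PW (n m : ℕ) (F : ℤ[X][X][X]) :
    dq (PW n m F) = emb ((derivative (topz n m F)).map C) := by
  unfold dq
  rw [q0_PW, emb_pderiv, derivative_map]

theorem win_alg {n m B Q j T : ℕ} (hn : 3 ≤ n) (hB : 2 ≤ B) (hQ : 1 ≤ Q)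
    (hj : n ≤ j) (hT : n + m + Q + j + 3 ≤ T) {F : ℤ[X][X][X]} (h : HypG n m F) (hF : CB B F)
    {η : U4} (hη : Sz B (T ^ 17) η)
    (hη0 : MvPolynomial.aeval ![(MvPolynomial.X 0 : U4), 0, MvPolynomial.X 2,
      MvPolynomial.X 3] η = η)
    {θ : ℝ} (hθ : (topm n m F).eval θ = 0) (hs : 2 * (minpoly ℚ θ).natDegree < n) :
    ∃ (c : Lam (j * VW n Q j) n (Q * VW n Q j) → ℤ) (R : U4) (lam : ℝ), c ≠ 0 ∧
      (∀ l, |c l| ≤ (B : ℤ) ^ (T ^ 90)) ∧ Sz B (T ^ 110) R ∧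
      (∀ e ∈ R.support, (e 2, e 3) ∉ tri Q j (Q * ((2 * j + 1) * VW n Q j + 1))) ∧ 1 ≤ |lam| ∧
      ∀ u w : ℝ, lam * ∑ l, (c l : ℝ) * ev θ 0 u w (WW (dq (PW n m F)) η l) = ev θ 0 u w R := by
  have hT10 : 10 ≤ T := by omega
  have hB1 : 1 ≤ B := by omega
  obtain ⟨g, hg1, hgn, hgθ, hgr, hgc⟩ := fac_theta hB h hF hθ
  -- the polynomial `g`
  have hg1d : (g.map C : ℤ[X][X]).natDegree = g.natDegree :=
    natDegree_map_eq_of_injective (C_injective) g
  have hsg : Sz B (T ^ 20) (emb (g.map C)) := by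
    have h1 : Sz B ((2 * n + 1) + n + 0) (emb (g.map C)) := by
      refine sz_emb hB (by rw [hg1d]; exact hgn) (fun i => ?_) fun i k => ?_
      · rw [coeff_map, natDegree_C]
      · rw [coeff_map, coeff_C]
        split_ifs with hk
        · exact hgc i
        · rw [abs_zero]
          positivity
    refine sz_mono hB1 h1 ?_
    calc 2 * n + 1 + n + 0 ≤ T ^ 2 := by nlinarith
      _ ≤ T ^ 20 := Nat.pow_le_pow_right (by omega) (by norm_num)
  -- the sizes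
  obtain ⟨D, hD⟩ : ∃ D, D = dq (PW n m F) := ⟨_, rfl⟩
  have hD0 : MvPolynomial.aeval ![(MvPolynomial.X 0 : U4), 0, MvPolynomial.X 2,
      MvPolynomial.X 3] D = D := by
    rw [hD, dq_PW]
    exact emb_t0 _
  have hsD : Sz B (2 * T) D := by
    rw [hD]
    refine sz_mono hB1 (sz_dq hB (sz_PW hB hF)) ?_
    omega
  have hsD2 : ∀ i : Fin 4, Sz B (T ^ 2) (D ^ 2 * MvPolynomial.X i) := by
    intro i
    refine sz_mono hB1 (sz_mul (sz_pow hsD 2) (sz_X hB1 i)) ?_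
    nlinarith
  have hsZ : Sz B (T ^ 18) (MvPolynomial.X 0 + D * η) := by
    refine sz_mono hB1 (sz_add hB (sz_X hB1 0) (sz_mul hsD hη)) ?_
    have h1 : 1 ≤ 2 * T + T ^ 17 := by
      have := Nat.zero_le (T ^ 17)
      omega
    rw [max_eq_right h1]
    have h2 : T ≤ T ^ 17 := by
      calc T = T ^ 1 := (pow_one T).symm
        _ ≤ T ^ 17 := Nat.pow_le_pow_right (by omega) (by norm_num)
    calc 2 * T + T ^ 17 + 1 ≤ 10 * T ^ 17 := by omega
      _ ≤ T * T ^ 17 := Nat.mul_le_mul_right _ hT10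
      _ = T ^ 18 := by ring
  obtain ⟨hp1, hp2, -, hp4⟩ := par_le hn hQ hj (by omega : n + Q + j + 3 ≤ T)
  have hW : ∀ l : Lam (j * VW n Q j) n (Q * VW n Q j), Sz B (T ^ 20) (WW D η l) := by
    intro l
    unfold WW
    refine sz_mono hB1 (sz_mul (sz_mul (sz_pow (hsD2 2) _) (sz_pow (hsD2 3) _))
      (sz_pow hsZ _)) ?_
    have h1 : (j * VW n Q j - (l.1 : ℕ)) * T ^ 2 ≤ T ^ 8 := by
      calc (j * VW n Q j - (l.1 : ℕ)) * T ^ 2 ≤ T ^ 6 * T ^ 2 :=
            Nat.mul_le_mul_right _ ((Nat.sub_le _ _).trans hp1)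
        _ = T ^ 8 := by ring
    have h2 : (Q * VW n Q j - (l.2.2 : ℕ) - (l.2.1 : ℕ)) * T ^ 2 ≤ T ^ 8 := by
      calc (Q * VW n Q j - (l.2.2 : ℕ) - (l.2.1 : ℕ)) * T ^ 2 ≤ T ^ 6 * T ^ 2 :=
            Nat.mul_le_mul_right _ (((Nat.sub_le _ _).trans (Nat.sub_le _ _)).trans hp2)
        _ = T ^ 8 := by ring
    have h3 : (l.2.1 : ℕ) * T ^ 18 ≤ T ^ 19 := by
      have h4 := l.2.1.2
      calc (l.2.1 : ℕ) * T ^ 18 ≤ T * T ^ 18 := Nat.mul_le_mul_right _ (by omega)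
        _ = T ^ 19 := by ring
    have h5 : T ^ 8 ≤ T ^ 19 := Nat.pow_le_pow_right (by omega) (by norm_num)
    calc _ ≤ T ^ 8 + T ^ 8 + T ^ 19 := by omega
      _ ≤ 10 * T ^ 19 := by omega
      _ ≤ T * T ^ 19 := Nat.mul_le_mul_right _ hT10
      _ = T ^ 20 := by ring
  have hz : ∀ l : Lam (j * VW n Q j) n (Q * VW n Q j),
      MvPolynomial.degreeOf 0 (WW D η l) ≤ T ^ 20 :=
    fun l => (MvPolynomial.degreeOf_le_totalDegree _ _).trans (hW l).1
  have ht : ∀ l : Lam (j * VW n Q j) n (Q * VW n Q j),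
      MvPolynomial.degreeOf 1 (WW D η l) ≤ 0 := by
    intro l
    have h1 : MvPolynomial.aeval ![(MvPolynomial.X 0 : U4), 0, MvPolynomial.X 2,
        MvPolynomial.X 3] (WW D η l) = WW D η l := by
      unfold WW
      rw [map_mul, map_mul, map_pow, map_pow, map_pow, map_mul, map_mul, map_add, map_mul,
        map_pow, hD0, hη0, MvPolynomial.aeval_X, MvPolynomial.aeval_X, MvPolynomial.aeval_X]
      rfl
    rw [← h1, deg1_sub]
  obtain ⟨-, -, hcount⟩ := VW_spec n (minpoly ℚ θ).natDegree Q j hs hQ hj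
  obtain ⟨c, Qv, R, hc, hcb, hrel, hsup, hR⟩ := siegel_mod (k := T ^ 20) (kz := T ^ 20) (τ := 0)
    (s := g.natDegree) (μ := 0) (v := T ^ 14) hB (fun l => WW D η l) hW hz ht hg1d hg1 hsg
    (fun i => by rw [coeff_map, natDegree_C])
    (tri Q j (Q * ((2 * j + 1) * VW n Q j + 1)))
    ⟨(0, 0), by
      unfold tri
      rw [Finset.mem_filter, Finset.mem_product, Finset.mem_range]
      exact ⟨⟨Nat.succ_pos _, Nat.succ_pos _⟩, by simp⟩⟩
    (by rw [lam_card]; exact hp4)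
    (by
      rw [lam_card, hgθ]
      calc _ = (minpoly ℚ θ).natDegree * (tri Q j (Q * ((2 * j + 1) * VW n Q j + 1))).card := by
            ring
        _ < _ := hcount)
  have hbase : T ^ 14 + T ^ 20 + T ^ 20 + 2 ≤ T ^ 21 := by
    have h1 : T ^ 14 ≤ T ^ 20 := Nat.pow_le_pow_right (by omega) (by norm_num)
    have h2 : 1 ≤ T ^ 20 := Nat.one_le_pow _ _ (by omega)
    calc T ^ 14 + T ^ 20 + T ^ 20 + 2 ≤ 10 * T ^ 20 := by omega
      _ ≤ T * T ^ 20 := Nat.mul_le_mul_right _ hT10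
      _ = T ^ 21 := by ring
  have hBz : (1 : ℤ) ≤ B := by exact_mod_cast hB1
  refine ⟨c, R, ((g.leadingCoeff : ℤ) : ℝ) ^ (T ^ 20), hc, fun l => (hcb l).trans ?_,
    sz_mono hB1 hR ?_, hsup, ?_, fun u w => ?_⟩
  · refine pow_le_pow_right₀ hBz ?_
    calc (T ^ 14 + T ^ 20 + T ^ 20 + 2) ^ 4 ≤ (T ^ 21) ^ 4 := Nat.pow_le_pow_left hbase 4
      _ = T ^ 84 := by ring
      _ ≤ T ^ 90 := Nat.pow_le_pow_right (by omega) (by norm_num)
  · calc (T ^ 14 + T ^ 20 + T ^ 20 + 2) ^ 5 ≤ (T ^ 21) ^ 5 := Nat.pow_le_pow_left hbase 5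
      _ = T ^ 105 := by ring
      _ ≤ T ^ 110 := Nat.pow_le_pow_right (by omega) (by norm_num)
  · rw [abs_pow]
    refine one_le_pow₀ ?_
    have h1 : g.leadingCoeff ≠ 0 := by
      rw [Ne, leadingCoeff_eq_zero]
      intro h0
      rw [h0, natDegree_zero] at hg1
      omega
    have h2 : (1 : ℤ) ≤ |g.leadingCoeff| := Int.one_le_abs h1
    have h3 : ((1 : ℤ) : ℝ) ≤ ((|g.leadingCoeff| : ℤ) : ℝ) := by exact_mod_cast h2
    rw [Int.cast_abs, Int.cast_one] at h3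
    exact h3
  · have h1 := congrArg (ev θ 0 u w) hrel
    rw [map_mul, map_pow, map_add, map_mul, map_sum, ev_emb, ev_emb] at h1
    have h2 : eval₂ (eval₂RingHom (Int.castRingHom ℝ) 0) θ (g.map C) = 0 := by
      rw [eval₂_map]
      have e1 : (eval₂RingHom (Int.castRingHom ℝ) (0 : ℝ)).comp C = Int.castRingHom ℝ :=
        RingHom.ext_int _ _
      rw [e1]
      rw [aeval_def] at hgr
      exact hgr
    have h3 : eval₂ (eval₂RingHom (Int.castRingHom ℝ) 0) θ (C (g.map C).leadingCoeff) =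
        ((g.leadingCoeff : ℤ) : ℝ) := by
      rw [eval₂_C, leadingCoeff_map_of_injective (C_injective)]
      rw [coe_eval₂RingHom, eval₂_C]
      rfl
    rw [h2, h3, zero_mul, zero_add] at h1
    rw [← hD, ← h1]
    congr 1
    refine Finset.sum_congr rfl fun l _ => ?_
    rw [map_mul]
    congr 1
    unfold ev
    rw [MvPolynomial.coe_eval₂Hom, MvPolynomial.eval₂_C]
    rfl

end Pool.Agent.H97.XU
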